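import Mathlib
import Pool.Agent.Lib.MP_ec260d_nt.RePart
import Pool.Agent.Lib.MP_ec260d_nt.ReUnif

/-!
# JOB AB0: `logDeriv xi = FF + A`

`logDeriv_xi_eq` gives `A`, `B` with `logDeriv xi z = FF z + A + B z` for `xi z ≠ 0`. Divide by `z = x` real, `x → ∞`
(`xi x ≠ 0` for `x ≥ 1`, `xi_ne_zero`): `B = lim (logDeriv xi x) / x - lim FF x / x`, both limits are `0`:
* `logDeriv_xi_formula`: `logDeriv xi x = 1/x + 1/(x-1) - log π / 2 + digamma (x/2) / 2 + logDeriv ζ x` for `x > 1`;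
  `logDeriv ζ x` is bounded for `x ≥ 3/2` (`logDeriv_zeta_bdd`, see its statement; or `LSeries` of `Λ`);
  `digamma_hasSum`: `digamma y + γ = ∑ n, (1/(n+1) - 1/(n+y))`, divide by `y ≥ 1`: the terms
  `(y - 1) / (y (n+1) (n+y))` have absolute value `≤ 1 / (n+1) ^ 2` and tend to `0` as `y → ∞`
  (`tendsto_tsum_of_dominated_convergence`).
* `FF x / x = ∑ a, mx a (2 - x) / (x (x - a) (2 - a))`; for `x ≥ 2` and a zero `a` (`0 < Re a < 1`): `‖x - a‖ ≥ ‖2 - a‖ ≥ 1`,
  `‖2 - a‖ ≥ |a.im|`, so the terms are bounded by `mx a / ‖2 - a‖ ^ 2 ≤ 4 mx a / (1 + |0 - a.im|) ^ 2`, summable (`zero_sum 2`),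
  and every term tends to `0`.
-/

open Complex Filter Topology

namespace Pool.Agent.Lib.MP_54baa8_nt

open Pool.Agent.Lib.MP_00e05b_nt Pool.Agent.Lib.MP_ec260d_nt

private theorem ab0_cob (a : ℂ) : Tendsto (fun x : ℝ => (x : ℂ) - a) atTop (Bornology.cobounded ℂ) := by
  rw [← tendsto_norm_atTop_iff_cobounded]
  refine tendsto_atTop_mono (f := fun x : ℝ => x - a.re) (fun x => ?_) ?_
  · have h := Complex.re_le_norm ((x : ℂ) - a)
    rwa [Complex.sub_re, Complex.ofReal_re] at h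
  · exact tendsto_atTop_add_const_right _ _ tendsto_id

private theorem ab0_inv (a : ℂ) : Tendsto (fun x : ℝ => 1 / ((x : ℂ) - a)) atTop (𝓝 0) := by
  simp only [one_div]
  exact tendsto_inv₀_cobounded.comp (ab0_cob a)

private theorem ab0_inv0 : Tendsto (fun x : ℝ => 1 / (x : ℂ)) atTop (𝓝 0) := by
  simpa using ab0_inv 0

/-- bounded over `x` tends to zero. -/
private theorem ab0_bdd (g : ℝ → ℂ) (K : ℝ) (hg : ∀ᶠ x in atTop, ‖g x‖ ≤ K) :
    Tendsto (fun x : ℝ => g x / (x : ℂ)) atTop (𝓝 0) := by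
  have h1 : Tendsto (fun x : ℝ => K * (1 / x)) atTop (𝓝 0) := by
    have h2 : Tendsto (fun x : ℝ => 1 / x) atTop (𝓝 0) := by
      simpa only [one_div] using (tendsto_inv_atTop_zero (𝕜 := ℝ))
    simpa using h2.const_mul K
  refine squeeze_zero_norm' ?_ h1
  filter_upwards [hg, eventually_gt_atTop 0] with x hx hx0
  rw [norm_div, Complex.norm_real, Real.norm_eq_abs, abs_of_pos hx0, div_eq_mul_one_div]
  gcongr

private theorem ab0_two {a : ℂ} (ha : mx a ≠ 0) : (1 + |0 - a.im|) / 2 ≤ ‖2 - a‖ := by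
  have hxa : xi a = 0 := (mx_ne_zero_iff a).1 ha
  obtain ⟨h0, h1⟩ := xi_zero_re hxa
  rw [zero_sub, abs_neg]
  have h2 : |(2 - a).re| ≤ ‖2 - a‖ := Complex.abs_re_le_norm _
  have h3 : |(2 - a).im| ≤ ‖2 - a‖ := Complex.abs_im_le_norm _
  have h4 : (2 - a).re = 2 - a.re := by simp
  have h5 : (2 - a).im = -a.im := by simp
  rw [h4] at h2
  rw [h5, abs_neg] at h3
  have h6 := le_abs_self (2 - a.re)
  linarith

private theorem ab0_ge {a : ℂ} (ha : mx a ≠ 0) {x : ℝ} (hx : 2 ≤ x) : ‖2 - a‖ ≤ ‖(x : ℂ) - a‖ := by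
  have hxa : xi a = 0 := (mx_ne_zero_iff a).1 ha
  obtain ⟨h0, h1⟩ := xi_zero_re hxa
  rw [← abs_of_nonneg (norm_nonneg (2 - a)), ← abs_of_nonneg (norm_nonneg ((x : ℂ) - a)), ← sq_le_sq,
    ← Complex.normSq_eq_norm_sq, ← Complex.normSq_eq_norm_sq, Complex.normSq_apply, Complex.normSq_apply]
  have e1 : (2 - a).re = 2 - a.re := by simp
  have e2 : (2 - a).im = -a.im := by simp
  have e3 : ((x : ℂ) - a).re = x - a.re := by simp
  have e4 : ((x : ℂ) - a).im = -a.im := by simp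
  rw [e1, e2, e3, e4]
  nlinarith

private theorem ab0_FF : Tendsto (fun x : ℝ => FF (x : ℂ) / (x : ℂ)) atTop (𝓝 0) := by
  have hsum : Summable (fun a : ℂ => 4 * ((mx a : ℝ) / (1 + |0 - a.im|) ^ 2)) := by
    obtain ⟨C, -, h⟩ := zero_sum 2 (by norm_num)
    have h1 := (h 0).1
    simp only [Real.rpow_two] at h1
    exact h1.mul_left 4
  have key := tendsto_tsum_of_dominated_convergence (𝓕 := (atTop : Filter ℝ))
    (f := fun (x : ℝ) (a : ℂ) => ((mx a : ℂ) * (1 / ((x : ℂ) - a) - 1 / (2 - a))) / (x : ℂ))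
    (g := fun _ : ℂ => (0 : ℂ)) hsum ?_ ?_
  · rw [tsum_zero] at key
    refine key.congr fun x => ?_
    rw [FF, tsum_div_const]
  · intro a
    refine ab0_bdd (fun x : ℝ => (mx a : ℂ) * (1 / ((x : ℂ) - a) - 1 / (2 - a))) (‖(mx a : ℂ)‖ * (1 + ‖1 / (2 - a)‖)) ?_
    have h1 := (ab0_inv a).norm
    rw [norm_zero] at h1
    filter_upwards [h1.eventually (gt_mem_nhds one_pos)] with x hx
    rw [norm_mul]
    refine mul_le_mul_of_nonneg_left ?_ (norm_nonneg _)
    refine (norm_sub_le _ _).trans ?_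
    linarith
  · filter_upwards [eventually_ge_atTop 2] with x hx a
    by_cases ha : mx a = 0
    · simp [ha]
    · have h1 := ab0_two ha
      have h2 := ab0_ge ha hx
      have h3 : 0 < (1 + |0 - a.im|) / 2 := by positivity
      have h4 : 0 < ‖2 - a‖ := lt_of_lt_of_le h3 h1
      have h5 : 0 < ‖(x : ℂ) - a‖ := lt_of_lt_of_le h4 h2
      have n1 : (2 - a) ≠ 0 := norm_pos_iff.1 h4
      have n2 : ((x : ℂ) - a) ≠ 0 := norm_pos_iff.1 h5
      have e : 1 / ((x : ℂ) - a) - 1 / (2 - a) = -((x : ℂ) - 2) / (((x : ℂ) - a) * (2 - a)) := by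
        field_simp
        ring
      have h6 : ‖-((x : ℂ) - 2)‖ ≤ x := by
        rw [norm_neg]
        have : (x : ℂ) - 2 = ((x - 2 : ℝ) : ℂ) := by push_cast; rfl
        rw [this, Complex.norm_real, Real.norm_eq_abs, abs_of_nonneg (by linarith)]
        linarith
      rw [e, norm_div, norm_mul, norm_div, norm_mul, Complex.norm_real, Real.norm_eq_abs,
        abs_of_nonneg (show (0 : ℝ) ≤ x by linarith), Complex.norm_natCast]
      have hx0 : 0 < x := by linarith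
      rw [div_le_iff₀ hx0]
      have h7 : ‖-((x : ℂ) - 2)‖ / (‖(x : ℂ) - a‖ * ‖2 - a‖) ≤
          x / (((1 + |0 - a.im|) / 2) * ((1 + |0 - a.im|) / 2)) := by
        apply div_le_div₀ hx0.le h6 (by positivity)
        exact mul_le_mul (h1.trans h2) h1 h3.le h5.le
      calc (mx a : ℝ) * (‖-((x : ℂ) - 2)‖ / (‖(x : ℂ) - a‖ * ‖2 - a‖))
          ≤ (mx a : ℝ) * (x / (((1 + |0 - a.im|) / 2) * ((1 + |0 - a.im|) / 2))) :=
            mul_le_mul_of_nonneg_left h7 (Nat.cast_nonneg _)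
        _ = 4 * ((mx a : ℝ) / (1 + |0 - a.im|) ^ 2) * x := by
            field_simp
            ring

private theorem ab0_dig : Tendsto (fun y : ℝ => (Complex.digamma (y : ℂ) + Real.eulerMascheroniConstant) / (y : ℂ))
    atTop (𝓝 0) := by
  have hsum : Summable (fun n : ℕ => 1 / ((n : ℝ) + 1) ^ 2) := by
    have h := (summable_nat_add_iff (f := fun n : ℕ => 1 / (n : ℝ) ^ 2) 1).2
      (Real.summable_one_div_nat_pow.2 one_lt_two)
    refine h.congr fun n => ?_
    push_cast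
    rfl
  have key := tendsto_tsum_of_dominated_convergence (𝓕 := (atTop : Filter ℝ))
    (f := fun (y : ℝ) (n : ℕ) => (1 / ((n : ℂ) + 1) - 1 / ((n : ℂ) + (y : ℂ))) / (y : ℂ))
    (g := fun _ : ℕ => (0 : ℂ)) hsum ?_ ?_
  · rw [tsum_zero] at key
    refine key.congr' ?_
    filter_upwards [eventually_gt_atTop 0] with y hy
    rw [tsum_div_const]
    congr 1
    exact (digamma_hasSum (z := (y : ℂ)) (by simpa using hy)).tsum_eq
  · intro n
    refine ab0_bdd (fun y : ℝ => 1 / ((n : ℂ) + 1) - 1 / ((n : ℂ) + (y : ℂ))) (‖1 / ((n : ℂ) + 1)‖ + 1) ?_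
    have h1 := (ab0_inv (-(n : ℂ))).norm
    rw [norm_zero] at h1
    filter_upwards [h1.eventually (gt_mem_nhds one_pos)] with y hy
    refine (norm_sub_le _ _).trans ?_
    have e : (n : ℂ) + (y : ℂ) = (y : ℂ) - (-(n : ℂ)) := by ring
    rw [e]
    linarith
  · filter_upwards [eventually_ge_atTop 1] with y hy n
    have hn : (0 : ℝ) ≤ n := Nat.cast_nonneg n
    have hy0 : 0 < y := by linarith
    have e : (1 / ((n : ℂ) + 1) - 1 / ((n : ℂ) + (y : ℂ))) / (y : ℂ) =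
        (((1 / ((n : ℝ) + 1) - 1 / ((n : ℝ) + y)) / y : ℝ) : ℂ) := by
      push_cast
      rfl
    rw [e, Complex.norm_real, Real.norm_eq_abs]
    have e2 : (1 / ((n : ℝ) + 1) - 1 / ((n : ℝ) + y)) / y = (y - 1) / (((n : ℝ) + 1) * ((n : ℝ) + y) * y) := by
      have h1 : (n : ℝ) + 1 ≠ 0 := by positivity
      have h2 : (n : ℝ) + y ≠ 0 := by positivity
      field_simp
      ring
    rw [e2, abs_of_nonneg (div_nonneg (by linarith) (by positivity)), div_le_div_iff₀ (by positivity) (by positivity)]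
    have h3 : (y - 1) ≤ y := by linarith
    have h4 : (n : ℝ) + 1 ≤ (n : ℝ) + y := by linarith
    calc (y - 1) * ((n : ℝ) + 1) ^ 2 ≤ y * ((n : ℝ) + 1) ^ 2 := by gcongr
      _ = ((n : ℝ) + 1) * ((n : ℝ) + 1) * y := by ring
      _ ≤ ((n : ℝ) + 1) * ((n : ℝ) + y) * y := by gcongr
      _ = 1 * (((n : ℝ) + 1) * ((n : ℝ) + y) * y) := by ring

private theorem ab0_dig2 : Tendsto (fun x : ℝ => Complex.digamma ((x : ℂ) / 2) / 2 / (x : ℂ)) atTop (𝓝 0) := by
  have h0 : Tendsto (fun x : ℝ => x / 2) atTop atTop := tendsto_id.atTop_div_const two_pos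
  have h1 := ab0_dig.comp h0
  have h2 := ab0_bdd (fun _ : ℝ => (Real.eulerMascheroniConstant : ℂ) / 2) (‖(Real.eulerMascheroniConstant : ℂ) / 2‖)
    (Eventually.of_forall fun _ => le_rfl)
  have h3 := (h1.const_mul ((1 : ℂ) / 4)).sub h2
  rw [mul_zero, sub_zero] at h3
  refine h3.congr' ?_
  filter_upwards [eventually_gt_atTop 0] with x hx
  have hx' : (x : ℂ) ≠ 0 := by exact_mod_cast hx.ne'
  simp only [Function.comp_apply]
  push_cast
  field_simp
  ring

private theorem ab0_xi : Tendsto (fun x : ℝ => logDeriv xi (x : ℂ) / (x : ℂ)) atTop (𝓝 0) := by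
  obtain ⟨C, hC, hz⟩ := logDeriv_zeta_bdd
  have h1 := ab0_bdd (fun x : ℝ => 1 / (x : ℂ) + 1 / ((x : ℂ) - 1) - (Real.log Real.pi : ℂ) / 2 +
      logDeriv riemannZeta (x : ℂ)) (1 + 1 + ‖(Real.log Real.pi : ℂ) / 2‖ + C) ?_
  · have h2 := h1.add ab0_dig2
    rw [add_zero] at h2
    refine h2.congr' ?_
    filter_upwards [eventually_gt_atTop 1] with x hx
    rw [logDeriv_xi_formula (s := (x : ℂ)) (by simpa using hx)]
    ring
  · have h2 := (ab0_inv 1).norm
    have h3 := ab0_inv0.norm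
    rw [norm_zero] at h2 h3
    filter_upwards [h2.eventually (gt_mem_nhds one_pos), h3.eventually (gt_mem_nhds one_pos),
      eventually_ge_atTop (3 / 2)] with x hx1 hx2 hx3
    have h4 := hz (x : ℂ) (by simpa using hx3)
    refine (norm_add_le _ _).trans ?_
    have h5 := norm_sub_le (1 / (x : ℂ) + 1 / ((x : ℂ) - 1)) ((Real.log Real.pi : ℂ) / 2)
    have h6 := norm_add_le (1 / (x : ℂ)) (1 / ((x : ℂ) - 1))
    linarith

theorem logDeriv_xi_pf : ∃ A : ℂ, ∀ z : ℂ, xi z ≠ 0 → logDeriv xi z = FF z + A := by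
  obtain ⟨A, B, hAB⟩ := logDeriv_xi_eq
  have hA := ab0_bdd (fun _ : ℝ => A) ‖A‖ (Eventually.of_forall fun _ => le_rfl)
  have h1 := (ab0_xi.sub ab0_FF).sub hA
  rw [sub_zero, sub_zero] at h1
  have h2 : Tendsto (fun _ : ℝ => B) atTop (𝓝 0) := by
    refine h1.congr' ?_
    filter_upwards [eventually_gt_atTop 1] with x hx
    have hx' : (x : ℂ) ≠ 0 := by
      have : x ≠ 0 := by linarith
      exact_mod_cast this
    rw [hAB (x : ℂ) (xi_ne_zero (by simpa using hx.le))]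
    field_simp
    ring
  have hB : B = 0 := tendsto_nhds_unique tendsto_const_nhds h2
  refine ⟨A, fun z hz => ?_⟩
  rw [hAB z hz, hB]
  ring

end Pool.Agent.Lib.MP_54baa8_nt
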