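import Mathlib

/-!
# Definitions for the explicit conditional bound for the moments of zeta

Dirichlet polynomials with real coefficients are elements of the ring `ArithmeticFunction ℝ`
(product = Dirichlet convolution).
-/

open Complex

namespace Pool.Agent.Lib.MP_54baa8_nt

/-- The value `∑ n, f n n^(-it)` of a Dirichlet polynomial. -/
noncomputable def dv (f : ArithmeticFunction ℝ) (t : ℝ) : ℂ :=
  LSeries (fun n => ((f n : ℝ) : ℂ)) (t * I)

/-- `f` is supported on `n ≤ X`. -/
def Len (f : ArithmeticFunction ℝ) (X : ℝ) : Prop := ∀ n : ℕ, X < n → f n = 0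

/-- `f` has nonnegative coefficients. -/
def Nn (f : ArithmeticFunction ℝ) : Prop := ∀ n : ℕ, 0 ≤ f n

/-- The truncated exponential `∑ r ≤ N, (κ M)^r / r!` in the ring of arithmetic functions. -/
noncomputable def EN (N : ℕ) (κ : ℝ) (M : ArithmeticFunction ℝ) : ArithmeticFunction ℝ :=
  ∑ r ∈ Finset.range (N + 1), (κ ^ r / (r.factorial : ℝ)) • M ^ r

/-- The truncated exponential of a complex number. -/
noncomputable def eN (N : ℕ) (z : ℂ) : ℂ :=
  ∑ r ∈ Finset.range (N + 1), z ^ r / (r.factorial : ℂ)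

/-- The trapezoid weight: `1` on `u ≤ L/2`, linear on `[L/2, L]`, `0` on `u ≥ L`. -/
noncomputable def wt (L u : ℝ) : ℝ := max 0 (min 1 (2 - 2 * u / L))

/-- The coefficient `Λ(n) w_L(log n) / log n * n^(-(1/2 + 3/L))`. -/
noncomputable def aL (L : ℝ) (n : ℕ) : ℝ :=
  ArithmeticFunction.vonMangoldt n * wt L (Real.log n) / Real.log n *
    Real.exp (-(1 / 2 + 3 / L) * Real.log n)

open Classical in
/-- The part of the sum `∑ aL L n n^(-it)` over `n = p` and `n = p ^ 2`, `p` prime, `P < p ≤ Q`. -/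
noncomputable def Mp (L P Q : ℝ) : ArithmeticFunction ℝ where
  toFun n := if (∃ p : ℕ, p.Prime ∧ P < p ∧ p ≤ Q ∧ (n = p ∨ n = p ^ 2)) then aL L n else 0
  map_zero' := by
    rw [if_neg]
    rintro ⟨p, hp, -, -, h | h⟩
    · exact hp.ne_zero h.symm
    · exact pow_ne_zero 2 hp.ne_zero h.symm

/-- The coefficient of `X ^ m` in `(1 - X) ^ (-κ)`. -/
noncomputable def dk (κ : ℝ) (m : ℕ) : ℝ := ∏ i ∈ Finset.range m, (κ + i) / (i + 1)

/-- The multiplicative function with `DD κ (p ^ e) = dk (κ p) e`. -/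
noncomputable def DD (κ : ℕ → ℝ) (n : ℕ) : ℝ := n.factorization.prod fun p e => dk (κ p) e

/-- `log · F`. -/
noncomputable def lg (F : ArithmeticFunction ℝ) : ArithmeticFunction ℝ where
  toFun n := Real.log n * F n
  map_zero' := by simp

/-- `F` and `Q` have nonnegative coefficients and `log · F ≤ Q * F` coefficientwise. -/
structure Dom (F Q : ArithmeticFunction ℝ) : Prop where
  nn : Nn F
  qn : Nn Q
  le : ∀ n : ℕ, Real.log n * F n ≤ (Q * F) n

end Pool.Agent.Lib.MP_54baa8_nt
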