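import Mathlib
import Pool.Agent.Lib.MP_54baa8_nt.Defs

/-!
# JOB AE: the Laplace transform of the trapezoid weight

`wt L u = 1` on `[0, L/2]`, `= 2 - 2u/L` on `[L/2, L]`, `0` beyond. Split the integral at `L/2`; on each piece an antiderivative of
`exp (-z u)` resp. `(2 - 2u/L) exp (-z u)` is `-exp(-z u)/z` resp. `-(2 - 2u/L) exp(-z u)/z + (2/L) exp(-z u)/z ^ 2`
(`intervalIntegral.integral_eq_sub_of_hasDerivAt`).
`Ez_bound`: `|exp (-z L/2)|, |exp (-z L)| ≤ exp (-(L/2) Re z)` for `Re z ≥ 0`.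
`Ez_bound'` (used for `z = s - 1`): for `-1/2 ≤ Re z`, both exponentials are `≤ exp (L/2)`.
-/

open Complex

namespace Pool.Agent.Lib.MP_54baa8_nt

/-- `1/z` minus the Laplace transform of `wt L` -/
noncomputable def Ez (L : ℝ) (z : ℂ) : ℂ :=
  2 / L * (Complex.exp (-(z * (L / 2))) - Complex.exp (-(z * L))) / z ^ 2

theorem wt_of_le {L u : ℝ} (hL : 0 < L) (hu : u ≤ L / 2) : wt L u = 1 := by
  have h : 2 * u / L ≤ 1 := by
    rw [div_le_one hL]
    linarith
  unfold wt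
  rw [min_eq_left (by linarith), max_eq_right zero_le_one]

theorem wt_of_ge {L u : ℝ} (hL : 0 < L) (hu : L ≤ u) : wt L u = 0 := by
  have h : 2 ≤ 2 * u / L := by
    rw [le_div_iff₀ hL]
    linarith
  unfold wt
  rw [min_eq_right (by linarith), max_eq_left (by linarith)]

private theorem AE_wt_mid {L u : ℝ} (hL : 0 < L) (h1 : L / 2 ≤ u) (h2 : u ≤ L) : wt L u = 2 - 2 * u / L := by
  have h3 : 1 ≤ 2 * u / L := by
    rw [le_div_iff₀ hL]
    linarith
  have h4 : 2 * u / L ≤ 2 := by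
    rw [div_le_iff₀ hL]
    linarith
  unfold wt
  rw [min_eq_right (by linarith), max_eq_right (by linarith)]

private theorem AE_exp_deriv (z : ℂ) (u : ℝ) :
    HasDerivAt (fun u : ℝ => Complex.exp (-(z * u))) (-z * Complex.exp (-(z * u))) u := by
  have h0 : HasDerivAt (fun u : ℝ => (u : ℂ)) 1 u := Complex.ofRealCLM.hasDerivAt
  have h1 : HasDerivAt (fun u : ℝ => -(z * (u : ℂ))) (-(z * 1)) u := (h0.const_mul z).neg
  have h2 := h1.cexp
  have e : Complex.exp (-(z * (u : ℂ))) * -(z * 1) = -z * Complex.exp (-(z * u)) := by ring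
  rw [e] at h2
  exact h2

private theorem AE_first {L : ℝ} {z : ℂ} (hz : z ≠ 0) :
    ∫ u in (0 : ℝ)..(L / 2), Complex.exp (-(z * u)) = 1 / z - Complex.exp (-(z * (L / 2))) / z := by
  have h : ∀ u ∈ Set.uIcc (0 : ℝ) (L / 2),
      HasDerivAt (fun u : ℝ => -(Complex.exp (-(z * u)) / z)) (Complex.exp (-(z * u))) u := by
    intro u _
    have h1 := ((AE_exp_deriv z u).div_const z).neg
    have e : -(-z * Complex.exp (-(z * u)) / z) = Complex.exp (-(z * u)) := by
      field_simp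
    rw [e] at h1
    exact h1
  have hc : Continuous fun u : ℝ => Complex.exp (-(z * u)) := by fun_prop
  rw [intervalIntegral.integral_eq_sub_of_hasDerivAt h (hc.intervalIntegrable _ _)]
  push_cast
  rw [mul_zero, neg_zero, Complex.exp_zero]
  ring

private theorem AE_second {L : ℝ} (hL : 0 < L) {z : ℂ} (hz : z ≠ 0) :
    ∫ u in (L / 2)..L, (2 - 2 * (u : ℂ) / L) * Complex.exp (-(z * u)) =
      Complex.exp (-(z * (L / 2))) / z - Ez L z := by
  have hLc : (L : ℂ) ≠ 0 := by exact_mod_cast hL.ne'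
  have h : ∀ u ∈ Set.uIcc (L / 2) L,
      HasDerivAt (fun u : ℝ => -((2 - 2 * (u : ℂ) / L) * Complex.exp (-(z * u)) / z) +
        2 / L * Complex.exp (-(z * u)) / z ^ 2) ((2 - 2 * (u : ℂ) / L) * Complex.exp (-(z * u))) u := by
    intro u _
    have h0 : HasDerivAt (fun u : ℝ => (u : ℂ)) 1 u := Complex.ofRealCLM.hasDerivAt
    have h1 : HasDerivAt (fun u : ℝ => 2 - 2 * (u : ℂ) / L) (-(2 * 1 / L)) u := by
      have := (h0.const_mul (2 : ℂ)).div_const (L : ℂ)
      simpa using this.const_sub 2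
    have h2 := AE_exp_deriv z u
    have h3 := ((h1.mul h2).div_const z).neg.add ((h2.const_mul (2 / (L : ℂ))).div_const (z ^ 2))
    have e : -((-(2 * 1 / (L : ℂ)) * Complex.exp (-(z * u)) +
        (2 - 2 * (u : ℂ) / L) * (-z * Complex.exp (-(z * u)))) / z) +
        2 / (L : ℂ) * (-z * Complex.exp (-(z * u))) / z ^ 2 = (2 - 2 * (u : ℂ) / L) * Complex.exp (-(z * u)) := by
      field_simp
      ring
    rw [e] at h3
    exact h3
  have hc : Continuous fun u : ℝ => (2 - 2 * (u : ℂ) / L) * Complex.exp (-(z * u)) := by fun_prop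
  rw [intervalIntegral.integral_eq_sub_of_hasDerivAt h (hc.intervalIntegrable _ _)]
  unfold Ez
  push_cast
  have e1 : (2 : ℂ) - 2 * L / L = 0 := by
    rw [mul_div_assoc, div_self hLc]
    ring
  have e2 : (2 : ℂ) - 2 * (L / 2) / L = 1 := by
    field_simp
    ring
  rw [e1, e2]
  field_simp
  ring

theorem wt_nonneg (L u : ℝ) : 0 ≤ wt L u := le_max_left _ _

theorem wt_le_one (L u : ℝ) : wt L u ≤ 1 := max_le zero_le_one (min_le_left _ _)

theorem wt_continuous (L : ℝ) : Continuous (wt L) := by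
  unfold wt
  fun_prop

theorem trap_transform {L : ℝ} (hL : 0 < L) {z : ℂ} (hz : z ≠ 0) :
    ∫ u in (0 : ℝ)..L, (wt L u : ℂ) * Complex.exp (-(z * u)) = 1 / z - Ez L z := by
  have hc : Continuous fun u : ℝ => (wt L u : ℂ) * Complex.exp (-(z * u)) := by
    have := wt_continuous L
    fun_prop
  have hL2 : (0 : ℝ) ≤ L / 2 := by linarith
  have hL3 : L / 2 ≤ L := by linarith
  have h1 : ∫ u in (0 : ℝ)..(L / 2), (wt L u : ℂ) * Complex.exp (-(z * u)) =
      ∫ u in (0 : ℝ)..(L / 2), Complex.exp (-(z * u)) := by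
    refine intervalIntegral.integral_congr fun u hu => ?_
    rw [Set.uIcc_of_le hL2] at hu
    show (wt L u : ℂ) * Complex.exp (-(z * u)) = Complex.exp (-(z * u))
    rw [wt_of_le hL hu.2, Complex.ofReal_one, one_mul]
  have h2 : ∫ u in (L / 2)..L, (wt L u : ℂ) * Complex.exp (-(z * u)) =
      ∫ u in (L / 2)..L, (2 - 2 * (u : ℂ) / L) * Complex.exp (-(z * u)) := by
    refine intervalIntegral.integral_congr fun u hu => ?_
    rw [Set.uIcc_of_le hL3] at hu
    show (wt L u : ℂ) * Complex.exp (-(z * u)) = (2 - 2 * (u : ℂ) / L) * Complex.exp (-(z * u))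
    rw [AE_wt_mid hL hu.1 hu.2]
    push_cast
    rfl
  rw [← intervalIntegral.integral_add_adjacent_intervals (hc.intervalIntegrable 0 (L / 2))
    (hc.intervalIntegrable (L / 2) L), h1, h2, AE_first hz, AE_second hL hz]
  ring

private theorem AE_norm {L : ℝ} (hL : 0 < L) {z : ℂ} (hz : z ≠ 0) {K : ℝ}
    (h1 : Real.exp (-(z.re * (L / 2))) ≤ K) (h2 : Real.exp (-(z.re * L)) ≤ K) :
    ‖Ez L z‖ ≤ 4 / L * K / ‖z‖ ^ 2 := by
  have e1 : ‖Complex.exp (-(z * (L / 2)))‖ = Real.exp (-(z.re * (L / 2))) := by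
    rw [Complex.norm_exp]
    congr 1
    have : (L : ℂ) / 2 = ((L / 2 : ℝ) : ℂ) := by push_cast; rfl
    rw [Complex.neg_re, this, Complex.re_mul_ofReal]
  have e2 : ‖Complex.exp (-(z * L))‖ = Real.exp (-(z.re * L)) := by
    rw [Complex.norm_exp]
    congr 1
    rw [Complex.neg_re, Complex.re_mul_ofReal]
  have h3 : ‖Complex.exp (-(z * (L / 2))) - Complex.exp (-(z * L))‖ ≤ 2 * K := by
    refine (norm_sub_le _ _).trans ?_
    rw [e1, e2]
    linarith
  have hz' : 0 < ‖z‖ ^ 2 := by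
    have := norm_pos_iff.2 hz
    positivity
  have e3 : ‖(2 : ℂ) / L‖ = 2 / L := by
    rw [norm_div, Complex.norm_real, Real.norm_of_nonneg hL.le]
    norm_num
  unfold Ez
  rw [norm_div, norm_mul, norm_pow, e3]
  rw [div_le_div_iff_of_pos_right hz']
  have h4 : 0 < 2 / L := by positivity
  calc 2 / L * ‖Complex.exp (-(z * (L / 2))) - Complex.exp (-(z * L))‖ ≤ 2 / L * (2 * K) :=
        mul_le_mul_of_nonneg_left h3 h4.le
    _ = 4 / L * K := by ring

theorem Ez_bound {L : ℝ} (hL : 0 < L) {z : ℂ} (hz : z ≠ 0) (hre : 0 ≤ z.re) :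
    ‖Ez L z‖ ≤ 4 / L * Real.exp (-(L / 2 * z.re)) / ‖z‖ ^ 2 := by
  refine AE_norm hL hz (Real.exp_le_exp.2 ?_) (Real.exp_le_exp.2 ?_)
  · linarith
  · nlinarith

theorem Ez_bound' {L : ℝ} (hL : 0 < L) {z : ℂ} (hz : z ≠ 0) (hre : -(1 / 2) ≤ z.re) :
    ‖Ez L z‖ ≤ 4 / L * Real.exp (L / 2) / ‖z‖ ^ 2 := by
  refine AE_norm hL hz (Real.exp_le_exp.2 ?_) (Real.exp_le_exp.2 ?_)
  · nlinarith
  · nlinarith

end Pool.Agent.Lib.MP_54baa8_nt
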