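import Mathlib
import Pool.Agent.Lib.MP_00e05b_nt.Explicit2
import Pool.Agent.Lib.MP_ec260d_nt.ZeroSum

/-!
# JOB AEF: the explicit formula for continuous test functions

`explicit_formula` (MP_00e05b_nt) is the statement for smooth `g` with compact support in `(0, ∞)`. Mollify and shift.
-/

open Complex MeasureTheory Filter Topology ContinuousLinearMap
open scoped Convolution ContDiff

namespace Pool.Agent.Lib.MP_54baa8_nt

open Pool.Agent.Lib.MP_00e05b_nt Pool.Agent.Lib.MP_ec260d_nt

/-- shift and bump radius -/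
private noncomputable def aef_d (n : ℕ) : ℝ := 1 / ((n : ℝ) + 1)

private theorem aef_d_pos (n : ℕ) : 0 < aef_d n := by unfold aef_d; positivity

private theorem aef_d_le (n : ℕ) : aef_d n ≤ 1 := by
  unfold aef_d
  rw [div_le_one (by positivity)]
  have : (0 : ℝ) ≤ n := Nat.cast_nonneg n
  linarith

private theorem aef_d_tendsto : Tendsto aef_d atTop (𝓝 0) := by
  unfold aef_d
  exact tendsto_one_div_add_atTop_nhds_zero_nat

private noncomputable def aef_phi (n : ℕ) : ContDiffBump (0 : ℝ) :=
  ⟨aef_d n / 2, aef_d n, half_pos (aef_d_pos n), half_lt_self (aef_d_pos n)⟩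

private theorem aef_phi_out (n : ℕ) : (aef_phi n).rOut = aef_d n := rfl

private noncomputable def aef_conv (G : ℝ → ℂ) (n : ℕ) : ℝ → ℂ :=
  (aef_phi n).normed volume ⋆[lsmul ℝ ℝ, volume] G

private noncomputable def aef_g (G : ℝ → ℂ) (n : ℕ) (u : ℝ) : ℂ := aef_conv G n (u - 2 * aef_d n)

private theorem aef_conv_apply (G : ℝ → ℂ) (n : ℕ) (w : ℝ) :
    aef_conv G n w = ∫ v, ((aef_phi n).normed volume v : ℂ) * G (w - v) := by
  unfold aef_conv
  rw [convolution_def]
  refine integral_congr_ae (Eventually.of_forall fun v => ?_)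
  simp

private theorem aef_norm_supp (n : ℕ) {v : ℝ} (hv : (aef_phi n).normed volume v ≠ 0) :
    |v| < aef_d n := by
  have h : v ∈ Function.support ((aef_phi n).normed volume) := hv
  rw [ContDiffBump.support_normed_eq, aef_phi_out] at h
  simpa [Real.norm_eq_abs] using h

private theorem aef_bound {G : ℝ → ℂ} {C : ℝ} (h0 : ∀ u ≤ 0, G u = 0)
    (hl : ∀ u, 0 ≤ u → ‖G u‖ ≤ C * u) (hC : 0 ≤ C) (n : ℕ) (u : ℝ) :
    ‖aef_g G n u‖ ≤ C * max u 0 := by
  unfold aef_g
  rw [aef_conv_apply]
  have hi : Integrable (fun v : ℝ => (aef_phi n).normed volume v * (C * max u 0)) :=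
    (aef_phi n).integrable_normed.mul_const _
  calc ‖∫ v, ((aef_phi n).normed volume v : ℂ) * G (u - 2 * aef_d n - v)‖
      ≤ ∫ v, (aef_phi n).normed volume v * (C * max u 0) := by
        refine norm_integral_le_of_norm_le hi (Eventually.of_forall fun v => ?_)
        by_cases hv : (aef_phi n).normed volume v = 0
        · rw [hv]; simp
        · have h1 := aef_norm_supp n hv
          have h2 := aef_d_pos n
          rw [norm_mul, Complex.norm_real, Real.norm_of_nonneg ((aef_phi n).nonneg_normed v)]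
          refine mul_le_mul_of_nonneg_left ?_ ((aef_phi n).nonneg_normed v)
          rcases le_total (u - 2 * aef_d n - v) 0 with h3 | h3
          · rw [h0 _ h3, norm_zero]
            positivity
          · refine (hl _ h3).trans (mul_le_mul_of_nonneg_left ?_ hC)
            have h4 := (abs_lt.1 h1).1
            exact le_max_of_le_left (by linarith)
    _ = C * max u 0 := by
        rw [integral_mul_const, ContDiffBump.integral_normed, one_mul]

private theorem aef_zero {G : ℝ → ℂ} {B : ℝ} (h0 : ∀ u ≤ 0, G u = 0) (hB : ∀ u, B ≤ u → G u = 0)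
    (n : ℕ) (u : ℝ) (hu : u < aef_d n ∨ B + 3 * aef_d n < u) : aef_g G n u = 0 := by
  unfold aef_g
  rw [aef_conv_apply]
  rw [integral_eq_zero_of_ae]
  refine Eventually.of_forall fun v => ?_
  by_cases hv : (aef_phi n).normed volume v = 0
  · simp [hv]
  · have h1 := abs_lt.1 (aef_norm_supp n hv)
    have h2 : G (u - 2 * aef_d n - v) = 0 := by
      rcases hu with h | h
      · exact h0 _ (by linarith)
      · exact hB _ (by linarith)
    simp [h2]

private theorem aef_smooth {G : ℝ → ℂ} (hc : Continuous G) (n : ℕ) :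
    ContDiff ℝ ∞ (aef_g G n) := by
  have h1 : ContDiff ℝ ∞ (aef_conv G n) :=
    HasCompactSupport.contDiff_convolution_left (lsmul ℝ ℝ)
      (aef_phi n).hasCompactSupport_normed (aef_phi n).contDiff_normed hc.locallyIntegrable
  exact h1.comp (by fun_prop)

private theorem aef_test {G : ℝ → ℂ} (hc : Continuous G) {B : ℝ} (h0 : ∀ u ≤ 0, G u = 0)
    (hB : ∀ u, B ≤ u → G u = 0) (n : ℕ) : Test (aef_g G n) := by
  have h1 : tsupport (aef_g G n) ⊆ Set.Icc (aef_d n) (B + 3 * aef_d n) := by
    refine closure_minimal ?_ isClosed_Icc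
    intro u hu
    by_contra hcon
    apply hu
    apply aef_zero h0 hB
    rw [Set.mem_Icc, not_and_or, not_le, not_le] at hcon
    exact hcon
  refine ⟨aef_smooth hc n, ?_, ?_⟩
  · exact isCompact_Icc.of_isClosed_subset (isClosed_tsupport _) h1
  · intro u hu
    exact lt_of_lt_of_le (aef_d_pos n) (h1 hu).1

/-- the Fourier-Laplace factor of the bump -/
private noncomputable def aef_P (n : ℕ) (a : ℂ) : ℂ :=
  Complex.exp (a * (2 * aef_d n : ℝ)) * ∫ v, ((aef_phi n).normed volume v : ℂ) * Complex.exp (a * v)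

private theorem aef_transform {G : ℝ → ℂ} (hc : Continuous G) {B : ℝ} (h0 : ∀ u ≤ 0, G u = 0)
    (hB : ∀ u, B ≤ u → G u = 0) (n : ℕ) (a : ℂ) :
    ∫ u, aef_g G n u * Complex.exp (a * u) = aef_P n a * ∫ u, G u * Complex.exp (a * u) := by
  have hcs : HasCompactSupport G := by
    refine HasCompactSupport.of_support_subset_isCompact (isCompact_Icc (a := (0 : ℝ)) (b := B)) ?_
    intro u hu
    by_contra hcon
    apply hu
    rw [Set.mem_Icc, not_and_or, not_le, not_le] at hcon
    rcases hcon with h | h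
    · exact h0 u h.le
    · exact hB u h.le
  have hf : Integrable (fun v : ℝ => ((aef_phi n).normed volume v : ℂ) * Complex.exp (a * v)) := by
    refine Continuous.integrable_of_hasCompactSupport ?_ ?_
    · have := (aef_phi n).continuous_normed (μ := (volume : Measure ℝ))
      fun_prop
    · refine HasCompactSupport.mul_right ?_
      exact ((aef_phi n).hasCompactSupport_normed (μ := (volume : Measure ℝ))).comp_left (g := fun x : ℝ => (x : ℂ)) (by simp)
  have hh : Integrable (fun v : ℝ => G v * Complex.exp (a * v)) := by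
    refine Continuous.integrable_of_hasCompactSupport (by fun_prop) hcs.mul_right
  have h1 := integral_convolution (μ := (volume : Measure ℝ)) (ν := (volume : Measure ℝ))
    (ContinuousLinearMap.mul ℝ ℂ) hf hh
  have h2 : ∀ w : ℝ, ((fun v : ℝ => ((aef_phi n).normed volume v : ℂ) * Complex.exp (a * v))
      ⋆[ContinuousLinearMap.mul ℝ ℂ, (volume : Measure ℝ)] (fun v : ℝ => G v * Complex.exp (a * v))) w =
      aef_conv G n w * Complex.exp (a * w) := by
    intro w
    rw [convolution_def, aef_conv_apply, ← integral_mul_const]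
    refine integral_congr_ae (Eventually.of_forall fun v => ?_)
    simp only [ContinuousLinearMap.mul_apply']
    have e1 : Complex.exp (a * w) = Complex.exp (a * v) * Complex.exp (a * ((w - v : ℝ) : ℂ)) := by
      rw [← Complex.exp_add]
      congr 1
      push_cast
      ring
    rw [e1]
    ring
  simp_rw [h2] at h1
  have h3 : ∫ u, aef_g G n u * Complex.exp (a * u) =
      Complex.exp (a * (2 * aef_d n : ℝ)) * ∫ w, aef_conv G n w * Complex.exp (a * w) := by
    rw [← integral_const_mul, ← integral_sub_right_eq_self (fun w : ℝ => Complex.exp (a * (2 * aef_d n : ℝ)) *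
      (aef_conv G n w * Complex.exp (a * w))) (2 * aef_d n)]
    refine integral_congr_ae (Eventually.of_forall fun u => ?_)
    simp only [aef_g]
    have e1 : Complex.exp (a * u) = Complex.exp (a * (2 * aef_d n : ℝ)) *
        Complex.exp (a * ((u - 2 * aef_d n : ℝ) : ℂ)) := by
      rw [← Complex.exp_add]
      congr 1
      push_cast
      ring
    rw [e1]
    ring
  rw [h3, h1, aef_P]
  simp only [ContinuousLinearMap.mul_apply']
  ring

private theorem aef_P_bound (n : ℕ) {a : ℂ} (h0 : 0 ≤ a.re) (h1 : a.re ≤ 1) :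
    ‖aef_P n a‖ ≤ Real.exp 3 := by
  unfold aef_P
  have hd := aef_d_pos n
  have hd1 := aef_d_le n
  have e1 : ‖Complex.exp (a * (2 * aef_d n : ℝ))‖ ≤ Real.exp 2 := by
    rw [Complex.norm_exp, Real.exp_le_exp, Complex.re_mul_ofReal]
    nlinarith
  have e2 : ‖∫ v, ((aef_phi n).normed volume v : ℂ) * Complex.exp (a * v)‖ ≤ Real.exp 1 := by
    have hi : Integrable (fun v : ℝ => (aef_phi n).normed volume v * Real.exp 1) :=
      (aef_phi n).integrable_normed.mul_const _
    calc ‖∫ v, ((aef_phi n).normed volume v : ℂ) * Complex.exp (a * v)‖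
        ≤ ∫ v, (aef_phi n).normed volume v * Real.exp 1 := by
          refine norm_integral_le_of_norm_le hi (Eventually.of_forall fun v => ?_)
          by_cases hv : (aef_phi n).normed volume v = 0
          · rw [hv]; simp
          · have h3 := abs_lt.1 (aef_norm_supp n hv)
            rw [norm_mul, Complex.norm_real, Real.norm_of_nonneg ((aef_phi n).nonneg_normed v)]
            refine mul_le_mul_of_nonneg_left ?_ ((aef_phi n).nonneg_normed v)
            rw [Complex.norm_exp, Real.exp_le_exp, Complex.re_mul_ofReal]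
            nlinarith
      _ = Real.exp 1 := by
          rw [integral_mul_const, ContDiffBump.integral_normed, one_mul]
  calc ‖Complex.exp (a * (2 * aef_d n : ℝ)) *
        ∫ v, ((aef_phi n).normed volume v : ℂ) * Complex.exp (a * v)‖
      = ‖Complex.exp (a * (2 * aef_d n : ℝ))‖ *
        ‖∫ v, ((aef_phi n).normed volume v : ℂ) * Complex.exp (a * v)‖ := norm_mul _ _
    _ ≤ Real.exp 2 * Real.exp 1 := mul_le_mul e1 e2 (norm_nonneg _) (Real.exp_pos _).le
    _ = Real.exp 3 := by rw [← Real.exp_add]; norm_num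

private theorem aef_P_tendsto (a : ℂ) : Tendsto (fun n => aef_P n a) atTop (𝓝 1) := by
  have h1 : Tendsto (fun n => Complex.exp (a * (2 * aef_d n : ℝ))) atTop (𝓝 1) := by
    have h2 : Tendsto (fun n => a * ((2 * aef_d n : ℝ) : ℂ)) atTop (𝓝 (a * ((2 * 0 : ℝ) : ℂ))) := by
      refine Tendsto.const_mul _ ?_
      exact (Complex.continuous_ofReal.tendsto _).comp (aef_d_tendsto.const_mul 2)
    have h3 := (Complex.continuous_exp.tendsto _).comp h2
    simpa [Function.comp_def] using h3
  have h2 : Tendsto (fun n => ∫ v, ((aef_phi n).normed volume v : ℂ) * Complex.exp (a * v)) atTop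
      (𝓝 1) := by
    have h3 := ContDiffBump.convolution_tendsto_right_of_continuous (μ := (volume : Measure ℝ))
      (φ := aef_phi) (l := atTop) (g := fun w : ℝ => Complex.exp (-(a * w)))
      (by simpa [aef_phi_out] using aef_d_tendsto) (by fun_prop) 0
    have h4 : ∀ n, ((aef_phi n).normed volume ⋆[lsmul ℝ ℝ, (volume : Measure ℝ)]
        (fun w : ℝ => Complex.exp (-(a * w)))) 0 =
        ∫ v, ((aef_phi n).normed volume v : ℂ) * Complex.exp (a * v) := by
      intro n
      rw [convolution_def]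
      refine integral_congr_ae (Eventually.of_forall fun v => ?_)
      simp
    simp_rw [h4] at h3
    simpa using h3
  have h3 := h1.mul h2
  simpa [aef_P] using h3

private theorem aef_pt {G : ℝ → ℂ} (hc : Continuous G) (u : ℝ) :
    Tendsto (fun n => aef_g G n u) atTop (𝓝 (G u)) := by
  refine ContDiffBump.convolution_tendsto_right (μ := (volume : Measure ℝ)) (φ := aef_phi) (l := atTop)
    (g := fun _ => G) (k := fun n => u - 2 * aef_d n) (x₀ := u) (z₀ := G u)
    (by simpa [aef_phi_out] using aef_d_tendsto) (Eventually.of_forall fun _ => hc.aestronglyMeasurable)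
    ((hc.tendsto u).comp tendsto_snd) ?_
  have := (aef_d_tendsto.const_mul 2).const_sub u
  simpa using this

private theorem aef_rt {u : ℝ} (hu : 0 < u) : 0 ≤ rt u ∧ u * rt u ≤ 1 := by
  have h1 : 0 < 1 - Real.exp (-(2 * u)) := by
    have : Real.exp (-(2 * u)) < 1 := by rw [Real.exp_lt_one_iff]; linarith
    linarith
  unfold rt
  refine ⟨by positivity, ?_⟩
  rw [← mul_div_assoc, div_le_one h1]
  have h2 : Real.exp (-(2 * u)) * (2 * u + 1) ≤ 1 := by
    calc Real.exp (-(2 * u)) * (2 * u + 1) ≤ Real.exp (-(2 * u)) * Real.exp (2 * u) := by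
          gcongr
          exact Real.add_one_le_exp _
      _ = 1 := by rw [← Real.exp_add]; simp
  have h3 := Real.exp_pos (-(2 * u))
  nlinarith

private theorem aef_rt_lim {G : ℝ → ℂ} (hc : Continuous G) {B C : ℝ} (hB0 : 0 ≤ B)
    (h0 : ∀ u ≤ 0, G u = 0) (hB : ∀ u, B ≤ u → G u = 0) (hl : ∀ u, 0 ≤ u → ‖G u‖ ≤ C * u)
    (hC : 0 ≤ C) :
    Tendsto (fun n => ∫ u, aef_g G n u * (rt u : ℂ)) atTop (𝓝 (∫ u, G u * (rt u : ℂ))) := by
  have hm : Measurable rt := by unfold rt; fun_prop
  refine tendsto_integral_of_dominated_convergence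
    (bound := (Set.Icc (0 : ℝ) (B + 3)).indicator fun _ => C) ?_ ?_ ?_ ?_
  · intro n
    exact (aef_smooth hc n).continuous.aestronglyMeasurable.mul
      (Complex.measurable_ofReal.comp hm).aestronglyMeasurable
  · exact (integrable_indicator_iff measurableSet_Icc).2
      (integrableOn_const (by simp))
  · intro n
    refine Eventually.of_forall fun u => ?_
    by_cases hu : u ∈ Set.Icc (0 : ℝ) (B + 3)
    · rw [Set.indicator_of_mem hu]
      rcases hu.1.eq_or_lt with h | h
      · have h3 := aef_bound h0 hl hC n u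
        rw [← h] at h3 ⊢
        simp only [max_self, mul_zero] at h3
        have h4 : aef_g G n 0 = 0 := norm_le_zero_iff.1 h3
        rw [h4]
        simpa using hC
      · obtain ⟨h5, h6⟩ := aef_rt h
        have h3 := aef_bound h0 hl hC n u
        rw [max_eq_left h.le] at h3
        rw [norm_mul, Complex.norm_real, Real.norm_of_nonneg h5]
        calc ‖aef_g G n u‖ * rt u ≤ C * u * rt u := by gcongr
          _ = C * (u * rt u) := by ring
          _ ≤ C * 1 := by gcongr
          _ = C := mul_one C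
    · rw [Set.indicator_of_notMem hu]
      have h3 : aef_g G n u = 0 := by
        rw [Set.mem_Icc, not_and_or, not_le, not_le] at hu
        apply aef_zero h0 hB
        have h4 := aef_d_pos n
        have h5 := aef_d_le n
        rcases hu with h | h
        · left; linarith
        · right; linarith
      rw [h3]
      simp
  · exact Eventually.of_forall fun u => (aef_pt hc u).mul_const _

private theorem aef_sum_lim {G : ℝ → ℂ} (hc : Continuous G) {B : ℝ}
    (h0 : ∀ u ≤ 0, G u = 0) (hB : ∀ u, B ≤ u → G u = 0) :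
    Tendsto (fun n : ℕ => ∑' m : ℕ, ((ArithmeticFunction.vonMangoldt m : ℝ) : ℂ) * aef_g G n (Real.log m))
      atTop (𝓝 (∑' m : ℕ, ((ArithmeticFunction.vonMangoldt m : ℝ) : ℂ) * G (Real.log m))) := by
  set N : ℕ := ⌈Real.exp (B + 3)⌉₊ + 1 with hN
  have hlog : ∀ m : ℕ, m ∉ Finset.range N → B + 3 < Real.log m := by
    intro m hm
    rw [Finset.mem_range, not_lt] at hm
    have h1 : Real.exp (B + 3) < m := by
      have h2 : Real.exp (B + 3) ≤ (⌈Real.exp (B + 3)⌉₊ : ℝ) := Nat.le_ceil _
      have h3 : ((⌈Real.exp (B + 3)⌉₊ + 1 : ℕ) : ℝ) ≤ m := by exact_mod_cast hm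
      push_cast at h3
      linarith
    exact (Real.lt_log_iff_exp_lt (lt_trans (Real.exp_pos _) h1)).2 h1
  have e1 : ∀ n : ℕ, ∑' m : ℕ, ((ArithmeticFunction.vonMangoldt m : ℝ) : ℂ) * aef_g G n (Real.log m) =
      ∑ m ∈ Finset.range N, ((ArithmeticFunction.vonMangoldt m : ℝ) : ℂ) * aef_g G n (Real.log m) := by
    intro n
    refine tsum_eq_sum fun m hm => ?_
    have h1 := hlog m hm
    have h2 := aef_d_le n
    rw [aef_zero h0 hB n _ (Or.inr (by linarith)), mul_zero]
  have e2 : ∑' m : ℕ, ((ArithmeticFunction.vonMangoldt m : ℝ) : ℂ) * G (Real.log m) =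
      ∑ m ∈ Finset.range N, ((ArithmeticFunction.vonMangoldt m : ℝ) : ℂ) * G (Real.log m) := by
    refine tsum_eq_sum fun m hm => ?_
    have h1 := hlog m hm
    rw [hB _ (by linarith), mul_zero]
  simp_rw [e1, e2]
  exact tendsto_finsetSum _ fun m _ => (aef_pt hc _).const_mul _

theorem explicit_cont {G : ℝ → ℂ} (hc : Continuous G) {B C : ℝ} (hB0 : 0 ≤ B)
    (h0 : ∀ u ≤ 0, G u = 0) (hB : ∀ u, B ≤ u → G u = 0) (hl : ∀ u, 0 ≤ u → ‖G u‖ ≤ C * u)
    (hd : ∀ a : ℂ, 0 ≤ a.re → a.re ≤ 1 →
      ‖∫ u, G u * Complex.exp (a * u)‖ ≤ C / (1 + |a.im|) ^ 2) :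
    HasSum (fun a : ℂ => (mx a : ℂ) * ∫ u, G u * Complex.exp (a * u))
      ((∫ u, G u * Complex.exp u) - (∫ u, G u * (rt u : ℂ)) -
        ∑' n : ℕ, ((ArithmeticFunction.vonMangoldt n : ℝ) : ℂ) * G (Real.log n)) := by
  have hC : 0 ≤ C := by
    have := hl 1 zero_le_one
    rw [mul_one] at this
    exact (norm_nonneg _).trans this
  obtain ⟨_, _, hz⟩ := zero_sum 2 one_lt_two
  obtain ⟨hz1, -⟩ := hz 0
  have hsum : Summable (fun a : ℂ => Real.exp 3 * C * ((mx a : ℝ) / (1 + |0 - a.im|) ^ (2 : ℝ))) :=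
    hz1.mul_left _
  have hb : ∀ n a, ‖(mx a : ℂ) * ∫ u, aef_g G n u * Complex.exp (a * u)‖ ≤
      Real.exp 3 * C * ((mx a : ℝ) / (1 + |0 - a.im|) ^ (2 : ℝ)) := by
    intro n a
    by_cases ha : mx a = 0
    · simp [ha]
    · obtain ⟨h1, h2⟩ := xi_zero_re ((mx_ne_zero_iff a).1 ha)
      rw [aef_transform hc h0 hB, norm_mul, norm_mul, Complex.norm_natCast, zero_sub, abs_neg,
        Real.rpow_two]
      calc (mx a : ℝ) * (‖aef_P n a‖ * ‖∫ u, G u * Complex.exp (a * u)‖)
          ≤ (mx a : ℝ) * (Real.exp 3 * (C / (1 + |a.im|) ^ 2)) := by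
            gcongr
            · exact aef_P_bound n h1.le h2.le
            · exact hd a h1.le h2.le
        _ = Real.exp 3 * C * ((mx a : ℝ) / (1 + |a.im|) ^ 2) := by ring
  have hlim : ∀ a : ℂ, Tendsto (fun n => (mx a : ℂ) * ∫ u, aef_g G n u * Complex.exp (a * u)) atTop
      (𝓝 ((mx a : ℂ) * ∫ u, G u * Complex.exp (a * u))) := by
    intro a
    refine Tendsto.const_mul _ ?_
    simp_rw [aef_transform hc h0 hB]
    have := (aef_P_tendsto a).mul_const (∫ u, G u * Complex.exp (a * u))
    rwa [one_mul] at this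
  have hS : Summable (fun a : ℂ => (mx a : ℂ) * ∫ u, G u * Complex.exp (a * u)) := by
    refine Summable.of_norm_bounded hsum fun a => ?_
    exact le_of_tendsto (hlim a).norm (Eventually.of_forall fun n => hb n a)
  have hT := tendsto_tsum_of_dominated_convergence hsum hlim
    (Eventually.of_forall fun n a => hb n a)
  have hE : ∀ n, ∑' a : ℂ, (mx a : ℂ) * ∫ u, aef_g G n u * Complex.exp (a * u) =
      (∫ u, aef_g G n u * Complex.exp u) - (∫ u, aef_g G n u * (rt u : ℂ)) -
        ∑' m : ℕ, ((ArithmeticFunction.vonMangoldt m : ℝ) : ℂ) * aef_g G n (Real.log m) :=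
    fun n => (explicit_formula (aef_test hc h0 hB n)).tsum_eq
  simp_rw [hE] at hT
  have h1 : Tendsto (fun n => ∫ u, aef_g G n u * Complex.exp u) atTop
      (𝓝 (∫ u, G u * Complex.exp u)) := by
    have h2 : ∀ n, ∫ u, aef_g G n u * Complex.exp u = aef_P n 1 * ∫ u, G u * Complex.exp u := by
      intro n
      have := aef_transform hc h0 hB n 1
      simpa using this
    simp_rw [h2]
    have := (aef_P_tendsto 1).mul_const (∫ u, G u * Complex.exp u)
    rwa [one_mul] at this
  have hT' := (h1.sub (aef_rt_lim hc hB0 h0 hB hl hC)).sub (aef_sum_lim hc h0 hB)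
  rw [tendsto_nhds_unique hT' hT]
  exact hS.hasSum

end Pool.Agent.Lib.MP_54baa8_nt
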