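import Mathlib
import Pool.Agent.Lib.MP_54baa8_nt.AB0
import Pool.Agent.Lib.MP_ec260d_nt.Gap

/-!
# JOB AF: `Re (xi'/xi)` as a positive sum over the zeros, under RH

`F_hasSum`: put `z = σ + it`, `z₀ = 1/2 + it` (`xi z ≠ 0` since `re_of_RH` puts the zeros on the line `1/2`; `xi z₀ ≠ 0` by
hypothesis). `logDeriv_xi_pf` at both points and `gap_re_zero` (`Re (logDeriv xi z₀) = 0`):
`Re (logDeriv xi z) = Re (FF z - FF z₀)` and `FF z - FF z₀ = ∑ a, mx a (1/(z - a) - 1/(z₀ - a))` (`FF_summable` at both); for a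
zero `a = 1/2 + iγ`: `Re (1/(z₀ - a)) = 0` and `Re (1/(z - a)) = (σ - 1/2) / ((σ - 1/2) ^ 2 + (t - γ) ^ 2)`. Terms with `mx a = 0`
vanish. Use `Complex.hasSum_re`/`HasSum.mapL`, `Complex.hasSum_iff`.
`F_lower`: termwise, `(σ-1/2)/((σ-1/2)^2 + y^2) ≥ ((σ-1/2)/(σ₀-1/2)) (σ₀-1/2)/((σ₀-1/2)^2 + y^2)` for `1/2 < σ ≤ σ₀` (`hasSum_le`).
-/

open Complex

namespace Pool.Agent.Lib.MP_54baa8_nt

open Pool.Agent.Lib.MP_00e05b_nt Pool.Agent.Lib.MP_ec260d_nt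

/-- `Re (xi'/xi)(σ + it)` -/
noncomputable def FR (σ t : ℝ) : ℝ := (logDeriv xi (σ + t * I)).re

theorem xi_ne_of_RH (hRH : RiemannHypothesis) {σ t : ℝ} (hσ : 1 / 2 < σ) : xi (σ + t * I) ≠ 0 := by
  intro h
  have h1 := congrArg Complex.re (re_of_RH hRH h)
  simp only [Complex.add_re, Complex.mul_re, Complex.ofReal_re, Complex.I_re, mul_zero, Complex.ofReal_im, Complex.I_im,
    mul_one, sub_self, add_zero] at h1
  norm_num at h1
  linarith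

private theorem AF_inv_re (x y : ℝ) : (1 / ((x : ℂ) + y * I)).re = x / (x ^ 2 + y ^ 2) := by
  rw [one_div, Complex.inv_re, Complex.normSq_apply]
  simp only [Complex.add_re, Complex.mul_re, Complex.ofReal_re, Complex.I_re, mul_zero, Complex.ofReal_im, Complex.I_im,
    mul_one, sub_self, add_zero, Complex.add_im, Complex.mul_im, zero_add]
  rw [← pow_two, ← pow_two]

private theorem AF_term (hRH : RiemannHypothesis) (σ t : ℝ) (a : ℂ) :
    ((mx a : ℂ) * (1 / (((σ : ℂ) + t * I) - a) - 1 / (2 - a)) -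
      (mx a : ℂ) * (1 / ((1 / 2 + t * I) - a) - 1 / (2 - a))).re =
    (mx a : ℝ) * ((σ - 1 / 2) / ((σ - 1 / 2) ^ 2 + (t - a.im) ^ 2)) := by
  by_cases ha : xi a = 0
  · have haeq := re_of_RH hRH ha
    have h1 : ((σ : ℂ) + t * I) - a = ((σ - 1 / 2 : ℝ) : ℂ) + ((t - a.im : ℝ) : ℂ) * I := by
      conv_lhs => rw [haeq]
      push_cast
      ring
    have h2 : ((1 / 2 : ℂ) + t * I) - a = ((0 : ℝ) : ℂ) + ((t - a.im : ℝ) : ℂ) * I := by
      conv_lhs => rw [haeq]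
      push_cast
      ring
    rw [← mul_sub, sub_sub_sub_cancel_right, h1, h2, ← Complex.ofReal_natCast, Complex.re_ofReal_mul, Complex.sub_re,
      AF_inv_re, AF_inv_re, zero_div, sub_zero]
  · have h0 : mx a = 0 := by
      by_contra h
      exact ha ((mx_ne_zero_iff a).1 h)
    rw [h0]
    simp

theorem F_hasSum (hRH : RiemannHypothesis) {σ t : ℝ} (ht : xi (1 / 2 + t * I) ≠ 0) (hσ : 1 / 2 < σ) :
    HasSum (fun a : ℂ => (mx a : ℝ) * ((σ - 1 / 2) / ((σ - 1 / 2) ^ 2 + (t - a.im) ^ 2))) (FR σ t) := by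
  obtain ⟨A, hA⟩ := logDeriv_xi_pf
  have hz := xi_ne_of_RH hRH (t := t) hσ
  have s1 : HasSum (fun a : ℂ => (mx a : ℂ) * (1 / (((σ : ℂ) + t * I) - a) - 1 / (2 - a))) (FF (σ + t * I)) :=
    (FF_summable hz).hasSum
  have s2 : HasSum (fun a : ℂ => (mx a : ℂ) * (1 / ((1 / 2 + t * I) - a) - 1 / (2 - a))) (FF (1 / 2 + t * I)) :=
    (FF_summable ht).hasSum
  have s3 := Complex.reCLM.hasSum (s1.sub s2)
  have h1 : Complex.reCLM (FF (σ + t * I) - FF (1 / 2 + t * I)) = FR σ t := by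
    have e1 := hA _ hz
    have e2 := hA _ ht
    have e3 : FF (σ + t * I) - FF (1 / 2 + t * I) = logDeriv xi (σ + t * I) - logDeriv xi (1 / 2 + t * I) := by
      rw [e1, e2]
      ring
    rw [e3]
    show (logDeriv xi (σ + t * I) - logDeriv xi (1 / 2 + t * I)).re = FR σ t
    rw [Complex.sub_re, gap_re_zero, sub_zero]
    rfl
  rw [h1] at s3
  refine s3.congr_fun ?_
  intro a
  exact (AF_term hRH σ t a).symm

theorem F_nonneg (hRH : RiemannHypothesis) {σ t : ℝ} (ht : xi (1 / 2 + t * I) ≠ 0) (hσ : 1 / 2 < σ) :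
    0 ≤ FR σ t := by
  refine (F_hasSum hRH ht hσ).nonneg fun a => ?_
  have h1 : 0 < σ - 1 / 2 := by linarith
  positivity

theorem F_lower (hRH : RiemannHypothesis) {σ σ₀ t : ℝ} (ht : xi (1 / 2 + t * I) ≠ 0) (hσ : 1 / 2 < σ)
    (hσ₀ : σ ≤ σ₀) : (σ - 1 / 2) / (σ₀ - 1 / 2) * FR σ₀ t ≤ FR σ t := by
  refine hasSum_le (fun a => ?_) ((F_hasSum hRH ht (lt_of_lt_of_le hσ hσ₀)).mul_left _) (F_hasSum hRH ht hσ)
  have h1 : 0 < σ - 1 / 2 := by linarith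
  have h2 : 0 < σ₀ - 1 / 2 := by linarith
  have h3 : (σ - 1 / 2) / (σ₀ - 1 / 2) * ((mx a : ℝ) * ((σ₀ - 1 / 2) / ((σ₀ - 1 / 2) ^ 2 + (t - a.im) ^ 2))) =
      (mx a : ℝ) * ((σ - 1 / 2) / ((σ₀ - 1 / 2) ^ 2 + (t - a.im) ^ 2)) := by
    rw [mul_left_comm, ← mul_div_assoc ((σ - 1 / 2) / (σ₀ - 1 / 2)), div_mul_cancel₀ _ h2.ne']
  rw [h3]
  refine mul_le_mul_of_nonneg_left ?_ (Nat.cast_nonneg _)
  refine div_le_div_of_nonneg_left h1.le (by positivity) ?_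
  have h5 : (σ - 1 / 2) ^ 2 ≤ (σ₀ - 1 / 2) ^ 2 := pow_le_pow_left₀ h1.le (by linarith) 2
  linarith

end Pool.Agent.Lib.MP_54baa8_nt
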