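import Mathlib
import Pool.Agent.Lib.MP_54baa8_nt.AE
import Pool.Agent.Lib.MP_54baa8_nt.AEF

/-!
# JOB AG: the explicit formula for `Gs L s`

`Gs L s u = wt L u (e^{-su} - e^{-(s+1)u})` on `[0, ∞)`, continuous, `0` for `u ≤ 0` and `u ≥ L`.
* `Gs_transform`: `Gs L s u e^{au} = wt L u (e^{-(s-a)u} - e^{-(s+1-a)u})` on `(0, L)`, then `trap_transform` twice.
* `Gs_explicit`: apply `explicit_cont`. `‖Gs L s u‖ ≤ C u`: `|1 - e^{-u}| ≤ u` and `|e^{-su}| ≤ e^{|Re s| L}` on `[0, L]`.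
  Decay of the transform on `0 ≤ Re a ≤ 1`: if `|Im a| ≤ |Im s| + 1` bound it by `∫_0^L 2 e^{(|Re s| + 2) L}`, and
  `(1 + |Im a|) ^ 2 ≤ (2 + |Im s|) ^ 2`. If `|Im a| > |Im s| + 1`: `1/(s-a) - 1/(s+1-a) = 1/((s-a)(s+1-a))`,
  `‖s - a‖, ‖s + 1 - a‖ ≥ |Im a| - |Im s| ≥ (1 + |Im a|) / (2 + |Im s|)`, and
  `‖Ez L z‖ ≤ (2/L) 2 e^{|Re z| L} / ‖z‖ ^ 2`. Take the maximum of the constants.
* the value: `∑' n, Λ n Gs (log n) = Sw L s - Sw L (s+1)` (finite sum, `n ≤ e^L`; `log 1 = 0`, `Gs 0 = 0` fits as `Λ 1 = 0`).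
-/

open Complex MeasureTheory

namespace Pool.Agent.Lib.MP_54baa8_nt

open Pool.Agent.Lib.MP_00e05b_nt Pool.Agent.Lib.MP_ec260d_nt

/-- the test function -/
noncomputable def Gs (L : ℝ) (s : ℂ) (u : ℝ) : ℂ :=
  if u ≤ 0 then 0 else (wt L u : ℂ) * (Complex.exp (-(s * u)) - Complex.exp (-((s + 1) * u)))

/-- the weighted sum `∑ Λ(n) wt L (log n) n^(-s)` -/
noncomputable def Sw (L : ℝ) (s : ℂ) : ℂ :=
  ∑ n ∈ Finset.Icc 1 ⌊Real.exp L⌋₊, ((ArithmeticFunction.vonMangoldt n * wt L (Real.log n) : ℝ) : ℂ) *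
    Complex.exp (-(s * Real.log n))

private theorem ag_eq_pos {L : ℝ} {s : ℂ} {u : ℝ} (hu : 0 < u) :
    Gs L s u = (wt L u : ℂ) * (Complex.exp (-(s * u)) - Complex.exp (-((s + 1) * u))) := by
  unfold Gs
  rw [if_neg (not_le.mpr hu)]

private theorem ag_zero_le {L : ℝ} {s : ℂ} {u : ℝ} (hu : u ≤ 0) : Gs L s u = 0 := by
  unfold Gs
  rw [if_pos hu]

private theorem ag_zero_ge {L : ℝ} (hL : 0 < L) {s : ℂ} {u : ℝ} (hu : L ≤ u) : Gs L s u = 0 := by
  unfold Gs
  split_ifs with h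
  · rfl
  · rw [wt_of_ge hL hu]
    simp

private theorem ag_cont (L : ℝ) (s : ℂ) : Continuous (Gs L s) := by
  unfold Gs
  refine Continuous.if_le continuous_const ?_ continuous_id continuous_const ?_
  · have h1 : Continuous (fun u : ℝ => (wt L u : ℂ)) := Complex.continuous_ofReal.comp (wt_continuous L)
    have h2 : Continuous (fun u : ℝ => Complex.exp (-(s * u))) := by fun_prop
    have h3 : Continuous (fun u : ℝ => Complex.exp (-((s + 1) * u))) := by fun_prop
    exact h1.mul (h2.sub h3)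
  · intro u hu
    have : u = 0 := hu
    subst this
    simp

private theorem ag_int_eq {L : ℝ} (hL : 0 < L) (s a : ℂ) :
    ∫ u, Gs L s u * Complex.exp (a * u) =
      ∫ u in (0 : ℝ)..L, Gs L s u * Complex.exp (a * u) := by
  rw [intervalIntegral.integral_of_le hL.le, ← MeasureTheory.integral_indicator measurableSet_Ioc]
  refine integral_congr_ae (Filter.Eventually.of_forall fun u => ?_)
  simp only [Set.indicator]
  split_ifs with h
  · rfl
  · rw [Set.mem_Ioc, not_and_or, not_lt, not_le] at h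
    rcases h with h | h
    · rw [ag_zero_le h, zero_mul]
    · rw [ag_zero_ge hL h.le, zero_mul]

theorem Gs_transform {L : ℝ} (hL : 0 < L) {s a : ℂ} (h1 : s - a ≠ 0) (h2 : s + 1 - a ≠ 0) :
    ∫ u, Gs L s u * Complex.exp (a * u) =
      (1 / (s - a) - Ez L (s - a)) - (1 / (s + 1 - a) - Ez L (s + 1 - a)) := by
  rw [ag_int_eq hL, ← trap_transform hL h1, ← trap_transform hL h2]
  have hc : ∀ z : ℂ, Continuous (fun u : ℝ => (wt L u : ℂ) * Complex.exp (-(z * u))) := by
    intro z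
    have h1 : Continuous (fun u : ℝ => (wt L u : ℂ)) := Complex.continuous_ofReal.comp (wt_continuous L)
    have h2 : Continuous (fun u : ℝ => Complex.exp (-(z * u))) := by fun_prop
    exact h1.mul h2
  rw [← intervalIntegral.integral_sub ((hc _).intervalIntegrable _ _) ((hc _).intervalIntegrable _ _)]
  refine intervalIntegral.integral_congr_ae (Filter.Eventually.of_forall fun u hu => ?_)
  rw [Set.uIoc_of_le hL.le, Set.mem_Ioc] at hu
  rw [ag_eq_pos hu.1]
  have e1 : Complex.exp (-((s - a) * u)) = Complex.exp (-(s * u)) * Complex.exp (a * u) := by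
    rw [← Complex.exp_add]
    congr 1
    ring
  have e2 : Complex.exp (-((s + 1 - a) * u)) = Complex.exp (-((s + 1) * u)) * Complex.exp (a * u) := by
    rw [← Complex.exp_add]
    congr 1
    ring
  rw [e1, e2]
  ring

private theorem ag_norm_exp (z : ℂ) (u : ℝ) : ‖Complex.exp (z * u)‖ = Real.exp (z.re * u) := by
  rw [Complex.norm_exp]
  congr 1
  simp

private theorem ag_bound {L : ℝ} (hL : 0 < L) (s : ℂ) (u : ℝ) (hu : 0 ≤ u) :
    ‖Gs L s u‖ ≤ Real.exp (|s.re| * L) * u := by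
  rcases hu.eq_or_lt with h0 | h0
  · rw [ag_zero_le h0.symm.le, norm_zero]
    positivity
  · rcases le_or_gt L u with h1 | h1
    · rw [ag_zero_ge hL h1, norm_zero]
      positivity
    · rw [ag_eq_pos h0, norm_mul]
      have hw : ‖(wt L u : ℂ)‖ ≤ 1 := by
        rw [Complex.norm_real, Real.norm_of_nonneg (wt_nonneg L u)]
        exact wt_le_one L u
      have he : Complex.exp (-(s * u)) - Complex.exp (-((s + 1) * u)) =
          Complex.exp ((-s) * u) * ((1 - Real.exp (-u) : ℝ) : ℂ) := by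
        have : Complex.exp (-((s + 1) * u)) = Complex.exp ((-s) * u) * Complex.exp (-(u : ℂ)) := by
          rw [← Complex.exp_add]
          congr 1
          ring
        rw [this]
        push_cast
        rw [show -(s * (u : ℂ)) = (-s) * u by ring]
        ring
      have h2 : ‖Complex.exp (-(s * u)) - Complex.exp (-((s + 1) * u))‖ ≤
          Real.exp (|s.re| * L) * u := by
        rw [he, norm_mul, ag_norm_exp, Complex.norm_real]
        have h3 : Real.exp ((-s).re * u) ≤ Real.exp (|s.re| * L) := by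
          apply Real.exp_le_exp.mpr
          have h4 : (-s).re * u ≤ |s.re| * u := by
            apply mul_le_mul_of_nonneg_right _ hu
            rw [Complex.neg_re]
            exact neg_le_abs s.re
          have h5 : |s.re| * u ≤ |s.re| * L := mul_le_mul_of_nonneg_left h1.le (abs_nonneg _)
          linarith
        have h6 : ‖(1 - Real.exp (-u) : ℝ)‖ ≤ u := by
          rw [Real.norm_eq_abs, abs_of_nonneg]
          · have := Real.add_one_le_exp (-u)
            linarith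
          · have : Real.exp (-u) ≤ 1 := Real.exp_le_one_iff.mpr (by linarith)
            linarith
        exact mul_le_mul h3 h6 (norm_nonneg _) (Real.exp_pos _).le
      calc ‖(wt L u : ℂ)‖ * ‖Complex.exp (-(s * u)) - Complex.exp (-((s + 1) * u))‖
          ≤ 1 * (Real.exp (|s.re| * L) * u) := mul_le_mul hw h2 (norm_nonneg _) zero_le_one
        _ = _ := one_mul _

private theorem ag_trivial {L : ℝ} (hL : 0 < L) (s a : ℂ) (ha : a.re ≤ 1) :
    ‖∫ u, Gs L s u * Complex.exp (a * u)‖ ≤ Real.exp (|s.re| * L) * L * Real.exp L * L := by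
  rw [ag_int_eq hL]
  have h : ∀ u ∈ Set.uIoc (0 : ℝ) L, ‖Gs L s u * Complex.exp (a * u)‖ ≤
      Real.exp (|s.re| * L) * L * Real.exp L := by
    intro u hu
    rw [Set.uIoc_of_le hL.le, Set.mem_Ioc] at hu
    rw [norm_mul]
    have h1 : ‖Gs L s u‖ ≤ Real.exp (|s.re| * L) * L :=
      (ag_bound hL s u hu.1.le).trans (mul_le_mul_of_nonneg_left hu.2 (Real.exp_pos _).le)
    have h2 : ‖Complex.exp (a * u)‖ ≤ Real.exp L := by
      rw [ag_norm_exp]
      apply Real.exp_le_exp.mpr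
      have : a.re * u ≤ 1 * u := mul_le_mul_of_nonneg_right ha hu.1.le
      linarith [hu.2]
    exact mul_le_mul h1 h2 (norm_nonneg _) (by positivity)
  have := intervalIntegral.norm_integral_le_of_norm_le_const h
  rw [sub_zero, abs_of_pos hL] at this
  exact this

private theorem ag_Ez {L : ℝ} (hL : 0 < L) {z : ℂ} {R : ℝ} (hR : |z.re| ≤ R) :
    ‖Ez L z‖ ≤ 4 / L * Real.exp (R * L) / ‖z‖ ^ 2 := by
  unfold Ez
  rw [norm_div, norm_mul, norm_pow]
  apply div_le_div_of_nonneg_right _ (by positivity)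
  have h1 : ‖(2 / L : ℂ)‖ = 2 / L := by
    rw [norm_div, Complex.norm_real, Real.norm_of_nonneg hL.le]
    simp
  have hR0 : 0 ≤ R := (abs_nonneg _).trans hR
  have h2 : ‖Complex.exp (-(z * (L / 2)))‖ ≤ Real.exp (R * L) := by
    have : -(z * ((L : ℂ) / 2)) = (-z) * ((L / 2 : ℝ) : ℂ) := by
      push_cast
      ring
    rw [this, ag_norm_exp]
    apply Real.exp_le_exp.mpr
    have h3 : (-z).re ≤ R := by
      rw [Complex.neg_re]
      exact (neg_le_abs _).trans hR
    nlinarith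
  have h4 : ‖Complex.exp (-(z * L))‖ ≤ Real.exp (R * L) := by
    have : -(z * (L : ℂ)) = (-z) * (L : ℂ) := by ring
    rw [this, ag_norm_exp]
    apply Real.exp_le_exp.mpr
    have h3 : (-z).re ≤ R := by
      rw [Complex.neg_re]
      exact (neg_le_abs _).trans hR
    nlinarith
  have h5 : ‖Complex.exp (-(z * (L / 2))) - Complex.exp (-(z * L))‖ ≤ 2 * Real.exp (R * L) :=
    (norm_sub_le _ _).trans (by linarith)
  rw [h1]
  calc 2 / L * ‖Complex.exp (-(z * (L / 2))) - Complex.exp (-(z * L))‖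
      ≤ 2 / L * (2 * Real.exp (R * L)) := mul_le_mul_of_nonneg_left h5 (by positivity)
    _ = 4 / L * Real.exp (R * L) := by ring

private theorem ag_inv_bound {s a w : ℂ} (hw : w.im = s.im - a.im) (h : |s.im| + 1 < |a.im|) :
    w ≠ 0 ∧ 1 / ‖w‖ ≤ (2 + |s.im|) / (1 + |a.im|) := by
  have h1 : |a.im| - |s.im| ≤ ‖w‖ := by
    have h2 : |w.im| ≤ ‖w‖ := Complex.abs_im_le_norm w
    have h3 : |a.im| - |s.im| ≤ |a.im - s.im| := abs_sub_abs_le_abs_sub _ _
    have h4 : |a.im - s.im| = |w.im| := by rw [hw, abs_sub_comm]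
    linarith
  have h5 : 0 < ‖w‖ := by linarith [abs_nonneg s.im]
  refine ⟨norm_pos_iff.mp h5, ?_⟩
  rw [div_le_div_iff₀ h5 (by positivity), one_mul]
  have h6 : 0 ≤ |s.im| := abs_nonneg _
  nlinarith

private theorem ag_decay {L : ℝ} (hL : 0 < L) (s a : ℂ) (ha0 : 0 ≤ a.re) (ha : a.re ≤ 1)
    (h : |s.im| + 1 < |a.im|) :
    ‖∫ u, Gs L s u * Complex.exp (a * u)‖ ≤
      (2 + |s.im|) ^ 2 * (1 + 8 / L * Real.exp ((|s.re| + 2) * L)) / (1 + |a.im|) ^ 2 := by
  obtain ⟨h1, h1b⟩ := ag_inv_bound (s := s) (a := a) (w := s - a) (by simp) h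
  obtain ⟨h2, h2b⟩ := ag_inv_bound (s := s) (a := a) (w := s + 1 - a) (by simp) h
  rw [Gs_transform hL h1 h2]
  set q : ℝ := (2 + |s.im|) / (1 + |a.im|) with hq
  have hq0 : 0 ≤ q := by positivity
  have hsq : ∀ w : ℂ, 1 / ‖w‖ ≤ q → 1 / ‖w‖ ^ 2 ≤ q ^ 2 := by
    intro w hw
    have : 1 / ‖w‖ ^ 2 = (1 / ‖w‖) ^ 2 := by rw [div_pow, one_pow]
    rw [this]
    exact pow_le_pow_left₀ (by positivity) hw 2
  have e1 : (1 / (s - a) - Ez L (s - a)) - (1 / (s + 1 - a) - Ez L (s + 1 - a)) =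
      1 / (s - a) * (1 / (s + 1 - a)) - Ez L (s - a) + Ez L (s + 1 - a) := by
    have : 1 / (s - a) - 1 / (s + 1 - a) = 1 / (s - a) * (1 / (s + 1 - a)) := by
      field_simp
      ring
    rw [← this]
    ring
  rw [e1]
  have hn1 : ‖1 / (s - a) * (1 / (s + 1 - a))‖ ≤ q ^ 2 := by
    rw [norm_mul, norm_div, norm_div, norm_one, sq]
    exact mul_le_mul h1b h2b (by positivity) hq0
  have hre1 : |(s - a).re| ≤ |s.re| + 2 := by
    rw [Complex.sub_re]
    have := abs_sub s.re a.re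
    have h3 : |a.re| ≤ 1 := by rw [abs_le]; constructor <;> linarith
    linarith
  have hre2 : |(s + 1 - a).re| ≤ |s.re| + 2 := by
    rw [Complex.sub_re, Complex.add_re, Complex.one_re]
    have h3 : |(1 : ℝ) - a.re| ≤ 1 := by rw [abs_le]; constructor <;> linarith
    have h4 : |s.re + 1 - a.re| ≤ |s.re| + |1 - a.re| := by
      rw [add_sub_assoc]
      exact abs_add_le _ _
    linarith
  have hE : ∀ w : ℂ, 1 / ‖w‖ ≤ q → |w.re| ≤ |s.re| + 2 →
      ‖Ez L w‖ ≤ 4 / L * Real.exp ((|s.re| + 2) * L) * q ^ 2 := by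
    intro w hw hwr
    refine (ag_Ez hL hwr).trans ?_
    rw [div_eq_mul_one_div]
    exact mul_le_mul_of_nonneg_left (hsq w hw) (by positivity)
  have hn2 := hE (s - a) h1b hre1
  have hn3 := hE (s + 1 - a) h2b hre2
  have hfin : (2 + |s.im|) ^ 2 * (1 + 8 / L * Real.exp ((|s.re| + 2) * L)) / (1 + |a.im|) ^ 2 =
      q ^ 2 + 4 / L * Real.exp ((|s.re| + 2) * L) * q ^ 2 +
        4 / L * Real.exp ((|s.re| + 2) * L) * q ^ 2 := by
    rw [hq, div_pow]
    ring
  rw [hfin]
  calc ‖1 / (s - a) * (1 / (s + 1 - a)) - Ez L (s - a) + Ez L (s + 1 - a)‖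
      ≤ ‖1 / (s - a) * (1 / (s + 1 - a)) - Ez L (s - a)‖ + ‖Ez L (s + 1 - a)‖ := norm_add_le _ _
    _ ≤ (‖1 / (s - a) * (1 / (s + 1 - a))‖ + ‖Ez L (s - a)‖) + ‖Ez L (s + 1 - a)‖ := by
        gcongr
        exact norm_sub_le _ _
    _ ≤ _ := by linarith

private theorem ag_tsum {L : ℝ} (hL : 0 < L) (s : ℂ) :
    ∑' n : ℕ, ((ArithmeticFunction.vonMangoldt n : ℝ) : ℂ) * Gs L s (Real.log n) =
      Sw L s - Sw L (s + 1) := by
  rw [tsum_eq_sum (s := Finset.Icc 1 ⌊Real.exp L⌋₊)]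
  · unfold Sw
    rw [← Finset.sum_sub_distrib]
    refine Finset.sum_congr rfl fun n hn => ?_
    have hn1 : 1 ≤ n := (Finset.mem_Icc.mp hn).1
    rcases hn1.eq_or_lt with h1 | h1
    · subst h1
      simp
    · have hlog : 0 < Real.log n := Real.log_pos (by exact_mod_cast h1)
      rw [ag_eq_pos hlog]
      push_cast
      ring
  · intro n hn
    rw [Finset.mem_Icc, not_and_or, not_le, not_le] at hn
    rcases hn with h | h
    · have : n = 0 := by omega
      subst this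
      simp
    · have h1 : Real.exp L < n := (Nat.floor_lt (Real.exp_pos L).le).mp h
      have h2 : L ≤ Real.log n := by
        rw [← Real.log_exp L]
        exact Real.log_le_log (Real.exp_pos _) h1.le
      rw [ag_zero_ge hL h2, mul_zero]

theorem Gs_explicit {L : ℝ} (hL : 0 < L) (s : ℂ) :
    HasSum (fun a : ℂ => (mx a : ℂ) * ∫ u, Gs L s u * Complex.exp (a * u))
      ((∫ u, Gs L s u * Complex.exp u) - (∫ u, Gs L s u * (rt u : ℂ)) - (Sw L s - Sw L (s + 1))) := by
  rw [← ag_tsum hL s]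
  set C1 : ℝ := Real.exp (|s.re| * L) with hC1
  set K1 : ℝ := Real.exp (|s.re| * L) * L * Real.exp L * L with hK1
  set K2 : ℝ := (2 + |s.im|) ^ 2 * (1 + 8 / L * Real.exp ((|s.re| + 2) * L)) with hK2
  have hC10 : 0 ≤ C1 := by positivity
  have hK10 : 0 ≤ K1 := by positivity
  have hK20 : 0 ≤ K2 := by positivity
  have hM0 : 0 ≤ K1 * (2 + |s.im|) ^ 2 := by positivity
  refine explicit_cont (B := L) (C := C1 + K1 * (2 + |s.im|) ^ 2 + K2) (ag_cont L s) hL.le
    (fun u hu => ag_zero_le hu) (fun u hu => ag_zero_ge hL hu) ?_ ?_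
  · intro u hu
    refine (ag_bound hL s u hu).trans ?_
    apply mul_le_mul_of_nonneg_right _ hu
    linarith
  · intro a ha0 ha1
    rcases le_or_gt (|a.im|) (|s.im| + 1) with h | h
    · have h1 := ag_trivial hL s a ha1
      refine h1.trans ?_
      rw [le_div_iff₀ (by positivity)]
      have h2 : (1 + |a.im|) ^ 2 ≤ (2 + |s.im|) ^ 2 := by
        apply pow_le_pow_left₀ (by positivity)
        linarith
      calc K1 * (1 + |a.im|) ^ 2 ≤ K1 * (2 + |s.im|) ^ 2 := mul_le_mul_of_nonneg_left h2 hK10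
        _ ≤ _ := by linarith
    · refine (ag_decay hL s a ha0 ha1 h).trans ?_
      apply div_le_div_of_nonneg_right _ (by positivity)
      linarith

end Pool.Agent.Lib.MP_54baa8_nt
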