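import Mathlib
import Pool.Agent.Lib.MP_ec260d_nt.DigammaUnif
import Pool.Agent.Lib.MP_ec260d_nt.DigammaC

/-!
# JOB AGam: the Gamma factor

`Gd s = 1/s + 1/(s-1) - (log π)/2 + digamma (s/2) / 2`.
* `digamma_upper`: for `1/2 ≤ Re s ≤ 3`, `Im s = t ≥ 2`: `Complex.digamma_apply_add_one`-type recursion
  `digamma (z + 1) = digamma z + 1/z` (Mathlib: `Complex.digamma_apply_add_one`, or from `digamma_hasSum`), with `z = s/2`, so
  `1/4 ≤ Re z`, `1 ≤ Im z`; `re_digamma_unif` at `z + 1` (`Re ∈ [5/4, 5/2]`) gives `Re digamma (z+1) ≤ log (t/2) + C`, and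
  `|1/z| ≤ 1`. Hence `Re Gd s ≤ (1/2) log t + C'` (`|1/s|, |1/(s-1)| ≤ 1/t ≤ 1`).
* `gd_diff`: `digamma_hasSum` at `z = s/2` and `z' = (s+1)/2 = z + 1/2`:
  `digamma z - digamma z' = ∑ n, (1/(n+z') - 1/(n+z)) = -∑ (1/2) / ((n+z)(n+z'))`, and with `x = Re z ≥ 1/4`, `y = Im z = t/2 ≥ 1`:
  `‖n + z‖ ‖n + z'‖ ≥ n ^ 2 + y ^ 2 ≥ ... `; `∑_{n ≥ 0} 1 / (n ^ 2 + y ^ 2) ≤ 1/y^2 + ∫_0^∞ dx/(x^2+y^2) ≤ 1/y^2 + 2/y ≤ 3/y`. (A simple
  way: `∑_{n < y} ≤ (y + 1) / y ^ 2 ≤ 2/y` and `∑_{n ≥ y, n ≥ 1} 1/n^2 ≤ 4 / y`.) And `|1/s|, |1/(s±1)| ≤ 1/t`.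
-/

open Complex

namespace Pool.Agent.Lib.MP_54baa8_nt

open Pool.Agent.Lib.MP_ec260d_nt

/-- logarithmic derivative of the factor `s (1-s) π^(-s/2) Γ(s/2)` -/
noncomputable def Gd (s : ℂ) : ℂ :=
  1 / s + 1 / (s - 1) - (Real.log Real.pi : ℂ) / 2 + Complex.digamma (s / 2) / 2

private theorem agam_inv {z : ℂ} {t : ℝ} (ht : 0 < t) (h : t ≤ |z.im|) : ‖1 / z‖ ≤ 1 / t := by
  rw [norm_div, norm_one]
  exact one_div_le_one_div_of_le ht (h.trans (Complex.abs_im_le_norm z))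

private theorem agam_term {z : ℂ} (hx : 0 ≤ z.re) (hy : 1 ≤ z.im) (n : ℕ) :
    ‖(1 / ((n : ℂ) + 1) - 1 / ((n : ℂ) + z)) - (1 / ((n : ℂ) + 1) - 1 / ((n : ℂ) + (z + 1 / 2)))‖ ≤
      1 / ((n : ℝ) + z.im - 1 / 2) - 1 / (((n + 1 : ℕ) : ℝ) + z.im - 1 / 2) := by
  have hn : (0 : ℝ) ≤ n := Nat.cast_nonneg n
  have key : ∀ w : ℂ, 0 ≤ w.re → w.im = z.im → ((n : ℝ) + z.im) ^ 2 ≤ 2 * ‖(n : ℂ) + w‖ ^ 2 := by
    intro w hw hi
    rw [← Complex.normSq_eq_norm_sq, Complex.normSq_apply]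
    simp only [Complex.add_re, Complex.natCast_re, Complex.add_im, Complex.natCast_im, zero_add]
    rw [hi]
    nlinarith [sq_nonneg ((n : ℝ) - z.im), mul_nonneg hn hw, mul_nonneg hw hw]
  have k1 := key z hx rfl
  have k2 := key (z + 1 / 2) (by simp; linarith) (by simp)
  have hpos : 0 < (n : ℝ) + z.im := by linarith
  have n1 : 0 < ‖(n : ℂ) + z‖ := by
    by_contra h
    have : ‖(n : ℂ) + z‖ = 0 := le_antisymm (not_lt.mp h) (norm_nonneg _)
    rw [this] at k1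
    nlinarith
  have n2 : 0 < ‖(n : ℂ) + (z + 1 / 2)‖ := by
    by_contra h
    have : ‖(n : ℂ) + (z + 1 / 2)‖ = 0 := le_antisymm (not_lt.mp h) (norm_nonneg _)
    rw [this] at k2
    nlinarith
  have z1 : (n : ℂ) + z ≠ 0 := norm_pos_iff.mp n1
  have z2 : (n : ℂ) + (z + 1 / 2) ≠ 0 := norm_pos_iff.mp n2
  have e : (1 / ((n : ℂ) + 1) - 1 / ((n : ℂ) + z)) - (1 / ((n : ℂ) + 1) - 1 / ((n : ℂ) + (z + 1 / 2))) =
      -(1 / 2) / (((n : ℂ) + z) * ((n : ℂ) + (z + 1 / 2))) := by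
    have gen : ∀ a b c : ℂ, a ≠ 0 → b ≠ 0 → c - 1 / a - (c - 1 / b) = (a - b) / (a * b) := by
      intro a b c ha hb
      field_simp
      ring
    rw [gen _ _ _ z1 z2]
    congr 1
    ring
  rw [e, norm_div, norm_mul, norm_neg]
  have h12 : ‖(1 / 2 : ℂ)‖ = 1 / 2 := by norm_num
  rw [h12]
  have hprod : ((n : ℝ) + z.im) ^ 2 ≤ 2 * (‖(n : ℂ) + z‖ * ‖(n : ℂ) + (z + 1 / 2)‖) := by
    have h4 : (((n : ℝ) + z.im) ^ 2) ^ 2 ≤ (2 * (‖(n : ℂ) + z‖ * ‖(n : ℂ) + (z + 1 / 2)‖)) ^ 2 := by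
      have := mul_le_mul k1 k2 (by positivity) (by positivity)
      calc (((n : ℝ) + z.im) ^ 2) ^ 2 = ((n : ℝ) + z.im) ^ 2 * ((n : ℝ) + z.im) ^ 2 := by ring
        _ ≤ _ := this
        _ = _ := by ring
    exact le_of_sq_le_sq h4 (by positivity)
  have hA : 0 < ‖(n : ℂ) + z‖ * ‖(n : ℂ) + (z + 1 / 2)‖ := mul_pos n1 n2
  have hB : 0 < (n : ℝ) + z.im - 1 / 2 := by linarith
  have hC : 0 < ((n + 1 : ℕ) : ℝ) + z.im - 1 / 2 := by push_cast; linarith
  have e2 : 1 / ((n : ℝ) + z.im - 1 / 2) - 1 / (((n + 1 : ℕ) : ℝ) + z.im - 1 / 2) =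
      1 / (((n : ℝ) + z.im) ^ 2 - 1 / 4) := by
    have gen : ∀ m : ℝ, 0 < m - 1 / 2 → 1 / (m - 1 / 2) - 1 / (m + 1 / 2) = 1 / (m ^ 2 - 1 / 4) := by
      intro m hm
      have hm2 : 0 < m + 1 / 2 := by linarith
      rw [show m ^ 2 - 1 / 4 = (m - 1 / 2) * (m + 1 / 2) by ring, div_sub_div _ _ hm.ne' hm2.ne']
      congr 1
      ring
    have e3 : ((n + 1 : ℕ) : ℝ) + z.im - 1 / 2 = (n : ℝ) + z.im + 1 / 2 := by push_cast; ring
    rw [e3]
    exact gen _ hB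
  rw [e2]
  have hD : 0 < ((n : ℝ) + z.im) ^ 2 - 1 / 4 := by nlinarith
  rw [div_le_div_iff₀ hA hD]
  linarith

private theorem agam_tel {y : ℝ} (hy : 1 ≤ y) :
    HasSum (fun n : ℕ => 1 / ((n : ℝ) + y - 1 / 2) - 1 / (((n + 1 : ℕ) : ℝ) + y - 1 / 2)) (1 / (y - 1 / 2)) := by
  have hn0 : ∀ n : ℕ, (0 : ℝ) ≤ n := fun n => Nat.cast_nonneg n
  rw [hasSum_iff_tendsto_nat_of_nonneg]
  · have e : (fun n : ℕ => ∑ i ∈ Finset.range n, (1 / ((i : ℝ) + y - 1 / 2) - 1 / (((i + 1 : ℕ) : ℝ) + y - 1 / 2))) =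
        fun n : ℕ => 1 / (y - 1 / 2) - 1 / ((n : ℝ) + (y - 1 / 2)) := by
      funext n
      have := Finset.sum_range_sub' (fun i : ℕ => 1 / ((i : ℝ) + y - 1 / 2)) n
      rw [this]
      simp only [Nat.cast_zero, zero_add]
      rw [add_sub_assoc]
    rw [e]
    have h1 : Filter.Tendsto (fun n : ℕ => 1 / ((n : ℝ) + (y - 1 / 2))) Filter.atTop (nhds 0) := by
      have h2 : Filter.Tendsto (fun n : ℕ => (n : ℝ) + (y - 1 / 2)) Filter.atTop Filter.atTop :=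
        Filter.tendsto_atTop_add_const_right _ _ tendsto_natCast_atTop_atTop
      have h3 := tendsto_inv_atTop_zero.comp h2
      refine h3.congr fun n => ?_
      simp only [Function.comp_apply, one_div]
    simpa using tendsto_const_nhds.sub h1
  · intro n
    have hB : 0 < (n : ℝ) + y - 1 / 2 := by have := hn0 n; linarith
    have hC : (n : ℝ) + y - 1 / 2 ≤ ((n + 1 : ℕ) : ℝ) + y - 1 / 2 := by push_cast; linarith
    have := one_div_le_one_div_of_le hB hC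
    linarith

private theorem agam_dig {z : ℂ} (hx : 0 < z.re) (hy : 1 ≤ z.im) :
    ‖Complex.digamma z - Complex.digamma (z + 1 / 2)‖ ≤ 2 / z.im := by
  have h1 := digamma_hasSum hx
  have h2 := digamma_hasSum (z := z + 1 / 2) (by simp; linarith)
  have h3 := h1.sub h2
  have h4 := h3.norm_le_of_bounded (agam_tel hy) (agam_term hx.le hy)
  have e : Complex.digamma z + (Real.eulerMascheroniConstant : ℂ) - (Complex.digamma (z + 1 / 2) + Real.eulerMascheroniConstant) =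
      Complex.digamma z - Complex.digamma (z + 1 / 2) := by ring
  rw [e] at h4
  refine h4.trans ?_
  rw [div_le_div_iff₀ (by linarith) (by linarith)]
  linarith

theorem gd_upper : ∃ C : ℝ, 0 ≤ C ∧ ∀ σ t : ℝ, 1 / 2 ≤ σ → σ ≤ 3 → 2 ≤ t →
    (Gd (σ + t * I)).re ≤ 1 / 2 * Real.log t + C := by
  obtain ⟨C, hC, h⟩ := re_digamma_unif
  refine ⟨1 + C / 2, by linarith, fun σ t h1 h2 h3 => ?_⟩
  have ht : (0 : ℝ) < t := by linarith
  set s : ℂ := σ + t * I with hs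
  have sre : s.re = σ := by simp [hs]
  have sim : s.im = t := by simp [hs]
  have zre : (s / 2).re = σ / 2 := by
    rw [show s / 2 = s * ((1 / 2 : ℝ) : ℂ) by push_cast; ring, Complex.re_mul_ofReal, sre]; ring
  have zim : (s / 2).im = t / 2 := by
    rw [show s / 2 = s * ((1 / 2 : ℝ) : ℂ) by push_cast; ring, Complex.im_mul_ofReal, sim]; ring
  have hz0 : 0 < (s / 2).re := by rw [zre]; linarith
  have hrec : Complex.digamma (s / 2 + 1) = Complex.digamma (s / 2) + (s / 2)⁻¹ := by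
    refine Complex.digamma_apply_add_one (s / 2) fun m hm => ?_
    have := congrArg Complex.im hm
    rw [zim] at this
    simp at this
    linarith
  have hu := h (s / 2 + 1) (by simp only [Complex.add_re, Complex.one_re]; linarith)
    (by simp only [Complex.add_re, Complex.one_re]; rw [zre]; linarith)
    (by simp only [Complex.add_im, Complex.one_im, add_zero]; rw [zim, abs_of_pos (by linarith)]; linarith)
  have him : |(s / 2 + 1).im| = t / 2 := by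
    simp only [Complex.add_im, Complex.one_im, add_zero]; rw [zim, abs_of_pos (by linarith)]
  rw [him] at hu
  have hlog : Real.log (t / 2) ≤ Real.log t := Real.log_le_log (by linarith) (by linarith)
  have hre : (Complex.digamma (s / 2)).re = (Complex.digamma (s / 2 + 1)).re - ((s / 2)⁻¹).re := by
    rw [hrec]; simp
  have hinv : 0 ≤ ((s / 2)⁻¹).re := by
    rw [Complex.inv_re]
    exact div_nonneg hz0.le (Complex.normSq_nonneg _)
  have hle := (abs_le.mp hu).2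
  have a1 : (1 / s).re ≤ 1 / t := (Complex.re_le_norm _).trans (agam_inv ht (by rw [sim, abs_of_pos ht]))
  have a2 : (1 / (s - 1)).re ≤ 1 / t :=
    (Complex.re_le_norm _).trans (agam_inv ht (by simp only [Complex.sub_im, Complex.one_im, sub_zero]; rw [sim, abs_of_pos ht]))
  have a3 : 1 / t ≤ 1 / 2 := one_div_le_one_div_of_le (by norm_num) h3
  have hpi : 0 ≤ Real.log Real.pi := Real.log_nonneg (by linarith [Real.pi_gt_three])
  have hG : (Gd s).re = (1 / s).re + (1 / (s - 1)).re - Real.log Real.pi / 2 + (Complex.digamma (s / 2)).re / 2 := by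
    have e1 : ((Real.log Real.pi : ℂ) / 2).re = Real.log Real.pi / 2 := by
      rw [show (Real.log Real.pi : ℂ) / 2 = ((Real.log Real.pi / 2 : ℝ) : ℂ) by push_cast; ring, Complex.ofReal_re]
    have e2 : (Complex.digamma (s / 2) / 2).re = (Complex.digamma (s / 2)).re / 2 := by
      rw [show Complex.digamma (s / 2) / 2 = Complex.digamma (s / 2) * ((1 / 2 : ℝ) : ℂ) by push_cast; ring,
        Complex.re_mul_ofReal]; ring
    rw [Gd, Complex.add_re, Complex.sub_re, Complex.add_re, e1, e2]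
  rw [hG, hre]
  linarith

theorem gd_diff : ∃ C : ℝ, 0 ≤ C ∧ ∀ σ t : ℝ, 1 / 2 ≤ σ → σ ≤ 2 → 2 ≤ t →
    |(Gd (σ + t * I)).re - (Gd (σ + t * I + 1)).re| ≤ C / t := by
  refine ⟨4, by norm_num, fun σ t h1 h2 h3 => ?_⟩
  have ht : (0 : ℝ) < t := by linarith
  set s : ℂ := σ + t * I with hs
  have sre : s.re = σ := by simp [hs]
  have sim : s.im = t := by simp [hs]
  have zre : (s / 2).re = σ / 2 := by
    rw [show s / 2 = s * ((1 / 2 : ℝ) : ℂ) by push_cast; ring, Complex.re_mul_ofReal, sre]; ring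
  have zim : (s / 2).im = t / 2 := by
    rw [show s / 2 = s * ((1 / 2 : ℝ) : ℂ) by push_cast; ring, Complex.im_mul_ofReal, sim]; ring
  have hd := agam_dig (z := s / 2) (by rw [zre]; linarith) (by rw [zim]; linarith)
  rw [zim] at hd
  have e : Gd s - Gd (s + 1) = 1 / (s - 1) - 1 / (s + 1) + (Complex.digamma (s / 2) - Complex.digamma (s / 2 + 1 / 2)) / 2 := by
    rw [Gd, Gd, show (s + 1) / 2 = s / 2 + 1 / 2 by ring, show s + 1 - 1 = s by ring]
    ring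
  rw [← Complex.sub_re, e]
  refine (Complex.abs_re_le_norm _).trans ?_
  have b1 : ‖1 / (s - 1)‖ ≤ 1 / t :=
    agam_inv ht (by simp only [Complex.sub_im, Complex.one_im, sub_zero]; rw [sim, abs_of_pos ht])
  have b2 : ‖1 / (s + 1)‖ ≤ 1 / t :=
    agam_inv ht (by simp only [Complex.add_im, Complex.one_im, add_zero]; rw [sim, abs_of_pos ht])
  have b3 : ‖(Complex.digamma (s / 2) - Complex.digamma (s / 2 + 1 / 2)) / 2‖ ≤ 2 / (t / 2) / 2 := by
    rw [norm_div, Complex.norm_two]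
    exact div_le_div_of_nonneg_right hd (by norm_num)
  have b4 : 2 / (t / 2) / 2 = 2 / t := by field_simp
  rw [b4] at b3
  have b5 : 4 / t = 1 / t + 1 / t + 2 / t := by ring
  rw [b5]
  refine (norm_add_le _ _).trans (add_le_add ?_ b3)
  exact (norm_sub_le _ _).trans (add_le_add b1 b2)

end Pool.Agent.Lib.MP_54baa8_nt
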