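import Mathlib
import Pool.Agent.Lib.MP_54baa8_nt.AG

/-!
# JOB APole: the pole term

`Gs_transform` with `a = 1`: `∫ Gs e^u = 1/(s-1) - Ez (s-1) - 1/s + Ez s`. For `s = σ + it`, `1/2 ≤ σ ≤ 2`, `t ≥ 1`:
`|1/(s-1)|, |1/s| ≤ 1/t`; `Ez_bound'` (`Re (s-1) ≥ -1/2`): `‖Ez (s-1)‖, ‖Ez s‖ ≤ (4/L) e^{L/2} / t ^ 2`, and `L ≥ 1`,
`e^{L/2} ≤ t` (from `L ≤ log t`), so the total is at most `10 / t`.
-/

open Complex MeasureTheory

namespace Pool.Agent.Lib.MP_54baa8_nt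

private theorem APole_one {L t : ℝ} (hL : 1 ≤ L) (ht : 1 ≤ t) (hLt : L ≤ Real.log t) {z : ℂ} (hre : -(1 / 2) ≤ z.re)
    (him : z.im = t) : z ≠ 0 ∧ ‖1 / z - Ez L z‖ ≤ 5 / t := by
  have ht0 : 0 < t := by linarith
  have hL0 : 0 < L := by linarith
  have hzt : t ≤ ‖z‖ := by
    have h := Complex.abs_im_le_norm z
    rw [him, abs_of_pos ht0] at h
    exact h
  have hz : z ≠ 0 := norm_pos_iff.1 (lt_of_lt_of_le ht0 hzt)
  refine ⟨hz, ?_⟩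
  have h1 : ‖1 / z‖ ≤ 1 / t := by
    rw [norm_div, norm_one]
    exact one_div_le_one_div_of_le ht0 hzt
  have h2 : ‖Ez L z‖ ≤ 4 / t := by
    refine (Ez_bound' hL0 hz hre).trans ?_
    have h3 : Real.exp (L / 2) ≤ t := by
      calc Real.exp (L / 2) ≤ Real.exp (Real.log t) := Real.exp_le_exp.2 (by linarith)
        _ = t := Real.exp_log ht0
    have h4 : 4 / L ≤ 4 := by
      rw [div_le_iff₀ hL0]
      linarith
    have h5 : 4 / L * Real.exp (L / 2) ≤ 4 * t :=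
      mul_le_mul h4 h3 (Real.exp_nonneg _) (by norm_num)
    have h6 : t ^ 2 ≤ ‖z‖ ^ 2 := pow_le_pow_left₀ ht0.le hzt 2
    calc 4 / L * Real.exp (L / 2) / ‖z‖ ^ 2 ≤ 4 * t / t ^ 2 :=
          div_le_div₀ (by positivity) h5 (by positivity) h6
      _ = 4 / t := by
          field_simp
  calc ‖1 / z - Ez L z‖ ≤ ‖1 / z‖ + ‖Ez L z‖ := norm_sub_le _ _
    _ ≤ 1 / t + 4 / t := add_le_add h1 h2
    _ = 5 / t := by ring

theorem pole_bound {L σ t : ℝ} (hL : 1 ≤ L) (ht : 1 ≤ t) (hLt : L ≤ Real.log t) (h1 : 1 / 2 ≤ σ)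
    (h2 : σ ≤ 2) : ‖∫ u, Gs L (σ + t * I) u * Complex.exp u‖ ≤ 10 / t := by
  have e1 : ((σ : ℂ) + t * I - 1).re = σ - 1 := by simp
  have e2 : ((σ : ℂ) + t * I - 1).im = t := by simp
  have e3 : ((σ : ℂ) + t * I + 1 - 1).re = σ := by simp
  have e4 : ((σ : ℂ) + t * I + 1 - 1).im = t := by simp
  obtain ⟨a1, a2⟩ := APole_one hL ht hLt (z := (σ : ℂ) + t * I - 1) (by rw [e1]; linarith) e2
  obtain ⟨b1, b2⟩ := APole_one hL ht hLt (z := (σ : ℂ) + t * I + 1 - 1) (by rw [e3]; linarith) e4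
  have h := Gs_transform (L := L) (by linarith) a1 b1
  have h3 : ∫ u, Gs L (σ + t * I) u * Complex.exp u = ∫ u, Gs L (σ + t * I) u * Complex.exp (1 * u) := by
    simp only [one_mul]
  rw [h3, h]
  calc _ ≤ 5 / t + 5 / t := (norm_sub_le _ _).trans (add_le_add a2 b2)
    _ = 10 / t := by ring

end Pool.Agent.Lib.MP_54baa8_nt
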