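import Mathlib
import Pool.Agent.Lib.MP_54baa8_nt.AG

/-!
# JOB ATail: tails of the sums over `n`
-/

open Complex Filter

namespace Pool.Agent.Lib.MP_54baa8_nt

/-- the tail -/
noncomputable def TL (L : ℝ) : ℝ :=
  ∑' n : ℕ, ArithmeticFunction.vonMangoldt n * (1 - wt L (Real.log n)) * Real.exp (-(3 / 2 * Real.log n))

/-- `∑ (Λ(n) wt L (log n) / log n) n^(-s)` -/
noncomputable def Sl (L : ℝ) (s : ℂ) : ℂ :=
  ∑ n ∈ Finset.Icc 1 ⌊Real.exp L⌋₊,
    ((ArithmeticFunction.vonMangoldt n * wt L (Real.log n) / Real.log n : ℝ) : ℂ) *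
      Complex.exp (-(s * Real.log n))

private theorem atl_norm_exp (s : ℂ) (x : ℝ) :
    ‖Complex.exp (-(s * x))‖ = Real.exp (-(s.re * x)) := by
  rw [Complex.norm_exp, Complex.neg_re, Complex.re_mul_ofReal]

private theorem atl_cpow (s : ℂ) {n : ℕ} (hn : n ≠ 0) :
    Complex.exp (-(s * Real.log n)) = (n : ℂ) ^ (-s) := by
  rw [Complex.cpow_def_of_ne_zero (by exact_mod_cast hn), ← Complex.natCast_log]
  congr 1
  ring

private theorem atl_term (s : ℂ) (n : ℕ) :
    LSeries.term (fun n => ((ArithmeticFunction.vonMangoldt n : ℝ) : ℂ)) s n =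
      ((ArithmeticFunction.vonMangoldt n : ℝ) : ℂ) * Complex.exp (-(s * Real.log n)) := by
  rcases eq_or_ne n 0 with h | h
  · subst h; simp
  · rw [LSeries.term_of_ne_zero h, atl_cpow s h, Complex.cpow_neg, div_eq_mul_inv]

private theorem atl_summable {σ : ℝ} (hσ : 1 < σ) :
    Summable (fun n : ℕ => ArithmeticFunction.vonMangoldt n * Real.exp (-(σ * Real.log n))) := by
  have h := (ArithmeticFunction.LSeriesSummable_vonMangoldt (s := (σ : ℂ)) (by simpa using hσ)).norm
  refine h.congr fun n => ?_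
  have h1 := atl_term (σ : ℂ) n
  have h2 : LSeries.term (fun n => ((ArithmeticFunction.vonMangoldt n : ℝ) : ℂ)) (σ : ℂ) n =
    LSeries.term (fun n => ((ArithmeticFunction.vonMangoldt n : ℝ) : ℂ)) (σ : ℂ) n := rfl
  rw [h1, norm_mul, Complex.norm_real,
    Real.norm_of_nonneg ArithmeticFunction.vonMangoldt_nonneg, atl_norm_exp, Complex.ofReal_re]

private theorem atl_summable_TL (L : ℝ) : Summable (fun n : ℕ =>
    ArithmeticFunction.vonMangoldt n * (1 - wt L (Real.log n)) * Real.exp (-(3 / 2 * Real.log n))) := by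
  refine Summable.of_nonneg_of_le (fun n => ?_) (fun n => ?_) (atl_summable (σ := 3 / 2) (by norm_num))
  · have h1 := wt_le_one L (Real.log n)
    have h2 : 0 ≤ ArithmeticFunction.vonMangoldt n := ArithmeticFunction.vonMangoldt_nonneg
    have h3 : 0 ≤ 1 - wt L (Real.log n) := by linarith
    positivity
  · have h1 := wt_nonneg L (Real.log n)
    have h2 : 0 ≤ ArithmeticFunction.vonMangoldt n := ArithmeticFunction.vonMangoldt_nonneg
    have h3 : 1 - wt L (Real.log n) ≤ 1 := by linarith
    calc ArithmeticFunction.vonMangoldt n * (1 - wt L (Real.log n)) * Real.exp (-(3 / 2 * Real.log n))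
        ≤ ArithmeticFunction.vonMangoldt n * 1 * Real.exp (-(3 / 2 * Real.log n)) := by gcongr
      _ = _ := by rw [mul_one]

theorem TL_tendsto : Filter.Tendsto TL Filter.atTop (nhds 0) := by
  have h := tendsto_tsum_of_dominated_convergence (𝓕 := atTop)
    (f := fun (L : ℝ) (n : ℕ) => ArithmeticFunction.vonMangoldt n * (1 - wt L (Real.log n)) *
      Real.exp (-(3 / 2 * Real.log n))) (g := fun _ : ℕ => (0 : ℝ))
    (bound := fun n : ℕ => ArithmeticFunction.vonMangoldt n * Real.exp (-(3 / 2 * Real.log n)))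
    (atl_summable (σ := 3 / 2) (by norm_num)) ?_ ?_
  · unfold TL
    simpa using h
  · intro n
    refine tendsto_const_nhds.congr' ?_
    filter_upwards [eventually_ge_atTop (max 1 (2 * Real.log n))] with L hL
    have h1 : (1 : ℝ) ≤ L := (le_max_left _ _).trans hL
    have h2 : 2 * Real.log n ≤ L := (le_max_right _ _).trans hL
    rw [wt_of_le (by linarith) (by linarith)]
    simp
  · refine Eventually.of_forall fun L n => ?_
    have h1 := wt_le_one L (Real.log n)
    have h4 := wt_nonneg L (Real.log n)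
    have h2 : 0 ≤ ArithmeticFunction.vonMangoldt n := ArithmeticFunction.vonMangoldt_nonneg
    have h3 : 0 ≤ 1 - wt L (Real.log n) := by linarith
    have h5 : 1 - wt L (Real.log n) ≤ 1 := by linarith
    rw [Real.norm_of_nonneg (by positivity)]
    calc ArithmeticFunction.vonMangoldt n * (1 - wt L (Real.log n)) * Real.exp (-(3 / 2 * Real.log n))
        ≤ ArithmeticFunction.vonMangoldt n * 1 * Real.exp (-(3 / 2 * Real.log n)) := by gcongr
      _ = _ := by rw [mul_one]

private theorem atl_wt_zero {L : ℝ} (hL : 0 < L) {n : ℕ} (hn : n ∉ Finset.Icc 1 ⌊Real.exp L⌋₊)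
    (hn0 : n ≠ 0) : wt L (Real.log n) = 0 := by
  apply wt_of_ge hL
  rw [Finset.mem_Icc, not_and_or, not_le, not_le] at hn
  have h1 : ⌊Real.exp L⌋₊ < n := by
    rcases hn with h | h
    · omega
    · exact h
  have h2 : Real.exp L < n := (Nat.floor_lt (Real.exp_pos _).le).1 h1
  exact ((Real.lt_log_iff_exp_lt (by exact_mod_cast Nat.pos_of_ne_zero hn0)).2 h2).le

private theorem atl_Sw {L : ℝ} (hL : 0 < L) (s : ℂ) :
    HasSum (fun n : ℕ => ((ArithmeticFunction.vonMangoldt n * wt L (Real.log n) : ℝ) : ℂ) *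
      Complex.exp (-(s * Real.log n))) (Sw L s) := by
  refine hasSum_sum_of_ne_finset_zero fun n hn => ?_
  rcases eq_or_ne n 0 with h | h
  · subst h; simp
  · rw [atl_wt_zero hL hn h]
    simp

private theorem atl_Sl {L : ℝ} (hL : 0 < L) (s : ℂ) :
    HasSum (fun n : ℕ => ((ArithmeticFunction.vonMangoldt n * wt L (Real.log n) / Real.log n : ℝ) : ℂ) *
      Complex.exp (-(s * Real.log n))) (Sl L s) := by
  refine hasSum_sum_of_ne_finset_zero fun n hn => ?_
  rcases eq_or_ne n 0 with h | h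
  · subst h; simp
  · rw [atl_wt_zero hL hn h]
    simp

theorem tail_three_half {L σ t : ℝ} (hL : 0 < L) (hσ : 1 / 2 ≤ σ) :
    ‖LSeries (fun n => ((ArithmeticFunction.vonMangoldt n : ℝ) : ℂ)) (σ + t * I + 1) -
      Sw L (σ + t * I + 1)‖ ≤ TL L := by
  set s : ℂ := σ + t * I + 1 with hs
  have hre : s.re = σ + 1 := by simp [hs]
  have h1 : HasSum (fun n : ℕ => ((ArithmeticFunction.vonMangoldt n : ℝ) : ℂ) *
      Complex.exp (-(s * Real.log n)))
      (LSeries (fun n => ((ArithmeticFunction.vonMangoldt n : ℝ) : ℂ)) s) := by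
    have h2 := (ArithmeticFunction.LSeriesSummable_vonMangoldt (s := s) (by rw [hre]; linarith)).hasSum
    have h3 : (fun n : ℕ => ((ArithmeticFunction.vonMangoldt n : ℝ) : ℂ) *
        Complex.exp (-(s * Real.log n))) =
        LSeries.term (fun n => ((ArithmeticFunction.vonMangoldt n : ℝ) : ℂ)) s :=
      funext fun n => (atl_term s n).symm
    rw [h3]
    exact h2
  have h2 := h1.sub (atl_Sw hL s)
  rw [← h2.tsum_eq]
  have hb : ∀ n : ℕ, ‖((ArithmeticFunction.vonMangoldt n : ℝ) : ℂ) * Complex.exp (-(s * Real.log n)) -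
      ((ArithmeticFunction.vonMangoldt n * wt L (Real.log n) : ℝ) : ℂ) *
      Complex.exp (-(s * Real.log n))‖ ≤ ArithmeticFunction.vonMangoldt n * (1 - wt L (Real.log n)) *
      Real.exp (-(3 / 2 * Real.log n)) := by
    intro n
    have h3 : 0 ≤ ArithmeticFunction.vonMangoldt n := ArithmeticFunction.vonMangoldt_nonneg
    have h4 : 0 ≤ 1 - wt L (Real.log n) := by linarith [wt_le_one L (Real.log n)]
    have e : ((ArithmeticFunction.vonMangoldt n : ℝ) : ℂ) * Complex.exp (-(s * Real.log n)) -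
      ((ArithmeticFunction.vonMangoldt n * wt L (Real.log n) : ℝ) : ℂ) *
      Complex.exp (-(s * Real.log n)) =
      ((ArithmeticFunction.vonMangoldt n * (1 - wt L (Real.log n)) : ℝ) : ℂ) *
      Complex.exp (-(s * Real.log n)) := by push_cast; ring
    rw [e, norm_mul, Complex.norm_real, Real.norm_of_nonneg (by positivity), atl_norm_exp, hre]
    have h5 : 0 ≤ Real.log n := Real.log_natCast_nonneg n
    gcongr
    nlinarith
  exact tsum_of_norm_bounded (atl_summable_TL L).hasSum hb

private theorem atl_sl_summable {s : ℂ} (hs : 1 < s.re) : Summable (fun n : ℕ =>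
    ((ArithmeticFunction.vonMangoldt n / Real.log n : ℝ) : ℂ) * Complex.exp (-(s * Real.log n))) := by
  refine Summable.of_norm_bounded ((atl_summable hs).mul_left 2) fun n => ?_
  have h2 : 0 ≤ ArithmeticFunction.vonMangoldt n := ArithmeticFunction.vonMangoldt_nonneg
  have h3 : 0 ≤ Real.log n := Real.log_natCast_nonneg n
  rw [norm_mul, Complex.norm_real, Real.norm_of_nonneg (by positivity), atl_norm_exp]
  rw [← mul_assoc]
  refine mul_le_mul_of_nonneg_right ?_ (Real.exp_pos _).le
  rcases lt_or_ge n 2 with h | h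
  · have h4 : ArithmeticFunction.vonMangoldt n = 0 := by
      interval_cases n
      · simp
      · simp
    rw [h4]
    simp
  · have h4 : (1 / 2 : ℝ) ≤ Real.log n := by
      have h5 : Real.log 2 ≤ Real.log n := Real.log_le_log two_pos (by exact_mod_cast h)
      have h6 := Real.log_two_gt_d9
      linarith
    rw [div_le_iff₀ (by linarith)]
    nlinarith

private theorem atl_euler {s : ℂ} (hs : 1 < s.re) :
    ∑' n : ℕ, ((ArithmeticFunction.vonMangoldt n / Real.log n : ℝ) : ℂ) *
      Complex.exp (-(s * Real.log n)) = ∑' p : Nat.Primes, -Complex.log (1 - (p : ℂ) ^ (-s)) := by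
  have hsum := atl_sl_summable hs
  set f : ℕ → ℂ := fun n => ((ArithmeticFunction.vonMangoldt n / Real.log n : ℝ) : ℂ) *
    Complex.exp (-(s * Real.log n)) with hf
  have h1 : ∑' n : ℕ, f n = ∑' n : {n : ℕ // IsPrimePow n}, f n := by
    refine (tsum_subtype_eq_of_support_subset (s := {n : ℕ | IsPrimePow n}) ?_).symm
    intro n hn
    by_contra hcon
    apply hn
    have h2 : ArithmeticFunction.vonMangoldt n = 0 :=
      ArithmeticFunction.vonMangoldt_eq_zero_iff.2 hcon
    simp [hf, h2]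
  have hsum2 : Summable (fun x : Nat.Primes × ℕ => f (Nat.Primes.prodNatEquiv x)) :=
    hsum.comp_injective (Subtype.val_injective.comp Nat.Primes.prodNatEquiv.injective)
  rw [h1, ← Equiv.tsum_eq Nat.Primes.prodNatEquiv, hsum2.tsum_prod]
  refine tsum_congr fun p => ?_
  have hp : Nat.Prime (p : ℕ) := p.2
  have hp1 : (1 : ℝ) < (p : ℕ) := by exact_mod_cast hp.one_lt
  have hz : ‖((p : ℕ) : ℂ) ^ (-s)‖ < 1 := by
    rw [Complex.norm_natCast_cpow_of_pos hp.pos]
    exact Real.rpow_lt_one_of_one_lt_of_neg hp1 (by rw [Complex.neg_re]; linarith)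
  rw [← (Complex.hasSum_taylorSeries_neg_log' hz).tsum_eq]
  refine tsum_congr fun k => ?_
  have hlog : Real.log (p : ℕ) ≠ 0 := (Real.log_pos hp1).ne'
  have hpk : ((p : ℕ) ^ (k + 1) : ℕ) ≠ 0 := pow_ne_zero _ hp.ne_zero
  simp only [Nat.Primes.prodNatEquiv_apply, hf]
  rw [ArithmeticFunction.vonMangoldt_apply_pow (Nat.succ_ne_zero k),
    ArithmeticFunction.vonMangoldt_apply_prime hp, atl_cpow s hpk]
  have e1 : Real.log (((p : ℕ) ^ (k + 1) : ℕ) : ℝ) = ((k : ℝ) + 1) * Real.log (p : ℕ) := by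
    push_cast
    rw [Real.log_pow]
    push_cast
    ring
  have e2 : ((((p : ℕ) ^ (k + 1) : ℕ) : ℂ)) ^ (-s) = (((p : ℕ) : ℂ) ^ (-s)) ^ (k + 1) := by
    rw [← Complex.cpow_nat_mul]
    push_cast
    rw [← Complex.natCast_cpow_natCast_mul]
    push_cast
    ring_nf
  rw [e1, e2]
  have hk : ((k : ℝ) + 1) ≠ 0 := by positivity
  have e3 : Real.log (p : ℕ) / (((k : ℝ) + 1) * Real.log (p : ℕ)) = 1 / ((k : ℝ) + 1) := by
    field_simp
  rw [e3]
  push_cast
  ring

theorem log_zeta_two {L : ℝ} (hL : 2 ≤ L) (t : ℝ) :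
    |Real.log ‖riemannZeta (2 + t * I)‖ - (Sl L (2 + t * I)).re| ≤ TL L := by
  set s : ℂ := 2 + t * I with hs
  have hre : s.re = 2 := by simp [hs]
  have hs1 : 1 < s.re := by rw [hre]; norm_num
  have h1 := riemannZeta_eulerProduct_exp_log hs1
  have h2 : Real.log ‖riemannZeta s‖ = (∑' n : ℕ,
      ((ArithmeticFunction.vonMangoldt n / Real.log n : ℝ) : ℂ) * Complex.exp (-(s * Real.log n))).re := by
    rw [← h1, Complex.norm_exp, Real.log_exp, atl_euler hs1]
  rw [h2, ← Complex.sub_re]
  refine (Complex.abs_re_le_norm _).trans ?_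
  have h3 := (atl_sl_summable hs1).hasSum.sub (atl_Sl (L := L) (by linarith) s)
  rw [← h3.tsum_eq]
  refine tsum_of_norm_bounded (atl_summable_TL L).hasSum fun n => ?_
  have h4 : 0 ≤ ArithmeticFunction.vonMangoldt n := ArithmeticFunction.vonMangoldt_nonneg
  have h5 : 0 ≤ 1 - wt L (Real.log n) := by linarith [wt_le_one L (Real.log n)]
  have h6 : 0 ≤ Real.log n := Real.log_natCast_nonneg n
  have e : ((ArithmeticFunction.vonMangoldt n / Real.log n : ℝ) : ℂ) * Complex.exp (-(s * Real.log n)) -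
      ((ArithmeticFunction.vonMangoldt n * wt L (Real.log n) / Real.log n : ℝ) : ℂ) *
      Complex.exp (-(s * Real.log n)) =
      ((ArithmeticFunction.vonMangoldt n * (1 - wt L (Real.log n)) / Real.log n : ℝ) : ℂ) *
      Complex.exp (-(s * Real.log n)) := by push_cast; ring
  rw [e, norm_mul, Complex.norm_real, Real.norm_of_nonneg (by positivity), atl_norm_exp, hre]
  rcases le_or_gt (Real.log n) (L / 2) with h | h
  · rw [wt_of_le (by linarith) h]
    simp
  · have h7 : 1 ≤ Real.log n := by linarith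
    have h8 : ArithmeticFunction.vonMangoldt n * (1 - wt L (Real.log n)) / Real.log n ≤
        ArithmeticFunction.vonMangoldt n * (1 - wt L (Real.log n)) :=
      div_le_self (by positivity) h7
    refine mul_le_mul h8 ?_ (Real.exp_pos _).le (by positivity)
    rw [Real.exp_le_exp]
    nlinarith

/-- the integral of `Sw` is a difference of `Sl` -/
theorem integral_Sw (L σ₀ σ₁ t : ℝ) :
    ∫ σ in σ₀..σ₁, (Sw L (σ + t * I)).re = (Sl L (σ₀ + t * I)).re - (Sl L (σ₁ + t * I)).re := by
  have hd : ∀ σ : ℝ, HasDerivAt (fun σ : ℝ => Sl L (σ + t * I)) (-Sw L (σ + t * I)) σ := by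
    intro σ
    unfold Sl Sw
    rw [← Finset.sum_neg_distrib]
    refine HasDerivAt.fun_sum fun n hn => ?_
    have hn1 : 1 ≤ n := (Finset.mem_Icc.1 hn).1
    have h0 : HasDerivAt (fun u : ℝ => (u : ℂ)) 1 σ := Complex.ofRealCLM.hasDerivAt
    have h1 : HasDerivAt (fun u : ℝ => -(((u : ℂ) + t * I) * Real.log n)) (-(1 * (Real.log n : ℂ))) σ :=
      ((h0.add_const (t * I)).mul_const _).neg
    have h2 := h1.cexp.const_mul
      ((ArithmeticFunction.vonMangoldt n * wt L (Real.log n) / Real.log n : ℝ) : ℂ)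
    refine h2.congr_deriv ?_
    have h3 : ((ArithmeticFunction.vonMangoldt n * wt L (Real.log n) / Real.log n : ℝ) : ℂ) *
        (Real.log n : ℂ) = ((ArithmeticFunction.vonMangoldt n * wt L (Real.log n) : ℝ) : ℂ) := by
      rw [← Complex.ofReal_mul]
      congr 1
      rcases hn1.eq_or_lt with h | h
      · rw [← h]
        simp
      · have : Real.log n ≠ 0 := (Real.log_pos (by exact_mod_cast h)).ne'
        field_simp
    rw [← h3]
    ring
  have hdr : ∀ σ ∈ Set.uIcc σ₀ σ₁, HasDerivAt (fun σ : ℝ => -(Sl L (σ + t * I)).re)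
      ((Sw L (σ + t * I)).re) σ := by
    intro σ _
    have h1 : HasDerivAt (fun σ : ℝ => (Sl L (σ + t * I)).re) ((-Sw L (σ + t * I)).re) σ := by
      have := Complex.reCLM.hasFDerivAt.comp_hasDerivAt σ (hd σ)
      exact this
    have h2 := h1.neg
    rwa [Complex.neg_re, neg_neg] at h2
  have hc : Continuous (fun σ : ℝ => (Sw L (σ + t * I)).re) := by
    unfold Sw
    refine Complex.continuous_re.comp (continuous_finsetSum _ fun n _ => ?_)
    fun_prop
  rw [intervalIntegral.integral_eq_sub_of_hasDerivAt hdr (hc.intervalIntegrable _ _)]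
  ring

end Pool.Agent.Lib.MP_54baa8_nt
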