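import Mathlib
import Pool.Agent.Lib.MP_54baa8_nt.AG

/-!
# JOB ATriv: the contribution of the trivial zeros

For `u > 0`: `Gs L s u rt u = wt L u q(u) e^{-itu}` with `q(u) = e^{-σu} (1 - e^{-u}) e^{-2u} / (1 - e^{-2u}) =
e^{-(σ+2)u} / (1 + e^{-u})`, smooth, positive and decreasing on `[0, ∞)`, `q(0) = 1/2`. For `v ≥ 0`, integration by parts gives
`‖∫_0^v q(u) e^{-itu} du‖ ≤ (q(0) + q(v) + ∫_0^v |q'|) / t = 2 q(0) / t = 1/t`. And for `u ∈ [0, L]`,
`wt L u = (2/L) ∫_{L/2}^{L} 1_{u ≤ v} dv`, so by Fubini `∫_0^L wt L u q(u) e^{-itu} du = (2/L) ∫_{L/2}^{L} (∫_0^v q(u) e^{-itu} du) dv`,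
of absolute value `≤ 1/t`. (Alternative without Fubini: integrate by parts on `[0, L/2]` and `[L/2, L]` separately, where `wt L` is
smooth; the total variation of `wt L * q` on `[0, L]` is `1/2` since it decreases from `1/2` to `0`.)
-/

open Complex MeasureTheory

namespace Pool.Agent.Lib.MP_54baa8_nt

open Pool.Agent.Lib.MP_00e05b_nt

private theorem at_ibp {g g' : ℝ → ℝ} {a b t : ℝ} (hab : a ≤ b) (ha : 0 ≤ a) (ht : 0 < t) {z : ℂ}
    (hz : 0 ≤ z.re) (hzt : t ≤ |z.im|) (hg : ∀ x ∈ Set.uIcc a b, HasDerivAt g (g' x) x)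
    (hc : Continuous g') :
    ‖∫ u in a..b, (g u : ℂ) * Complex.exp (-(z * u))‖ ≤ (|g a| + |g b| + ∫ u in a..b, |g' u|) / t := by
  have hz0 : z ≠ 0 := by
    intro h
    rw [h] at hzt
    simp at hzt
    linarith
  have hnz : t ≤ ‖z‖ := hzt.trans (Complex.abs_im_le_norm z)
  have hH : ∀ u : ℝ, 0 ≤ u → ‖-Complex.exp (-(z * u)) / z‖ ≤ 1 / t := by
    intro u hu
    rw [norm_div, norm_neg]
    have h1 : ‖Complex.exp (-(z * u))‖ ≤ 1 := by
      rw [Complex.norm_exp]
      apply Real.exp_le_one_iff.mpr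
      have : (-(z * (u : ℂ))).re = -(z.re * u) := by simp
      rw [this]
      have := mul_nonneg hz hu
      linarith
    exact div_le_div₀ zero_le_one h1 ht hnz
  have hv : ∀ x ∈ Set.uIcc a b, HasDerivAt (fun u : ℝ => -Complex.exp (-(z * u)) / z)
      (Complex.exp (-(z * x))) x := by
    intro x _
    have h1 : HasDerivAt (fun u : ℝ => -(z * (u : ℂ))) (-z) x := by
      have h0 : HasDerivAt (fun u : ℝ => (-z) * (u : ℂ)) ((-z) * 1) x :=
        (Complex.ofRealCLM.hasDerivAt (x := x)).const_mul (-z)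
      rw [mul_one] at h0
      have e0 : (fun u : ℝ => -(z * (u : ℂ))) = fun u : ℝ => (-z) * (u : ℂ) := by
        funext u
        ring
      rw [e0]
      exact h0
    have h2 := (h1.cexp.neg).div_const z
    have e : -(Complex.exp (-(z * x)) * -z) / z = Complex.exp (-(z * x)) := by
      field_simp
    rw [e] at h2
    exact h2
  have hgc : ∀ x ∈ Set.uIcc a b, HasDerivAt (fun u : ℝ => (g u : ℂ)) ((g' x : ℝ) : ℂ) x :=
    fun x hx => (hg x hx).ofReal_comp
  have hu' : IntervalIntegrable (fun x : ℝ => ((g' x : ℝ) : ℂ)) volume a b :=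
    (Complex.continuous_ofReal.comp hc).intervalIntegrable _ _
  have hv' : IntervalIntegrable (fun x : ℝ => Complex.exp (-(z * x))) volume a b :=
    (by fun_prop : Continuous (fun x : ℝ => Complex.exp (-(z * x)))).intervalIntegrable _ _
  have key := intervalIntegral.integral_mul_deriv_eq_deriv_mul hgc hv hu' hv'
  rw [key]
  have hb : 0 ≤ b := ha.trans hab
  have hI : ‖∫ x in a..b, ((g' x : ℝ) : ℂ) * (-Complex.exp (-(z * x)) / z)‖ ≤
      (∫ u in a..b, |g' u|) / t := by
    rw [div_eq_mul_one_div, ← intervalIntegral.integral_mul_const]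
    apply intervalIntegral.norm_integral_le_of_norm_le hab
    · refine Filter.Eventually.of_forall fun x hx => ?_
      rw [norm_mul, Complex.norm_real, Real.norm_eq_abs]
      exact mul_le_mul_of_nonneg_left (hH x (ha.trans hx.1.le)) (abs_nonneg _)
    · exact ((hc.abs).mul continuous_const).intervalIntegrable _ _
  have h1 : ‖(g b : ℂ) * (-Complex.exp (-(z * b)) / z)‖ ≤ |g b| / t := by
    rw [norm_mul, Complex.norm_real, Real.norm_eq_abs]
    calc |g b| * ‖-Complex.exp (-(z * b)) / z‖ ≤ |g b| * (1 / t) :=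
          mul_le_mul_of_nonneg_left (hH b hb) (abs_nonneg _)
      _ = |g b| / t := by ring
  have h2 : ‖(g a : ℂ) * (-Complex.exp (-(z * a)) / z)‖ ≤ |g a| / t := by
    rw [norm_mul, Complex.norm_real, Real.norm_eq_abs]
    calc |g a| * ‖-Complex.exp (-(z * a)) / z‖ ≤ |g a| * (1 / t) :=
          mul_le_mul_of_nonneg_left (hH a ha) (abs_nonneg _)
      _ = |g a| / t := by ring
  have e : (|g a| + |g b| + ∫ u in a..b, |g' u|) / t =
      |g b| / t + |g a| / t + (∫ u in a..b, |g' u|) / t := by ring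
  rw [e]
  refine (norm_sub_le _ _).trans (add_le_add ((norm_sub_le _ _).trans (add_le_add h1 h2)) hI)

private theorem at_den (u : ℝ) : 0 < 1 + Real.exp (-u) := by
  have := Real.exp_pos (-u)
  linarith

private theorem at_d1 (u : ℝ) : HasDerivAt (fun u : ℝ => 1 / (1 + Real.exp (-u)))
    (Real.exp (-u) / (1 + Real.exp (-u)) ^ 2) u := by
  have h1 : HasDerivAt (fun u : ℝ => 1 + Real.exp (-u)) (-Real.exp (-u)) u := by
    have := ((hasDerivAt_neg u).exp).const_add 1
    simpa using this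
  have h2 := (hasDerivAt_const u (1 : ℝ)).div h1 (at_den u).ne'
  have e : ((0 : ℝ) * (1 + Real.exp (-u)) - 1 * -Real.exp (-u)) / (1 + Real.exp (-u)) ^ 2 =
      Real.exp (-u) / (1 + Real.exp (-u)) ^ 2 := by ring
  rw [e] at h2
  exact h2

private theorem at_d2 (L u : ℝ) : HasDerivAt (fun u : ℝ => (2 - 2 * u / L) * (1 / (1 + Real.exp (-u))))
    (-(2 / L) * (1 / (1 + Real.exp (-u))) +
      (2 - 2 * u / L) * (Real.exp (-u) / (1 + Real.exp (-u)) ^ 2)) u := by
  have h1 : HasDerivAt (fun u : ℝ => 2 - 2 * u / L) (-(2 / L)) u := by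
    have := (((hasDerivAt_id u).const_mul 2).div_const L).const_sub 2
    simpa using this
  exact h1.mul (at_d1 u)

private theorem at_c1 : Continuous (fun u : ℝ => Real.exp (-u) / (1 + Real.exp (-u)) ^ 2) := by
  apply Continuous.div (by fun_prop) (by fun_prop)
  intro u
  exact pow_ne_zero 2 (at_den u).ne'

private theorem at_c0 : Continuous (fun u : ℝ => 1 / (1 + Real.exp (-u))) := by
  apply Continuous.div (by fun_prop) (by fun_prop)
  intro u
  exact (at_den u).ne'

private theorem at_c2 (L : ℝ) : Continuous (fun u : ℝ => -(2 / L) * (1 / (1 + Real.exp (-u))) +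
      (2 - 2 * u / L) * (Real.exp (-u) / (1 + Real.exp (-u)) ^ 2)) := by
  have h1 : Continuous (fun u : ℝ => 2 - 2 * u / L) := by fun_prop
  exact (continuous_const.mul at_c0).add (h1.mul at_c1)

private theorem at_b1 (u : ℝ) : |Real.exp (-u) / (1 + Real.exp (-u)) ^ 2| ≤ Real.exp (-u) := by
  have h := Real.exp_pos (-u)
  rw [abs_of_nonneg (by positivity)]
  apply div_le_self h.le
  nlinarith

private theorem at_b0 (u : ℝ) : |1 / (1 + Real.exp (-u))| ≤ 1 := by
  have h := Real.exp_pos (-u)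
  rw [abs_of_nonneg (by positivity), div_le_one (at_den u)]
  linarith

private theorem at_int_exp {a b : ℝ} (ha : 0 ≤ a) : ∫ u in a..b, Real.exp (-u) ≤ 1 := by
  have h : ∫ u in a..b, Real.exp (-u) = Real.exp (-a) - Real.exp (-b) := by
    rw [intervalIntegral.integral_comp_neg (fun x => Real.exp x), integral_exp]
  rw [h]
  have h1 : Real.exp (-a) ≤ 1 := Real.exp_le_one_iff.mpr (by linarith)
  have := Real.exp_pos (-b)
  linarith

private theorem at_integrand {L u : ℝ} (hu : 0 < u) (s : ℂ) :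
    Gs L s u * (rt u : ℂ) =
      ((wt L u * (1 / (1 + Real.exp (-u))) : ℝ) : ℂ) * Complex.exp (-((s + 2) * u)) := by
  have hG : Gs L s u = (wt L u : ℂ) * (Complex.exp (-(s * u)) - Complex.exp (-((s + 1) * u))) := by
    unfold Gs
    rw [if_neg (not_le.mpr hu)]
  rw [hG]
  set E : ℝ := Real.exp (-u) with hE
  have hE0 : 0 < E := Real.exp_pos _
  have hE1 : E < 1 := by
    rw [hE]
    exact Real.exp_lt_one_iff.mpr (by linarith)
  have h2 : Real.exp (-(2 * u)) = E ^ 2 := by
    rw [hE, ← Real.exp_nat_mul]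
    congr 1
    push_cast
    ring
  have e1 : Complex.exp (-((s + 1) * u)) = Complex.exp (-(s * u)) * (E : ℂ) := by
    rw [hE, Complex.ofReal_exp, ← Complex.exp_add]
    congr 1
    push_cast
    ring
  have e2 : Complex.exp (-((s + 2) * u)) = Complex.exp (-(s * u)) * (E : ℂ) ^ 2 := by
    rw [hE, Complex.ofReal_exp, ← Complex.exp_nat_mul, ← Complex.exp_add]
    congr 1
    push_cast
    ring
  rw [e1, e2]
  have h3 : ((rt u : ℝ) : ℂ) * (1 - (E : ℂ)) = (E : ℂ) ^ 2 * ((1 / (1 + E) : ℝ) : ℂ) := by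
    have : rt u * (1 - E) = E ^ 2 * (1 / (1 + E)) := by
      unfold rt
      rw [h2]
      have a1 : 1 - E ^ 2 ≠ 0 := by nlinarith
      have a2 : 1 + E ≠ 0 := by linarith
      field_simp
      ring
    exact_mod_cast this
  calc (wt L u : ℂ) * (Complex.exp (-(s * u)) - Complex.exp (-(s * u)) * (E : ℂ)) * (rt u : ℂ)
      = (wt L u : ℂ) * Complex.exp (-(s * u)) * (((rt u : ℝ) : ℂ) * (1 - (E : ℂ))) := by ring
    _ = (wt L u : ℂ) * Complex.exp (-(s * u)) * ((E : ℂ) ^ 2 * ((1 / (1 + E) : ℝ) : ℂ)) := by rw [h3]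
    _ = _ := by
        push_cast
        ring

theorem triv_bound : ∃ C : ℝ, 0 ≤ C ∧ ∀ L σ t : ℝ, 1 ≤ L → 1 ≤ t → 1 / 2 ≤ σ → σ ≤ 2 →
    ‖∫ u, Gs L (σ + t * I) u * (rt u : ℂ)‖ ≤ C / t := by
  refine ⟨6, by norm_num, ?_⟩
  intro L σ t hL ht hσ _
  have hL0 : 0 < L := by linarith
  have ht0 : 0 < t := by linarith
  set s : ℂ := σ + t * I with hs
  have hzre : (s + 2).re = σ + 2 := by simp [hs]
  have hzim : (s + 2).im = t := by simp [hs]
  have hz1 : 0 ≤ (s + 2).re := by rw [hzre]; linarith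
  have hz2 : t ≤ |(s + 2).im| := by rw [hzim]; exact le_abs_self t
  have e0 : ∫ u, Gs L s u * (rt u : ℂ) =
      ∫ u in (0 : ℝ)..L, ((wt L u * (1 / (1 + Real.exp (-u))) : ℝ) : ℂ) *
        Complex.exp (-((s + 2) * u)) := by
    rw [intervalIntegral.integral_of_le hL0.le, ← MeasureTheory.integral_indicator measurableSet_Ioc]
    refine integral_congr_ae (Filter.Eventually.of_forall fun u => ?_)
    simp only [Set.indicator]
    split_ifs with h
    · exact at_integrand h.1 s
    · rw [Set.mem_Ioc, not_and_or, not_lt, not_le] at h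
      have : Gs L s u = 0 := by
        unfold Gs
        rcases h with h | h
        · rw [if_pos h]
        · split_ifs with h'
          · rfl
          · rw [wt_of_ge hL0 h.le]
            simp
      rw [this, zero_mul]
  have hcont : Continuous (fun u : ℝ => ((wt L u * (1 / (1 + Real.exp (-u))) : ℝ) : ℂ) *
        Complex.exp (-((s + 2) * u))) := by
    have h1 : Continuous (fun u : ℝ => ((wt L u * (1 / (1 + Real.exp (-u))) : ℝ) : ℂ)) :=
      Complex.continuous_ofReal.comp ((wt_continuous L).mul at_c0)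
    exact h1.mul (by fun_prop)
  rw [e0, ← intervalIntegral.integral_add_adjacent_intervals
    (hcont.intervalIntegrable 0 (L / 2)) (hcont.intervalIntegrable (L / 2) L)]
  have eA : ∫ u in (0 : ℝ)..(L / 2), ((wt L u * (1 / (1 + Real.exp (-u))) : ℝ) : ℂ) *
        Complex.exp (-((s + 2) * u)) =
      ∫ u in (0 : ℝ)..(L / 2), (((fun u : ℝ => 1 / (1 + Real.exp (-u))) u : ℝ) : ℂ) *
        Complex.exp (-((s + 2) * u)) := by
    refine intervalIntegral.integral_congr fun u hu => ?_
    rw [Set.uIcc_of_le (by linarith), Set.mem_Icc] at hu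
    simp only
    rw [wt_of_le hL0 hu.2, one_mul]
  have eB : ∫ u in (L / 2)..L, ((wt L u * (1 / (1 + Real.exp (-u))) : ℝ) : ℂ) *
        Complex.exp (-((s + 2) * u)) =
      ∫ u in (L / 2)..L, (((fun u : ℝ => (2 - 2 * u / L) * (1 / (1 + Real.exp (-u)))) u : ℝ) : ℂ) *
        Complex.exp (-((s + 2) * u)) := by
    refine intervalIntegral.integral_congr fun u hu => ?_
    rw [Set.uIcc_of_le (by linarith), Set.mem_Icc] at hu
    simp only
    have : wt L u = 2 - 2 * u / L := by
      unfold wt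
      have h1 : 2 * u / L ≤ 2 := by
        rw [div_le_iff₀ hL0]
        linarith
      have h2 : 1 ≤ 2 * u / L := by
        rw [le_div_iff₀ hL0]
        linarith
      rw [min_eq_right (by linarith), max_eq_right (by linarith)]
    rw [this]
  rw [eA, eB]
  have hA := at_ibp (g := fun u : ℝ => 1 / (1 + Real.exp (-u))) (a := 0) (b := L / 2) (by linarith) le_rfl
    ht0 hz1 hz2 (fun x _ => at_d1 x) at_c1
  have hB := at_ibp (g := fun u : ℝ => (2 - 2 * u / L) * (1 / (1 + Real.exp (-u)))) (a := L / 2) (b := L)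
    (by linarith) (by linarith) ht0 hz1 hz2 (fun x _ => at_d2 L x) (at_c2 L)
  have iA : ∫ u in (0 : ℝ)..(L / 2), |Real.exp (-u) / (1 + Real.exp (-u)) ^ 2| ≤ 1 := by
    refine le_trans ?_ (at_int_exp (a := 0) (b := L / 2) le_rfl)
    apply intervalIntegral.integral_mono_on (by linarith) (at_c1.abs.intervalIntegrable _ _)
      ((by fun_prop : Continuous (fun u : ℝ => Real.exp (-u))).intervalIntegrable _ _)
    intro u _
    exact at_b1 u
  have iB : ∫ u in (L / 2)..L, |-(2 / L) * (1 / (1 + Real.exp (-u))) +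
      (2 - 2 * u / L) * (Real.exp (-u) / (1 + Real.exp (-u)) ^ 2)| ≤ 2 := by
    have h1 : ∫ u in (L / 2)..L, (2 / L + Real.exp (-u)) ≤ 2 := by
      rw [intervalIntegral.integral_add (by simp)
        ((by fun_prop : Continuous (fun u : ℝ => Real.exp (-u))).intervalIntegrable _ _),
        intervalIntegral.integral_const, smul_eq_mul]
      have h2 : (L - L / 2) * (2 / L) = 1 := by
        field_simp
        ring
      rw [h2]
      have := at_int_exp (a := L / 2) (b := L) (by linarith)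
      linarith
    refine le_trans ?_ h1
    apply intervalIntegral.integral_mono_on (by linarith) ((at_c2 L).abs.intervalIntegrable _ _)
      ((by fun_prop : Continuous (fun u : ℝ => 2 / L + Real.exp (-u))).intervalIntegrable _ _)
    intro u hu
    have h3 : 2 * u / L ≤ 2 := by
      rw [div_le_iff₀ hL0]
      linarith [hu.2]
    have h4 : 1 ≤ 2 * u / L := by
      rw [le_div_iff₀ hL0]
      linarith [hu.1]
    refine (abs_add_le _ _).trans (add_le_add ?_ ?_)
    · rw [abs_mul, abs_neg, abs_of_pos (by positivity : 0 < 2 / L)]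
      calc 2 / L * |1 / (1 + Real.exp (-u))| ≤ 2 / L * 1 :=
            mul_le_mul_of_nonneg_left (at_b0 u) (by positivity)
        _ = 2 / L := mul_one _
    · rw [abs_mul, abs_of_nonneg (by linarith : 0 ≤ 2 - 2 * u / L)]
      calc (2 - 2 * u / L) * |Real.exp (-u) / (1 + Real.exp (-u)) ^ 2| ≤
            1 * Real.exp (-u) :=
            mul_le_mul (by linarith) (at_b1 u) (abs_nonneg _) zero_le_one
        _ = _ := one_mul _
  have gA0 : |(fun u : ℝ => 1 / (1 + Real.exp (-u))) 0| ≤ 1 := at_b0 0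
  have gA1 : |(fun u : ℝ => 1 / (1 + Real.exp (-u))) (L / 2)| ≤ 1 := at_b0 (L / 2)
  have gB0 : |(fun u : ℝ => (2 - 2 * u / L) * (1 / (1 + Real.exp (-u)))) (L / 2)| ≤ 1 := by
    simp only
    have : 2 - 2 * (L / 2) / L = 1 := by
      field_simp
      ring
    rw [this, one_mul]
    exact at_b0 (L / 2)
  have gB1 : |(fun u : ℝ => (2 - 2 * u / L) * (1 / (1 + Real.exp (-u)))) L| ≤ 0 := by
    simp only
    have : 2 - 2 * L / L = 0 := by
      field_simp
      ring
    rw [this, zero_mul, abs_zero]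
  have hA' : (|(fun u : ℝ => 1 / (1 + Real.exp (-u))) 0| + |(fun u : ℝ => 1 / (1 + Real.exp (-u))) (L / 2)| +
      ∫ u in (0 : ℝ)..(L / 2), |Real.exp (-u) / (1 + Real.exp (-u)) ^ 2|) / t ≤ 3 / t :=
    div_le_div_of_nonneg_right (by linarith) ht0.le
  have hB' : (|(fun u : ℝ => (2 - 2 * u / L) * (1 / (1 + Real.exp (-u)))) (L / 2)| +
      |(fun u : ℝ => (2 - 2 * u / L) * (1 / (1 + Real.exp (-u)))) L| +
      ∫ u in (L / 2)..L, |-(2 / L) * (1 / (1 + Real.exp (-u))) +
      (2 - 2 * u / L) * (Real.exp (-u) / (1 + Real.exp (-u)) ^ 2)|) / t ≤ 3 / t :=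
    div_le_div_of_nonneg_right (by linarith) ht0.le
  refine (norm_add_le _ _).trans ?_
  have : (6 : ℝ) / t = 3 / t + 3 / t := by ring
  rw [this]
  exact add_le_add (hA.trans hA') (hB.trans hB')

end Pool.Agent.Lib.MP_54baa8_nt
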