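import Mathlib
import Pool.Agent.Lib.MP_54baa8_nt.AF
import Pool.Agent.Lib.MP_54baa8_nt.AG

/-!
# JOB AX: lower bound for `FR σ t - FR (σ + 1) t`

Let `s = σ + it`, `σ ≥ σ₀ = 1/2 + 3/L`. By `F_hasSum` at `σ` and `σ + 1`, `FR σ t - FR (σ+1) t = ∑ mx a Re (1/(s-a) - 1/(s+1-a))`
(a zero is `a = 1/2 + iγ`, `re_of_RH`). By `Gs_transform`,
`Re (1/(s-a) - 1/(s+1-a)) = Re (∫ Gs e^{au}) + Re (Ez (s-a) - Ez (s+1-a)) ≥ Re (∫ Gs e^{au}) - ‖Ez (s-a)‖ - ‖Ez (s+1-a)‖`. By `Ez_bound` and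
`‖s - a‖ ^ 2 = (σ-1/2)^2 + (t-γ)^2 ≥ (3/L)^2 + (t-γ)^2`:
`‖Ez (s-a)‖ ≤ (4/L) e^{-(L/2)(σ-1/2)} (L/3) (σ₀-1/2)/((σ₀-1/2)^2 + (t-γ)^2)`, and for `s + 1` the same with the extra factor
`e^{-L/2}`. Sum over `a` (`hasSum_le` with `Gs_explicit` (real parts) and `F_hasSum` at `σ₀`):
the error is at most `(4/3) (1 + e^{-L/2}) e^{-(L/2)(σ-1/2)} FR σ₀ t`.
-/

open Complex MeasureTheory

namespace Pool.Agent.Lib.MP_54baa8_nt

open Pool.Agent.Lib.MP_00e05b_nt Pool.Agent.Lib.MP_ec260d_nt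

private theorem ax_re (hRH : RiemannHypothesis) {a : ℂ} (ha : mx a ≠ 0) : a.re = 1 / 2 := by
  have h0 : xi a = 0 := (mx_ne_zero_iff a).1 ha
  rcases lt_trichotomy a.re (1 / 2) with h | h | h
  · exfalso
    have h1 : xi (1 - a) = 0 := by rw [xi_one_sub, h0]
    have h2 := xi_ne_of_RH hRH (σ := (1 - a).re) (t := (1 - a).im) (by
      rw [Complex.sub_re, Complex.one_re]
      linarith)
    rw [Complex.re_add_im] at h2
    exact h2 h1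
  · exact h
  · exfalso
    have h2 := xi_ne_of_RH hRH (σ := a.re) (t := a.im) h
    rw [Complex.re_add_im] at h2
    exact h2 h0

private theorem ax_inv_re {z : ℂ} {x y : ℝ} (hx : z.re = x) (hy : z.im = y) :
    (1 / z).re = x / (x ^ 2 + y ^ 2) := by
  rw [one_div, Complex.inv_re, Complex.normSq_apply, hx, hy, pow_two, pow_two]

private theorem ax_norm {z : ℂ} {x y : ℝ} (hx : z.re = x) (hy : z.im = y) :
    ‖z‖ ^ 2 = x ^ 2 + y ^ 2 := by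
  rw [Complex.sq_norm, Complex.normSq_apply, hx, hy, pow_two, pow_two]

private theorem ax_frac {L E n Q : ℝ} (hL : 0 < L) (hE : 0 ≤ E) (hQ : 0 < Q) (hn : Q ≤ n) :
    4 / L * E / n ≤ 4 / 3 * E * (3 / L / Q) := by
  have h1 : 4 / L * E / n ≤ 4 / L * E / Q :=
    div_le_div_of_nonneg_left (by positivity) hQ hn
  have h2 : 4 / L * E / Q = 4 / 3 * E * (3 / L / Q) := by ring
  linarith

private theorem ax_alg {m A K P Q R : ℝ} (h : m * (A - K * P) ≤ m * (Q - R)) :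
    m * A - K * (m * P) ≤ m * Q - m * R := by
  have h1 : m * (A - K * P) = m * A - K * (m * P) := by ring
  have h2 : m * (Q - R) = m * Q - m * R := by ring
  rw [← h1, ← h2]
  exact h

private theorem ax_term {L σ t γ : ℝ} (hL : 0 < L) (hσ : 1 / 2 + 3 / L ≤ σ) {a : ℂ} (hr : a.re = 1 / 2)
    (hi : a.im = γ) :
    (∫ u, Gs L (σ + t * I) u * Complex.exp (a * u)).re -
      4 / 3 * (1 + Real.exp (-(L / 2))) * Real.exp (-(L / 2 * (σ - 1 / 2))) *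
        ((1 / 2 + 3 / L - 1 / 2) / ((1 / 2 + 3 / L - 1 / 2) ^ 2 + (t - γ) ^ 2)) ≤
    (σ - 1 / 2) / ((σ - 1 / 2) ^ 2 + (t - γ) ^ 2) -
      (σ + 1 - 1 / 2) / ((σ + 1 - 1 / 2) ^ 2 + (t - γ) ^ 2) := by
  have h3L : 0 < 3 / L := by positivity
  have hx1 : ((σ : ℂ) + t * I - a).re = σ - 1 / 2 := by simp [hr]
  have hy1 : ((σ : ℂ) + t * I - a).im = t - γ := by simp [hi]
  have hx2 : ((σ : ℂ) + t * I + 1 - a).re = σ + 1 - 1 / 2 := by simp [hr]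
  have hy2 : ((σ : ℂ) + t * I + 1 - a).im = t - γ := by simp [hi]
  have hz1 : (σ : ℂ) + t * I - a ≠ 0 := by
    intro h
    rw [h, Complex.zero_re] at hx1
    linarith
  have hz2 : (σ : ℂ) + t * I + 1 - a ≠ 0 := by
    intro h
    rw [h, Complex.zero_re] at hx2
    linarith
  rw [Gs_transform hL hz1 hz2]
  have hb1 := Ez_bound hL hz1 (by rw [hx1]; linarith)
  have hb2 := Ez_bound hL hz2 (by rw [hx2]; linarith)
  rw [ax_norm hx1 hy1, hx1] at hb1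
  rw [ax_norm hx2 hy2, hx2] at hb2
  have hQ : 0 < (3 / L) ^ 2 + (t - γ) ^ 2 := by positivity
  have hQ1 : (3 / L) ^ 2 + (t - γ) ^ 2 ≤ (σ - 1 / 2) ^ 2 + (t - γ) ^ 2 := by
    have : (3 / L) ^ 2 ≤ (σ - 1 / 2) ^ 2 := pow_le_pow_left₀ h3L.le (by linarith) 2
    linarith
  have hQ2 : (3 / L) ^ 2 + (t - γ) ^ 2 ≤ (σ + 1 - 1 / 2) ^ 2 + (t - γ) ^ 2 := by
    have : (3 / L) ^ 2 ≤ (σ + 1 - 1 / 2) ^ 2 := pow_le_pow_left₀ h3L.le (by linarith) 2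
    linarith
  have hc1 := ax_frac hL (Real.exp_pos (-(L / 2 * (σ - 1 / 2)))).le hQ hQ1
  have hc2 := ax_frac hL (Real.exp_pos (-(L / 2 * (σ + 1 - 1 / 2)))).le hQ hQ2
  have hE : Real.exp (-(L / 2 * (σ + 1 - 1 / 2))) =
      Real.exp (-(L / 2)) * Real.exp (-(L / 2 * (σ - 1 / 2))) := by
    rw [← Real.exp_add]
    congr 1
    ring
  rw [hE] at hc2 hb2
  have hn1 : -(Ez L ((σ : ℂ) + t * I - a)).re ≤ ‖Ez L ((σ : ℂ) + t * I - a)‖ :=
    (neg_le_abs _).trans (Complex.abs_re_le_norm _)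
  have hn2 : (Ez L ((σ : ℂ) + t * I + 1 - a)).re ≤ ‖Ez L ((σ : ℂ) + t * I + 1 - a)‖ :=
    (le_abs_self _).trans (Complex.abs_re_le_norm _)
  have hs : (1 / 2 : ℝ) + 3 / L - 1 / 2 = 3 / L := by ring
  rw [hs, Complex.sub_re, Complex.sub_re, Complex.sub_re, ax_inv_re hx1 hy1, ax_inv_re hx2 hy2]
  have hk : 4 / 3 * (1 + Real.exp (-(L / 2))) * Real.exp (-(L / 2 * (σ - 1 / 2))) *
      (3 / L / ((3 / L) ^ 2 + (t - γ) ^ 2)) =
      4 / 3 * Real.exp (-(L / 2 * (σ - 1 / 2))) * (3 / L / ((3 / L) ^ 2 + (t - γ) ^ 2)) +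
      4 / 3 * (Real.exp (-(L / 2)) * Real.exp (-(L / 2 * (σ - 1 / 2)))) *
        (3 / L / ((3 / L) ^ 2 + (t - γ) ^ 2)) := by ring
  rw [hk]
  linarith

theorem FR_diff (hRH : RiemannHypothesis) {L σ t : ℝ} (hL : 0 < L) (ht : xi (1 / 2 + t * I) ≠ 0)
    (hσ : 1 / 2 + 3 / L ≤ σ) :
    (((∫ u, Gs L (σ + t * I) u * Complex.exp u) - (∫ u, Gs L (σ + t * I) u * (rt u : ℂ)) -
      (Sw L (σ + t * I) - Sw L (σ + t * I + 1))).re -
      4 / 3 * (1 + Real.exp (-(L / 2))) * Real.exp (-(L / 2 * (σ - 1 / 2))) * FR (1 / 2 + 3 / L) t) ≤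
    FR σ t - FR (σ + 1) t := by
  have h3L : 0 < 3 / L := by positivity
  have h1 := F_hasSum hRH (σ := σ) ht (by linarith)
  have h2 := F_hasSum hRH (σ := σ + 1) ht (by linarith)
  have h3 := F_hasSum hRH (σ := 1 / 2 + 3 / L) ht (by linarith)
  have h4 := Complex.reCLM.hasSum (Gs_explicit hL (σ + t * I))
  have h5 := h4.sub (h3.mul_left
    (4 / 3 * (1 + Real.exp (-(L / 2))) * Real.exp (-(L / 2 * (σ - 1 / 2)))))
  refine hasSum_le (fun a => ?_) h5 (h1.sub h2)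
  rcases eq_or_ne (mx a) 0 with h | h
  · simp [h]
  · have h6 := ax_term (t := t) hL hσ (ax_re hRH h) rfl
    have h7 := mul_le_mul_of_nonneg_left h6 (Nat.cast_nonneg (α := ℝ) (mx a))
    have h8 : (Complex.reCLM ((mx a : ℂ) * ∫ u, Gs L (σ + t * I) u * Complex.exp (a * u)) : ℝ) =
        (mx a : ℝ) * (∫ u, Gs L (σ + t * I) u * Complex.exp (a * u)).re := by
      rw [Complex.reCLM_apply, ← Complex.ofReal_natCast, Complex.re_ofReal_mul]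
    show Complex.reCLM ((mx a : ℂ) * ∫ u, Gs L (σ + t * I) u * Complex.exp (a * u)) - _ ≤ _
    rw [h8]
    exact ax_alg h7

end Pool.Agent.Lib.MP_54baa8_nt
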