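import Mathlib
import Pool.Agent.Lib.MP_54baa8_nt.AGam
import Pool.Agent.Lib.MP_54baa8_nt.AF
import Pool.Agent.Lib.MP_ec260d_nt.LogDerivXi

/-!
# JOB AZ: `xi'/xi = Gd + ζ'/ζ` in the half plane `Re s > 0`, and the integral of its real part

* `logDeriv_xi_formula'`: the proof of `logDeriv_xi_formula` (MP_ec260d_nt/LogDerivXi.lean) works for `0 < Re s`, `s ≠ 1`,
  `ζ s ≠ 0`: near `s`, `xi w = w (1-w) Gammaℝ w ζ w` (`xi_eq_zeta`).
* `zeta_ne`: for `Re s > 1/2`, `Im s ≠ 0`: `ζ s ≠ 0` under RH (directly: the zeros with `Re > 0`, `≠ 1` have `Re = 1/2`).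
  `xi z ≠ 0 ↔ ζ z ≠ 0` for `Re z > 0`, `z ≠ 1` (`xi_eq_zeta`, `Gammaℝ ≠ 0`).
* `log_norm_zeta`: for `t ≥ 1` with `ζ(1/2 + it) ≠ 0`, the function `σ ↦ log ‖ζ(σ+it)‖` has derivative `Re (logDeriv ζ (σ+it))`
  on `[1/2, 2]` (`log ‖f‖ = (1/2) log (normSq f)`), continuous there, so (`intervalIntegral.integral_eq_sub_of_hasDerivAt`)
  `log ‖ζ(2+it)‖ - log ‖ζ(1/2+it)‖ = ∫_{1/2}^{2} Re (logDeriv ζ) = ∫ (FR σ t - Re (Gd (σ+it)))`.
* `FR_right`: for `σ ≥ 3/2` (or any `σ > 1`): `FR σ t = Re Gd - Re ∑ Λ(n) n^{-s}`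
  (`ArithmeticFunction.LSeries_vonMangoldt_eq_deriv_riemannZeta_div`).
-/

open Complex Set Filter Topology

namespace Pool.Agent.Lib.MP_54baa8_nt

open Pool.Agent.Lib.MP_00e05b_nt Pool.Agent.Lib.MP_ec260d_nt

private theorem az_open : IsOpen {s : ℂ | 0 < s.re} := isOpen_lt continuous_const continuous_re

theorem logDeriv_xi_formula' {s : ℂ} (hs : 0 < s.re) (hs1 : s ≠ 1) (hz : riemannZeta s ≠ 0) :
    logDeriv xi s = Gd s + logDeriv riemannZeta s := by
  have hs0 : s ≠ 0 := by rintro rfl; simp at hs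
  have hs1' : (1 : ℂ) - s ≠ 0 := sub_ne_zero.2 (Ne.symm hs1)
  have hs1'' : s - 1 ≠ 0 := sub_ne_zero.2 hs1
  have hpi : (Real.pi : ℂ) ≠ 0 := by exact_mod_cast Real.pi_ne_zero
  have hre : 0 < (s / 2).re := by
    have : (s / 2).re = s.re / 2 := by simp
    rw [this]
    linarith
  have hG : Complex.Gamma (s / 2) ≠ 0 := Complex.Gamma_ne_zero_of_re_pos hre
  have hp : (Real.pi : ℂ) ^ (-s / 2) ≠ 0 := by
    rw [Ne, Complex.cpow_eq_zero_iff]
    exact fun h => hpi h.1
  have hdz : DifferentiableAt ℂ riemannZeta s := differentiableAt_riemannZeta hs1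
  have hdG0 : DifferentiableAt ℂ Complex.Gamma (s / 2) := by
    refine Complex.differentiableAt_Gamma _ ?_
    intro m h
    have h2 := congrArg Complex.re h
    have h3 : (-(m : ℂ)).re = -(m : ℝ) := by simp
    rw [h3] at h2
    have h4 : (0 : ℝ) ≤ m := Nat.cast_nonneg m
    linarith
  have hdh : DifferentiableAt ℂ (fun w : ℂ => w / 2) s := by fun_prop
  have hdG : DifferentiableAt ℂ (fun w : ℂ => Complex.Gamma (w / 2)) s :=
    DifferentiableAt.comp s (f := fun w : ℂ => w / 2) hdG0 hdh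
  have hdp : HasDerivAt (fun w : ℂ => (Real.pi : ℂ) ^ (-w / 2))
      ((Real.pi : ℂ) ^ (-s / 2) * Complex.log Real.pi * (-1 / 2)) s := by
    refine HasDerivAt.const_cpow ?_ (Or.inl hpi)
    exact (hasDerivAt_neg s).div_const 2
  have hev : xi =ᶠ[𝓝 s] fun w => w * ((1 - w) * ((Real.pi : ℂ) ^ (-w / 2) *
      (Complex.Gamma (w / 2) * riemannZeta w))) := by
    filter_upwards [az_open.mem_nhds hs, isOpen_ne.mem_nhds hs1] with w hw0 hw1
    rw [xi_eq_zeta hw0 hw1, Gammaℝ_def]
    ring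
  have hld := (logDeriv_congr_nhds hev).self_of_nhds
  have d4 : DifferentiableAt ℂ (fun w : ℂ => Complex.Gamma (w / 2) * riemannZeta w) s :=
    hdG.mul hdz
  have d3 : DifferentiableAt ℂ (fun w : ℂ => (Real.pi : ℂ) ^ (-w / 2) *
      (Complex.Gamma (w / 2) * riemannZeta w)) s := hdp.differentiableAt.mul d4
  have d1 : DifferentiableAt ℂ (fun w : ℂ => 1 - w) s := by fun_prop
  have d2 : DifferentiableAt ℂ (fun w : ℂ => (1 - w) * ((Real.pi : ℂ) ^ (-w / 2) *
      (Complex.Gamma (w / 2) * riemannZeta w))) s := d1.mul d3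
  have m1 : logDeriv (fun w : ℂ => w * ((1 - w) * ((Real.pi : ℂ) ^ (-w / 2) *
      (Complex.Gamma (w / 2) * riemannZeta w)))) s = logDeriv (fun w : ℂ => w) s +
      logDeriv (fun w : ℂ => (1 - w) * ((Real.pi : ℂ) ^ (-w / 2) *
      (Complex.Gamma (w / 2) * riemannZeta w))) s :=
    logDeriv_mul (f := fun w : ℂ => w) s hs0
      (mul_ne_zero hs1' (mul_ne_zero hp (mul_ne_zero hG hz))) differentiableAt_id d2
  have m2 : logDeriv (fun w : ℂ => (1 - w) * ((Real.pi : ℂ) ^ (-w / 2) *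
      (Complex.Gamma (w / 2) * riemannZeta w))) s = logDeriv (fun w : ℂ => 1 - w) s +
      logDeriv (fun w : ℂ => (Real.pi : ℂ) ^ (-w / 2) *
      (Complex.Gamma (w / 2) * riemannZeta w)) s :=
    logDeriv_mul (f := fun w : ℂ => 1 - w) s hs1' (mul_ne_zero hp (mul_ne_zero hG hz)) d1 d3
  have m3 : logDeriv (fun w : ℂ => (Real.pi : ℂ) ^ (-w / 2) *
      (Complex.Gamma (w / 2) * riemannZeta w)) s =
      logDeriv (fun w : ℂ => (Real.pi : ℂ) ^ (-w / 2)) s +
      logDeriv (fun w : ℂ => Complex.Gamma (w / 2) * riemannZeta w) s :=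
    logDeriv_mul (f := fun w : ℂ => (Real.pi : ℂ) ^ (-w / 2)) s hp (mul_ne_zero hG hz)
      hdp.differentiableAt d4
  have m4 : logDeriv (fun w : ℂ => Complex.Gamma (w / 2) * riemannZeta w) s =
      logDeriv (fun w : ℂ => Complex.Gamma (w / 2)) s + logDeriv riemannZeta s :=
    logDeriv_mul (f := fun w : ℂ => Complex.Gamma (w / 2)) s hG hz hdG hdz
  have e1 : logDeriv (fun w : ℂ => w) s = 1 / s := by
    rw [logDeriv_apply]
    simp
  have e2 : logDeriv (fun w : ℂ => 1 - w) s = 1 / (s - 1) := by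
    rw [logDeriv_apply]
    have : deriv (fun w : ℂ => 1 - w) s = -1 := by
      rw [deriv_const_sub, deriv_id'']
    rw [this]
    field_simp
    ring
  have e3 : logDeriv (fun w : ℂ => (Real.pi : ℂ) ^ (-w / 2)) s =
      -((Real.log Real.pi : ℂ) / 2) := by
    rw [logDeriv_apply, hdp.deriv, ← Complex.ofReal_log Real.pi_pos.le]
    field_simp
  have e4 : logDeriv (fun w : ℂ => Complex.Gamma (w / 2)) s =
      Complex.digamma (s / 2) / 2 := by
    have h := logDeriv_comp (f := Complex.Gamma) (g := fun w : ℂ => w / 2) (x := s) hdG0 hdh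
    have hd : deriv (fun w : ℂ => w / 2) s = 1 / 2 := by
      simp
    rw [hd] at h
    have h' : logDeriv (fun w : ℂ => Complex.Gamma (w / 2)) s =
        logDeriv Complex.Gamma (s / 2) * (1 / 2) := h
    rw [h', Complex.digamma_def]
    ring
  rw [hld, m1, m2, m3, m4, e1, e2, e3, e4, Gd]
  ring


theorem xi_ne_iff {s : ℂ} (hs : 0 < s.re) (hs1 : s ≠ 1) : xi s ≠ 0 ↔ riemannZeta s ≠ 0 := by
  rw [xi_eq_zeta hs hs1]
  have hs0 : s ≠ 0 := by rintro rfl; simp at hs
  have hs1' : (1 : ℂ) - s ≠ 0 := sub_ne_zero.2 (Ne.symm hs1)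
  have hG := Gammaℝ_ne_zero_of_re_pos hs
  constructor
  · intro h h0
    exact h (by rw [h0, mul_zero])
  · intro h
    exact mul_ne_zero (mul_ne_zero (mul_ne_zero hs0 hs1') hG) h

private theorem az_line (t : ℝ) : Continuous (fun σ : ℝ => (σ : ℂ) + t * I) := by fun_prop

theorem FR_continuousOn (hRH : RiemannHypothesis) {t : ℝ} (hz : xi (1 / 2 + t * I) ≠ 0) :
    ContinuousOn (fun σ : ℝ => FR σ t) (Set.Icc (1 / 2) 3) := by
  have hd : Continuous (deriv xi) := (differentiable_xi.contDiff (n := 1)).continuous_deriv le_rfl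
  have hx : Continuous xi := differentiable_xi.continuous
  intro σ hσ
  have hne : xi ((σ : ℂ) + t * I) ≠ 0 := by
    rcases eq_or_lt_of_le hσ.1 with h | h
    · rw [← h]
      push_cast
      exact hz
    · exact xi_ne_of_RH hRH h
  have h1 : ContinuousAt (fun σ : ℝ => deriv xi ((σ : ℂ) + t * I) / xi ((σ : ℂ) + t * I)) σ :=
    ((hd.comp (az_line t)).continuousAt).div ((hx.comp (az_line t)).continuousAt) hne
  exact (Complex.continuous_re.continuousAt.comp h1).continuousWithinAt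

private theorem az_digamma {z : ℂ} (hz : 0 < z.re) : ContinuousAt Complex.digamma z := by
  have hd : DifferentiableOn ℂ Complex.Gamma {s : ℂ | 0 < s.re} := by
    intro w hw
    have hw : 0 < w.re := hw
    refine DifferentiableAt.differentiableWithinAt ?_
    refine Complex.differentiableAt_Gamma _ fun m h => ?_
    have h2 := congrArg Complex.re h
    have h3 : (-(m : ℂ)).re = -(m : ℝ) := by simp
    rw [h3] at h2
    have h4 : (0 : ℝ) ≤ m := Nat.cast_nonneg m
    linarith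
  have h1 := (hd.deriv az_open).continuousOn.continuousAt (az_open.mem_nhds hz)
  have h2 := hd.continuousOn.continuousAt (az_open.mem_nhds hz)
  have h3 := h1.div h2 (Complex.Gamma_ne_zero_of_re_pos hz)
  have h4 : Complex.digamma = fun s => deriv Complex.Gamma s / Complex.Gamma s := by
    funext s
    rw [Complex.digamma_def, logDeriv_apply]
  rw [h4]
  exact h3

private theorem az_Gd {s : ℂ} (hs : 0 < s.re) (hs1 : s ≠ 1) : ContinuousAt Gd s := by
  have hs0 : s ≠ 0 := by rintro rfl; simp at hs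
  have h1 : ContinuousAt (fun s : ℂ => Complex.digamma (s / 2)) s := by
    refine ContinuousAt.comp (f := fun s : ℂ => s / 2) (g := Complex.digamma) (az_digamma ?_) (by fun_prop)
    simpa using hs
  unfold Gd
  have h2 : ContinuousAt (fun s : ℂ => 1 / s) s := continuousAt_const.div continuousAt_id hs0
  have h3 : ContinuousAt (fun s : ℂ => 1 / (s - 1)) s :=
    continuousAt_const.div (continuousAt_id.sub continuousAt_const) (sub_ne_zero.2 hs1)
  exact ((h2.add h3).sub continuousAt_const).add (h1.div_const 2)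

private theorem az_ne1 {σ t : ℝ} (ht : 1 ≤ t) : (σ : ℂ) + t * I ≠ 1 := by
  intro h
  have := congrArg Complex.im h
  simp at this
  linarith

theorem Gd_continuousOn {t : ℝ} (ht : 1 ≤ t) :
    ContinuousOn (fun σ : ℝ => (Gd (σ + t * I)).re) (Set.Icc (1 / 2) 3) := by
  intro σ hσ
  have h1 : ContinuousAt Gd ((σ : ℂ) + t * I) := by
    apply az_Gd _ (az_ne1 ht)
    have : ((σ : ℂ) + t * I).re = σ := by simp
    rw [this]
    linarith [hσ.1]
  have h2 : ContinuousAt (fun σ : ℝ => Gd ((σ : ℂ) + t * I)) σ :=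
    ContinuousAt.comp (f := fun σ : ℝ => (σ : ℂ) + t * I) h1 (az_line t).continuousAt
  exact (Complex.continuous_re.continuousAt.comp h2).continuousWithinAt

private theorem az_log {f : ℝ → ℂ} {f' : ℂ} {x : ℝ} (hf : HasDerivAt f f' x) (h0 : f x ≠ 0) :
    HasDerivAt (fun y => Real.log ‖f y‖) (f' / f x).re x := by
  have hre : HasDerivAt (fun y => (f y).re) f'.re x := by
    have := (Complex.reCLM.hasFDerivAt.comp_hasDerivAt x hf)
    exact this
  have him : HasDerivAt (fun y => (f y).im) f'.im x := by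
    have := (Complex.imCLM.hasFDerivAt.comp_hasDerivAt x hf)
    exact this
  have hn : HasDerivAt (fun y => (f y).re * (f y).re + (f y).im * (f y).im)
      (f'.re * (f x).re + (f x).re * f'.re + (f'.im * (f x).im + (f x).im * f'.im)) x :=
    (hre.mul hre).add (him.mul him)
  have hpos : 0 < (f x).re * (f x).re + (f x).im * (f x).im := by
    rw [← Complex.normSq_apply]
    exact Complex.normSq_pos.2 h0
  have hl := (hn.log hpos.ne').const_mul (1 / 2 : ℝ)
  have e1 : (fun y => Real.log ‖f y‖) = fun y => (1 / 2 : ℝ) * Real.log ((f y).re * (f y).re + (f y).im * (f y).im) := by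
    funext y
    rw [← Complex.normSq_apply, Complex.normSq_eq_norm_sq, Real.log_pow]
    push_cast
    ring
  rw [e1]
  have e2 : (f' / f x).re = 1 / 2 * ((f'.re * (f x).re + (f x).re * f'.re + (f'.im * (f x).im + (f x).im * f'.im)) /
      ((f x).re * (f x).re + (f x).im * (f x).im)) := by
    rw [Complex.div_re, Complex.normSq_apply]
    ring
  rw [e2]
  exact hl

theorem log_norm_zeta (hRH : RiemannHypothesis) {t : ℝ} (ht : 1 ≤ t)
    (hz : riemannZeta (1 / 2 + t * I) ≠ 0) :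
    Real.log ‖riemannZeta (2 + t * I)‖ - Real.log ‖riemannZeta (1 / 2 + t * I)‖ =
      (∫ σ in (1 / 2 : ℝ)..2, FR σ t) - ∫ σ in (1 / 2 : ℝ)..2, (Gd (σ + t * I)).re := by
  have hhalf : ((1 / 2 : ℝ) : ℂ) = 1 / 2 := by push_cast; rfl
  have htwo : ((2 : ℝ) : ℂ) = 2 := by push_cast; rfl
  have hxi : xi (1 / 2 + t * I) ≠ 0 := by
    have h := (xi_ne_iff (s := 1 / 2 + t * I) (by simp) (by
      have := az_ne1 (σ := 1 / 2) ht
      rwa [hhalf] at this)).2 hz
    exact h
  have hzne : ∀ σ : ℝ, 1 / 2 ≤ σ → riemannZeta ((σ : ℂ) + t * I) ≠ 0 := by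
    intro σ hσ
    rcases eq_or_lt_of_le hσ with h | h
    · rw [← h, hhalf]
      exact hz
    · refine (xi_ne_iff (s := (σ : ℂ) + t * I) ?_ (az_ne1 ht)).1 (xi_ne_of_RH hRH h)
      have : ((σ : ℂ) + t * I).re = σ := by simp
      rw [this]
      linarith
  have hsub : Set.uIcc (1 / 2 : ℝ) 2 ⊆ Set.Icc (1 / 2) 3 := by
    rw [Set.uIcc_of_le (by norm_num)]
    exact Set.Icc_subset_Icc_right (by norm_num)
  have hF := (FR_continuousOn hRH hxi).mono hsub
  have hG := (Gd_continuousOn ht).mono hsub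
  have hFi := hF.intervalIntegrable (μ := MeasureTheory.volume)
  have hGi := hG.intervalIntegrable (μ := MeasureTheory.volume)
  rw [← intervalIntegral.integral_sub hFi hGi]
  have hder : ∀ σ ∈ Set.uIcc (1 / 2 : ℝ) 2, HasDerivAt (fun σ : ℝ => Real.log ‖riemannZeta ((σ : ℂ) + t * I)‖)
      (FR σ t - (Gd (σ + t * I)).re) σ := by
    intro σ hσ
    rw [Set.uIcc_of_le (by norm_num)] at hσ
    have hre : ((σ : ℂ) + t * I).re = σ := by simp
    have h1 := logDeriv_xi_formula' (s := (σ : ℂ) + t * I) (by rw [hre]; linarith [hσ.1]) (az_ne1 ht)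
      (hzne σ hσ.1)
    have h2 : FR σ t - (Gd (σ + t * I)).re = (deriv riemannZeta ((σ : ℂ) + t * I) / riemannZeta ((σ : ℂ) + t * I)).re := by
      rw [FR, h1, Complex.add_re, logDeriv_apply]
      ring
    rw [h2]
    refine az_log ?_ (hzne σ hσ.1)
    have h3 : HasDerivAt riemannZeta (deriv riemannZeta ((σ : ℂ) + t * I)) ((σ : ℂ) + t * I) :=
      (differentiableAt_riemannZeta (az_ne1 ht)).hasDerivAt
    have h4 : HasDerivAt (fun w : ℂ => riemannZeta (w + t * I)) (deriv riemannZeta ((σ : ℂ) + t * I)) (σ : ℂ) := by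
      have h5 := h3.comp_add_const (σ : ℂ) (t * I)
      exact h5
    exact h4.comp_ofReal
  have h := intervalIntegral.integral_eq_sub_of_hasDerivAt hder (hFi.sub hGi)
  rw [h, hhalf, htwo]

theorem FR_right {σ t : ℝ} (hσ : 1 < σ) :
    FR σ t = (Gd (σ + t * I)).re -
      (LSeries (fun n => ((ArithmeticFunction.vonMangoldt n : ℝ) : ℂ)) (σ + t * I)).re := by
  have hre : ((σ : ℂ) + t * I).re = σ := by simp
  have hs : 1 < ((σ : ℂ) + t * I).re := by rw [hre]; exact hσ
  have hs1 : (σ : ℂ) + t * I ≠ 1 := by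
    intro h
    rw [h] at hs
    simp at hs
  have h1 := logDeriv_xi_formula' (s := (σ : ℂ) + t * I) (lt_trans one_pos hs) hs1
    (riemannZeta_ne_zero_of_one_lt_re hs)
  have h2 := ArithmeticFunction.LSeries_vonMangoldt_eq_deriv_riemannZeta_div hs
  have h3 : LSeries (fun n => ((ArithmeticFunction.vonMangoldt n : ℝ) : ℂ)) ((σ : ℂ) + t * I) =
      -logDeriv riemannZeta ((σ : ℂ) + t * I) := by
    rw [logDeriv_apply, ← neg_div]
    exact h2
  rw [h3, FR, h1, Complex.add_re, Complex.neg_re]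
  ring

end Pool.Agent.Lib.MP_54baa8_nt
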