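import Mathlib
import Pool.Agent.Lib.MP_54baa8_nt.AX
import Pool.Agent.Lib.MP_54baa8_nt.AZ
import Pool.Agent.Lib.MP_54baa8_nt.APole
import Pool.Agent.Lib.MP_54baa8_nt.ATriv
import Pool.Agent.Lib.MP_54baa8_nt.ATail

/-!
# JOB APri: the conditional upper bound for `log |ζ(1/2+it)|`

Let `t ∈ [T, 2T]` with `ζ(1/2+it) ≠ 0` (otherwise the left side is `0`), `σ₀ = 1/2 + 3/L ≤ 2` (`L ≥ 2`), `s = σ + it`. For
`σ ∈ [σ₀, 2]`, `FR_diff`, `FR_right` at `σ + 1`, `pole_bound`, `triv_bound`, `tail_three_half`: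
`FR σ t ≥ Re Gd(s+1) - Re Λ-series(s+1) + Re (Sw (s+1)) - Re (Sw s) - 10/t - C₁/t - Err(σ)
 ≥ Re Gd(s+1) - Re (Sw s) - TL L - (10+C₁)/t - Err(σ)`, with `Err(σ) = (4/3)(1+e^{-L/2}) e^{-(L/2)(σ-1/2)} FR σ₀ t`, and
`∫_{σ₀}^{2} Err ≤ (4/3) (1+e^{-L/2}) (2/L) e^{-3/2} FR σ₀ t ≤ (3/(2L)) FR σ₀ t` for `L ≥ 2` (`e^{-3/2} ≤ 1/4`, `F_nonneg`).
On `[1/2, σ₀]`: `∫ FR ≥ (1/2) (3/L) FR σ₀ t` (`F_lower`; the integrand at `1/2` is irrelevant). Hence the two terms cancel: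
`∫_{1/2}^{2} FR ≥ ∫_{σ₀}^{2} Re Gd(s+1) - (Re Sl(σ₀+it) - Re Sl(2+it)) - 2 TL L - 2 (10+C₁)/t` (`integral_Sw`; `FR`, `Gd` are continuous:
`FR_continuousOn`, `Gd_continuousOn`). By `log_norm_zeta`,
`log ‖ζ(1/2+it)‖ = log ‖ζ(2+it)‖ - ∫ FR + ∫_{1/2}^{2} Re Gd(s)
 ≤ [log ‖ζ(2+it)‖ - Re Sl(2+it)] + Re Sl(σ₀+it) + ∫_{1/2}^{σ₀} Re Gd(s) + ∫_{σ₀}^{2} (Re Gd(s) - Re Gd(s+1)) + 2 TL L + 2(10+C₁)/t
 ≤ Re Sl(σ₀+it) + (3/L) ((1/2) log t + C₂) + 3 TL L + (2(10+C₁) + 2 C₃)/t` (`log_zeta_two`, `gd_upper`, `gd_diff`).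
With `log t ≤ log T + log 2` and `L`, `T` large the extra terms are `≤ 1`. `L ≤ log T ≤ log t` is used in `pole_bound`.
Finally `Sl L (σ₀ + it) = ∑_{n ≤ e^L} aL L n e^{-it log n}`.
-/

open Complex

namespace Pool.Agent.Lib.MP_54baa8_nt

open Pool.Agent.Lib.MP_00e05b_nt Pool.Agent.Lib.MP_ec260d_nt

private theorem apri_Sw_cont (L t : ℝ) : Continuous (fun σ : ℝ => (Sw L (σ + t * I)).re) := by
  unfold Sw
  fun_prop

private theorem apri_Sl (L t : ℝ) :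
    Sl L (((1 / 2 + 3 / L : ℝ) : ℂ) + t * I) = ∑ n ∈ Finset.Icc 1 ⌊Real.exp L⌋₊,
      (aL L n : ℂ) * Complex.exp (-(t * Real.log n : ℝ) * I) := by
  unfold Sl aL
  refine Finset.sum_congr rfl fun n _ => ?_
  have h : Complex.exp (-((((1 / 2 + 3 / L : ℝ) : ℂ) + t * I) * Real.log n)) =
      ((Real.exp (-(1 / 2 + 3 / L) * Real.log n) : ℝ) : ℂ) *
        Complex.exp (-(t * Real.log n : ℝ) * I) := by
    rw [Complex.ofReal_exp, ← Complex.exp_add]
    congr 1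
    push_cast
    ring
  rw [h]
  push_cast
  ring

/-- pointwise lower bound on `[σ₀, 2]` -/
private theorem apri_point (hRH : RiemannHypothesis) {C1 C3 L σ t : ℝ}
    (htriv : ∀ L σ t : ℝ, 1 ≤ L → 1 ≤ t → 1 / 2 ≤ σ → σ ≤ 2 →
      ‖∫ u, Gs L (σ + t * I) u * (rt u : ℂ)‖ ≤ C1 / t)
    (hgd : ∀ σ t : ℝ, 1 / 2 ≤ σ → σ ≤ 2 → 2 ≤ t →
      |(Gd (σ + t * I)).re - (Gd (σ + t * I + 1)).re| ≤ C3 / t)
    (hL : 2 ≤ L) (ht : 2 ≤ t) (hLt : L ≤ Real.log t) (hxi : xi (1 / 2 + t * I) ≠ 0)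
    (h1 : 1 / 2 + 3 / L ≤ σ) (h2 : σ ≤ 2) :
    -(Sw L (σ + t * I)).re - TL L - (10 + C1 + C3) / t -
      4 / 3 * (1 + Real.exp (-(L / 2))) * Real.exp (-(L / 2 * (σ - 1 / 2))) * FR (1 / 2 + 3 / L) t ≤
      FR σ t - (Gd (σ + t * I)).re := by
  have hL0 : 0 < L := by linarith
  have h3L : 0 < 3 / L := by positivity
  have hσ : 1 / 2 ≤ σ := by linarith
  have hA := FR_diff hRH hL0 hxi h1
  have hB := pole_bound (L := L) (σ := σ) (t := t) (by linarith) (by linarith) hLt hσ h2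
  have hC := htriv L σ t (by linarith) (by linarith) hσ h2
  have hD := FR_right (σ := σ + 1) (t := t) (by linarith)
  have hE := tail_three_half (L := L) (σ := σ) (t := t) hL0 hσ
  have hF := hgd σ t hσ h2 ht
  have hcast : (((σ + 1 : ℝ) : ℂ) + t * I) = (σ : ℂ) + t * I + 1 := by
    push_cast; ring
  rw [hcast] at hD
  set P := ∫ u, Gs L (σ + t * I) u * Complex.exp u with hP
  set R := ∫ u, Gs L (σ + t * I) u * (rt u : ℂ) with hR
  set S0 := Sw L (σ + t * I) with hS0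
  set S1 := Sw L (σ + t * I + 1) with hS1
  set LS := LSeries (fun n => ((ArithmeticFunction.vonMangoldt n : ℝ) : ℂ)) (σ + t * I + 1) with hLS
  have hPre : -(10 / t) ≤ P.re := by
    have := Complex.abs_re_le_norm P
    have := abs_le.1 (this.trans hB)
    linarith [this.1]
  have hRre : R.re ≤ C1 / t := by
    have := Complex.abs_re_le_norm R
    have := abs_le.1 (this.trans hC)
    linarith [this.2]
  have hT : (LS - S1).re ≤ TL L := by
    have := Complex.abs_re_le_norm (LS - S1)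
    have := abs_le.1 (this.trans hE)
    linarith [this.2]
  have hF' := (abs_le.1 hF).2
  simp only [Complex.sub_re] at hA hT
  have hsplit : (10 + C1 + C3) / t = 10 / t + C1 / t + C3 / t := by ring
  rw [hsplit]
  linarith

private theorem apri_int_exp {L : ℝ} (hL : 2 ≤ L) :
    ∫ σ in (1 / 2 + 3 / L)..2, Real.exp (-(L / 2 * (σ - 1 / 2))) ≤ 2 / L * Real.exp (-(3 / 2)) := by
  have hL0 : 0 < L := by linarith
  have h : ∀ σ ∈ Set.uIcc (1 / 2 + 3 / L) 2,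
      HasDerivAt (fun σ : ℝ => -(2 / L) * Real.exp (-(L / 2 * (σ - 1 / 2))))
        (Real.exp (-(L / 2 * (σ - 1 / 2)))) σ := by
    intro σ _
    have h1 : HasDerivAt (fun σ : ℝ => -(L / 2 * (σ - 1 / 2))) (-(L / 2 * 1)) σ :=
      (((hasDerivAt_id σ).sub_const _).const_mul _).neg
    have h2 := (h1.exp).const_mul (-(2 / L))
    refine h2.congr_deriv ?_
    field_simp
  have hi : IntervalIntegrable (fun σ : ℝ => Real.exp (-(L / 2 * (σ - 1 / 2)))) MeasureTheory.volume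
      (1 / 2 + 3 / L) 2 := (by fun_prop : Continuous fun σ : ℝ =>
        Real.exp (-(L / 2 * (σ - 1 / 2)))).intervalIntegrable _ _
  rw [intervalIntegral.integral_eq_sub_of_hasDerivAt h hi]
  have e1 : -(L / 2 * (1 / 2 + 3 / L - 1 / 2)) = -(3 / 2) := by
    field_simp
    ring
  rw [e1]
  have : 0 < 2 / L * Real.exp (-(L / 2 * (2 - 1 / 2))) := by positivity
  linarith

private theorem apri_int_lin {L F0 : ℝ} (hL : 0 < L) :
    ∫ σ in (1 / 2 : ℝ)..(1 / 2 + 3 / L), (σ - 1 / 2) / (1 / 2 + 3 / L - 1 / 2) * F0 =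
      3 / (2 * L) * F0 := by
  have h : ∀ σ ∈ Set.uIcc (1 / 2 : ℝ) (1 / 2 + 3 / L),
      HasDerivAt (fun σ : ℝ => (σ - 1 / 2) ^ 2 / 2 * (L / 3) * F0)
        ((σ - 1 / 2) / (1 / 2 + 3 / L - 1 / 2) * F0) σ := by
    intro σ _
    have h1 : HasDerivAt (fun σ : ℝ => (σ - 1 / 2) ^ 2) (2 * (σ - 1 / 2)) σ := by
      have := ((hasDerivAt_id σ).sub_const (1 / 2)).pow 2
      refine this.congr_deriv ?_
      simp
    have h2 := ((h1.div_const 2).mul_const (L / 3)).mul_const F0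
    refine h2.congr_deriv ?_
    have e : (1 / 2 + 3 / L - 1 / 2 : ℝ) = 3 / L := by ring
    rw [e]
    field_simp
  have hi : IntervalIntegrable (fun σ : ℝ => (σ - 1 / 2) / (1 / 2 + 3 / L - 1 / 2) * F0)
      MeasureTheory.volume (1 / 2) (1 / 2 + 3 / L) :=
    (by fun_prop : Continuous fun σ : ℝ =>
      (σ - 1 / 2) / (1 / 2 + 3 / L - 1 / 2) * F0).intervalIntegrable _ _
  rw [intervalIntegral.integral_eq_sub_of_hasDerivAt h hi]
  field_simp
  ring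

private theorem apri_core (hRH : RiemannHypothesis) {C1 C2 C3 L t : ℝ}
    (htriv : ∀ L σ t : ℝ, 1 ≤ L → 1 ≤ t → 1 / 2 ≤ σ → σ ≤ 2 →
      ‖∫ u, Gs L (σ + t * I) u * (rt u : ℂ)‖ ≤ C1 / t)
    (hgu : ∀ σ t : ℝ, 1 / 2 ≤ σ → σ ≤ 3 → 2 ≤ t →
      (Gd (σ + t * I)).re ≤ 1 / 2 * Real.log t + C2)
    (hgd : ∀ σ t : ℝ, 1 / 2 ≤ σ → σ ≤ 2 → 2 ≤ t →
      |(Gd (σ + t * I)).re - (Gd (σ + t * I + 1)).re| ≤ C3 / t)
    (hC1 : 0 ≤ C1) (hC3 : 0 ≤ C3)
    (hL : 2 ≤ L) (ht : 2 ≤ t) (hLt : L ≤ Real.log t) (hz : riemannZeta (1 / 2 + t * I) ≠ 0) :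
    Real.log ‖riemannZeta (1 / 2 + t * I)‖ ≤ (Sl L (((1 / 2 + 3 / L : ℝ) : ℂ) + t * I)).re +
      3 / L * (1 / 2 * Real.log t + C2) + 5 / 2 * TL L + 3 / 2 * ((10 + C1 + C3) / t) := by
  have hL0 : 0 < L := by linarith
  have h3L : 0 < 3 / L := by positivity
  have h3L2 : 3 / L ≤ 3 / 2 := by
    rw [div_le_div_iff_of_pos_left (by norm_num) hL0 (by norm_num)]
    exact hL
  have hxi : xi (1 / 2 + t * I) ≠ 0 := by
    refine (xi_ne_iff ?_ ?_).2 hz
    · simp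
    · intro h
      have := congrArg Complex.re h
      simp at this
  set σ₀ : ℝ := 1 / 2 + 3 / L with hσ₀
  have hσ₀1 : 1 / 2 < σ₀ := by linarith
  have hσ₀2 : σ₀ ≤ 2 := by linarith
  have hFc := FR_continuousOn hRH hxi
  have hGc := Gd_continuousOn (t := t) (by linarith)
  have hTL : 0 ≤ TL L := (norm_nonneg _).trans (tail_three_half (L := L) (σ := 1) (t := t) hL0 (by norm_num))
  have hF0 : 0 ≤ FR σ₀ t := F_nonneg hRH hxi hσ₀1
  have hFi : ∀ a b : ℝ, 1 / 2 ≤ a → a ≤ b → b ≤ 2 →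
      IntervalIntegrable (fun σ : ℝ => FR σ t) MeasureTheory.volume a b := by
    intro a b ha hab hb
    refine (hFc.mono ?_).intervalIntegrable
    rw [Set.uIcc_of_le hab]
    exact Set.Icc_subset_Icc ha (by linarith)
  have hGi : ∀ a b : ℝ, 1 / 2 ≤ a → a ≤ b → b ≤ 2 →
      IntervalIntegrable (fun σ : ℝ => (Gd (σ + t * I)).re) MeasureTheory.volume a b := by
    intro a b ha hab hb
    refine (hGc.mono ?_).intervalIntegrable
    rw [Set.uIcc_of_le hab]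
    exact Set.Icc_subset_Icc ha (by linarith)
  -- the upper range
  have hup : -((Sl L (((1 / 2 + 3 / L : ℝ) : ℂ) + t * I)).re - (Sl L (2 + t * I)).re) -
      (2 - σ₀) * (TL L + (10 + C1 + C3) / t) - 3 / (2 * L) * FR σ₀ t ≤
      (∫ σ in σ₀..2, FR σ t) - ∫ σ in σ₀..2, (Gd (σ + t * I)).re := by
    rw [← intervalIntegral.integral_sub (hFi _ _ hσ₀1.le hσ₀2 le_rfl) (hGi _ _ hσ₀1.le hσ₀2 le_rfl)]
    have hmono : ∫ σ in σ₀..2, (-(Sw L (σ + t * I)).re - (TL L + (10 + C1 + C3) / t) -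
        4 / 3 * (1 + Real.exp (-(L / 2))) * FR σ₀ t * Real.exp (-(L / 2 * (σ - 1 / 2)))) ≤
        ∫ σ in σ₀..2, (FR σ t - (Gd (σ + t * I)).re) := by
      refine intervalIntegral.integral_mono_on hσ₀2 ?_
        ((hFi _ _ hσ₀1.le hσ₀2 le_rfl).sub (hGi _ _ hσ₀1.le hσ₀2 le_rfl)) ?_
      · refine Continuous.intervalIntegrable ?_ _ _
        have := apri_Sw_cont L t
        fun_prop
      · intro σ hσ
        have := apri_point hRH htriv hgd hL ht hLt hxi hσ.1 hσ.2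
        linarith
    refine le_trans ?_ hmono
    have hSwc := apri_Sw_cont L t
    have i1 : IntervalIntegrable (fun σ : ℝ => -(Sw L (σ + t * I)).re) MeasureTheory.volume σ₀ 2 :=
      (hSwc.neg).intervalIntegrable _ _
    have i2 : IntervalIntegrable (fun _ : ℝ => (TL L + (10 + C1 + C3) / t)) MeasureTheory.volume σ₀ 2 :=
      (continuous_const).intervalIntegrable _ _
    have i3 : IntervalIntegrable (fun σ : ℝ => 4 / 3 * (1 + Real.exp (-(L / 2))) * FR σ₀ t *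
        Real.exp (-(L / 2 * (σ - 1 / 2)))) MeasureTheory.volume σ₀ 2 := by
      refine Continuous.intervalIntegrable ?_ _ _
      fun_prop
    rw [intervalIntegral.integral_sub (i1.sub i2) i3, intervalIntegral.integral_sub i1 i2,
      intervalIntegral.integral_neg, intervalIntegral.integral_const,
      intervalIntegral.integral_const_mul]
    have hSw := integral_Sw L σ₀ 2 t
    rw [hSw]
    have hexp := apri_int_exp hL
    rw [← hσ₀] at hexp
    have hE1 : Real.exp (-(L / 2)) ≤ 1 := Real.exp_le_one_iff.2 (by linarith)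
    have hE2 : Real.exp (-(3 / 2)) ≤ 1 / 4 := by
      have h1 : Real.exp (-(3 / 2)) = (Real.exp (3 / 2))⁻¹ := Real.exp_neg _
      rw [h1, one_div]
      refine inv_anti₀ (by norm_num) ?_
      have h2 : Real.exp (3 / 2) = Real.exp 1 * Real.exp (1 / 2) := by
        rw [← Real.exp_add]; norm_num
      have h3 := Real.exp_one_gt_d9
      have h4 : (1 : ℝ) + 1 / 2 + (1 / 2) ^ 2 / 2 ≤ Real.exp (1 / 2) :=
        Real.quadratic_le_exp_of_nonneg (by norm_num)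
      rw [h2]
      nlinarith
    have hint : 4 / 3 * (1 + Real.exp (-(L / 2))) * FR σ₀ t *
        ∫ σ in σ₀..2, Real.exp (-(L / 2 * (σ - 1 / 2))) ≤ 3 / (2 * L) * FR σ₀ t := by
      have hA : 4 / 3 * (1 + Real.exp (-(L / 2))) * FR σ₀ t ≤ 8 / 3 * FR σ₀ t := by
        nlinarith
      have hB : (∫ σ in σ₀..2, Real.exp (-(L / 2 * (σ - 1 / 2)))) ≤ 1 / (2 * L) := by
        refine hexp.trans ?_
        have : 2 / L * Real.exp (-(3 / 2)) ≤ 2 / L * (1 / 4) :=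
          mul_le_mul_of_nonneg_left hE2 (by positivity)
        refine this.trans (le_of_eq ?_)
        field_simp
        norm_num
      have hBn : 0 ≤ ∫ σ in σ₀..2, Real.exp (-(L / 2 * (σ - 1 / 2))) :=
        intervalIntegral.integral_nonneg hσ₀2 fun σ _ => (Real.exp_pos _).le
      calc _ ≤ (8 / 3 * FR σ₀ t) * (1 / (2 * L)) := mul_le_mul hA hB hBn (by positivity)
        _ ≤ 3 / (2 * L) * FR σ₀ t := by
          have : 8 / 3 * FR σ₀ t * (1 / (2 * L)) = (8 / 3) / (2 * L) * FR σ₀ t := by ring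
          rw [this]
          refine mul_le_mul_of_nonneg_right ?_ hF0
          exact div_le_div_of_nonneg_right (by norm_num) (by positivity)
    have h2c : ((2 : ℝ) : ℂ) = 2 := by norm_num
    rw [h2c, smul_eq_mul]
    linarith
  -- the lower range
  have hlow : 3 / (2 * L) * FR σ₀ t - 3 / L * (1 / 2 * Real.log t + C2) ≤
      (∫ σ in (1 / 2 : ℝ)..σ₀, FR σ t) - ∫ σ in (1 / 2 : ℝ)..σ₀, (Gd (σ + t * I)).re := by
    have h1 : 3 / (2 * L) * FR σ₀ t ≤ ∫ σ in (1 / 2 : ℝ)..σ₀, FR σ t := by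
      rw [← apri_int_lin (L := L) (F0 := FR σ₀ t) hL0]
      refine intervalIntegral.integral_mono_on_of_le_Ioo hσ₀1.le ?_
        (hFi _ _ le_rfl hσ₀1.le hσ₀2) ?_
      · refine Continuous.intervalIntegrable ?_ _ _
        fun_prop
      · intro σ hσ
        exact F_lower hRH hxi hσ.1 hσ.2.le
    have h2 : ∫ σ in (1 / 2 : ℝ)..σ₀, (Gd (σ + t * I)).re ≤ 3 / L * (1 / 2 * Real.log t + C2) := by
      have h3 : ∫ σ in (1 / 2 : ℝ)..σ₀, (Gd (σ + t * I)).re ≤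
          ∫ _ in (1 / 2 : ℝ)..σ₀, (1 / 2 * Real.log t + C2) := by
        refine intervalIntegral.integral_mono_on hσ₀1.le (hGi _ _ le_rfl hσ₀1.le hσ₀2)
          (continuous_const.intervalIntegrable _ _) ?_
        intro σ hσ
        exact hgu σ t hσ.1 (by linarith [hσ.2]) ht
      refine h3.trans (le_of_eq ?_)
      rw [intervalIntegral.integral_const, smul_eq_mul, hσ₀]
      ring
    linarith
  have hlog := log_norm_zeta hRH (t := t) (by linarith) hz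
  have hs1 := intervalIntegral.integral_add_adjacent_intervals
    (hFi _ _ le_rfl hσ₀1.le hσ₀2) (hFi _ _ hσ₀1.le hσ₀2 le_rfl)
  have hs2 := intervalIntegral.integral_add_adjacent_intervals
    (hGi _ _ le_rfl hσ₀1.le hσ₀2) (hGi _ _ hσ₀1.le hσ₀2 le_rfl)
  rw [← hs1, ← hs2] at hlog
  have hl2 := (abs_le.1 (log_zeta_two hL t)).2
  have hpos : 0 ≤ (10 + C1 + C3) / t := by positivity
  have hmul : (2 - σ₀) * (TL L + (10 + C1 + C3) / t) ≤ 3 / 2 * (TL L + (10 + C1 + C3) / t) :=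
    mul_le_mul_of_nonneg_right (by linarith) (by positivity)
  linarith

theorem zeta_upper (hRH : RiemannHypothesis) : ∃ L0 T0 : ℝ, 1 ≤ L0 ∧ 2 ≤ T0 ∧ ∀ T t L : ℝ, T0 ≤ T →
    T ≤ t → t ≤ 2 * T → L0 ≤ L → L ≤ Real.log T →
    ‖riemannZeta (1 / 2 + t * I)‖ ≤ Real.exp ((∑ n ∈ Finset.Icc 1 ⌊Real.exp L⌋₊,
      (aL L n : ℂ) * Complex.exp (-(t * Real.log n : ℝ) * I)).re + 3 / 2 * (Real.log T / L) + 1) := by
  obtain ⟨C1, hC1, htriv⟩ := triv_bound
  obtain ⟨C2, hC2, hgu⟩ := gd_upper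
  obtain ⟨C3, hC3, hgd⟩ := gd_diff
  obtain ⟨L1, hL1⟩ := Filter.eventually_atTop.1
    (TL_tendsto.eventually (gt_mem_nhds (show (0 : ℝ) < 1 / 10 by norm_num)))
  refine ⟨max (max 2 L1) (9 * C2 + 6), max 2 (6 * (10 + C1 + C3)), ?_, le_max_left _ _, ?_⟩
  · exact le_trans (by norm_num) ((le_max_left (2 : ℝ) L1).trans (le_max_left _ _))
  intro T t L hT0 hTt ht2 hL0 hLT
  have hL2 : 2 ≤ L := ((le_max_left (2 : ℝ) L1).trans (le_max_left _ _)).trans hL0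
  have hLL1 : L1 ≤ L := ((le_max_right (2 : ℝ) L1).trans (le_max_left _ _)).trans hL0
  have hLC : 9 * C2 + 6 ≤ L := (le_max_right _ _).trans hL0
  have hT2 : 2 ≤ T := (le_max_left _ _).trans hT0
  have hTC : 6 * (10 + C1 + C3) ≤ T := (le_max_right _ _).trans hT0
  have ht : 2 ≤ t := hT2.trans hTt
  have hLpos : 0 < L := by linarith
  by_cases hz : riemannZeta (1 / 2 + t * I) = 0
  · rw [hz, norm_zero]
    exact (Real.exp_pos _).le
  have hlogTt : Real.log T ≤ Real.log t := Real.log_le_log (by linarith) hTt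
  have hcore := apri_core hRH htriv hgu hgd hC1 hC3 hL2 ht (hLT.trans hlogTt) hz
  have hTL : TL L < 1 / 10 := hL1 L hLL1
  rw [apri_Sl] at hcore
  have hlogt : Real.log t ≤ Real.log T + 1 := by
    have h1 : Real.log t ≤ Real.log (2 * T) := Real.log_le_log (by linarith) ht2
    rw [Real.log_mul (by norm_num) (by linarith)] at h1
    have h2 := Real.log_two_lt_d9
    linarith
  have hx1 : 3 / L * (1 / 2 * Real.log t + C2) ≤ 3 / 2 * (Real.log T / L) + 1 / 3 := by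
    have h1 : 3 / L * (1 / 2 * Real.log t + C2) ≤ 3 / L * (1 / 2 * (Real.log T + 1) + C2) :=
      mul_le_mul_of_nonneg_left (by linarith) (by positivity)
    have h2 : 3 / L * (1 / 2 * (Real.log T + 1) + C2) =
        3 / 2 * (Real.log T / L) + (3 / 2 + 3 * C2) / L := by
      field_simp
      ring
    have h3 : (3 / 2 + 3 * C2) / L ≤ 1 / 3 := by
      rw [div_le_iff₀ hLpos]
      linarith
    linarith
  have hx2 : 3 / 2 * ((10 + C1 + C3) / t) ≤ 1 / 4 := by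
    have h1 : (10 + C1 + C3) / t ≤ 1 / 6 := by
      rw [div_le_iff₀ (by linarith)]
      linarith
    linarith
  have hfin : Real.log ‖riemannZeta (1 / 2 + t * I)‖ ≤ (∑ n ∈ Finset.Icc 1 ⌊Real.exp L⌋₊,
      (aL L n : ℂ) * Complex.exp (-(t * Real.log n : ℝ) * I)).re + 3 / 2 * (Real.log T / L) + 1 := by
    linarith
  exact (Real.log_le_iff_le_exp (norm_pos_iff.2 hz)).1 hfin

end Pool.Agent.Lib.MP_54baa8_nt
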