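import Mathlib
import Pool.Agent.Lib.MP_54baa8_nt.Defs

/-!
# JOB BA: values of Dirichlet polynomials are multiplicative

`Len f X` makes `f` finitely supported, so `LSeriesSummable` holds at every `s` (`summable_of_finite_support` or
`summable_of_ne_finset_zero` applied to `LSeries.term`). `dv_mul`: `ArithmeticFunction.LSeries_mul'` for the complex arithmetic
functions `n ↦ (f n : ℂ)`; the coefficients of the product are the casts of the real ones (`ArithmeticFunction.mul_apply`,
push_cast). The rest is linear: `LSeries_add`, `LSeries_smul`, or unfold `LSeries` as the finite sum of `dv_eq_sum`.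
`dv_eq_sum`: `LSeries.term f (t I) n = f n / n ^ (t I) = f n * exp (- t I log n)` for `n ≥ 1`, `f 0 = 0`.
`dv_EN`: `dv_sum`, `dv_smul`, `dv_pow` (all powers have some `Len`, as in `BL`: prove what is needed here directly, e.g. that a
product of `Len f X`, `Len g Y` with `0 ≤ X`, `0 ≤ Y` is `Len (f * g) (X * Y)`: if `n > X Y` and `a b = n` then `a > X` or `b > Y`).
-/

open Complex

namespace Pool.Agent.Lib.MP_54baa8_nt

private theorem ba_coe_mul (f g : ArithmeticFunction ℝ) :
    (fun n : ℕ => (((f * g) n : ℝ) : ℂ)) =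
      LSeries.convolution (fun n : ℕ => ((f n : ℝ) : ℂ)) (fun n : ℕ => ((g n : ℝ) : ℂ)) := by
  funext n
  rw [LSeries.convolution_def]
  simp only [ArithmeticFunction.mul_apply]
  push_cast
  rfl

private theorem ba_term_zero {f : ArithmeticFunction ℝ} {X : ℝ} (hf : Len f X) (s : ℂ) (n : ℕ)
    (hn : n ∉ Finset.Icc 1 ⌊X⌋₊) : LSeries.term (fun n => ((f n : ℝ) : ℂ)) s n = 0 := by
  by_cases h0 : n = 0
  · subst h0
    exact LSeries.term_zero _ _
  · rw [LSeries.term_of_ne_zero h0]
    have h1 : ⌊X⌋₊ < n := by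
      by_contra h
      exact hn (Finset.mem_Icc.mpr ⟨Nat.one_le_iff_ne_zero.mpr h0, not_lt.mp h⟩)
    have h2 : X < n := (Nat.floor_lt' h0).mp h1
    rw [hf n h2]
    simp

private theorem ba_summable {f : ArithmeticFunction ℝ} {X : ℝ} (hf : Len f X) (s : ℂ) :
    LSeriesSummable (fun n => ((f n : ℝ) : ℂ)) s :=
  summable_of_ne_finset_zero (s := Finset.Icc 1 ⌊X⌋₊) (fun n hn => ba_term_zero hf s n hn)

private theorem ba_len_one : Len 1 1 := by
  intro n hn
  have h : n ≠ 1 := by
    rintro rfl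
    simp at hn
  exact ArithmeticFunction.one_apply_ne h

private theorem ba_len_mul {f g : ArithmeticFunction ℝ} {X Y : ℝ} (hf : Len f X) (hg : Len g Y)
    (hX : 0 ≤ X) (hY : 0 ≤ Y) : Len (f * g) (X * Y) := by
  intro n hn
  rw [ArithmeticFunction.mul_apply]
  refine Finset.sum_eq_zero ?_
  rintro ⟨a, b⟩ hab
  have h1 : a * b = n := (Nat.mem_divisorsAntidiagonal.mp hab).1
  by_cases ha : X < a
  · simp [hf a ha]
  · by_cases hb : Y < b
    · simp [hg b hb]
    · exfalso
      have h2 : (a : ℝ) * b ≤ X * Y :=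
        mul_le_mul (not_lt.mp ha) (not_lt.mp hb) (Nat.cast_nonneg b) hX
      have h3 : ((a * b : ℕ) : ℝ) = n := by rw [h1]
      push_cast at h3
      linarith

private theorem ba_len_pow {f : ArithmeticFunction ℝ} {X : ℝ} (hf : Len f X) (hX : 0 ≤ X) (r : ℕ) :
    Len (f ^ r) (X ^ r) := by
  induction r with
  | zero =>
    rw [pow_zero, pow_zero]
    exact ba_len_one
  | succ r ih =>
    rw [pow_succ, pow_succ]
    exact ba_len_mul ih hf (pow_nonneg hX r) hX

private theorem ba_len_smul {f : ArithmeticFunction ℝ} {X : ℝ} (hf : Len f X) (c : ℝ) :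
    Len (c • f) X := by
  intro n hn
  have h : (c • f) n = c * f n := rfl
  rw [h, hf n hn, mul_zero]

private theorem ba_len_prod {ι : Type*} (s : Finset ι) {f : ι → ArithmeticFunction ℝ} {X : ι → ℝ}
    (hf : ∀ i ∈ s, Len (f i) (X i)) (hX : ∀ i ∈ s, 0 ≤ X i) :
    Len (∏ i ∈ s, f i) (∏ i ∈ s, X i) := by
  classical
  induction s using Finset.induction_on with
  | empty =>
    rw [Finset.prod_empty, Finset.prod_empty]
    exact ba_len_one
  | insert a s ha ih =>
    rw [Finset.prod_insert ha, Finset.prod_insert ha]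
    exact ba_len_mul (hf a (Finset.mem_insert_self a s))
      (ih (fun i hi => hf i (Finset.mem_insert_of_mem hi))
        (fun i hi => hX i (Finset.mem_insert_of_mem hi)))
      (hX a (Finset.mem_insert_self a s))
      (Finset.prod_nonneg fun i hi => hX i (Finset.mem_insert_of_mem hi))

theorem dv_eq_sum {f : ArithmeticFunction ℝ} {X : ℝ} (hf : Len f X) (t : ℝ) :
    dv f t = ∑ n ∈ Finset.Icc 1 ⌊X⌋₊, (f n : ℂ) * Complex.exp (-(t * Real.log n : ℝ) * I) := by
  unfold dv LSeries
  rw [tsum_eq_sum (s := Finset.Icc 1 ⌊X⌋₊) (fun n hn => ba_term_zero hf _ n hn)]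
  refine Finset.sum_congr rfl ?_
  intro n hn
  have hn1 : 1 ≤ n := (Finset.mem_Icc.mp hn).1
  have hn0 : n ≠ 0 := by omega
  have hnc : (n : ℂ) ≠ 0 := Nat.cast_ne_zero.mpr hn0
  rw [LSeries.term_of_ne_zero hn0, Complex.cpow_def_of_ne_zero hnc, div_eq_mul_inv, ← Complex.exp_neg]
  refine congrArg (fun z => ((f n : ℝ) : ℂ) * Complex.exp z) ?_
  have h1 : Complex.log (n : ℂ) = ((Real.log n : ℝ) : ℂ) := by
    rw [Complex.natCast_log]
  rw [h1]
  push_cast
  ring

theorem dv_mul {f g : ArithmeticFunction ℝ} {X Y : ℝ} (hf : Len f X) (hg : Len g Y) (t : ℝ) :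
    dv (f * g) t = dv f t * dv g t := by
  unfold dv
  rw [ba_coe_mul f g]
  exact LSeries_convolution' (ba_summable hf _) (ba_summable hg _)

theorem dv_add {f g : ArithmeticFunction ℝ} {X Y : ℝ} (hf : Len f X) (hg : Len g Y) (t : ℝ) :
    dv (f + g) t = dv f t + dv g t := by
  unfold dv
  rw [← LSeries_add (ba_summable hf _) (ba_summable hg _)]
  refine congrArg (fun F => LSeries F (t * I)) ?_
  funext n
  simp

theorem dv_smul (c : ℝ) (f : ArithmeticFunction ℝ) (t : ℝ) : dv (c • f) t = c * dv f t := by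
  unfold dv
  rw [← LSeries_smul]
  refine congrArg (fun F => LSeries F (t * I)) ?_
  funext n
  have h : (c • f) n = c * f n := rfl
  rw [h]
  simp

theorem dv_one (t : ℝ) : dv 1 t = 1 := by
  rw [dv_eq_sum ba_len_one t]
  simp

theorem dv_pow {f : ArithmeticFunction ℝ} {X : ℝ} (hf : Len f X) (hX : 0 ≤ X) (r : ℕ) (t : ℝ) :
    dv (f ^ r) t = dv f t ^ r := by
  induction r with
  | zero => rw [pow_zero, pow_zero, dv_one]
  | succ r ih => rw [pow_succ, pow_succ, dv_mul (ba_len_pow hf hX r) hf t, ih]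

theorem dv_prod {ι : Type*} (s : Finset ι) {f : ι → ArithmeticFunction ℝ} {X : ι → ℝ}
    (hf : ∀ i ∈ s, Len (f i) (X i)) (hX : ∀ i ∈ s, 0 ≤ X i) (t : ℝ) :
    dv (∏ i ∈ s, f i) t = ∏ i ∈ s, dv (f i) t := by
  classical
  induction s using Finset.induction_on with
  | empty => rw [Finset.prod_empty, Finset.prod_empty, dv_one]
  | insert a s ha ih =>
    have h1 : ∀ i ∈ s, Len (f i) (X i) := fun i hi => hf i (Finset.mem_insert_of_mem hi)
    have h2 : ∀ i ∈ s, 0 ≤ X i := fun i hi => hX i (Finset.mem_insert_of_mem hi)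
    rw [Finset.prod_insert ha, Finset.prod_insert ha,
      dv_mul (hf a (Finset.mem_insert_self a s)) (ba_len_prod s h1 h2) t, ih h1 h2]

private theorem ba_len_sum {ι : Type*} (s : Finset ι) {f : ι → ArithmeticFunction ℝ} {X : ℝ}
    (hf : ∀ i ∈ s, Len (f i) X) : Len (∑ i ∈ s, f i) X := by
  classical
  induction s using Finset.induction_on with
  | empty =>
    rw [Finset.sum_empty]
    intro n _
    rfl
  | insert a s ha ih =>
    rw [Finset.sum_insert ha]
    intro n hn
    have h1 : ∀ i ∈ s, Len (f i) X := fun i hi => hf i (Finset.mem_insert_of_mem hi)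
    rw [ArithmeticFunction.add_apply, hf a (Finset.mem_insert_self a s) n hn, ih h1 n hn, add_zero]

private theorem ba_dv_zero (t : ℝ) : dv 0 t = 0 := by
  have h := dv_smul 0 0 t
  rw [zero_smul] at h
  simpa using h

theorem dv_sum {ι : Type*} (s : Finset ι) {f : ι → ArithmeticFunction ℝ} {X : ℝ}
    (hf : ∀ i ∈ s, Len (f i) X) (t : ℝ) :
    dv (∑ i ∈ s, f i) t = ∑ i ∈ s, dv (f i) t := by
  classical
  induction s using Finset.induction_on with
  | empty => rw [Finset.sum_empty, Finset.sum_empty, ba_dv_zero]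
  | insert a s ha ih =>
    have h1 : ∀ i ∈ s, Len (f i) X := fun i hi => hf i (Finset.mem_insert_of_mem hi)
    rw [Finset.sum_insert ha, Finset.sum_insert ha,
      dv_add (hf a (Finset.mem_insert_self a s)) (ba_len_sum s h1) t, ih h1]

theorem dv_EN {M : ArithmeticFunction ℝ} {X : ℝ} (hM : Len M X) (hX : 0 ≤ X) (N : ℕ) (κ t : ℝ) :
    dv (EN N κ M) t = eN N (κ * dv M t) := by
  unfold EN eN
  have hlen : ∀ r ∈ Finset.range (N + 1),
      Len ((κ ^ r / (r.factorial : ℝ)) • M ^ r) (max 1 X ^ N) := by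
    intro r hr
    have hr' : r ≤ N := Nat.lt_succ_iff.mp (Finset.mem_range.mp hr)
    refine ba_len_smul ?_ _
    intro n hn
    refine ba_len_pow hM hX r n (lt_of_le_of_lt ?_ hn)
    calc X ^ r ≤ (max 1 X) ^ r := pow_le_pow_left₀ hX (le_max_right 1 X) r
      _ ≤ (max 1 X) ^ N := pow_le_pow_right₀ (le_max_left 1 X) hr'
  rw [dv_sum _ hlen t]
  refine Finset.sum_congr rfl ?_
  intro r _
  rw [dv_smul, dv_pow hM hX, mul_pow]
  push_cast
  ring

theorem dv_continuous {f : ArithmeticFunction ℝ} {X : ℝ} (hf : Len f X) : Continuous (dv f) := by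
  have h : dv f = fun t : ℝ =>
      ∑ n ∈ Finset.Icc 1 ⌊X⌋₊, (f n : ℂ) * Complex.exp (-(t * Real.log n : ℝ) * I) := by
    funext t
    exact dv_eq_sum hf t
  rw [h]
  fun_prop

end Pool.Agent.Lib.MP_54baa8_nt
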