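import Mathlib
import Pool.Agent.Lib.MP_54baa8_nt.Defs

/-!
# JOB BL: length and nonnegativity of products

`Len.mul`: if `n > X Y` and `a b = n` then `a > X` or `b > Y` (`ArithmeticFunction.mul_apply`, `Nat.mem_divisorsAntidiagonal`).
`Len.EN`: `M ^ r` has length `X ^ r ≤ X ^ N` for `r ≤ N`, `X ≥ 1`.
-/

namespace Pool.Agent.Lib.MP_54baa8_nt

private theorem bl_sum_apply {ι : Type*} (s : Finset ι) (f : ι → ArithmeticFunction ℝ) (n : ℕ) :
    (∑ i ∈ s, f i) n = ∑ i ∈ s, f i n := by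
  classical
  induction s using Finset.induction_on with
  | empty => simp
  | insert a s ha ih =>
    rw [Finset.sum_insert ha, Finset.sum_insert ha, ArithmeticFunction.add_apply, ih]

private theorem bl_EN_apply (N : ℕ) (κ : ℝ) (M : ArithmeticFunction ℝ) (n : ℕ) :
    (EN N κ M) n = ∑ r ∈ Finset.range (N + 1), (κ ^ r / (r.factorial : ℝ)) * (M ^ r) n := by
  unfold EN
  rw [bl_sum_apply]
  refine Finset.sum_congr rfl fun r _ => ?_
  rw [ArithmeticFunction.smul_map, smul_eq_mul]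

theorem Len.mono {f : ArithmeticFunction ℝ} {X Y : ℝ} (h : Len f X) (hXY : X ≤ Y) : Len f Y :=
  fun n hn => h n (lt_of_le_of_lt hXY hn)

theorem Len.one : Len 1 1 := by
  intro n hn
  have h1 : n ≠ 1 := by
    rintro rfl
    simp at hn
  exact ArithmeticFunction.one_apply_ne h1

theorem Len.mul {f g : ArithmeticFunction ℝ} {X Y : ℝ} (hf : Len f X) (hg : Len g Y)
    (hX : 0 ≤ X) (hY : 0 ≤ Y) : Len (f * g) (X * Y) := by
  intro n hn
  rw [ArithmeticFunction.mul_apply]
  refine Finset.sum_eq_zero fun x hx => ?_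
  obtain ⟨h1, _⟩ := Nat.mem_divisorsAntidiagonal.mp hx
  by_cases ha : X < (x.1 : ℝ)
  · rw [hf _ ha, zero_mul]
  · by_cases hb : Y < (x.2 : ℝ)
    · rw [hg _ hb, mul_zero]
    · exfalso
      push Not at ha hb
      have h2 : ((x.1 : ℝ)) * (x.2 : ℝ) ≤ X * Y :=
        mul_le_mul ha hb (Nat.cast_nonneg _) hX
      have h3 : ((x.1 : ℝ)) * (x.2 : ℝ) = (n : ℝ) := by
        rw [← h1]
        push_cast
        ring
      linarith

theorem Len.pow {f : ArithmeticFunction ℝ} {X : ℝ} (hf : Len f X) (hX : 0 ≤ X) (r : ℕ) :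
    Len (f ^ r) (X ^ r) := by
  induction r with
  | zero =>
    rw [pow_zero, pow_zero]
    exact Len.one
  | succ r ih =>
    rw [pow_succ, pow_succ]
    exact ih.mul hf (pow_nonneg hX r) hX

theorem Len.EN {M : ArithmeticFunction ℝ} {X : ℝ} (hM : Len M X) (hX : 1 ≤ X) (N : ℕ) (κ : ℝ) :
    Len (EN N κ M) (X ^ N) := by
  intro n hn
  rw [bl_EN_apply]
  refine Finset.sum_eq_zero fun r hr => ?_
  have hr' : r ≤ N := Nat.lt_succ_iff.mp (Finset.mem_range.mp hr)
  have h1 : X ^ r ≤ X ^ N := pow_le_pow_right₀ hX hr'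
  have h2 := (hM.pow (by linarith) r) n (lt_of_le_of_lt h1 hn)
  rw [h2, mul_zero]

theorem Len.prod {ι : Type*} (s : Finset ι) {f : ι → ArithmeticFunction ℝ} {X : ι → ℝ}
    (hf : ∀ i ∈ s, Len (f i) (X i)) (hX : ∀ i ∈ s, 0 ≤ X i) :
    Len (∏ i ∈ s, f i) (∏ i ∈ s, X i) := by
  classical
  induction s using Finset.induction_on with
  | empty =>
    rw [Finset.prod_empty, Finset.prod_empty]
    exact Len.one
  | insert a s ha ih =>
    rw [Finset.prod_insert ha, Finset.prod_insert ha]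
    exact (hf a (Finset.mem_insert_self a s)).mul
      (ih (fun i hi => hf i (Finset.mem_insert_of_mem hi))
        (fun i hi => hX i (Finset.mem_insert_of_mem hi)))
      (hX a (Finset.mem_insert_self a s))
      (Finset.prod_nonneg fun i hi => hX i (Finset.mem_insert_of_mem hi))

theorem Nn.one : Nn 1 := by
  intro n
  rw [ArithmeticFunction.one_apply]
  split_ifs
  · exact zero_le_one
  · exact le_refl 0

theorem Nn.add {f g : ArithmeticFunction ℝ} (hf : Nn f) (hg : Nn g) : Nn (f + g) := by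
  intro n
  rw [ArithmeticFunction.add_apply]
  exact add_nonneg (hf n) (hg n)

theorem Nn.mul {f g : ArithmeticFunction ℝ} (hf : Nn f) (hg : Nn g) : Nn (f * g) := by
  intro n
  rw [ArithmeticFunction.mul_apply]
  exact Finset.sum_nonneg fun x _ => mul_nonneg (hf _) (hg _)

theorem Nn.pow {f : ArithmeticFunction ℝ} (hf : Nn f) (r : ℕ) : Nn (f ^ r) := by
  induction r with
  | zero =>
    rw [pow_zero]
    exact Nn.one
  | succ r ih =>
    rw [pow_succ]
    exact ih.mul hf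

theorem Nn.EN {M : ArithmeticFunction ℝ} (hM : Nn M) {κ : ℝ} (hκ : 0 ≤ κ) (N : ℕ) :
    Nn (EN N κ M) := by
  intro n
  rw [bl_EN_apply]
  exact Finset.sum_nonneg fun r _ =>
    mul_nonneg (div_nonneg (pow_nonneg hκ r) (Nat.cast_nonneg _)) (hM.pow r n)

theorem Nn.prod {ι : Type*} (s : Finset ι) {f : ι → ArithmeticFunction ℝ}
    (hf : ∀ i ∈ s, Nn (f i)) : Nn (∏ i ∈ s, f i) := by
  classical
  induction s using Finset.induction_on with
  | empty =>
    rw [Finset.prod_empty]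
    exact Nn.one
  | insert a s ha ih =>
    rw [Finset.prod_insert ha]
    exact (hf a (Finset.mem_insert_self a s)).mul
      (ih (fun i hi => hf i (Finset.mem_insert_of_mem hi)))

/-- monotonicity of the product -/
theorem mul_le_mul_coeff {f f' g g' : ArithmeticFunction ℝ} (hf : Nn f) (hg : Nn g)
    (hff : ∀ n, f n ≤ f' n) (hgg : ∀ n, g n ≤ g' n) (n : ℕ) : (f * g) n ≤ (f' * g') n := by
  rw [ArithmeticFunction.mul_apply, ArithmeticFunction.mul_apply]
  exact Finset.sum_le_sum fun x _ =>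
    mul_le_mul (hff _) (hgg _) (hg _) (le_trans (hf _) (hff _))

/-- `M ^ r ≤ (r! / y ^ r) EN r y M` -/
theorem pow_le_EN {M : ArithmeticFunction ℝ} (hM : Nn M) {y : ℝ} (hy : 0 < y) (r n : ℕ) :
    (M ^ r) n ≤ (r.factorial : ℝ) / y ^ r * (EN r y M) n := by
  rw [bl_EN_apply]
  have hyr : 0 < y ^ r := pow_pos hy r
  have hfr : (0 : ℝ) < (r.factorial : ℝ) := Nat.cast_pos.mpr (Nat.factorial_pos r)
  have h1 : (y ^ r / (r.factorial : ℝ)) * (M ^ r) n
      ≤ ∑ i ∈ Finset.range (r + 1), (y ^ i / (i.factorial : ℝ)) * (M ^ i) n := by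
    refine Finset.single_le_sum (f := fun i => (y ^ i / (i.factorial : ℝ)) * (M ^ i) n)
      (fun i _ => ?_) (Finset.mem_range.mpr (Nat.lt_succ_self r))
    exact mul_nonneg (div_nonneg (pow_nonneg hy.le i) (Nat.cast_nonneg _)) (hM.pow i n)
  have h2 : (M ^ r) n = (r.factorial : ℝ) / y ^ r * ((y ^ r / (r.factorial : ℝ)) * (M ^ r) n) := by
    field_simp
  calc (M ^ r) n = (r.factorial : ℝ) / y ^ r * ((y ^ r / (r.factorial : ℝ)) * (M ^ r) n) := h2
    _ ≤ _ := mul_le_mul_of_nonneg_left h1 (div_nonneg hfr.le hyr.le)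

end Pool.Agent.Lib.MP_54baa8_nt
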