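import Mathlib
import Pool.Agent.Lib.MP_54baa8_nt.BL

/-!
# JOB DMp: properties of the block polynomials `Mp L P Q`

* `aL_nonneg`, `aL_le`: for `L > 0`, `n ≥ 1`: `log n * aL L n ≤ Λ n e^{-(1/2) log n}` (for `n = 1` both sides are `≥ 0 = 0`; else
  `log n` cancels, `wt ≤ 1`, `e^{-(3/L) log n} ≤ 1`) and `aL L n ≤ e^{-(1/2) log n}` (`Λ n ≤ log n`).
* `Mp_add`: the conditions `P < p ≤ Q` and `Q < p ≤ R` are exclusive, and a number `n` is `p` or `p ^ 2` for at most one prime `p`.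
* `Mp_len`: `n = p` or `p ^ 2 ≤ Q ^ 2`, `Q ≥ 1`.
* `Mp_one`: `1` is neither a prime nor the square of a prime.
* `lg_Mp_le`: if `Mp L P Q n ≠ 0` then `n = p` or `p ^ 2` and `minFac n = p ∈ (P, Q]`.
* `aL_zero_of_large`: `wt L (log n) = 0` for `n ≥ e^L`.
-/

namespace Pool.Agent.Lib.MP_54baa8_nt

private theorem dmp_wt_nonneg (L u : ℝ) : 0 ≤ wt L u := le_max_left _ _

private theorem dmp_wt_le (L u : ℝ) : wt L u ≤ 1 := max_le zero_le_one (min_le_left _ _)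

theorem aL_nonneg {L : ℝ} (n : ℕ) : 0 ≤ aL L n := by
  unfold aL
  exact mul_nonneg (div_nonneg (mul_nonneg ArithmeticFunction.vonMangoldt_nonneg (dmp_wt_nonneg _ _))
    (Real.log_natCast_nonneg n)) (Real.exp_pos _).le

private theorem dmp_exp_le {L : ℝ} (hL : 0 < L) (n : ℕ) :
    Real.exp (-(1 / 2 + 3 / L) * Real.log n) ≤ Real.exp (-(1 / 2) * Real.log n) := by
  apply Real.exp_le_exp.2
  have h := Real.log_natCast_nonneg n
  have h3 : 0 ≤ 3 / L := by positivity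
  nlinarith [mul_nonneg h3 h]

theorem aL_le {L : ℝ} (hL : 0 < L) {n : ℕ} (hn : n ≠ 0) :
    Real.log n * aL L n ≤ ArithmeticFunction.vonMangoldt n * Real.exp (-(1 / 2) * Real.log n) := by
  rcases eq_or_ne n 1 with rfl | hn1
  · simp
  have hlog : 0 < Real.log n := Real.log_pos (by
    have : 1 < n := by omega
    exact_mod_cast this)
  have h1 : Real.log n * aL L n = ArithmeticFunction.vonMangoldt n * (wt L (Real.log n) *
      Real.exp (-(1 / 2 + 3 / L) * Real.log n)) := by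
    unfold aL
    field_simp
  rw [h1]
  refine mul_le_mul_of_nonneg_left ?_ ArithmeticFunction.vonMangoldt_nonneg
  calc wt L (Real.log n) * Real.exp (-(1 / 2 + 3 / L) * Real.log n)
      ≤ 1 * Real.exp (-(1 / 2) * Real.log n) :=
        mul_le_mul (dmp_wt_le _ _) (dmp_exp_le hL n) (Real.exp_pos _).le zero_le_one
    _ = _ := one_mul _

theorem aL_le' {L : ℝ} (hL : 0 < L) {n : ℕ} (hn : n ≠ 0) : aL L n ≤ Real.exp (-(1 / 2) * Real.log n) := by
  rcases eq_or_ne n 1 with rfl | hn1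
  · simp [aL]
  have hlog : 0 < Real.log n := Real.log_pos (by
    have : 1 < n := by omega
    exact_mod_cast this)
  have h1 := aL_le hL hn
  have h2 : ArithmeticFunction.vonMangoldt n * Real.exp (-(1 / 2) * Real.log n) ≤
      Real.log n * Real.exp (-(1 / 2) * Real.log n) :=
    mul_le_mul_of_nonneg_right ArithmeticFunction.vonMangoldt_le_log (Real.exp_pos _).le
  exact le_of_mul_le_mul_left (h1.trans h2) hlog

theorem aL_eq_zero {L : ℝ} (hL : 0 < L) {n : ℕ} (hn : Real.exp L ≤ n) : aL L n = 0 := by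
  have h1 : L ≤ Real.log n := (Real.le_log_iff_exp_le ((Real.exp_pos L).trans_le hn)).2 hn
  have h2 : wt L (Real.log n) = 0 := by
    unfold wt
    refine max_eq_left ?_
    refine (min_le_right _ _).trans ?_
    have : 2 ≤ 2 * Real.log n / L := by
      rw [le_div_iff₀ hL]
      linarith
    linarith
  simp [aL, h2]

private theorem dmp_apply (L P Q : ℝ) (n : ℕ) [Decidable (∃ p : ℕ, p.Prime ∧ P < p ∧ p ≤ Q ∧ (n = p ∨ n = p ^ 2))] :
    Mp L P Q n = if (∃ p : ℕ, p.Prime ∧ P < p ∧ p ≤ Q ∧ (n = p ∨ n = p ^ 2)) then aL L n else 0 := by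
  have h : Mp L P Q n = @ite ℝ (∃ p : ℕ, p.Prime ∧ P < p ∧ p ≤ Q ∧ (n = p ∨ n = p ^ 2))
      (Classical.propDecidable _) (aL L n) 0 := rfl
  rw [h]
  split_ifs <;> rfl

theorem Mp_nn (L P Q : ℝ) : Nn (Mp L P Q) := by
  classical
  intro n
  rw [dmp_apply]
  split_ifs
  · exact aL_nonneg n
  · exact le_rfl

theorem Mp_one (L P Q : ℝ) : Mp L P Q 1 = 0 := by
  classical
  rw [dmp_apply, if_neg]
  rintro ⟨p, hp, -, -, h | h⟩
  · exact hp.ne_one h.symm
  · have := hp.one_lt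
    nlinarith

theorem Mp_len {L P Q : ℝ} (hQ : 1 ≤ Q) : Len (Mp L P Q) (Q ^ 2) := by
  classical
  intro n hn
  rw [dmp_apply, if_neg]
  rintro ⟨p, hp, -, hpQ, h | h⟩
  · rw [h] at hn
    nlinarith
  · rw [h] at hn
    push_cast at hn
    have : (p : ℝ) ^ 2 ≤ Q ^ 2 := pow_le_pow_left₀ (Nat.cast_nonneg p) hpQ 2
    linarith

private theorem dmp_minFac {n p : ℕ} (hp : p.Prime) (h : n = p ∨ n = p ^ 2) : n.minFac = p := by
  rcases h with rfl | rfl
  · exact hp.minFac_eq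
  · exact hp.pow_minFac (by norm_num)

private theorem dmp_iff {P Q : ℝ} {n : ℕ} :
    (∃ p : ℕ, p.Prime ∧ P < p ∧ (p : ℝ) ≤ Q ∧ (n = p ∨ n = p ^ 2)) ↔
      ((n.minFac).Prime ∧ P < (n.minFac : ℝ) ∧ (n.minFac : ℝ) ≤ Q ∧
        (n = n.minFac ∨ n = n.minFac ^ 2)) := by
  constructor
  · rintro ⟨p, hp, h1, h2, h3⟩
    rw [dmp_minFac hp h3]
    exact ⟨hp, h1, h2, h3⟩
  · rintro ⟨hp, h1, h2, h3⟩
    exact ⟨_, hp, h1, h2, h3⟩

theorem Mp_add {L P Q R : ℝ} (h1 : P ≤ Q) (h2 : Q ≤ R) : Mp L P Q + Mp L Q R = Mp L P R := by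
  classical
  ext n
  rw [ArithmeticFunction.add_apply, dmp_apply, dmp_apply, dmp_apply]
  simp only [dmp_iff]
  by_cases hc : (n.minFac).Prime ∧ (n = n.minFac ∨ n = n.minFac ^ 2)
  · obtain ⟨hc1, hc2⟩ := hc
    rcases lt_or_ge P (n.minFac : ℝ) with ha | ha
    · rcases le_or_gt (n.minFac : ℝ) Q with hb | hb
      · rw [if_pos ⟨hc1, ha, hb, hc2⟩, if_neg (by rintro ⟨-, h, -⟩; linarith),
          if_pos ⟨hc1, ha, hb.trans h2, hc2⟩, add_zero]
      · rw [if_neg (by rintro ⟨-, -, h, -⟩; linarith), zero_add]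
        rcases le_or_gt (n.minFac : ℝ) R with hd | hd
        · rw [if_pos ⟨hc1, hb, hd, hc2⟩, if_pos ⟨hc1, ha, hd, hc2⟩]
        · rw [if_neg (by rintro ⟨-, -, h, -⟩; linarith),
            if_neg (by rintro ⟨-, -, h, -⟩; linarith)]
    · rw [if_neg (by rintro ⟨-, h, -⟩; linarith), if_neg (by rintro ⟨-, h, -⟩; linarith),
        if_neg (by rintro ⟨-, h, -⟩; linarith), add_zero]
  · rw [if_neg (fun h => hc ⟨h.1, h.2.2.2⟩), if_neg (fun h => hc ⟨h.1, h.2.2.2⟩),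
      if_neg (fun h => hc ⟨h.1, h.2.2.2⟩), add_zero]

theorem lg_Mp_le {L P Q : ℝ} (hL : 0 < L) {n : ℕ} (hn : n ≠ 0) :
    (lg (Mp L P Q)) n ≤ (if P < (n.minFac : ℝ) ∧ (n.minFac : ℝ) ≤ Q ∧ n ≠ 1 then 1 else 0) *
      (ArithmeticFunction.vonMangoldt n * Real.exp (-(1 / 2) * Real.log n)) := by
  classical
  have hnn : 0 ≤ ArithmeticFunction.vonMangoldt n * Real.exp (-(1 / 2) * Real.log n) :=
    mul_nonneg ArithmeticFunction.vonMangoldt_nonneg (Real.exp_pos _).le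
  change Real.log n * Mp L P Q n ≤ _
  rw [dmp_apply]
  by_cases hc : (∃ p : ℕ, p.Prime ∧ P < p ∧ (p : ℝ) ≤ Q ∧ (n = p ∨ n = p ^ 2))
  · rw [if_pos hc]
    obtain ⟨p, hp, h1, h2, h3⟩ := hc
    have hm := dmp_minFac hp h3
    have hn1 : n ≠ 1 := by
      rintro rfl
      rcases h3 with h | h
      · exact hp.ne_one h.symm
      · have := hp.one_lt
        nlinarith
    rw [if_pos ⟨by rw [hm]; exact h1, by rw [hm]; exact h2, hn1⟩, one_mul]
    exact aL_le hL hn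
  · rw [if_neg hc, mul_zero]
    split_ifs
    · rw [one_mul]; exact hnn
    · rw [zero_mul]

end Pool.Agent.Lib.MP_54baa8_nt
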