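import Mathlib
import Pool.Agent.Lib.MP_54baa8_nt.APri
import Pool.Agent.Lib.MP_54baa8_nt.BA
import Pool.Agent.Lib.MP_54baa8_nt.DMp

/-!
# JOB AP3: removing the cubes and higher powers

By `dv_eq_sum` (length `(e^L)^2`, `Mp_len`), the difference of the sum in `zeta_upper` and `dv (Mp L 0 (e^L)) t` is the sum of
`aL L n e^{-it log n}` over the prime powers `n = p ^ m ≤ e^L` with `m ≥ 3` (for `e^L < n ≤ e^{2L}` `aL L n = 0`, `aL_eq_zero`; `Λ n = 0`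
if `n` is not a prime power; `n = p`, `p ^ 2 ≤ e^L` have `0 < p ≤ e^L`). For `n = p ^ m`: `aL L n ≤ (Λ n / log n) n^{-1/2} = (1/m) p^{-m/2}`,
so the sum of absolute values is at most `∑_p ∑_{m ≥ 3} (1/3) p^{-m/2} = (1/3) ∑_p p^{-3/2} / (1 - p^{-1/2}) ≤ (3.5/3) ∑_{n ≥ 2} n^{-3/2}
≤ 4` (`∑_{n=2}^{N} n^{-3/2} ≤ 2`: `n^{-3/2} ≤ 2 ((n-1)^{-1/2} - n^{-1/2})`).
-/

open Complex

namespace Pool.Agent.Lib.MP_54baa8_nt

private theorem ap3_image {α : Type*} {S : Finset ℕ} {T : Finset α} (f : α → ℕ) (h : ℕ → ℝ)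
    (hh : ∀ n, 0 ≤ h n) (hST : ∀ n ∈ S, ∃ x ∈ T, f x = n) :
    ∑ n ∈ S, h n ≤ ∑ x ∈ T, h (f x) := by
  rw [Finset.sum_comp h f]
  have h1 : S ⊆ T.image f := fun n hn => Finset.mem_image.2 (hST n hn)
  refine (Finset.sum_le_sum_of_subset_of_nonneg h1 fun n _ _ => hh n).trans ?_
  refine Finset.sum_le_sum fun n hn => ?_
  obtain ⟨x, hx, hxn⟩ := Finset.mem_image.1 hn
  have h2 : 1 ≤ (T.filter fun a => f a = n).card :=
    Finset.card_pos.2 ⟨x, Finset.mem_filter.2 ⟨hx, hxn⟩⟩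
  rw [nsmul_eq_mul]
  have h3 : (1 : ℝ) ≤ ((T.filter fun a => f a = n).card : ℝ) := by exact_mod_cast h2
  nlinarith [hh n]

private theorem ap3_sqrt {x : ℝ} (hx : 0 < x) : Real.exp (-(1 / 2) * Real.log x) = (√x)⁻¹ := by
  have h1 : Real.exp (-(1 / 2) * Real.log x) * √x = 1 := by
    rw [Real.sqrt_eq_rpow, Real.rpow_def_of_pos hx, ← Real.exp_add]
    have : -(1 / 2) * Real.log x + Real.log x * (1 / 2) = 0 := by ring
    rw [this, Real.exp_zero]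
  exact eq_inv_of_mul_eq_one_left h1

private theorem ap3_step {m : ℕ} (hm : 1 ≤ m) :
    ((√((m + 1 : ℕ) : ℝ))⁻¹) ^ 3 ≤ 2 * ((√(m : ℝ))⁻¹ - (√((m + 1 : ℕ) : ℝ))⁻¹) := by
  have h0 : (0 : ℝ) < (m : ℝ) := by exact_mod_cast hm
  have h1 : (0 : ℝ) < ((m + 1 : ℕ) : ℝ) := by exact_mod_cast Nat.succ_pos m
  have ha : 0 < √(m : ℝ) := Real.sqrt_pos.2 h0
  have hb : 0 < √((m + 1 : ℕ) : ℝ) := Real.sqrt_pos.2 h1
  have haa : √(m : ℝ) ^ 2 = m := Real.sq_sqrt h0.le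
  have hbb : √((m + 1 : ℕ) : ℝ) ^ 2 = (m : ℝ) + 1 := by
    rw [Real.sq_sqrt h1.le]
    push_cast
    ring
  set a := √(m : ℝ) with hadef
  set b := √((m + 1 : ℕ) : ℝ) with hbdef
  have hab : a ≤ b := by nlinarith
  have h3 : (b - a) * (b + a) = 1 := by nlinarith
  have h4 : 2 * (a⁻¹ - b⁻¹) - (b⁻¹) ^ 3 = (2 * (b - a) * b ^ 2 - a) / (a * b ^ 3) := by
    field_simp
  have h5 : 1 ≤ 2 * (b - a) * b := by nlinarith
  have h6 : 0 ≤ 2 * (b - a) * b ^ 2 - a := by nlinarith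
  have h7 : 0 ≤ (2 * (b - a) * b ^ 2 - a) / (a * b ^ 3) := div_nonneg h6 (by positivity)
  linarith

private theorem ap3_sum (N : ℕ) : ∑ p ∈ Finset.Icc 2 (N + 1), ((√(p : ℝ))⁻¹) ^ 3 ≤
    2 * (1 - (√((N + 1 : ℕ) : ℝ))⁻¹) := by
  induction N with
  | zero => simp
  | succ m ih =>
    rw [Finset.sum_Icc_succ_top (by lia)]
    have h := ap3_step (m := m + 1) (by lia)
    linarith

private theorem ap3_sum' (N : ℕ) : ∑ p ∈ Finset.Icc 2 N, ((√(p : ℝ))⁻¹) ^ 3 ≤ 2 := by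
  rcases N with _ | N
  · simp
  · have h := ap3_sum N
    have h1 : 0 ≤ (√((N + 1 : ℕ) : ℝ))⁻¹ := inv_nonneg.2 (Real.sqrt_nonneg _)
    linarith

private theorem ap3_geom {p : ℕ} (hp : 2 ≤ p) (N : ℕ) :
    ∑ m ∈ Finset.Ico 3 N, ((√(p : ℝ))⁻¹) ^ m ≤ 7 / 2 * ((√(p : ℝ))⁻¹) ^ 3 := by
  have hp1 : (2 : ℝ) ≤ (p : ℝ) := by exact_mod_cast hp
  have hs : 0 < √(p : ℝ) := Real.sqrt_pos.2 (by linarith)
  have hss : √(p : ℝ) * √(p : ℝ) = p := Real.mul_self_sqrt (by linarith)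
  set q := (√(p : ℝ))⁻¹ with hq
  have hq0 : 0 < q := inv_pos.2 hs
  have hqs : q * √(p : ℝ) = 1 := inv_mul_cancel₀ hs.ne'
  have hq2 : q * q * p = 1 := by
    rw [← hss]
    calc q * q * (√(p : ℝ) * √(p : ℝ)) = (q * √(p : ℝ)) * (q * √(p : ℝ)) := by ring
      _ = 1 := by rw [hqs, one_mul]
  have hq3 : q ≤ 5 / 7 := by
    by_contra hc
    push Not at hc
    nlinarith
  have h1 : ∑ m ∈ Finset.Ico 3 N, q ^ m ≤ q ^ 3 / (1 - q) :=
    geom_sum_Ico_le_of_lt_one hq0.le (by linarith)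
  refine h1.trans ?_
  rw [div_le_iff₀ (by linarith)]
  have h2 : 0 < q ^ 3 := by positivity
  nlinarith

private theorem ap3_len {L : ℝ} (hL : 0 < L) : Len (Mp L 0 (Real.exp L)) (Real.exp L) := by
  intro n hn
  have h1 : aL L n = 0 := aL_eq_zero hL hn.le
  have h : Mp L 0 (Real.exp L) n = aL L n ∨ Mp L 0 (Real.exp L) n = 0 := by
    classical
    have h : Mp L 0 (Real.exp L) n =
        @ite ℝ (∃ p : ℕ, p.Prime ∧ 0 < (p : ℝ) ∧ p ≤ Real.exp L ∧ (n = p ∨ n = p ^ 2))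
          (Classical.propDecidable _) (aL L n) 0 := rfl
    rw [h]
    split_ifs
    · exact Or.inl rfl
    · exact Or.inr rfl
  rcases h with h | h
  · rw [h, h1]
  · exact h

open Classical in
/-- The terms of the difference. -/
private theorem ap3_term {L : ℝ} (hL : 0 < L) {n : ℕ} (hn : n ≠ 0) (hnE : n ≤ ⌊Real.exp L⌋₊) :
    |aL L n - Mp L 0 (Real.exp L) n| ≤
      if ∃ p m : ℕ, p.Prime ∧ 3 ≤ m ∧ p ^ m = n then 1 / 3 * (√(n : ℝ))⁻¹ else 0 := by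
  classical
  have hMp : Mp L 0 (Real.exp L) n =
      @ite ℝ (∃ p : ℕ, p.Prime ∧ 0 < (p : ℝ) ∧ p ≤ Real.exp L ∧ (n = p ∨ n = p ^ 2))
        (Classical.propDecidable _) (aL L n) 0 := rfl
  have hnE' : (n : ℝ) ≤ Real.exp L := (Nat.le_floor_iff (Real.exp_pos L).le).1 hnE
  have hn0 : (0 : ℝ) < (n : ℝ) := by exact_mod_cast Nat.pos_of_ne_zero hn
  have hrhs : 0 ≤ if ∃ p m : ℕ, p.Prime ∧ 3 ≤ m ∧ p ^ m = n then 1 / 3 * (√(n : ℝ))⁻¹ else 0 := by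
    split_ifs
    · positivity
    · exact le_rfl
  by_cases hpp : IsPrimePow n
  · obtain ⟨p, k, hp, hk, hpk⟩ := (isPrimePow_nat_iff n).1 hpp
    by_cases hk3 : 3 ≤ k
    · rw [if_pos ⟨p, k, hp, hk3, hpk⟩]
      have h1 := aL_le hL hn
      rw [ap3_sqrt hn0, ← hpk, ArithmeticFunction.vonMangoldt_apply_pow (by lia),
        ArithmeticFunction.vonMangoldt_apply_prime hp, hpk] at h1
      have h2 : Real.log (n : ℝ) = k * Real.log p := by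
        rw [← hpk, Nat.cast_pow, Real.log_pow]
      have h3 : 0 < Real.log (p : ℝ) := Real.log_pos (by exact_mod_cast hp.one_lt)
      rw [h2] at h1
      have h4 : (k : ℝ) * aL L n ≤ (√(n : ℝ))⁻¹ := by
        refine le_of_mul_le_mul_left ?_ h3
        linarith
      have h5 : (3 : ℝ) ≤ (k : ℝ) := by exact_mod_cast hk3
      have h6 : 0 ≤ aL L n := aL_nonneg n
      have h7 : aL L n ≤ 1 / 3 * (√(n : ℝ))⁻¹ := by nlinarith
      have h8 : 0 ≤ (√(n : ℝ))⁻¹ := inv_nonneg.2 (Real.sqrt_nonneg _)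
      rw [hMp]
      split_ifs
      · rw [sub_self, abs_zero]
        positivity
      · rw [sub_zero, abs_of_nonneg h6]
        exact h7
    · have hpn : p ≤ n := by
        rw [← hpk]
        exact Nat.le_self_pow hk.ne' p
      have hex : ∃ p : ℕ, p.Prime ∧ 0 < (p : ℝ) ∧ p ≤ Real.exp L ∧ (n = p ∨ n = p ^ 2) := by
        refine ⟨p, hp, by exact_mod_cast hp.pos, ?_, ?_⟩
        · have : (p : ℝ) ≤ (n : ℝ) := by exact_mod_cast hpn
          linarith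
        · have hk12 : k = 1 ∨ k = 2 := by lia
          rcases hk12 with h | h
          · left
            rw [← hpk, h, pow_one]
          · right
            rw [← hpk, h]
      rw [hMp, if_pos hex, sub_self, abs_zero]
      exact hrhs
  · have h1 : aL L n = 0 := by
      unfold aL
      rw [ArithmeticFunction.vonMangoldt_eq_zero_iff.2 hpp]
      simp
    have h2 : Mp L 0 (Real.exp L) n = 0 := by
      rw [hMp, h1, ite_self]
    rw [h1, h2, sub_zero, abs_zero]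
    exact hrhs

theorem higher_powers {L : ℝ} (hL : 1 ≤ L) (t : ℝ) :
    ‖(∑ n ∈ Finset.Icc 1 ⌊Real.exp L⌋₊, (aL L n : ℂ) * Complex.exp (-(t * Real.log n : ℝ) * I)) -
      dv (Mp L 0 (Real.exp L)) t‖ ≤ 4 := by
  classical
  have hL0 : 0 < L := zero_lt_one.trans_le hL
  set N := ⌊Real.exp L⌋₊ with hN
  rw [dv_eq_sum (ap3_len hL0) t, ← hN, ← Finset.sum_sub_distrib]
  refine (norm_sum_le _ _).trans ?_
  have h1 : ∀ n ∈ Finset.Icc 1 N,
      ‖(aL L n : ℂ) * Complex.exp (-(t * Real.log n : ℝ) * I) -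
        ((Mp L 0 (Real.exp L) n : ℝ) : ℂ) * Complex.exp (-(t * Real.log n : ℝ) * I)‖ ≤
      if ∃ p m : ℕ, p.Prime ∧ 3 ≤ m ∧ p ^ m = n then 1 / 3 * (√(n : ℝ))⁻¹ else 0 := by
    intro n hn
    obtain ⟨hn1, hn2⟩ := Finset.mem_Icc.1 hn
    have h2 : ‖Complex.exp (-(t * Real.log n : ℝ) * I)‖ = 1 := by
      rw [← Complex.ofReal_neg, Complex.norm_exp_ofReal_mul_I]
    rw [← sub_mul, norm_mul, h2, mul_one, ← Complex.ofReal_sub, Complex.norm_real, Real.norm_eq_abs]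
    exact ap3_term hL0 (Nat.one_le_iff_ne_zero.1 hn1) hn2
  refine (Finset.sum_le_sum h1).trans ?_
  rw [← Finset.sum_filter]
  have h2 : ∑ n ∈ (Finset.Icc 1 N).filter (fun n => ∃ p m : ℕ, p.Prime ∧ 3 ≤ m ∧ p ^ m = n),
      1 / 3 * (√(n : ℝ))⁻¹ ≤ ∑ x ∈ Finset.Icc 2 N ×ˢ Finset.Ico 3 (N + 1),
        1 / 3 * (√((x.1 ^ x.2 : ℕ) : ℝ))⁻¹ := by
    refine ap3_image (T := Finset.Icc 2 N ×ˢ Finset.Ico 3 (N + 1)) (fun x : ℕ × ℕ => x.1 ^ x.2)
      (fun n => 1 / 3 * (√(n : ℝ))⁻¹) (fun n => by positivity) ?_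
    intro n hn
    obtain ⟨hn1, p, m, hp, hm, hpm⟩ := Finset.mem_filter.1 hn
    obtain ⟨hn2, hn3⟩ := Finset.mem_Icc.1 hn1
    refine ⟨(p, m), ?_, hpm⟩
    rw [Finset.mem_product, Finset.mem_Icc, Finset.mem_Ico]
    have h3 : p ≤ n := by
      rw [← hpm]
      exact Nat.le_self_pow (by lia) p
    have h4 : m < n := by
      rw [← hpm]
      exact Nat.lt_pow_self hp.one_lt
    exact ⟨⟨hp.two_le, h3.trans hn3⟩, hm, by simp only; lia⟩
  refine h2.trans ?_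
  rw [Finset.sum_product]
  have h3 : ∀ p ∈ Finset.Icc 2 N, ∑ m ∈ Finset.Ico 3 (N + 1), 1 / 3 * (√((p ^ m : ℕ) : ℝ))⁻¹ ≤
      7 / 6 * ((√(p : ℝ))⁻¹) ^ 3 := by
    intro p hp
    have h4 := ap3_geom (Finset.mem_Icc.1 hp).1 (N + 1)
    have h5 : ∀ m : ℕ, (√((p ^ m : ℕ) : ℝ))⁻¹ = ((√(p : ℝ))⁻¹) ^ m := by
      intro m
      have h6 : √((p ^ m : ℕ) : ℝ) = √(p : ℝ) ^ m := by
        rw [Real.sqrt_eq_iff_mul_self_eq (by positivity) (by positivity), ← mul_pow,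
          Real.mul_self_sqrt (by positivity), Nat.cast_pow]
      rw [h6, inv_pow]
    simp only [h5, ← Finset.mul_sum]
    linarith
  refine (Finset.sum_le_sum h3).trans ?_
  rw [← Finset.mul_sum]
  have h4 := ap3_sum' N
  linarith

theorem zeta_upper_Mp (hRH : RiemannHypothesis) : ∃ L0 T0 : ℝ, 1 ≤ L0 ∧ 2 ≤ T0 ∧ ∀ T t L : ℝ, T0 ≤ T →
    T ≤ t → t ≤ 2 * T → L0 ≤ L → L ≤ Real.log T →
    ‖riemannZeta (1 / 2 + t * I)‖ ≤
      Real.exp ((dv (Mp L 0 (Real.exp L)) t).re + 3 / 2 * (Real.log T / L) + 5) := by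
  obtain ⟨L0, T0, hL0, hT0, h⟩ := zeta_upper hRH
  refine ⟨L0, T0, hL0, hT0, fun T t L hT h1 h2 h3 h4 => (h T t L hT h1 h2 h3 h4).trans ?_⟩
  rw [Real.exp_le_exp]
  have h5 := higher_powers (hL0.trans h3) t
  have h6 := (Complex.re_le_norm _).trans h5
  rw [Complex.sub_re] at h6
  linarith

end Pool.Agent.Lib.MP_54baa8_nt
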