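import Mathlib
import Pool.Agent.Lib.MP_54baa8_nt.Defs

/-!
# JOB BDk: the binomial coefficients `dk κ m`

* `dk_nonneg`, `dk_zero`, `dk_succ` : from the product (`Finset.prod_range_succ`).
* `dk_rec` : `m dk κ m = κ ∑ i < m, dk κ i`. Induction on `m`, using `dk_succ`:
  `(m + 1) dk κ (m + 1) = (κ + m) dk κ m = κ dk κ m + m dk κ m`.
* `dk_le` : every factor `(κ + i) / (i + 1) ≤ max 1 κ`.
* `dk_zero_left` : `dk 0 m = 0` for `m ≥ 1` (factor `i = 0`).
* `dk_mono` : factorwise (`0 ≤ κ ≤ κ'`).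
* `dk_nat` : `dk (K + 1) m = (m + K).choose K` (induction on `m`, `Nat.succ_mul_choose_eq` or factorials), used with
  `tsum_choose_mul_geometric_of_norm_lt_one` (or `hasSum_choose_mul_geometric_of_norm_lt_one`) for `dk_sum`.
* `dk_sum` : for `0 ≤ κ ≤ K + 1` and `0 ≤ x < 1`: `∑ m, dk κ m x ^ m` is summable and at most `(1 / (1 - x)) ^ (K + 1)`.
-/

namespace Pool.Agent.Lib.MP_54baa8_nt

theorem dk_zero (κ : ℝ) : dk κ 0 = 1 := by
  simp [dk]

theorem dk_succ (κ : ℝ) (m : ℕ) : dk κ (m + 1) = dk κ m * ((κ + m) / (m + 1)) := by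
  unfold dk
  rw [Finset.prod_range_succ]

theorem dk_nonneg {κ : ℝ} (hκ : 0 ≤ κ) (m : ℕ) : 0 ≤ dk κ m := by
  unfold dk
  exact Finset.prod_nonneg fun i _ => by positivity

theorem dk_rec (κ : ℝ) (m : ℕ) : (m : ℝ) * dk κ m = κ * ∑ i ∈ Finset.range m, dk κ i := by
  induction m with
  | zero => simp
  | succ m ih =>
    rw [Finset.sum_range_succ, mul_add, ← ih, dk_succ]
    have h : ((m : ℝ) + 1) ≠ 0 := by positivity
    push_cast
    field_simp
    ring

theorem dk_le {κ : ℝ} (hκ : 0 ≤ κ) (m : ℕ) : dk κ m ≤ (max 1 κ) ^ m := by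
  induction m with
  | zero => simp [dk_zero]
  | succ m ih =>
    rw [dk_succ, pow_succ]
    have h1 : (κ + m) / (m + 1) ≤ max 1 κ := by
      rw [div_le_iff₀ (by positivity)]
      have h2 : κ ≤ max 1 κ := le_max_right _ _
      have h3 : (1 : ℝ) ≤ max 1 κ := le_max_left _ _
      have h4 : (0 : ℝ) ≤ m := Nat.cast_nonneg m
      nlinarith
    exact mul_le_mul ih h1 (by positivity) (by positivity)

theorem dk_zero_left {m : ℕ} (hm : m ≠ 0) : dk 0 m = 0 := by
  obtain ⟨k, rfl⟩ := Nat.exists_eq_succ_of_ne_zero hm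
  unfold dk
  exact Finset.prod_eq_zero (Finset.mem_range.2 (Nat.succ_pos k)) (by simp)

private theorem bdk_mono {κ κ' : ℝ} (hκ : 0 ≤ κ) (h : κ ≤ κ') (m : ℕ) : dk κ m ≤ dk κ' m := by
  unfold dk
  exact Finset.prod_le_prod (fun i _ => by positivity) fun i _ =>
    div_le_div_of_nonneg_right (by linarith) (by positivity)

private theorem bdk_nat (K m : ℕ) : dk ((K : ℝ) + 1) m = ((m + K).choose K : ℕ) := by
  induction m with
  | zero => simp [dk_zero]
  | succ m ih =>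
    rw [dk_succ, ih]
    have h1 : (m + 1 + K).choose K * (m + 1) = (m + K).choose K * (K + 1 + m) := by
      have h2 := Nat.choose_mul_succ_eq (m + K) K
      -- (m+K).choose K * (m+K+1) = (m+K+1).choose K * (m+K+1-K)
      have h3 : m + K + 1 - K = m + 1 := by omega
      rw [h3] at h2
      have h4 : m + 1 + K = m + K + 1 := by ring
      rw [h4, ← h2]
      ring
    have h5 : (((m + 1 + K).choose K : ℕ) : ℝ) * ((m : ℝ) + 1)
        = ((m + K).choose K : ℕ) * ((K : ℝ) + 1 + m) := by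
      exact_mod_cast h1
    have h : ((m : ℝ) + 1) ≠ 0 := by positivity
    field_simp
    linarith

theorem dk_sum {κ : ℝ} (hκ : 0 ≤ κ) (K : ℕ) (hK : κ ≤ K + 1) {x : ℝ} (hx : 0 ≤ x) (hx1 : x < 1) :
    Summable (fun m : ℕ => dk κ m * x ^ m) ∧
      ∑' m : ℕ, dk κ m * x ^ m ≤ (1 / (1 - x)) ^ (K + 1) := by
  have hn : ‖x‖ < 1 := by rwa [Real.norm_of_nonneg hx]
  have hs := hasSum_choose_mul_geometric_of_norm_lt_one K hn
  have hle : ∀ m : ℕ, dk κ m * x ^ m ≤ ((m + K).choose K : ℕ) * x ^ m := by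
    intro m
    rw [← bdk_nat K m]
    exact mul_le_mul_of_nonneg_right (bdk_mono hκ hK m) (by positivity)
  have hsum : Summable (fun m : ℕ => dk κ m * x ^ m) :=
    Summable.of_nonneg_of_le (fun m => mul_nonneg (dk_nonneg hκ m) (by positivity)) hle hs.summable
  refine ⟨hsum, ?_⟩
  refine (hsum.tsum_le_tsum hle hs.summable).trans ?_
  rw [hs.tsum_eq, one_div, one_div, inv_pow]

end Pool.Agent.Lib.MP_54baa8_nt
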