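import Mathlib
import Pool.Agent.Lib.MP_54baa8_nt.BDk

/-!
# JOB BDD: the recursion for the multiplicative function `DD κ`

`DD κ n = ∏ p, dk (κ p) (v_p n)`. For `n ≠ 0`: the divisor pairs `(a, b)` of `n` with `Λ a ≠ 0` are `a = p ^ j`, `p` a prime
factor of `n`, `1 ≤ j ≤ v_p n`, and then `Λ a = log p`, `minFac a = p`, `b = n / p ^ j` has the same exponents as `n` except
`v_p b = v_p n - j`. Hence with `e = v_p n` and `n' ` the part of `n` prime to `p`,
`∑_{j=1}^{e} DD κ (n / p ^ j) = DD κ n' * ∑_{i < e} dk (κ p) i` and `κ p * ∑_{i < e} dk (κ p) i = e * dk (κ p) e` (`dk_rec`).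
So the right-hand side of `DD_rec` is `∑_p log p * v_p n * DD κ n = log n * DD κ n`.
Alternative proof: by `Nat.recOnPosPrimePosCoprime` (prime powers and coprime products): if the identity holds for coprime `m` and `n` it
holds for `m n` since a divisor `a` of `m n` with `Λ a ≠ 0` divides exactly one of them, i.e. the function
`n ↦ ∑ κ(minFac a) Λ(a) DD κ b` is a derivation on coprime products. Also useful: `Nat.ArithmeticFunction`/`ArithmeticFunction.sum_...`
for sums of `Λ` over divisors: `Nat.sum_divisors_filter_isPrimePow`-like lemmas; `ArithmeticFunction.vonMangoldt_ne_zero_iff`.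
-/

namespace Pool.Agent.Lib.MP_54baa8_nt

theorem DD_one (κ : ℕ → ℝ) : DD κ 1 = 1 := by
  simp [DD]

theorem DD_nonneg {κ : ℕ → ℝ} (hκ : ∀ p, 0 ≤ κ p) (n : ℕ) : 0 ≤ DD κ n := by
  unfold DD Finsupp.prod
  exact Finset.prod_nonneg fun p _ => dk_nonneg (hκ p) _

theorem DD_mul (κ : ℕ → ℝ) {m n : ℕ} (h : m.Coprime n) : DD κ (m * n) = DD κ m * DD κ n := by
  unfold DD
  rw [Nat.factorization_mul_of_coprime h, Finsupp.prod_add_index_of_disjoint]
  simpa using h.disjoint_primeFactors

theorem DD_prime_pow (κ : ℕ → ℝ) {p : ℕ} (hp : p.Prime) (e : ℕ) : DD κ (p ^ e) = dk (κ p) e := by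
  unfold DD
  rw [hp.factorization_pow, Finsupp.prod_single_index]
  exact dk_zero _

theorem DD_eq_zero {κ : ℕ → ℝ} {n p : ℕ} (hn : n ≠ 0) (hp : p.Prime) (hpn : p ∣ n) (hκ : κ p = 0) :
    DD κ n = 0 := by
  unfold DD Finsupp.prod
  have hpos : n.factorization p ≠ 0 := (hp.factorization_pos_of_dvd hn hpn).ne'
  refine Finset.prod_eq_zero (i := p) (Finsupp.mem_support_iff.mpr hpos) ?_
  show dk (κ p) (n.factorization p) = 0
  rw [hκ]
  exact dk_zero_left hpos

private theorem bdd_split (κ : ℕ → ℝ) (n : ℕ) :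
    ∑ x ∈ n.divisorsAntidiagonal,
      κ x.1.minFac * ArithmeticFunction.vonMangoldt x.1 * DD κ x.2 =
    ∑ a ∈ n.divisors with IsPrimePow a,
      κ a.minFac * ArithmeticFunction.vonMangoldt a * DD κ (n / a) := by
  rw [Nat.sum_divisorsAntidiagonal
    (fun a b => κ a.minFac * ArithmeticFunction.vonMangoldt a * DD κ b), Finset.sum_filter]
  refine Finset.sum_congr rfl fun a _ => ?_
  split_ifs with h
  · rfl
  · rw [ArithmeticFunction.vonMangoldt_eq_zero_iff.mpr h]
    ring

private theorem bdd_coprime (κ : ℕ → ℝ) {a b : ℕ} (hab : a.Coprime b) :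
    ∑ d ∈ (a * b).divisors with IsPrimePow d,
      κ d.minFac * ArithmeticFunction.vonMangoldt d * DD κ ((a * b) / d) =
    (∑ d ∈ a.divisors with IsPrimePow d,
      κ d.minFac * ArithmeticFunction.vonMangoldt d * DD κ (a / d)) * DD κ b +
    (∑ d ∈ b.divisors with IsPrimePow d,
      κ d.minFac * ArithmeticFunction.vonMangoldt d * DD κ (b / d)) * DD κ a := by
  rw [Nat.mul_divisors_filter_prime_pow hab, Finset.filter_union,
    Finset.sum_union (Nat.disjoint_divisors_filter_isPrimePow hab), Finset.sum_mul, Finset.sum_mul]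
  congr 1
  · refine Finset.sum_congr rfl fun d hd => ?_
    have hda : d ∣ a := (Nat.mem_divisors.mp (Finset.mem_filter.mp hd).1).1
    have h1 : a * b / d = (a / d) * b := by
      rw [Nat.div_mul_right_comm hda]
    have h2 : (a / d).Coprime b := Nat.Coprime.coprime_dvd_left (Nat.div_dvd_of_dvd hda) hab
    rw [h1, DD_mul κ h2]
    ring
  · refine Finset.sum_congr rfl fun d hd => ?_
    have hdb : d ∣ b := (Nat.mem_divisors.mp (Finset.mem_filter.mp hd).1).1
    have h1 : a * b / d = a * (b / d) := Nat.mul_div_assoc a hdb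
    have h2 : a.Coprime (b / d) := Nat.Coprime.coprime_dvd_right (Nat.div_dvd_of_dvd hdb) hab
    rw [h1, DD_mul κ h2]
    ring

private theorem bdd_pp (κ : ℕ → ℝ) {p : ℕ} (hp : p.Prime) (e : ℕ) :
    Real.log ((p ^ e : ℕ) : ℝ) * DD κ (p ^ e) = ∑ x ∈ (p ^ e).divisorsAntidiagonal,
      κ x.1.minFac * ArithmeticFunction.vonMangoldt x.1 * DD κ x.2 := by
  rw [Nat.sum_divisorsAntidiagonal
    (fun a b => κ a.minFac * ArithmeticFunction.vonMangoldt a * DD κ b),
    Nat.sum_divisors_prime_pow hp, Finset.sum_range_succ', pow_zero,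
    ArithmeticFunction.vonMangoldt_apply_one, mul_zero, zero_mul, add_zero, DD_prime_pow κ hp]
  have h1 : ∀ j ∈ Finset.range e, κ (p ^ (j + 1)).minFac *
      ArithmeticFunction.vonMangoldt (p ^ (j + 1)) * DD κ (p ^ e / p ^ (j + 1)) =
      (κ p * Real.log p) * dk (κ p) (e - 1 - j) := by
    intro j hj
    have hj' : j + 1 ≤ e := Finset.mem_range.mp hj
    rw [hp.pow_minFac (Nat.succ_ne_zero j), ArithmeticFunction.vonMangoldt_apply_pow
      (Nat.succ_ne_zero j), ArithmeticFunction.vonMangoldt_apply_prime hp,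
      Nat.pow_div hj' hp.pos, DD_prime_pow κ hp]
    congr 2
    omega
  rw [Finset.sum_congr rfl h1, ← Finset.mul_sum, Finset.sum_range_reflect (fun i => dk (κ p) i) e,
    Nat.cast_pow, Real.log_pow]
  have h2 := dk_rec (κ p) e
  calc (e : ℝ) * Real.log p * dk (κ p) e = Real.log p * ((e : ℝ) * dk (κ p) e) := by ring
    _ = Real.log p * (κ p * ∑ i ∈ Finset.range e, dk (κ p) i) := by rw [h2]
    _ = κ p * Real.log p * ∑ j ∈ Finset.range e, dk (κ p) j := by ring

theorem DD_rec (κ : ℕ → ℝ) {n : ℕ} (hn : n ≠ 0) :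
    Real.log n * DD κ n = ∑ x ∈ n.divisorsAntidiagonal,
      κ x.1.minFac * ArithmeticFunction.vonMangoldt x.1 * DD κ x.2 := by
  revert hn
  refine Nat.recOnPrimeCoprime ?_ ?_ ?_ n
  · intro h
    exact absurd rfl h
  · intro p e hp _
    exact bdd_pp κ hp e
  · intro a b ha' hb' hab ha hb _
    have ha0 : a ≠ 0 := (pos_of_gt ha').ne'
    have hb0 : b ≠ 0 := (pos_of_gt hb').ne'
    have ha1 := ha ha0
    have hb1 := hb hb0
    rw [bdd_split] at ha1 hb1 ⊢
    rw [bdd_coprime κ hab, ← ha1, ← hb1, DD_mul κ hab, Nat.cast_mul,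
      Real.log_mul (Nat.cast_ne_zero.mpr ha0) (Nat.cast_ne_zero.mpr hb0)]
    ring

end Pool.Agent.Lib.MP_54baa8_nt
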