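import Mathlib
import Pool.Agent.Lib.MP_54baa8_nt.BL

/-!
# JOB BDom: products and truncated exponentials satisfy `log · F ≤ Q * F`

* `lg_mul` (log is a derivation): `log (a b) = log a + log b` in `ArithmeticFunction.mul_apply`.
* `dom_one`: `log n * 1 n = 0`.
* `dom_mul`: `lg (F * G) = lg F * G + F * lg G`, coefficientwise `≤ (Q * F) * G + F * (Q' * G) = (Q + Q') * (F * G)`
  (`mul_le_mul_coeff`).
* `dom_prod`: induction on `s` (`Finset.cons_induction` or `Finset.induction_on`).
* `dom_EN`: `lg (M ^ (r + 1)) = (r + 1) • (lg M * M ^ r)` by induction; `lg` is linear, so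
  `lg (EN N κ M) = κ • lg M * EN (N - 1) κ M` (for `N = 0` it is `0`) `≤ (κ • lg M) * EN N κ M` since `EN (N - 1) ≤ EN N`
  coefficientwise (nonnegative coefficients).
-/

namespace Pool.Agent.Lib.MP_54baa8_nt

theorem lg_apply (F : ArithmeticFunction ℝ) (n : ℕ) : lg F n = Real.log n * F n := rfl

theorem lg_mul (F G : ArithmeticFunction ℝ) : lg (F * G) = lg F * G + F * lg G := by
  ext n
  rw [lg_apply, ArithmeticFunction.add_apply, ArithmeticFunction.mul_apply, ArithmeticFunction.mul_apply,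
    ArithmeticFunction.mul_apply, Finset.mul_sum, ← Finset.sum_add_distrib]
  refine Finset.sum_congr rfl fun x hx => ?_
  obtain ⟨h1, h2⟩ := Nat.mem_divisorsAntidiagonal.1 hx
  have ha : x.1 ≠ 0 := by
    rintro h
    rw [h, zero_mul] at h1
    exact h2 h1.symm
  have hb : x.2 ≠ 0 := by
    rintro h
    rw [h, mul_zero] at h1
    exact h2 h1.symm
  have h3 : Real.log n = Real.log x.1 + Real.log x.2 := by
    rw [← h1, Nat.cast_mul, Real.log_mul (Nat.cast_ne_zero.2 ha) (Nat.cast_ne_zero.2 hb)]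
  rw [lg_apply, lg_apply, h3]
  ring

private theorem bdom_one_apply {n : ℕ} (h : n ≠ 1) : (1 : ArithmeticFunction ℝ) n = 0 :=
  ArithmeticFunction.one_apply_ne h

private theorem bdom_lg_one : lg 1 = 0 := by
  ext n
  rw [lg_apply, ArithmeticFunction.zero_apply]
  by_cases h : n = 1
  · rw [h, Nat.cast_one, Real.log_one, zero_mul]
  · rw [bdom_one_apply h, mul_zero]

private theorem bdom_nn_zero : Nn 0 := fun n => by rw [ArithmeticFunction.zero_apply]

private theorem bdom_lg_nn {F : ArithmeticFunction ℝ} (hF : Nn F) : Nn (lg F) := fun n => by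
  rw [lg_apply]
  exact mul_nonneg (Real.log_natCast_nonneg n) (hF n)

theorem dom_one : Dom 1 0 := by
  refine ⟨Nn.one, bdom_nn_zero, fun n => ?_⟩
  rw [← lg_apply, bdom_lg_one, zero_mul]

theorem dom_mul {F G Q Q' : ArithmeticFunction ℝ} (hF : Dom F Q) (hG : Dom G Q') :
    Dom (F * G) (Q + Q') := by
  refine ⟨hF.nn.mul hG.nn, hF.qn.add hG.qn, fun n => ?_⟩
  rw [← lg_apply, lg_mul, ArithmeticFunction.add_apply]
  have h1 : (lg F * G) n ≤ (Q * F * G) n :=
    mul_le_mul_coeff (bdom_lg_nn hF.nn) hG.nn hF.le (fun _ => le_rfl) n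
  have h2 : (F * lg G) n ≤ (F * (Q' * G)) n :=
    mul_le_mul_coeff hF.nn (bdom_lg_nn hG.nn) (fun _ => le_rfl) hG.le n
  have h3 : (Q + Q') * (F * G) = Q * F * G + F * (Q' * G) := by ring
  rw [h3, ArithmeticFunction.add_apply]
  exact add_le_add h1 h2

theorem dom_prod {ι : Type*} (s : Finset ι) {F Q : ι → ArithmeticFunction ℝ}
    (h : ∀ i ∈ s, Dom (F i) (Q i)) : Dom (∏ i ∈ s, F i) (∑ i ∈ s, Q i) := by
  induction s using Finset.cons_induction with
  | empty => simpa using dom_one
  | cons a s ha ih =>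
    rw [Finset.prod_cons, Finset.sum_cons]
    exact dom_mul (h a (Finset.mem_cons_self a s)) (ih fun i hi => h i (Finset.mem_cons_of_mem hi))

private theorem bdom_smul_apply (c : ℝ) (F : ArithmeticFunction ℝ) (n : ℕ) : (c • F) n = c * F n := rfl

private theorem bdom_sum_apply {ι : Type*} (s : Finset ι) (F : ι → ArithmeticFunction ℝ) (n : ℕ) :
    (∑ i ∈ s, F i) n = ∑ i ∈ s, F i n := by
  induction s using Finset.cons_induction with
  | empty => simp
  | cons a s ha ih =>
    rw [Finset.sum_cons, Finset.sum_cons, ArithmeticFunction.add_apply, ih]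

private theorem bdom_mul_sum_apply (A : ArithmeticFunction ℝ) (c : ℕ → ℝ) (B : ℕ → ArithmeticFunction ℝ) (s : Finset ℕ)
    (n : ℕ) : (A * ∑ i ∈ s, c i • B i) n = ∑ i ∈ s, c i * (A * B i) n := by
  rw [ArithmeticFunction.mul_apply]
  have h : ∀ x ∈ n.divisorsAntidiagonal, A x.1 * (∑ i ∈ s, c i • B i) x.2 = ∑ i ∈ s, c i * (A x.1 * B i x.2) := by
    intro x _
    rw [bdom_sum_apply, Finset.mul_sum]
    refine Finset.sum_congr rfl fun i _ => ?_
    rw [bdom_smul_apply]
    ring
  rw [Finset.sum_congr rfl h, Finset.sum_comm]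
  refine Finset.sum_congr rfl fun i _ => ?_
  rw [ArithmeticFunction.mul_apply, Finset.mul_sum]

private theorem bdom_smul_mul_apply (c : ℝ) (A B : ArithmeticFunction ℝ) (n : ℕ) :
    ((c • A) * B) n = c * (A * B) n := by
  rw [ArithmeticFunction.mul_apply, ArithmeticFunction.mul_apply, Finset.mul_sum]
  refine Finset.sum_congr rfl fun x _ => ?_
  rw [bdom_smul_apply]
  ring

private theorem bdom_lg_pow (M : ArithmeticFunction ℝ) (r n : ℕ) :
    lg (M ^ (r + 1)) n = ((r : ℝ) + 1) * (lg M * M ^ r) n := by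
  induction r generalizing n with
  | zero =>
    rw [zero_add, pow_one, pow_zero, mul_one, Nat.cast_zero, zero_add, one_mul]
  | succ r ih =>
    have h1 : lg (M ^ (r + 1)) = ((r : ℝ) + 1) • (lg M * M ^ r) := by
      ext m
      rw [ih, bdom_smul_apply]
    rw [pow_succ M (r + 1), lg_mul, ArithmeticFunction.add_apply, h1, bdom_smul_mul_apply]
    have h2 : lg M * M ^ r * M = lg M * M ^ (r + 1) := by ring
    have h3 : M ^ (r + 1) * lg M = lg M * M ^ (r + 1) := by ring
    rw [h2, h3]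
    push_cast
    ring

private theorem bdom_EN_apply (N : ℕ) (κ : ℝ) (M : ArithmeticFunction ℝ) (n : ℕ) :
    (EN N κ M) n = ∑ r ∈ Finset.range (N + 1), κ ^ r / (r.factorial : ℝ) * (M ^ r) n := by
  unfold EN
  rw [bdom_sum_apply]
  rfl

theorem dom_EN {M : ArithmeticFunction ℝ} (hM : Nn M) {κ : ℝ} (hκ : 0 ≤ κ) (N : ℕ) :
    Dom (EN N κ M) (κ • lg M) := by
  have hlg := bdom_lg_nn hM
  refine ⟨Nn.EN hM hκ N, fun n => ?_, fun n => ?_⟩
  · rw [bdom_smul_apply]
    exact mul_nonneg hκ (hlg n)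
  · rw [bdom_EN_apply, bdom_smul_mul_apply, Finset.sum_range_succ', mul_add, Finset.mul_sum]
    have h0 : Real.log n * (κ ^ 0 / (Nat.factorial 0 : ℝ) * (M ^ 0) n) = 0 := by
      have := bdom_lg_one
      have h1 : Real.log n * (1 : ArithmeticFunction ℝ) n = 0 := by
        rw [← lg_apply, this, ArithmeticFunction.zero_apply]
      rw [pow_zero, pow_zero, Nat.factorial_zero, Nat.cast_one, div_one, one_mul, h1]
    rw [h0, add_zero]
    unfold EN
    rw [bdom_mul_sum_apply, Finset.mul_sum, Finset.sum_range_succ]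
    have hstep : ∀ r ∈ Finset.range N, Real.log n * (κ ^ (r + 1) / ((r + 1).factorial : ℝ) * (M ^ (r + 1)) n) =
        κ * (κ ^ r / (r.factorial : ℝ) * (lg M * M ^ r) n) := by
      intro r _
      have h1 : Real.log n * (M ^ (r + 1)) n = ((r : ℝ) + 1) * (lg M * M ^ r) n := by
        rw [← lg_apply, bdom_lg_pow]
      have h2 : ((r + 1).factorial : ℝ) = ((r : ℝ) + 1) * (r.factorial : ℝ) := by
        rw [Nat.factorial_succ]
        push_cast
        ring
      have h3 : (r.factorial : ℝ) ≠ 0 := Nat.cast_ne_zero.2 r.factorial_ne_zero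
      have h4 : (r : ℝ) + 1 ≠ 0 := by positivity
      calc Real.log n * (κ ^ (r + 1) / ((r + 1).factorial : ℝ) * (M ^ (r + 1)) n)
          = κ ^ (r + 1) / ((r + 1).factorial : ℝ) * (Real.log n * (M ^ (r + 1)) n) := by ring
        _ = κ ^ (r + 1) / (((r : ℝ) + 1) * (r.factorial : ℝ)) * (((r : ℝ) + 1) * (lg M * M ^ r) n) := by rw [h1, h2]
        _ = κ * (κ ^ r / (r.factorial : ℝ) * (lg M * M ^ r) n) := by
          rw [pow_succ]
          field_simp
    rw [Finset.sum_congr rfl hstep]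
    have h5 : 0 ≤ κ * (κ ^ N / (N.factorial : ℝ) * (lg M * M ^ N) n) := by
      have := (hlg.mul (hM.pow N)) n
      positivity
    linarith

theorem mul_apply_one' (F G : ArithmeticFunction ℝ) : (F * G) 1 = F 1 * G 1 := by
  rw [ArithmeticFunction.mul_apply, Nat.divisorsAntidiagonal_one, Finset.sum_singleton]

theorem prod_apply_one {ι : Type*} (s : Finset ι) (F : ι → ArithmeticFunction ℝ) :
    (∏ i ∈ s, F i) 1 = ∏ i ∈ s, (F i) 1 := by
  induction s using Finset.cons_induction with
  | empty => simp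
  | cons a s ha ih => rw [Finset.prod_cons, Finset.prod_cons, mul_apply_one', ih]

private theorem bdom_pow_apply_one (M : ArithmeticFunction ℝ) (r : ℕ) : (M ^ r) 1 = (M 1) ^ r := by
  induction r with
  | zero => rw [pow_zero, pow_zero, ArithmeticFunction.one_one]
  | succ r ih => rw [pow_succ, pow_succ, mul_apply_one', ih]

theorem EN_apply_one {M : ArithmeticFunction ℝ} (hM : M 1 = 0) (N : ℕ) (κ : ℝ) :
    (EN N κ M) 1 = 1 := by
  rw [bdom_EN_apply, Finset.sum_eq_single 0]
  · rw [bdom_pow_apply_one, pow_zero, pow_zero, Nat.factorial_zero, Nat.cast_one, div_one, mul_one]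
  · intro r _ hr
    rw [bdom_pow_apply_one, hM, zero_pow hr, mul_zero]
  · intro h
    exact absurd (Finset.mem_range.2 (Nat.succ_pos N)) h

end Pool.Agent.Lib.MP_54baa8_nt
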