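import Mathlib
import Pool.Agent.Lib.MP_54baa8_nt.BDom
import Pool.Agent.Lib.MP_54baa8_nt.BDD

/-!
# JOB BCmp: coefficientwise comparison with `DD κ`

Strong induction on `n`. For `n = 1` it is `hF1` (and `DD κ 1 = 1`). For `n ≥ 2`, `log n > 0` and
`log n * F n ≤ (Q * F) n = ∑_{ab = n} Q a F b`; the pair `(1, n)` has `Q 1 ≤ κ _ * Λ 1 * _ = 0`, in the others `1 ≤ b < n`, so
`F b ≤ DD κ b * exp (-(1/2) log b)`, and `Q a ≤ κ (minFac a) Λ a exp (-(1/2) log a)`; the exponentials multiply to
`exp (-(1/2) log n)`; then `DD_rec`. (The pair `a = 1` also contributes `0` in `DD_rec` as `Λ 1 = 0`.)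
-/

namespace Pool.Agent.Lib.MP_54baa8_nt

theorem dom_compare {F Q : ArithmeticFunction ℝ} {κ : ℕ → ℝ} (h : Dom F Q) (hκ : ∀ p, 0 ≤ κ p)
    (hF1 : F 1 ≤ 1) (hQ : ∀ n : ℕ, n ≠ 0 → Q n ≤ κ n.minFac * ArithmeticFunction.vonMangoldt n *
      Real.exp (-(1 / 2) * Real.log n)) {n : ℕ} (hn : n ≠ 0) :
    F n ≤ DD κ n * Real.exp (-(1 / 2) * Real.log n) := by
  induction n using Nat.strong_induction_on with
  | _ n ih =>
    rcases eq_or_ne n 1 with rfl | hn1
    · simpa [DD_one] using hF1
    have hn2 : 1 < n := by omega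
    have hlog : 0 < Real.log n := Real.log_pos (by exact_mod_cast hn2)
    have h1 := h.le n
    rw [ArithmeticFunction.mul_apply] at h1
    have key : ∑ x ∈ n.divisorsAntidiagonal, Q x.1 * F x.2 ≤
        ∑ x ∈ n.divisorsAntidiagonal, (κ x.1.minFac * ArithmeticFunction.vonMangoldt x.1 *
          DD κ x.2) * Real.exp (-(1 / 2) * Real.log n) := by
      refine Finset.sum_le_sum fun x hx => ?_
      obtain ⟨hxn, _⟩ := Nat.mem_divisorsAntidiagonal.1 hx
      have hx1 : x.1 ≠ 0 := fun h0 => hn (by rw [← hxn, h0, zero_mul])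
      have hx2 : x.2 ≠ 0 := fun h0 => hn (by rw [← hxn, h0, mul_zero])
      have hexp : Real.exp (-(1 / 2) * Real.log n) =
          Real.exp (-(1 / 2) * Real.log x.1) * Real.exp (-(1 / 2) * Real.log x.2) := by
        rw [← Real.exp_add, ← hxn, Nat.cast_mul,
          Real.log_mul (by exact_mod_cast hx1) (by exact_mod_cast hx2)]
        ring_nf
      rcases eq_or_ne x.1 1 with h11 | h11
      · have hQ1 : Q x.1 = 0 := by
          refine le_antisymm ?_ (h.qn _)
          have := hQ x.1 hx1
          rw [h11] at this ⊢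
          simpa using this
        rw [hQ1, zero_mul, h11]
        simp
      · have hlt : x.2 < n := by
          rw [← hxn]
          have : 1 < x.1 := by omega
          exact (Nat.lt_mul_iff_one_lt_left (Nat.pos_of_ne_zero hx2)).2 this
        have hF := ih x.2 hlt hx2
        have hQ' := hQ x.1 hx1
        have hnn : 0 ≤ κ x.1.minFac * ArithmeticFunction.vonMangoldt x.1 *
            Real.exp (-(1 / 2) * Real.log x.1) :=
          mul_nonneg (mul_nonneg (hκ _) ArithmeticFunction.vonMangoldt_nonneg)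
            (Real.exp_pos _).le
        calc Q x.1 * F x.2 ≤ (κ x.1.minFac * ArithmeticFunction.vonMangoldt x.1 *
              Real.exp (-(1 / 2) * Real.log x.1)) *
              (DD κ x.2 * Real.exp (-(1 / 2) * Real.log x.2)) :=
              mul_le_mul hQ' hF (h.nn _) hnn
          _ = _ := by rw [hexp]; ring
    rw [← Finset.sum_mul, ← DD_rec κ hn] at key
    have h2 : Real.log n * F n ≤ Real.log n * (DD κ n * Real.exp (-(1 / 2) * Real.log n)) := by
      refine h1.trans (key.trans (le_of_eq ?_))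
      ring
    exact le_of_mul_le_mul_left h2 hlog

end Pool.Agent.Lib.MP_54baa8_nt
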