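import Mathlib
import Pool.Agent.Lib.MP_54baa8_nt.BDD

/-!
# JOB BEul: the Euler product for `∑ DD κ n ^ 2 / n`

`κ p = 0` for all `p ≥ N`. Let `f n = DD κ n ^ 2 / n` (with `f 0 = 0`: use `if n = 0 then 0 else _` or that `x / 0 = 0`). `f 1 = 1`,
`f` is multiplicative on coprime arguments (`DD_mul`), `f (p ^ e) = dk (κ p) e ^ 2 / p ^ e` is summable over `e` for every prime `p`
(hypothesis). `EulerProduct.summable_and_hasSum_smoothNumbers_prod_primesBelow_tsum` (see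
`Mathlib/NumberTheory/EulerProduct/Basic.lean`) gives
`∑_{n ∈ smoothNumbers N} f n = ∏_{p < N} ∑_e f (p ^ e)`. A finite sum over `1 ≤ n ≤ X` of nonnegative terms: those with
`n ∉ smoothNumbers N` vanish (`n ≠ 0` has a prime factor `p ≥ N`, `κ p = 0`, `DD_eq_zero`), the others are part of the sum.
-/

namespace Pool.Agent.Lib.MP_54baa8_nt

theorem euler_bound {κ : ℕ → ℝ} (hκ : ∀ p, 0 ≤ κ p) (N : ℕ) (hN : ∀ p, N ≤ p → κ p = 0)
    (hs : ∀ p : ℕ, p.Prime → Summable (fun e : ℕ => dk (κ p) e ^ 2 / (p : ℝ) ^ e)) (X : ℕ) :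
    ∑ n ∈ Finset.Icc 1 X, DD κ n ^ 2 / (n : ℝ) ≤
      ∏ p ∈ N.primesBelow, ∑' e : ℕ, dk (κ p) e ^ 2 / (p : ℝ) ^ e := by
  classical
  have hnn : ∀ n : ℕ, 0 ≤ DD κ n ^ 2 / (n : ℝ) := fun n => by positivity
  have hf1 : (fun n : ℕ => DD κ n ^ 2 / (n : ℝ)) 1 = 1 := by
    simp [DD_one]
  have hmul : ∀ {m n : ℕ}, Nat.Coprime m n → (fun n : ℕ => DD κ n ^ 2 / (n : ℝ)) (m * n) =
      (fun n : ℕ => DD κ n ^ 2 / (n : ℝ)) m * (fun n : ℕ => DD κ n ^ 2 / (n : ℝ)) n := by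
    intro m n h
    simp only [DD_mul κ h]
    push_cast
    rw [mul_pow, mul_div_mul_comm]
  have hpp : ∀ {p : ℕ}, p.Prime → ∀ e : ℕ,
      (fun n : ℕ => DD κ n ^ 2 / (n : ℝ)) (p ^ e) = dk (κ p) e ^ 2 / (p : ℝ) ^ e := by
    intro p hp e
    simp only [DD_prime_pow κ hp e]
    push_cast
    rfl
  have hsum : ∀ {p : ℕ}, p.Prime →
      Summable (fun n : ℕ => ‖(fun n : ℕ => DD κ n ^ 2 / (n : ℝ)) (p ^ n)‖) := by
    intro p hp
    refine (hs p hp).congr fun e => ?_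
    rw [hpp hp e, Real.norm_of_nonneg]
    positivity
  have key := EulerProduct.summable_and_hasSum_smoothNumbers_prod_primesBelow_tsum
    (f := fun n : ℕ => DD κ n ^ 2 / (n : ℝ)) hf1 hmul hsum N
  have hprod : ∏ p ∈ N.primesBelow, ∑' e : ℕ, dk (κ p) e ^ 2 / (p : ℝ) ^ e =
      ∏ p ∈ N.primesBelow, ∑' n : ℕ, (fun n : ℕ => DD κ n ^ 2 / (n : ℝ)) (p ^ n) := by
    refine Finset.prod_congr rfl fun p hp => ?_
    have hp' : p.Prime := Nat.prime_of_mem_primesBelow hp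
    exact tsum_congr fun e => (hpp hp' e).symm
  rw [hprod]
  have hfil : ∑ n ∈ Finset.Icc 1 X, DD κ n ^ 2 / (n : ℝ) =
      ∑ n ∈ (Finset.Icc 1 X).filter (fun n => n ∈ N.smoothNumbers), DD κ n ^ 2 / (n : ℝ) := by
    rw [Finset.sum_filter]
    refine Finset.sum_congr rfl fun n hn => ?_
    have hn1 : 1 ≤ n := (Finset.mem_Icc.mp hn).1
    have hn0 : n ≠ 0 := by omega
    split_ifs with h
    · rfl
    · have h2 : ∃ p, p.Prime ∧ p ∣ n ∧ N ≤ p := by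
        by_contra hcon
        push Not at hcon
        apply h
        rw [Nat.mem_smoothNumbers']
        intro p hp hpn
        exact hcon p hp hpn
      obtain ⟨p, hp, hpn, hNp⟩ := h2
      rw [DD_eq_zero hn0 hp hpn (hN p hNp)]
      simp
  rw [hfil, ← Finset.sum_subtype_eq_sum_filter]
  exact sum_le_hasSum _ (fun i _ => hnn i) key.2

end Pool.Agent.Lib.MP_54baa8_nt
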