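import Mathlib
import Pool.Agent.Lib.MP_54baa8_nt.BDk

/-!
# JOB BLoc: bounds for the local factors
-/

namespace Pool.Agent.Lib.MP_54baa8_nt

private theorem bloc_x {p : ℕ} (hp : p.Prime) :
    0 < 1 / Real.sqrt p ∧ (1 / Real.sqrt p) ^ 2 = 1 / (p : ℝ) ∧ (1 / Real.sqrt p) ^ 2 ≤ 1 / 2 ∧
      1 / Real.sqrt p < 1 := by
  have hp0 : (0 : ℝ) < p := by exact_mod_cast hp.pos
  have hp2 : (2 : ℝ) ≤ p := by exact_mod_cast hp.two_le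
  have h1 : 0 < 1 / Real.sqrt p := by positivity
  have h2 : (1 / Real.sqrt p) ^ 2 = 1 / (p : ℝ) := by
    rw [div_pow, one_pow, Real.sq_sqrt hp0.le]
  have h3 : (1 / Real.sqrt p) ^ 2 ≤ 1 / 2 := by
    rw [h2]
    exact one_div_le_one_div_of_le (by norm_num) hp2
  refine ⟨h1, h2, h3, ?_⟩
  nlinarith

private theorem bloc_term {κ : ℝ} {p : ℕ} (hp : p.Prime) (e : ℕ) :
    dk κ e ^ 2 / (p : ℝ) ^ e = (dk κ e * (1 / Real.sqrt p) ^ e) ^ 2 := by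
  obtain ⟨-, h2, -, -⟩ := bloc_x hp
  rw [mul_pow, ← pow_mul, mul_comm e 2, pow_mul, h2, one_div, inv_pow, div_eq_mul_inv]

private theorem bloc_sq {a : ℕ → ℝ} (ha : ∀ n, 0 ≤ a n) (hs : Summable a) :
    Summable (fun n => a n ^ 2) ∧ ∑' n, a n ^ 2 ≤ (∑' n, a n) ^ 2 := by
  have h1 : ∀ n, a n ^ 2 ≤ (∑' n, a n) * a n := by
    intro n
    rw [sq]
    exact mul_le_mul_of_nonneg_right (hs.le_tsum n fun m _ => ha m) (ha n)
  have h2 : Summable (fun n => (∑' n, a n) * a n) := hs.mul_left _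
  have h3 : Summable (fun n => a n ^ 2) := Summable.of_nonneg_of_le (fun n => sq_nonneg _) h1 h2
  refine ⟨h3, (h3.tsum_le_tsum h1 h2).trans ?_⟩
  rw [tsum_mul_left, sq]

theorem loc_summable {κ : ℝ} (hκ : 0 ≤ κ) {p : ℕ} (hp : p.Prime) :
    Summable (fun e : ℕ => dk κ e ^ 2 / (p : ℝ) ^ e) := by
  obtain ⟨h1, -, -, h4⟩ := bloc_x hp
  obtain ⟨K, hK⟩ := exists_nat_ge κ
  obtain ⟨hs, -⟩ := dk_sum hκ K (by linarith) h1.le h4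
  have h := (bloc_sq (fun n => mul_nonneg (dk_nonneg hκ n) (by positivity)) hs).1
  refine h.congr fun e => ?_
  exact (bloc_term hp e).symm

private theorem bloc_exp {x : ℝ} (hx : 0 ≤ x) (hx2 : x ^ 2 ≤ 1 / 2) (hx1 : x < 1) :
    1 / (1 - x) ≤ Real.exp (2 * x) := by
  rw [div_le_iff₀ (by linarith)]
  have h1 : 1 + 2 * x + (2 * x) ^ 2 / 2 ≤ Real.exp (2 * x) :=
    Real.quadratic_le_exp_of_nonneg (by linarith)
  have h2 : (1 : ℝ) ≤ (1 + 2 * x + (2 * x) ^ 2 / 2) * (1 - x) := by nlinarith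
  exact h2.trans (mul_le_mul_of_nonneg_right h1 (by linarith))

theorem loc_small {κ : ℝ} (hκ : 0 ≤ κ) {p : ℕ} (hp : p.Prime) :
    ∑' e : ℕ, dk κ e ^ 2 / (p : ℝ) ^ e ≤ Real.exp (8 * max 1 κ / Real.sqrt p) := by
  obtain ⟨h1, h2, h3, h4⟩ := bloc_x hp
  have hY1 : (1 : ℝ) ≤ max 1 κ := le_max_left _ _
  have hY2 : κ ≤ max 1 κ := le_max_right _ _
  obtain ⟨K, hK1, hK2⟩ : ∃ K : ℕ, κ ≤ (K : ℝ) + 1 ∧ (K : ℝ) + 1 ≤ 2 * max 1 κ := by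
    refine ⟨⌈κ⌉₊ - 1, ?_, ?_⟩
    · have h5 := Nat.le_ceil κ
      have h6 : (⌈κ⌉₊ : ℝ) ≤ ((⌈κ⌉₊ - 1 : ℕ) : ℝ) + 1 := by
        have : ⌈κ⌉₊ ≤ ⌈κ⌉₊ - 1 + 1 := by omega
        exact_mod_cast this
      linarith
    · have h5 := Nat.ceil_lt_add_one hκ
      rcases Nat.eq_zero_or_pos ⌈κ⌉₊ with h6 | h6
      · rw [h6]
        push_cast
        linarith
      · have h7 : ((⌈κ⌉₊ - 1 : ℕ) : ℝ) + 1 = (⌈κ⌉₊ : ℝ) := by
          have : ⌈κ⌉₊ - 1 + 1 = ⌈κ⌉₊ := by omega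
          exact_mod_cast this
        rw [h7]
        linarith
  obtain ⟨hs, hb⟩ := dk_sum hκ K hK1 h1.le h4
  have h := (bloc_sq (fun n => mul_nonneg (dk_nonneg hκ n) (by positivity)) hs).2
  have hS0 : 0 ≤ ∑' m : ℕ, dk κ m * (1 / Real.sqrt p) ^ m :=
    tsum_nonneg fun n => mul_nonneg (dk_nonneg hκ n) (by positivity)
  have h5 := bloc_exp h1.le h3 h4
  calc ∑' e : ℕ, dk κ e ^ 2 / (p : ℝ) ^ e
      = ∑' e : ℕ, (dk κ e * (1 / Real.sqrt p) ^ e) ^ 2 := tsum_congr fun e => bloc_term hp e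
    _ ≤ (∑' m : ℕ, dk κ m * (1 / Real.sqrt p) ^ m) ^ 2 := h
    _ ≤ ((1 / (1 - 1 / Real.sqrt p)) ^ (K + 1)) ^ 2 := by gcongr
    _ ≤ ((Real.exp (2 * (1 / Real.sqrt p))) ^ (K + 1)) ^ 2 := by
        have h6 : 0 ≤ 1 / (1 - 1 / Real.sqrt p) := by
          apply div_nonneg zero_le_one
          linarith
        exact pow_le_pow_left₀ (pow_nonneg h6 _) (pow_le_pow_left₀ h6 h5 _) 2
    _ = Real.exp (4 * ((K : ℝ) + 1) * (1 / Real.sqrt p)) := by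
        rw [← pow_mul, ← Real.exp_nat_mul]
        congr 1
        push_cast
        ring
    _ ≤ Real.exp (8 * max 1 κ / Real.sqrt p) := by
        rw [Real.exp_le_exp, mul_one_div]
        exact div_le_div_of_nonneg_right (by linarith) (Real.sqrt_nonneg _)

theorem loc_large {κ : ℝ} (hκ : 0 ≤ κ) {p : ℕ} (hp : p.Prime) (h : 2 * (max 1 κ) ^ 2 ≤ p) :
    ∑' e : ℕ, dk κ e ^ 2 / (p : ℝ) ^ e ≤ Real.exp (κ ^ 2 / p + 2 * (max 1 κ) ^ 4 / (p : ℝ) ^ 2) := by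
  have hY1 : (1 : ℝ) ≤ max 1 κ := le_max_left _ _
  set Y : ℝ := max 1 κ with hY
  have hp0 : (0 : ℝ) < p := by exact_mod_cast hp.pos
  have hs := loc_summable hκ hp
  set r : ℝ := Y ^ 2 / p with hr
  have hr0 : 0 ≤ r := by positivity
  have hr1 : r ≤ 1 / 2 := by
    rw [hr, div_le_iff₀ hp0]
    linarith
  have hle : ∀ e : ℕ, dk κ (e + 2) ^ 2 / (p : ℝ) ^ (e + 2) ≤ r ^ 2 * r ^ e := by
    intro e
    have h1 := dk_le hκ (e + 2)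
    have h2 := dk_nonneg hκ (e + 2)
    rw [← pow_add, add_comm 2 e, hr, div_pow]
    gcongr
    calc dk κ (e + 2) ^ 2 ≤ (Y ^ (e + 2)) ^ 2 := by gcongr
      _ = (Y ^ 2) ^ (e + 2) := by rw [← pow_mul, ← pow_mul, mul_comm]
  have hg : Summable (fun e : ℕ => r ^ 2 * r ^ e) :=
    (summable_geometric_of_lt_one hr0 (by linarith)).mul_left _
  have h3 : ∑' e : ℕ, dk κ e ^ 2 / (p : ℝ) ^ e = 1 + κ ^ 2 / p +
      ∑' e : ℕ, dk κ (e + 2) ^ 2 / (p : ℝ) ^ (e + 2) := by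
    rw [← hs.sum_add_tsum_nat_add 2]
    simp [Finset.sum_range_succ, dk_zero, dk_succ]
  have h4 : ∑' e : ℕ, dk κ (e + 2) ^ 2 / (p : ℝ) ^ (e + 2) ≤ 2 * Y ^ 4 / (p : ℝ) ^ 2 := by
    have h5 : ∑' e : ℕ, dk κ (e + 2) ^ 2 / (p : ℝ) ^ (e + 2) ≤ ∑' e : ℕ, r ^ 2 * r ^ e :=
      ((summable_nat_add_iff 2).2 hs).tsum_le_tsum hle hg
    rw [tsum_mul_left, tsum_geometric_of_lt_one hr0 (by linarith)] at h5
    refine h5.trans ?_
    have h6 : (1 - r)⁻¹ ≤ 2 := by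
      rw [inv_le_comm₀ (by linarith) two_pos]
      linarith
    calc r ^ 2 * (1 - r)⁻¹ ≤ r ^ 2 * 2 := by gcongr
      _ = 2 * Y ^ 4 / (p : ℝ) ^ 2 := by
        rw [hr, div_pow]
        ring
  rw [h3]
  have h5 := Real.add_one_le_exp (κ ^ 2 / p + 2 * Y ^ 4 / (p : ℝ) ^ 2)
  linarith

theorem loc_zero (p : ℕ) : ∑' e : ℕ, dk 0 e ^ 2 / (p : ℝ) ^ e = 1 := by
  rw [tsum_eq_single 0]
  · simp [dk_zero]
  · intro e he
    rw [dk_zero_left he]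
    simp

end Pool.Agent.Lib.MP_54baa8_nt
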