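import Mathlib
import Pool.Agent.Lib.MP_54baa8_nt.BA

/-!
# JOB BMV: the mean value of a short Dirichlet polynomial

Let `N = ⌊X⌋₊`. By `dv_eq_sum`, `‖dv f t‖ ^ 2 = ∑ m n, f m f n cos (t (log m - log n))` (sums over `1 ≤ m, n ≤ N`; e.g.
`Complex.mul_conj`, or `‖z‖ ^ 2 = re ^ 2 + im ^ 2` and the addition theorem of `cos`). The diagonal contributes
`T ∑ (f n) ^ 2`. For `m ≠ n` put `θ = log m - log n`; `|∫ t in T..2T, cos (t θ)| = |sin (2Tθ) - sin (Tθ)| / |θ| ≤ 2 / |θ|` and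
`|θ| ≥ |m - n| / max m n ≥ 1 / X` (from `Real.one_sub_inv_le_log_of_pos` : `log x ≥ 1 - 1 / x`). So the off-diagonal part is at most
`2 X (∑ |f n|) ^ 2 ≤ 2 X N ∑ (f n) ^ 2 ≤ 2 X ^ 2 ∑ (f n) ^ 2 ≤ 2 T ∑ (f n) ^ 2` (`sq_sum_le_card_mul_sum_sq`).
-/

open Complex

namespace Pool.Agent.Lib.MP_54baa8_nt

private theorem bmv_sq {f : ArithmeticFunction ℝ} {X : ℝ} (hf : Len f X) (t : ℝ) :
    ‖dv f t‖ ^ 2 = ∑ m ∈ Finset.Icc 1 ⌊X⌋₊, ∑ n ∈ Finset.Icc 1 ⌊X⌋₊,
      f m * f n * Real.cos (t * (Real.log m - Real.log n)) := by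
  have hexp : ∀ a : ℝ, Complex.exp (-(a : ℝ) * I) = ((Real.cos a : ℝ) : ℂ) - ((Real.sin a : ℝ) : ℂ) * I := by
    intro a
    have h1 : (-(a : ℂ)) * I = ((-a : ℝ) : ℂ) * I := by push_cast; ring
    rw [h1, Complex.exp_mul_I, ← Complex.ofReal_cos, ← Complex.ofReal_sin, Real.cos_neg, Real.sin_neg]
    push_cast
    ring
  have hdv : dv f t = ((∑ n ∈ Finset.Icc 1 ⌊X⌋₊, f n * Real.cos (t * Real.log n) : ℝ) : ℂ)
      - ((∑ n ∈ Finset.Icc 1 ⌊X⌋₊, f n * Real.sin (t * Real.log n) : ℝ) : ℂ) * I := by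
    rw [dv_eq_sum hf]
    push_cast
    rw [Finset.sum_mul, ← Finset.sum_sub_distrib]
    refine Finset.sum_congr rfl fun n _ => ?_
    have h2 := hexp (t * Real.log n)
    push_cast at h2
    rw [h2]
    ring
  have hn : ∀ a b : ℝ, ‖(a : ℂ) - (b : ℂ) * I‖ ^ 2 = a * a + b * b := by
    intro a b
    rw [Complex.sq_norm, Complex.normSq_apply]
    simp
  rw [hdv, hn, Finset.sum_mul_sum, Finset.sum_mul_sum, ← Finset.sum_add_distrib]
  refine Finset.sum_congr rfl fun m _ => ?_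
  rw [← Finset.sum_add_distrib]
  refine Finset.sum_congr rfl fun n _ => ?_
  rw [mul_sub, Real.cos_sub]
  ring

private theorem bmv_int {T θ X : ℝ} (hX : 0 < X) (hθ : 1 / X ≤ |θ|) :
    |∫ t in T..(2 * T), Real.cos (t * θ)| ≤ 2 * X := by
  have hθ0 : 0 < |θ| := lt_of_lt_of_le (by positivity) hθ
  have hne : θ ≠ 0 := abs_pos.mp hθ0
  rw [intervalIntegral.integral_comp_mul_right (fun y => Real.cos y) hne, integral_cos, smul_eq_mul, abs_mul, abs_inv]
  have h1 : |Real.sin (2 * T * θ) - Real.sin (T * θ)| ≤ 2 := by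
    have a1 := Real.sin_le_one (2 * T * θ)
    have a2 := Real.neg_one_le_sin (2 * T * θ)
    have a3 := Real.sin_le_one (T * θ)
    have a4 := Real.neg_one_le_sin (T * θ)
    rw [abs_le]
    constructor <;> linarith
  have h2 : |θ|⁻¹ ≤ X := by
    rw [inv_le_comm₀ hθ0 hX]
    simpa using hθ
  calc |θ|⁻¹ * |Real.sin (2 * T * θ) - Real.sin (T * θ)| ≤ X * 2 :=
        mul_le_mul h2 h1 (abs_nonneg _) hX.le
    _ = 2 * X := by ring

private theorem bmv_log {m n : ℕ} {X : ℝ} (hm : 1 ≤ m) (hmn : m < n) (hnX : (n : ℝ) ≤ X) :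
    1 / X ≤ Real.log n - Real.log m := by
  have hm0 : (0 : ℝ) < m := by exact_mod_cast hm
  have hn0 : (0 : ℝ) < n := by exact_mod_cast (lt_of_le_of_lt (Nat.zero_le _) hmn)
  have hmn' : (m : ℝ) + 1 ≤ n := by exact_mod_cast hmn
  rw [← Real.log_div hn0.ne' hm0.ne']
  have h1 := Real.one_sub_inv_le_log_of_pos (div_pos hn0 hm0)
  have h2 : 1 / X ≤ 1 - ((n : ℝ) / m)⁻¹ := by
    rw [inv_div]
    have h3 : 1 / X ≤ 1 / n := one_div_le_one_div_of_le hn0 hnX
    have h4 : (1 : ℝ) / n ≤ 1 - m / n := by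
      rw [div_le_iff₀ hn0, sub_mul, div_mul_cancel₀ _ hn0.ne']
      linarith
    linarith
  linarith

theorem mean_value {f : ArithmeticFunction ℝ} {X T : ℝ} (hf : Len f X) (hX : 1 ≤ X) (hT : X ^ 2 ≤ T) :
    ∫ t in T..(2 * T), ‖dv f t‖ ^ 2 ≤ 3 * T * ∑ n ∈ Finset.Icc 1 ⌊X⌋₊, (f n) ^ 2 := by
  have hX0 : 0 < X := by linarith
  have hT0 : 0 < T := lt_of_lt_of_le (by positivity) hT
  have hN : ((⌊X⌋₊ : ℕ) : ℝ) ≤ X := Nat.floor_le hX0.le
  simp_rw [bmv_sq hf]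
  have hint : ∀ m n : ℕ, IntervalIntegrable
      (fun t : ℝ => f m * f n * Real.cos (t * (Real.log m - Real.log n))) MeasureTheory.volume T (2 * T) := by
    intro m n
    apply Continuous.intervalIntegrable
    fun_prop
  rw [intervalIntegral.integral_finsetSum
    (fun m _ => (by
      apply Continuous.intervalIntegrable
      fun_prop))]
  have hterm : ∀ m ∈ Finset.Icc 1 ⌊X⌋₊,
      ∫ t in T..(2 * T), ∑ n ∈ Finset.Icc 1 ⌊X⌋₊, f m * f n * Real.cos (t * (Real.log m - Real.log n))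
        ≤ T * (f m) ^ 2 + ∑ n ∈ Finset.Icc 1 ⌊X⌋₊, 2 * X * (|f m| * |f n|) := by
    intro m hm
    rw [intervalIntegral.integral_finsetSum (fun n _ => hint m n)]
    have hone : ∀ n ∈ Finset.Icc 1 ⌊X⌋₊,
        ∫ t in T..(2 * T), f m * f n * Real.cos (t * (Real.log m - Real.log n))
          ≤ (if n = m then T * (f m) ^ 2 else 0) + 2 * X * (|f m| * |f n|) := by
      intro n hn
      rw [intervalIntegral.integral_const_mul]
      by_cases hmn : n = m
      · subst hmn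
        rw [if_pos rfl]
        have h0 : ∫ t in T..(2 * T), Real.cos (t * (Real.log n - Real.log n)) = T := by
          simp
          ring
        rw [h0]
        have : 0 ≤ 2 * X * (|f n| * |f n|) := by positivity
        nlinarith [this]
      · rw [if_neg hmn, zero_add]
        have hm1 : 1 ≤ m := (Finset.mem_Icc.mp hm).1
        have hn1 : 1 ≤ n := (Finset.mem_Icc.mp hn).1
        have hmX : (m : ℝ) ≤ X := le_trans (by exact_mod_cast (Finset.mem_Icc.mp hm).2) hN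
        have hnX : (n : ℝ) ≤ X := le_trans (by exact_mod_cast (Finset.mem_Icc.mp hn).2) hN
        have hθ : 1 / X ≤ |Real.log m - Real.log n| := by
          rcases lt_or_gt_of_ne hmn with h | h
          · have := bmv_log hn1 h hmX
            exact le_trans this (le_abs_self _)
          · have := bmv_log hm1 h hnX
            rw [abs_sub_comm]
            exact le_trans this (le_abs_self _)
        have h1 := bmv_int (T := T) hX0 hθ
        calc f m * f n * ∫ t in T..(2 * T), Real.cos (t * (Real.log m - Real.log n))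
            ≤ |f m * f n * ∫ t in T..(2 * T), Real.cos (t * (Real.log m - Real.log n))| := le_abs_self _
          _ = |f m| * |f n| * |∫ t in T..(2 * T), Real.cos (t * (Real.log m - Real.log n))| := by
              rw [abs_mul, abs_mul]
          _ ≤ |f m| * |f n| * (2 * X) := mul_le_mul_of_nonneg_left h1 (by positivity)
          _ = 2 * X * (|f m| * |f n|) := by ring
    refine le_trans (Finset.sum_le_sum hone) ?_
    rw [Finset.sum_add_distrib, Finset.sum_ite_eq' , if_pos hm]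
  refine le_trans (Finset.sum_le_sum hterm) ?_
  rw [Finset.sum_add_distrib, ← Finset.mul_sum]
  have hsq : ∑ m ∈ Finset.Icc 1 ⌊X⌋₊, ∑ n ∈ Finset.Icc 1 ⌊X⌋₊, 2 * X * (|f m| * |f n|)
      = 2 * X * (∑ n ∈ Finset.Icc 1 ⌊X⌋₊, |f n|) ^ 2 := by
    rw [sq, Finset.sum_mul_sum, Finset.mul_sum]
    refine Finset.sum_congr rfl fun m _ => ?_
    rw [Finset.mul_sum]
  have hcs : (∑ n ∈ Finset.Icc 1 ⌊X⌋₊, |f n|) ^ 2 ≤ X * ∑ n ∈ Finset.Icc 1 ⌊X⌋₊, (f n) ^ 2 := by
    have h1 := sq_sum_le_card_mul_sum_sq (s := Finset.Icc 1 ⌊X⌋₊) (f := fun n => |f n|)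
    simp only [sq_abs, Nat.card_Icc, Nat.add_sub_cancel] at h1
    refine le_trans h1 ?_
    exact mul_le_mul_of_nonneg_right hN (Finset.sum_nonneg fun n _ => sq_nonneg _)
  rw [hsq]
  have hS : 0 ≤ ∑ n ∈ Finset.Icc 1 ⌊X⌋₊, (f n) ^ 2 := Finset.sum_nonneg fun n _ => sq_nonneg _
  have h5 : 2 * X * (∑ n ∈ Finset.Icc 1 ⌊X⌋₊, |f n|) ^ 2 ≤ 2 * X * (X * ∑ n ∈ Finset.Icc 1 ⌊X⌋₊, (f n) ^ 2) :=
    mul_le_mul_of_nonneg_left hcs (by positivity)
  have h6 : X ^ 2 * ∑ n ∈ Finset.Icc 1 ⌊X⌋₊, (f n) ^ 2 ≤ T * ∑ n ∈ Finset.Icc 1 ⌊X⌋₊, (f n) ^ 2 :=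
    mul_le_mul_of_nonneg_right hT hS
  nlinarith [h5, h6]

end Pool.Agent.Lib.MP_54baa8_nt
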