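import Mathlib
import Pool.Agent.Lib.MP_54baa8_nt.BLoc

/-!
# JOB BProd: the product of the local factors over a finite set of primes

Let `Y = max 1 κ`, split `S` at `2 Y ^ 2`. The primes `p < 2 Y ^ 2` give (`loc_small`)
`exp (8 Y ∑_{1 ≤ n ≤ m} n ^ (-1/2))` with `m ≤ 2 Y ^ 2`, `m = ⌊2 Y ^ 2⌋₊`, and `∑_{n ≤ m} n ^ (-1/2) ≤ 2 √m` (induction on `m`:
`2 √m + 1/√(m+1) ≤ 2 √(m+1)`), so `≤ exp (8 Y * 2 * √2 Y) ≤ exp (23 Y ^ 2)`. The primes `p ≥ 2 Y ^ 2` give (`loc_large`)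
`exp (κ ^ 2 ∑ 1/p + 2 Y ^ 4 ∑_{n ≥ 2 Y ^ 2} 1 / n ^ 2)`, and for a finite set of natural numbers `n ≥ M` (`M = 2 Y ^ 2 ≥ 2`):
`∑ 1 / n ^ 2 ≤ ∑ (1/(n-1) - 1/n) ≤ 1/(M-1) ≤ 2/M` (in the form: the set is contained in `Finset.Ico ⌈M⌉₊ (B + 1)`, telescope), so
`2 Y ^ 4 * 2 / (2 Y ^ 2) = 2 Y ^ 2`. Together `≤ exp (κ ^ 2 ∑_{p ∈ S} 1/p + 25 Y ^ 2)`.
-/

namespace Pool.Agent.Lib.MP_54baa8_nt

private theorem bprod_sqrt (m : ℕ) : ∑ n ∈ Finset.range (m + 1), 1 / Real.sqrt (n : ℝ) ≤ 2 * Real.sqrt m := by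
  induction m with
  | zero => simp
  | succ m ih =>
    rw [Finset.sum_range_succ]
    have h1 : (0 : ℝ) ≤ m := Nat.cast_nonneg m
    have h2 : 0 < Real.sqrt ((m + 1 : ℕ) : ℝ) := Real.sqrt_pos.2 (by positivity)
    have h3 : Real.sqrt ((m + 1 : ℕ) : ℝ) ^ 2 = m + 1 := by
      rw [Real.sq_sqrt (by positivity)]
      push_cast
      ring
    have h4 : Real.sqrt (m : ℝ) ^ 2 = m := Real.sq_sqrt h1
    have h5 : Real.sqrt (m : ℝ) ≤ Real.sqrt ((m + 1 : ℕ) : ℝ) := Real.sqrt_le_sqrt (by push_cast; linarith)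
    have h6 : 0 ≤ Real.sqrt (m : ℝ) := Real.sqrt_nonneg _
    have h7 : 1 / Real.sqrt ((m + 1 : ℕ) : ℝ) ≤ 2 * Real.sqrt ((m + 1 : ℕ) : ℝ) - 2 * Real.sqrt m := by
      rw [div_le_iff₀ h2]
      nlinarith
    linarith

private theorem bprod_inv_sq (S : Finset ℕ) {M : ℝ} (hM : 2 ≤ M) (hS : ∀ n ∈ S, M ≤ (n : ℝ)) :
    ∑ n ∈ S, 1 / (n : ℝ) ^ 2 ≤ 2 / M := by
  have hc : 0 < ⌈M⌉₊ := Nat.ceil_pos.2 (by linarith)
  obtain ⟨k, hk⟩ : ∃ k, ⌈M⌉₊ = k + 1 := ⟨⌈M⌉₊ - 1, by omega⟩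
  have h1 : S ⊆ Finset.Ioo k (S.sup id + 1) := by
    intro n hn
    rw [Finset.mem_Ioo]
    refine ⟨?_, ?_⟩
    · have h2 : ⌈M⌉₊ ≤ n := Nat.ceil_le.2 (hS n hn)
      omega
    · have h2 : id n ≤ S.sup id := Finset.le_sup hn
      exact Nat.lt_succ_of_le h2
  have h2 : ∑ n ∈ S, 1 / (n : ℝ) ^ 2 ≤ ∑ n ∈ Finset.Ioo k (S.sup id + 1), ((n : ℝ) ^ 2)⁻¹ := by
    simp only [one_div]
    exact Finset.sum_le_sum_of_subset_of_nonneg h1 fun n _ _ => by positivity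
  have h3 := sum_Ioo_inv_sq_le (α := ℝ) k (S.sup id + 1)
  have h4 : M ≤ (k : ℝ) + 1 := by
    have h5 := Nat.le_ceil M
    rw [hk] at h5
    exact_mod_cast h5
  have h5 : 2 / ((k : ℝ) + 1) ≤ 2 / M := div_le_div_of_nonneg_left (by norm_num) (by linarith) h4
  exact (h2.trans h3).trans h5

private theorem bprod_exp (S : Finset ℕ) (f g : ℕ → ℝ) (h0 : ∀ p ∈ S, 0 ≤ f p) (h : ∀ p ∈ S, f p ≤ Real.exp (g p)) :
    ∏ p ∈ S, f p ≤ Real.exp (∑ p ∈ S, g p) := by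
  rw [Real.exp_sum]
  exact Finset.prod_le_prod h0 h

theorem prod_bound {κ : ℝ} (hκ : 0 ≤ κ) (S : Finset ℕ) (hS : ∀ p ∈ S, p.Prime) :
    ∏ p ∈ S, ∑' e : ℕ, dk κ e ^ 2 / (p : ℝ) ^ e ≤
      Real.exp (κ ^ 2 * ∑ p ∈ S, 1 / (p : ℝ) + 30 * (max 1 κ) ^ 2) := by
  obtain ⟨Y, hY⟩ : ∃ Y, Y = max 1 κ := ⟨_, rfl⟩
  have hY1 : 1 ≤ Y := by rw [hY]; exact le_max_left 1 κ
  have hsmall : ∀ p ∈ S, ∑' e : ℕ, dk κ e ^ 2 / (p : ℝ) ^ e ≤ Real.exp (8 * Y / Real.sqrt p) := by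
    intro p hp
    rw [hY]
    exact loc_small hκ (hS p hp)
  have hlarge : ∀ p ∈ S, 2 * Y ^ 2 ≤ (p : ℝ) →
      ∑' e : ℕ, dk κ e ^ 2 / (p : ℝ) ^ e ≤ Real.exp (κ ^ 2 / p + 2 * Y ^ 4 / (p : ℝ) ^ 2) := by
    intro p hp h
    rw [hY] at h ⊢
    exact loc_large hκ (hS p hp) h
  have hnn : ∀ p : ℕ, 0 ≤ ∑' e : ℕ, dk κ e ^ 2 / (p : ℝ) ^ e := fun p => tsum_nonneg fun e => by positivity
  rw [← hY]
  obtain ⟨f, hf⟩ : ∃ f : ℕ → ℝ, f = fun p : ℕ => ∑' e : ℕ, dk κ e ^ 2 / (p : ℝ) ^ e := ⟨_, rfl⟩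
  have hs1 : ∀ p ∈ S.filter (fun p : ℕ => (p : ℝ) < 2 * Y ^ 2), f p ≤ Real.exp (8 * Y / Real.sqrt p) := by
    intro p hp
    rw [hf]
    exact hsmall p (Finset.mem_filter.1 hp).1
  have hl1 : ∀ p ∈ S.filter (fun p : ℕ => ¬ (p : ℝ) < 2 * Y ^ 2),
      f p ≤ Real.exp (κ ^ 2 / p + 2 * Y ^ 4 / (p : ℝ) ^ 2) := by
    intro p hp
    rw [hf]
    exact hlarge p (Finset.mem_filter.1 hp).1 (not_lt.1 (Finset.mem_filter.1 hp).2)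
  have hnf : ∀ p, 0 ≤ f p := by
    intro p
    rw [hf]
    exact hnn p
  have hprod : ∏ p ∈ S, f p = (∏ p ∈ S.filter (fun p : ℕ => (p : ℝ) < 2 * Y ^ 2), f p) *
      ∏ p ∈ S.filter (fun p : ℕ => ¬ (p : ℝ) < 2 * Y ^ 2), f p :=
    (Finset.prod_filter_mul_prod_filter_not S _ f).symm
  have e1 := bprod_exp _ f (fun p : ℕ => 8 * Y / Real.sqrt p) (fun p _ => hnf p) hs1
  have e2 := bprod_exp _ f (fun p : ℕ => κ ^ 2 / p + 2 * Y ^ 4 / (p : ℝ) ^ 2) (fun p _ => hnf p) hl1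
  have hA : ∑ p ∈ S.filter (fun p : ℕ => (p : ℝ) < 2 * Y ^ 2), 8 * Y / Real.sqrt (p : ℝ) ≤ 23 * Y ^ 2 := by
    have h1 : ∑ p ∈ S.filter (fun p : ℕ => (p : ℝ) < 2 * Y ^ 2), 1 / Real.sqrt (p : ℝ) ≤
        ∑ n ∈ Finset.range (⌊2 * Y ^ 2⌋₊ + 1), 1 / Real.sqrt (n : ℝ) := by
      refine Finset.sum_le_sum_of_subset_of_nonneg (fun p hp => ?_) fun n _ _ => by positivity
      have h2 := (Finset.mem_filter.1 hp).2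
      rw [Finset.mem_range]
      exact Nat.lt_succ_of_le (Nat.le_floor h2.le)
    have h2 := bprod_sqrt ⌊2 * Y ^ 2⌋₊
    have h3 : Real.sqrt (⌊2 * Y ^ 2⌋₊ : ℝ) ≤ Real.sqrt 2 * Y := by
      have h4 : Real.sqrt 2 * Y = Real.sqrt (2 * Y ^ 2) := by
        rw [Real.sqrt_mul (by norm_num), Real.sqrt_sq (by linarith)]
      rw [h4]
      exact Real.sqrt_le_sqrt (Nat.floor_le (by positivity))
    have h4 : Real.sqrt 2 ≤ 1.4143 := by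
      rw [Real.sqrt_le_left (by norm_num)]
      norm_num
    have h5 : ∑ p ∈ S.filter (fun p : ℕ => (p : ℝ) < 2 * Y ^ 2), 8 * Y / Real.sqrt (p : ℝ) =
        8 * Y * ∑ p ∈ S.filter (fun p : ℕ => (p : ℝ) < 2 * Y ^ 2), 1 / Real.sqrt (p : ℝ) := by
      rw [Finset.mul_sum]
      refine Finset.sum_congr rfl fun p _ => ?_
      ring
    rw [h5]
    have h6 : ∑ p ∈ S.filter (fun p : ℕ => (p : ℝ) < 2 * Y ^ 2), 1 / Real.sqrt (p : ℝ) ≤ 2 * (1.4143 * Y) := by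
      refine (h1.trans h2).trans ?_
      have h7 : Real.sqrt 2 * Y ≤ 1.4143 * Y := mul_le_mul_of_nonneg_right h4 (by linarith)
      linarith
    have h7 := mul_le_mul_of_nonneg_left h6 (show (0 : ℝ) ≤ 8 * Y by linarith)
    nlinarith
  have hB : ∑ p ∈ S.filter (fun p : ℕ => ¬ (p : ℝ) < 2 * Y ^ 2), (κ ^ 2 / (p : ℝ) + 2 * Y ^ 4 / (p : ℝ) ^ 2) ≤
      κ ^ 2 * ∑ p ∈ S, 1 / (p : ℝ) + 2 * Y ^ 2 := by
    rw [Finset.sum_add_distrib]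
    have h1 : ∑ p ∈ S.filter (fun p : ℕ => ¬ (p : ℝ) < 2 * Y ^ 2), κ ^ 2 / (p : ℝ) ≤
        κ ^ 2 * ∑ p ∈ S, 1 / (p : ℝ) := by
      rw [Finset.mul_sum]
      have h2 : ∑ p ∈ S.filter (fun p : ℕ => ¬ (p : ℝ) < 2 * Y ^ 2), κ ^ 2 / (p : ℝ) =
          ∑ p ∈ S.filter (fun p : ℕ => ¬ (p : ℝ) < 2 * Y ^ 2), κ ^ 2 * (1 / (p : ℝ)) :=
        Finset.sum_congr rfl fun p _ => by ring
      rw [h2]
      exact Finset.sum_le_sum_of_subset_of_nonneg (Finset.filter_subset _ _) fun p _ _ => by positivity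
    have h2 : ∑ p ∈ S.filter (fun p : ℕ => ¬ (p : ℝ) < 2 * Y ^ 2), 2 * Y ^ 4 / (p : ℝ) ^ 2 ≤ 2 * Y ^ 2 := by
      have h3 : ∑ p ∈ S.filter (fun p : ℕ => ¬ (p : ℝ) < 2 * Y ^ 2), 2 * Y ^ 4 / (p : ℝ) ^ 2 =
          2 * Y ^ 4 * ∑ p ∈ S.filter (fun p : ℕ => ¬ (p : ℝ) < 2 * Y ^ 2), 1 / (p : ℝ) ^ 2 := by
        rw [Finset.mul_sum]
        exact Finset.sum_congr rfl fun p _ => by ring
      have h4 := bprod_inv_sq (S.filter (fun p : ℕ => ¬ (p : ℝ) < 2 * Y ^ 2)) (M := 2 * Y ^ 2) (by nlinarith)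
        (fun n hn => not_lt.1 (Finset.mem_filter.1 hn).2)
      have h5 := mul_le_mul_of_nonneg_left h4 (show (0 : ℝ) ≤ 2 * Y ^ 4 by positivity)
      have h6 : 2 * Y ^ 4 * (2 / (2 * Y ^ 2)) = 2 * Y ^ 2 := by
        field_simp
      rw [h3]
      linarith
    linarith
  have hfin : ∏ p ∈ S, f p ≤ Real.exp (κ ^ 2 * ∑ p ∈ S, 1 / (p : ℝ) + 30 * Y ^ 2) := by
    rw [hprod]
    refine (mul_le_mul e1 e2 (Finset.prod_nonneg fun p _ => hnf p) (Real.exp_pos _).le).trans ?_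
    rw [← Real.exp_add]
    refine Real.exp_le_exp.2 ?_
    have h1 : 0 ≤ Y ^ 2 := by positivity
    linarith
  rw [hf] at hfin
  exact hfin

end Pool.Agent.Lib.MP_54baa8_nt
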