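import Mathlib
import Pool.Agent.Lib.MP_54baa8_nt.BMV
import Pool.Agent.Lib.MP_54baa8_nt.BCmp
import Pool.Agent.Lib.MP_54baa8_nt.BEul
import Pool.Agent.Lib.MP_54baa8_nt.BProd

/-!
# JOB BMain: mean square of a polynomial dominated by an exponential

`S1`, `S2` are disjoint finite sets of primes, `κ p = k` on `S1`, `y` on `S2`, `0` elsewhere. By `dom_compare`
`0 ≤ F n ≤ DD κ n exp (-(1/2) log n)`, so `(c F n) ^ 2 ≤ c ^ 2 DD κ n ^ 2 / n`, and `0 ≤ G n ≤ c F n`; by `mean_value`,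
`∫ ≤ 3 T ∑ (G n) ^ 2 ≤ 3 T c ^ 2 ∑_{n ≤ X} DD κ n ^ 2 / n`. `euler_bound` with `N` larger than all elements of `S1 ∪ S2`
(`loc_summable`), the product over `N.primesBelow` splits into the products over `S1`, `S2` and the rest, where the factor is `1`
(`loc_zero`); `prod_bound` for both.
-/

namespace Pool.Agent.Lib.MP_54baa8_nt

private theorem bmain_euler {k y : ℝ} (hk : 0 ≤ k) (hy : 0 ≤ y)
    {S1 S2 : Finset ℕ} (hS1 : ∀ p ∈ S1, p.Prime) (hS2 : ∀ p ∈ S2, p.Prime)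
    (hd : Disjoint S1 S2) (m : ℕ) :
    ∑ n ∈ Finset.Icc 1 m, DD (fun p => if p ∈ S1 then k else if p ∈ S2 then y else 0) n ^ 2 / (n : ℝ) ≤
      Real.exp (k ^ 2 * ∑ p ∈ S1, 1 / (p : ℝ) + 30 * (max 1 k) ^ 2 +
        (y ^ 2 * ∑ p ∈ S2, 1 / (p : ℝ) + 30 * (max 1 y) ^ 2)) := by
  classical
  set κ : ℕ → ℝ := fun p => if p ∈ S1 then k else if p ∈ S2 then y else 0 with hκdef
  have hκ : ∀ p, 0 ≤ κ p := by
    intro p
    simp only [hκdef]
    split_ifs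
    · exact hk
    · exact hy
    · exact le_refl _
  set N : ℕ := (S1 ∪ S2).sup id + 1 with hNdef
  have hlt : ∀ p ∈ S1 ∪ S2, p < N := by
    intro p hp
    have : id p ≤ (S1 ∪ S2).sup id := Finset.le_sup hp
    simp only [id] at this
    omega
  have hN : ∀ p, N ≤ p → κ p = 0 := by
    intro p hp
    have h1 : p ∉ S1 := fun h => absurd (hlt p (Finset.mem_union_left _ h)) (by omega)
    have h2 : p ∉ S2 := fun h => absurd (hlt p (Finset.mem_union_right _ h)) (by omega)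
    simp [hκdef, h1, h2]
  have hs : ∀ p : ℕ, p.Prime → Summable (fun e : ℕ => dk (κ p) e ^ 2 / (p : ℝ) ^ e) :=
    fun p hp => loc_summable (hκ p) hp
  have h0 := euler_bound hκ N hN hs m
  have hsub : S1 ∪ S2 ⊆ N.primesBelow := by
    intro p hp
    rw [Nat.mem_primesBelow]
    refine ⟨hlt p hp, ?_⟩
    rcases Finset.mem_union.1 hp with h | h
    · exact hS1 p h
    · exact hS2 p h
  have h1 : ∏ p ∈ N.primesBelow, ∑' e : ℕ, dk (κ p) e ^ 2 / (p : ℝ) ^ e =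
      (∏ p ∈ S1, ∑' e : ℕ, dk k e ^ 2 / (p : ℝ) ^ e) *
        ∏ p ∈ S2, ∑' e : ℕ, dk y e ^ 2 / (p : ℝ) ^ e := by
    rw [← Finset.prod_subset hsub, Finset.prod_union hd]
    · congr 1
      · refine Finset.prod_congr rfl fun p hp => ?_
        have : κ p = k := by simp [hκdef, hp]
        rw [this]
      · refine Finset.prod_congr rfl fun p hp => ?_
        have hp1 : p ∉ S1 := fun h => (Finset.disjoint_left.1 hd) h hp
        have : κ p = y := by simp [hκdef, hp, hp1]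
        rw [this]
    · intro p _ hp
      have h1 : p ∉ S1 := fun h => hp (Finset.mem_union_left _ h)
      have h2 : p ∉ S2 := fun h => hp (Finset.mem_union_right _ h)
      have : κ p = 0 := by simp [hκdef, h1, h2]
      rw [this]
      exact loc_zero p
  have hb1 := prod_bound hk S1 hS1
  have hb2 := prod_bound hy S2 hS2
  have hpos2 : (0 : ℝ) ≤ ∏ p ∈ S2, ∑' e : ℕ, dk y e ^ 2 / (p : ℝ) ^ e :=
    Finset.prod_nonneg fun p _ => tsum_nonneg fun e => by positivity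
  rw [h1] at h0
  refine h0.trans ?_
  rw [Real.exp_add]
  exact mul_le_mul hb1 hb2 hpos2 (Real.exp_nonneg _)

theorem dom_mean_value {F G Q : ArithmeticFunction ℝ} {k y c X T : ℝ} (hk : 0 ≤ k) (hy : 0 ≤ y)
    (hc : 0 ≤ c) {S1 S2 : Finset ℕ} (hS1 : ∀ p ∈ S1, p.Prime) (hS2 : ∀ p ∈ S2, p.Prime)
    (hd : Disjoint S1 S2) (hF : Dom F Q) (hF1 : F 1 ≤ 1)
    (hQ : ∀ n : ℕ, n ≠ 0 → Q n ≤ (if n.minFac ∈ S1 then k else if n.minFac ∈ S2 then y else 0) *
      ArithmeticFunction.vonMangoldt n * Real.exp (-(1 / 2) * Real.log n))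
    (hG0 : Nn G) (hG : ∀ n, G n ≤ c * F n) (hGX : Len G X) (hX : 1 ≤ X) (hT : X ^ 2 ≤ T) :
    ∫ t in T..(2 * T), ‖dv G t‖ ^ 2 ≤ 3 * T * c ^ 2 *
      Real.exp (k ^ 2 * ∑ p ∈ S1, 1 / (p : ℝ) + 30 * (max 1 k) ^ 2 +
        (y ^ 2 * ∑ p ∈ S2, 1 / (p : ℝ) + 30 * (max 1 y) ^ 2)) := by
  classical
  have hT0 : 0 ≤ T := le_trans (sq_nonneg X) hT
  have hκ : ∀ p : ℕ, (0 : ℝ) ≤ (fun p : ℕ => if p ∈ S1 then k else if p ∈ S2 then y else 0) p := by
    intro p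
    simp only []
    split_ifs
    · exact hk
    · exact hy
    · exact le_refl _
  have hcmp : ∀ n : ℕ, n ≠ 0 → F n ≤
      DD (fun p : ℕ => if p ∈ S1 then k else if p ∈ S2 then y else 0) n *
        Real.exp (-(1 / 2) * Real.log n) := fun n hn =>
    dom_compare (κ := fun p : ℕ => if p ∈ S1 then k else if p ∈ S2 then y else 0) hF hκ hF1 hQ hn
  have hterm : ∀ n ∈ Finset.Icc 1 ⌊X⌋₊, (G n) ^ 2 ≤ c ^ 2 *
      (DD (fun p : ℕ => if p ∈ S1 then k else if p ∈ S2 then y else 0) n ^ 2 / (n : ℝ)) := by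
    intro n hn
    have hn1 : 1 ≤ n := (Finset.mem_Icc.1 hn).1
    have hn0 : n ≠ 0 := by omega
    have hnpos : (0 : ℝ) < n := by exact_mod_cast hn1
    have h1 : G n ≤ c * (DD (fun p : ℕ => if p ∈ S1 then k else if p ∈ S2 then y else 0) n *
        Real.exp (-(1 / 2) * Real.log n)) :=
      (hG n).trans (mul_le_mul_of_nonneg_left (hcmp n hn0) hc)
    have h2 : (G n) ^ 2 ≤ (c * (DD (fun p : ℕ => if p ∈ S1 then k else if p ∈ S2 then y else 0) n *
        Real.exp (-(1 / 2) * Real.log n))) ^ 2 := pow_le_pow_left₀ (hG0 n) h1 2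
    have h3 : Real.exp (-(1 / 2) * Real.log n) ^ 2 = 1 / (n : ℝ) := by
      rw [← Real.exp_nat_mul]
      have h6 : ((2 : ℕ) : ℝ) * (-(1 / 2) * Real.log n) = -Real.log n := by
        push_cast
        ring
      rw [h6, Real.exp_neg, Real.exp_log hnpos, one_div]
    have h4 : (c * (DD (fun p : ℕ => if p ∈ S1 then k else if p ∈ S2 then y else 0) n *
        Real.exp (-(1 / 2) * Real.log n))) ^ 2 = c ^ 2 *
        (DD (fun p : ℕ => if p ∈ S1 then k else if p ∈ S2 then y else 0) n ^ 2 / (n : ℝ)) := by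
      rw [mul_pow, mul_pow, h3]
      ring
    rw [h4] at h2
    exact h2
  have hmv := mean_value hGX hX hT
  have hsum : ∑ n ∈ Finset.Icc 1 ⌊X⌋₊, (G n) ^ 2 ≤ c ^ 2 *
      Real.exp (k ^ 2 * ∑ p ∈ S1, 1 / (p : ℝ) + 30 * (max 1 k) ^ 2 +
        (y ^ 2 * ∑ p ∈ S2, 1 / (p : ℝ) + 30 * (max 1 y) ^ 2)) := by
    refine (Finset.sum_le_sum hterm).trans ?_
    rw [← Finset.mul_sum]
    exact mul_le_mul_of_nonneg_left (bmain_euler hk hy hS1 hS2 hd _) (sq_nonneg c)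
  refine hmv.trans ?_
  have h5 : 3 * T * ∑ n ∈ Finset.Icc 1 ⌊X⌋₊, (G n) ^ 2 ≤ 3 * T * (c ^ 2 *
      Real.exp (k ^ 2 * ∑ p ∈ S1, 1 / (p : ℝ) + 30 * (max 1 k) ^ 2 +
        (y ^ 2 * ∑ p ∈ S2, 1 / (p : ℝ) + 30 * (max 1 y) ^ 2))) :=
    mul_le_mul_of_nonneg_left hsum (by positivity)
  rw [← mul_assoc] at h5
  exact h5

end Pool.Agent.Lib.MP_54baa8_nt
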