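import Mathlib
import Pool.Agent.Lib.MP_54baa8_nt.Defs

/-!
# JOB BTE: the truncated exponential

`‖exp z - eN N z‖ ≤ ∑_{r > N} ‖z‖ ^ r / r!`; with `‖z‖ ≤ N / 10`, `r! ≥ (r / e) ^ r` (`Nat.factorial_lt`... or
`Real.exp`-series: `r ^ r / r! ≤ exp r`), so for `r > N`: `‖z‖ ^ r / r! ≤ (e N / (10 r)) ^ r ≤ (e / 10) ^ r`, and the tail is at
most `(e/10) ^ (N+1) / (1 - e/10)`. (Alternatively `Complex.norm_exp_sub_sum_le_norm_mul_exp`/`Complex.exp_bound'`-type lemmas of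
Mathlib: `‖exp z - ∑_{m < n} z ^ m / m!‖ ≤ ‖z‖ ^ n / n! * exp ‖z‖`.) On the other side `‖exp z‖ ≥ exp (-N/10)`. Hence
`‖eN N z‖ ≥ ‖exp z‖ (1 - δ)` with `δ = exp (N/10) (e/10)^(N+1) / (1 - e/10) ≤ (exp (1.1) / 10) ^ N * 0.38 ≤ 0.38 * (0.31) ^ N`,
and `1 / (1 - δ) ≤ 1 + 2 δ ≤ exp (2 δ) ≤ exp ((1/2) ^ N)`.
-/

namespace Pool.Agent.Lib.MP_54baa8_nt

private theorem bte_tail (n : ℕ) {r : ℝ} (hr : 0 ≤ r) :
    Real.exp r - ∑ m ∈ Finset.range n, r ^ m / (m.factorial : ℝ)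
      ≤ (1 / 10) ^ n * Real.exp (10 * r) := by
  have hs : Summable (fun m : ℕ => r ^ m / (m.factorial : ℝ)) := Real.summable_pow_div_factorial r
  have hs' : Summable (fun m : ℕ => (10 * r) ^ m / (m.factorial : ℝ)) :=
    Real.summable_pow_div_factorial (10 * r)
  have he : Real.exp r = ∑' m : ℕ, r ^ m / (m.factorial : ℝ) := by
    rw [Real.exp_eq_exp_ℝ, NormedSpace.exp_eq_tsum_div]
  have he' : Real.exp (10 * r) = ∑' m : ℕ, (10 * r) ^ m / (m.factorial : ℝ) := by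
    rw [Real.exp_eq_exp_ℝ, NormedSpace.exp_eq_tsum_div]
  have h1 := hs.sum_add_tsum_nat_add n
  have h2 := hs'.sum_add_tsum_nat_add n
  have h3 : Real.exp r - ∑ m ∈ Finset.range n, r ^ m / (m.factorial : ℝ)
      = ∑' m : ℕ, r ^ (m + n) / ((m + n).factorial : ℝ) := by
    rw [he, ← h1]; ring
  have h4 : ∑' m : ℕ, (10 * r) ^ (m + n) / ((m + n).factorial : ℝ) ≤ Real.exp (10 * r) := by
    rw [he', ← h2]
    have : 0 ≤ ∑ m ∈ Finset.range n, (10 * r) ^ m / (m.factorial : ℝ) :=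
      Finset.sum_nonneg (fun m _ => by positivity)
    linarith
  have hs1 : Summable (fun m : ℕ => r ^ (m + n) / ((m + n).factorial : ℝ)) :=
    (summable_nat_add_iff n).mpr hs
  have hs2 : Summable (fun m : ℕ => (10 * r) ^ (m + n) / ((m + n).factorial : ℝ)) :=
    (summable_nat_add_iff n).mpr hs'
  rw [h3]
  refine le_trans ?_ (mul_le_mul_of_nonneg_left h4 (by positivity))
  rw [← tsum_mul_left]
  apply hs1.tsum_le_tsum _ (hs2.mul_left _)
  intro m
  have h5 : (1 : ℝ) ≤ 10 ^ m := one_le_pow₀ (by norm_num)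
  have h6 : (1 / 10 : ℝ) ^ n * ((10 * r) ^ (m + n) / ((m + n).factorial : ℝ))
      = 10 ^ m * (r ^ (m + n) / ((m + n).factorial : ℝ)) := by
    rw [mul_pow, pow_add (10 : ℝ) m n]
    have : (1 / 10 : ℝ) ^ n * 10 ^ n = 1 := by
      rw [← mul_pow]; norm_num
    calc (1 / 10 : ℝ) ^ n * (10 ^ m * 10 ^ n * r ^ (m + n) / ((m + n).factorial : ℝ))
        = ((1 / 10 : ℝ) ^ n * 10 ^ n) * (10 ^ m * (r ^ (m + n) / ((m + n).factorial : ℝ))) := by
          ring
      _ = _ := by rw [this, one_mul]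
  rw [h6]
  have h7 : 0 ≤ r ^ (m + n) / ((m + n).factorial : ℝ) := by positivity
  nlinarith

theorem trunc_exp {N : ℕ} (hN : 1 ≤ N) {z : ℂ} (hz : ‖z‖ ≤ (N : ℝ) / 10) :
    ‖Complex.exp z‖ ≤ Real.exp ((1 / 2) ^ N) * ‖eN N z‖ := by
  have hr : 0 ≤ ‖z‖ := norm_nonneg z
  have h1 : ‖Complex.exp z - eN N z‖ ≤ (1 / 10) ^ (N + 1) * Real.exp (10 * ‖z‖) := by
    refine le_trans ?_ (bte_tail (N + 1) hr)
    exact Complex.norm_exp_sub_sum_le_exp_norm_sub_sum z (N + 1)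
  have h2 : Real.exp (-‖z‖) ≤ ‖Complex.exp z‖ := by
    rw [Complex.norm_exp]
    apply Real.exp_le_exp.mpr
    have := Complex.abs_re_le_norm z
    exact (abs_le.mp this).1
  set x : ℝ := (1 / 2) ^ N with hx
  have hx0 : 0 < x := by positivity
  have hx1 : x ≤ 1 := pow_le_one₀ (by norm_num) (by norm_num)
  -- the error is at most (x / 10) * exp (-‖z‖)
  have h3 : (1 / 10 : ℝ) ^ (N + 1) * Real.exp (10 * ‖z‖) ≤ x / 10 * Real.exp (-‖z‖) := by
    have h4 : Real.exp (10 * ‖z‖) = Real.exp (11 * ‖z‖) * Real.exp (-‖z‖) := by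
      rw [← Real.exp_add]; congr 1; ring
    have h5 : Real.exp (11 * ‖z‖) ≤ 5 ^ N := by
      have h6 : Real.exp (11 * ‖z‖) ≤ Real.exp ((N : ℝ) * (11 / 10)) := by
        apply Real.exp_le_exp.mpr
        linarith
      have h7 : Real.exp ((N : ℝ) * (11 / 10)) = Real.exp (11 / 10) ^ N := by
        rw [← Real.exp_nat_mul]
      have h8 : Real.exp (11 / 10) ≤ 5 := by
        have h9 : Real.exp (11 / 10) = Real.exp 1 * Real.exp (1 / 10) := by
          rw [← Real.exp_add]; norm_num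
        have h10 := Real.exp_one_lt_d9
        have h11 : Real.exp (1 / 10) ≤ 10 / 9 := by
          have := Real.exp_bound_div_one_sub_of_interval (x := 1 / 10) (by norm_num) (by norm_num)
          norm_num at this ⊢
          exact this
        rw [h9]
        nlinarith [Real.exp_pos 1, Real.exp_pos (1 / 10)]
      rw [h7] at h6
      exact h6.trans (pow_le_pow_left₀ (Real.exp_pos _).le h8 N)
    have h12 : (1 / 10 : ℝ) ^ (N + 1) * 5 ^ N = x / 10 := by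
      rw [pow_succ, hx, mul_comm ((1 / 10 : ℝ) ^ N) (1 / 10), mul_assoc, ← mul_pow]
      norm_num
      ring
    rw [h4, ← mul_assoc, ← h12]
    apply mul_le_mul_of_nonneg_right _ (Real.exp_pos _).le
    exact mul_le_mul_of_nonneg_left h5 (by positivity)
  have h13 : ‖Complex.exp z‖ * (1 - x / 10) ≤ ‖eN N z‖ := by
    have h14 : ‖Complex.exp z‖ - ‖eN N z‖ ≤ ‖Complex.exp z - eN N z‖ := norm_sub_norm_le _ _
    have h15 : x / 10 * Real.exp (-‖z‖) ≤ x / 10 * ‖Complex.exp z‖ :=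
      mul_le_mul_of_nonneg_left h2 (by positivity)
    linarith
  have h16 : 1 ≤ Real.exp x * (1 - x / 10) := by
    have h17 := Real.add_one_le_exp x
    nlinarith
  have h18 : 0 ≤ ‖Complex.exp z‖ := norm_nonneg _
  calc ‖Complex.exp z‖ = ‖Complex.exp z‖ * 1 := (mul_one _).symm
    _ ≤ ‖Complex.exp z‖ * (Real.exp x * (1 - x / 10)) := mul_le_mul_of_nonneg_left h16 h18
    _ = Real.exp x * (‖Complex.exp z‖ * (1 - x / 10)) := by ring
    _ ≤ Real.exp x * ‖eN N z‖ := mul_le_mul_of_nonneg_left h13 (Real.exp_pos _).le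

end Pool.Agent.Lib.MP_54baa8_nt
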