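import Mathlib
import Pool.Agent.Lib.MP_2c5684_nt.Mertens

/-!
# JOB Cm: sums of reciprocals of primes

`prime_recip_block`: `sum_inv_range_le 1 20` with `ε = 1` (`log 20 + 1 ≤ 6`).
`prime_recip`: let `b = log x ≥ 1`. At most the prime `2` has `log p ≤ 1`. For the primes with `1 < log p ≤ b` use
`sum_log_div_le` (`∑_{1 < log p ≤ u} log p / p ≤ u - 1 + 8` for `1 ≤ u`) and partial summation:
`1 / log p = 1 / b + ∫_{log p}^{b} du / u ^ 2`, so `∑ 1/p = (1/b) ∑ log p / p + ∫_1^b (∑_{log p ≤ u} log p / p) du / u ^ 2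
≤ (b + 7) / b + ∫_1^b (u + 7) / u ^ 2 du = 1 + 7 / b + log b + 7 (1 - 1/b) = 8 + log b`. Adding `1/2` for `p = 2` gives `≤ log b + 9`.
(The integral of the finite sum can be exchanged termwise: `∫_1^b 1_{log p ≤ u} du / u ^ 2`.)
-/

namespace Pool.Agent.Lib.MP_54baa8_nt

private theorem cm_aux (P : Finset ℕ) : (∀ p ∈ P, p.Prime ∧ 1 < Real.log p) →
    ∀ M : ℝ, 1 ≤ M → (∀ p ∈ P, Real.log p ≤ M) →
    ∑ p ∈ P, 1 / (p : ℝ) ≤ (∑ p ∈ P, Real.log p / p) / M + Real.log M + 7 - 7 / M := by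
  induction P using Finset.induction_on_max with
  | empty =>
    intro _ M hM _
    have h1 : 0 ≤ Real.log M := Real.log_nonneg hM
    have h2 : 7 / M ≤ 7 := div_le_self (by norm_num) hM
    simp only [Finset.sum_empty, zero_div]
    linarith
  | insert a P hmax ih =>
    intro hP M hM hPM
    have hna : a ∉ P := fun h => lt_irrefl _ (hmax a h)
    obtain ⟨hap, ha1⟩ := hP a (Finset.mem_insert_self a P)
    have haM := hPM a (Finset.mem_insert_self a P)
    set L : ℝ := Real.log a with hL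
    have hLpos : 0 < L := by linarith
    have hMpos : 0 < M := by linarith
    have hPle : ∀ p ∈ P, Real.log p ≤ L := by
      intro p hp
      have hpp := (hP p (Finset.mem_insert_of_mem hp)).1
      apply Real.log_le_log (by exact_mod_cast hpp.pos)
      exact_mod_cast (hmax p hp).le
    have h1 := ih (fun p hp => hP p (Finset.mem_insert_of_mem hp)) L ha1.le hPle
    have h2 : ∑ p ∈ insert a P, Real.log p / (p : ℝ) ≤ L + 7 := by
      have h3 := Pool.Agent.Lib.MP_2c5684_nt.sum_log_div_le (insert a P) 1 L zero_le_one ha1.le (by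
        intro p hp
        refine ⟨(hP p hp).1, (hP p hp).2, ?_⟩
        rcases Finset.mem_insert.mp hp with rfl | hp'
        · exact le_rfl
        · exact hPle p hp')
      linarith
    have h4 : ∑ p ∈ insert a P, 1 / (p : ℝ) = 1 / (a : ℝ) + ∑ p ∈ P, 1 / (p : ℝ) :=
      Finset.sum_insert hna
    have h5 : ∑ p ∈ insert a P, Real.log p / (p : ℝ) = L / (a : ℝ) + ∑ p ∈ P, Real.log p / p :=
      Finset.sum_insert hna
    have hapos : (0 : ℝ) < a := by exact_mod_cast hap.pos
    have h6 : 1 / (a : ℝ) = (L / (a : ℝ)) / L := by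
      field_simp
    have h7 : ∑ p ∈ insert a P, 1 / (p : ℝ)
        ≤ (∑ p ∈ insert a P, Real.log p / (p : ℝ)) / L + Real.log L + 7 - 7 / L := by
      rw [h4, h5, h6, add_div]
      linarith
    set W : ℝ := ∑ p ∈ insert a P, Real.log p / (p : ℝ) with hW
    have h8 : 0 ≤ 1 / L - 1 / M := by
      rw [sub_nonneg]
      exact one_div_le_one_div_of_le hLpos haM
    have h9 : W / L = W / M + W * (1 / L - 1 / M) := by ring
    have h10 : W * (1 / L - 1 / M) ≤ (L + 7) * (1 / L - 1 / M) :=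
      mul_le_mul_of_nonneg_right h2 h8
    have h11 : (L + 7) * (1 / L - 1 / M) = 1 - L / M + 7 / L - 7 / M := by
      field_simp
      ring
    have h12 : 1 - L / M ≤ Real.log M - Real.log L := by
      have h13 := Real.one_sub_inv_le_log_of_pos (div_pos hMpos hLpos)
      rw [inv_div, Real.log_div hMpos.ne' hLpos.ne'] at h13
      exact h13
    linarith

theorem prime_recip {x : ℝ} (hx : Real.exp 1 ≤ x) (S : Finset ℕ)
    (hS : ∀ p ∈ S, p.Prime ∧ (p : ℝ) ≤ x) :
    ∑ p ∈ S, 1 / (p : ℝ) ≤ Real.log (Real.log x) + 9 := by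
  classical
  have hxpos : 0 < x := lt_of_lt_of_le (Real.exp_pos 1) hx
  have hb1 : 1 ≤ Real.log x := by
    rw [Real.le_log_iff_exp_le hxpos]; exact hx
  have hsplit := Finset.sum_filter_add_sum_filter_not S (fun p : ℕ => 1 < Real.log (p : ℝ))
    (fun p => 1 / (p : ℝ))
  have h1 := cm_aux (S.filter (fun p : ℕ => 1 < Real.log (p : ℝ)))
    (by
      intro p hp
      rw [Finset.mem_filter] at hp
      exact ⟨(hS p hp.1).1, hp.2⟩) (Real.log x) hb1
    (by
      intro p hp
      rw [Finset.mem_filter] at hp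
      obtain ⟨hpp, hpx⟩ := hS p hp.1
      exact Real.log_le_log (by exact_mod_cast hpp.pos) hpx)
  have h2 := Pool.Agent.Lib.MP_2c5684_nt.sum_log_div_le
    (S.filter (fun p : ℕ => 1 < Real.log (p : ℝ))) 1 (Real.log x) zero_le_one hb1
    (by
      intro p hp
      rw [Finset.mem_filter] at hp
      obtain ⟨hpp, hpx⟩ := hS p hp.1
      exact ⟨hpp, hp.2, Real.log_le_log (by exact_mod_cast hpp.pos) hpx⟩)
  have hbpos : 0 < Real.log x := by linarith
  have h3 : (∑ p ∈ S.filter (fun p : ℕ => 1 < Real.log (p : ℝ)), Real.log p / (p : ℝ)) / Real.log x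
      ≤ 1 + 7 / Real.log x := by
    rw [div_le_iff₀ hbpos]
    have : (1 + 7 / Real.log x) * Real.log x = Real.log x + 7 := by
      field_simp
    rw [this]
    linarith
  have h4 : ∑ p ∈ S.filter (fun p : ℕ => ¬ 1 < Real.log (p : ℝ)), 1 / (p : ℝ) ≤ 1 / 2 := by
    have h5 : S.filter (fun p : ℕ => ¬ 1 < Real.log (p : ℝ)) ⊆ {2} := by
      intro p hp
      rw [Finset.mem_filter] at hp
      obtain ⟨hpp, hpx⟩ := hS p hp.1
      rw [Finset.mem_singleton]
      by_contra hne
      have h6 : 3 ≤ p := by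
        have := hpp.two_le
        omega
      apply hp.2
      have h7 : Real.exp 1 < (p : ℝ) := by
        have h8 := Real.exp_one_lt_d9
        have h9 : (3 : ℝ) ≤ p := by exact_mod_cast h6
        linarith
      rw [Real.lt_log_iff_exp_lt (by exact_mod_cast hpp.pos)]
      exact h7
    calc ∑ p ∈ S.filter (fun p : ℕ => ¬ 1 < Real.log (p : ℝ)), 1 / (p : ℝ)
        ≤ ∑ p ∈ ({2} : Finset ℕ), 1 / (p : ℝ) :=
          Finset.sum_le_sum_of_subset_of_nonneg h5 (fun i _ _ => by positivity)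
      _ = 1 / 2 := by simp
  linarith

theorem prime_recip_block : ∃ L0 : ℝ, 0 < L0 ∧ ∀ L : ℝ, L0 ≤ L → ∀ S : Finset ℕ,
    (∀ p ∈ S, p.Prime ∧ L < Real.log p ∧ Real.log p ≤ 20 * L) → ∑ p ∈ S, 1 / (p : ℝ) ≤ 6 := by
  obtain ⟨L0, h0, h⟩ := Pool.Agent.Lib.MP_2c5684_nt.sum_inv_range_le 1 20 one_pos (by norm_num) 1 one_pos
  refine ⟨L0, h0, fun L hL S hS => ?_⟩
  have h1 := h L hL S (by
    intro p hp
    obtain ⟨h2, h3, h4⟩ := hS p hp
    exact ⟨h2, by rwa [one_mul], h4⟩)
  have h2 : Real.log (20 / 1) ≤ 5 := by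
    rw [div_one, Real.log_le_iff_le_exp (by norm_num)]
    have h3 : (2 : ℝ) ≤ Real.exp 1 := by
      have := Real.add_one_le_exp 1
      linarith
    calc (20 : ℝ) ≤ 2 ^ 5 := by norm_num
      _ ≤ (Real.exp 1) ^ 5 := by gcongr
      _ = Real.exp 5 := by rw [← Real.exp_nat_mul]; norm_num
  linarith

end Pool.Agent.Lib.MP_54baa8_nt
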