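import Mathlib
import Pool.Agent.Lib.MP_54baa8_nt.AP3

/-!
# JOB DCr: the pointwise bound `|ζ(1/2+it)| ≤ exp (2 log T / log log T)` under RH

`zeta_upper_Mp` with `L = ℓ = log log T` (`≥ L0` for `T` large, `≤ log T`): `exp ℓ = log T`. By `dv_eq_sum`, `Mp_nn` and `aL_le'`,
`aL_eq_zero` (nonzero only for `n < e^ℓ = log T`), `‖dv (Mp ℓ 0 (log T)) t‖ ≤ ∑_{n ≤ log T} n^{-1/2} ≤ 2 (log T)^{1/2}`
(induction: `2 √m + 1/√(m+1) ≤ 2 √(m+1)`), and `2 (log T)^{1/2} + (3/2) log T / ℓ + 5 ≤ 2 log T / ℓ` for `T` large.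
-/

open Complex

namespace Pool.Agent.Lib.MP_54baa8_nt

private theorem dcr_sqrt {x : ℝ} (hx : 0 < x) : Real.exp (-(1 / 2) * Real.log x) * √x = 1 := by
  rw [Real.sqrt_eq_rpow, Real.rpow_def_of_pos hx, ← Real.exp_add]
  have : -(1 / 2) * Real.log x + Real.log x * (1 / 2) = 0 := by ring
  rw [this, Real.exp_zero]

private theorem dcr_step (m : ℕ) :
    2 * √(m : ℝ) + Real.exp (-(1 / 2) * Real.log ((m + 1 : ℕ) : ℝ)) ≤ 2 * √((m + 1 : ℕ) : ℝ) := by
  have h1 : (0 : ℝ) < ((m + 1 : ℕ) : ℝ) := by exact_mod_cast Nat.succ_pos m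
  have h2 := dcr_sqrt h1
  set e := Real.exp (-(1 / 2) * Real.log ((m + 1 : ℕ) : ℝ)) with he
  have he0 : 0 < e := Real.exp_pos _
  set b := √((m + 1 : ℕ) : ℝ) with hb
  have hb0 : 0 < b := Real.sqrt_pos.2 h1
  have hbb : b * b = (m : ℝ) + 1 := by
    rw [hb, Real.mul_self_sqrt h1.le]
    push_cast
    ring
  have ha0 : 0 ≤ √(m : ℝ) := Real.sqrt_nonneg _
  have haa : √(m : ℝ) * √(m : ℝ) = m := Real.mul_self_sqrt (Nat.cast_nonneg m)
  set a := √(m : ℝ) with ha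
  have hab : a ≤ b := by nlinarith
  have h3 : (b - a) * (b + a) = 1 := by nlinarith
  have h4 : e * b ≤ 2 * (b - a) * b := by
    rw [h2]
    nlinarith
  have h5 : e ≤ 2 * (b - a) := le_of_mul_le_mul_right h4 hb0
  linarith

private theorem dcr_sum (N : ℕ) :
    ∑ n ∈ Finset.Icc 1 N, Real.exp (-(1 / 2) * Real.log (n : ℝ)) ≤ 2 * √(N : ℝ) := by
  induction N with
  | zero => simp
  | succ m ih =>
    rw [Finset.sum_Icc_succ_top (Nat.le_add_left 1 m)]
    exact (add_le_add_left ih _).trans (dcr_step m)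

open Classical in
private theorem dcr_Mp (L P Q : ℝ) (n : ℕ) : Mp L P Q n = aL L n ∨ Mp L P Q n = 0 := by
  have h : Mp L P Q n =
      if (∃ p : ℕ, p.Prime ∧ P < p ∧ p ≤ Q ∧ (n = p ∨ n = p ^ 2)) then aL L n else 0 := rfl
  rw [h]
  split_ifs
  · exact Or.inl rfl
  · exact Or.inr rfl

private theorem dcr_len {x : ℝ} (hx : 1 < x) : Len (Mp (Real.log x) 0 x) x := by
  intro n hn
  have h1 : aL (Real.log x) n = 0 := by
    apply aL_eq_zero (Real.log_pos hx)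
    rw [Real.exp_log (zero_lt_one.trans hx)]
    exact hn.le
  rcases dcr_Mp (Real.log x) 0 x n with h | h
  · rw [h, h1]
  · exact h

private theorem dcr_le {x : ℝ} (hx : 1 < x) {n : ℕ} (hn : n ≠ 0) :
    Mp (Real.log x) 0 x n ≤ Real.exp (-(1 / 2) * Real.log n) := by
  rcases dcr_Mp (Real.log x) 0 x n with h | h
  · rw [h]
    exact aL_le' (Real.log_pos hx) hn
  · rw [h]
    exact (Real.exp_pos _).le

private theorem dcr_dv {x : ℝ} (hx : 1 < x) (t : ℝ) : (dv (Mp (Real.log x) 0 x) t).re ≤ 2 * √x := by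
  refine (Complex.re_le_norm _).trans ?_
  rw [dv_eq_sum (dcr_len hx) t]
  refine (norm_sum_le _ _).trans ?_
  have h1 : ∀ n ∈ Finset.Icc 1 ⌊x⌋₊, ‖((Mp (Real.log x) 0 x n : ℝ) : ℂ) *
      Complex.exp (-(t * Real.log n : ℝ) * I)‖ ≤ Real.exp (-(1 / 2) * Real.log (n : ℝ)) := by
    intro n hn
    have hn1 : n ≠ 0 := Nat.one_le_iff_ne_zero.1 (Finset.mem_Icc.1 hn).1
    have h2 : ‖Complex.exp (-(t * Real.log n : ℝ) * I)‖ = 1 := by
      rw [← Complex.ofReal_neg, Complex.norm_exp_ofReal_mul_I]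
    rw [norm_mul, h2, mul_one, Complex.norm_real, Real.norm_of_nonneg (Mp_nn _ _ _ n)]
    exact dcr_le hx hn1
  refine (Finset.sum_le_sum h1).trans ((dcr_sum _).trans ?_)
  have h3 : ((⌊x⌋₊ : ℕ) : ℝ) ≤ x := Nat.floor_le (zero_lt_one.trans hx).le
  have h4 := Real.sqrt_le_sqrt h3
  linarith

private theorem dcr_big {x : ℝ} (hx : 56 ^ 4 ≤ x) :
    2 * √x + 5 ≤ 1 / 2 * (x / Real.log x) := by
  have hx0 : 0 < x := lt_of_lt_of_le (by norm_num) hx
  have hx1 : 1 < x := lt_of_lt_of_le (by norm_num) hx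
  have hl : 0 < Real.log x := Real.log_pos hx1
  have h1 : Real.log x ≤ x ^ (1 / 4 : ℝ) / (1 / 4) := Real.log_le_rpow_div hx0.le (by norm_num)
  set y := x ^ (1 / 4 : ℝ) with hy
  have hy0 : 0 ≤ y := Real.rpow_nonneg hx0.le _
  have hy2 : y * y = √x := by
    rw [hy, ← Real.rpow_add hx0, Real.sqrt_eq_rpow]
    norm_num
  have hy56 : 56 ≤ y := by
    have h2 : ((56 : ℝ) ^ 4) ^ (1 / 4 : ℝ) ≤ y := Real.rpow_le_rpow (by norm_num) hx (by norm_num)
    have h3 : ((56 : ℝ) ^ 4) ^ (1 / 4 : ℝ) = 56 := by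
      rw [← Real.rpow_natCast, ← Real.rpow_mul (by norm_num)]
      norm_num
    linarith
  set s := √x with hs
  have hss : s * s = x := Real.mul_self_sqrt hx0.le
  have hs1 : 1 ≤ s := by nlinarith
  have h4 : 14 * Real.log x ≤ s := by nlinarith
  have h5 : (2 * s + 5) ≤ 7 * s := by linarith
  have h6 : 7 * s ≤ 1 / 2 * (x / Real.log x) := by
    have h7 : 14 * s ≤ x / Real.log x := by
      rw [le_div_iff₀ hl]
      nlinarith
    linarith
  linarith

theorem crude (hRH : RiemannHypothesis) : ∃ T0 : ℝ, 16 ≤ T0 ∧ ∀ T t : ℝ, T0 ≤ T → T ≤ t → t ≤ 2 * T →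
    ‖riemannZeta (1 / 2 + t * I)‖ ≤ Real.exp (2 * (Real.log T / Real.log (Real.log T))) := by
  obtain ⟨L0, T0, hL0, hT0, h⟩ := zeta_upper_Mp hRH
  refine ⟨max (max T0 16) (Real.exp (max (56 ^ 4) (Real.exp L0))),
    (le_max_right _ _).trans (le_max_left _ _), fun T t hT h1 h2 => ?_⟩
  have hT1 : T0 ≤ T := ((le_max_left _ _).trans (le_max_left _ _)).trans hT
  have hT2 : Real.exp (max (56 ^ 4) (Real.exp L0)) ≤ T := (le_max_right _ _).trans hT
  have hTpos : 0 < T := (Real.exp_pos _).trans_le hT2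
  have hx : max (56 ^ 4) (Real.exp L0) ≤ Real.log T := (Real.le_log_iff_exp_le hTpos).2 hT2
  have hx1 : (56 : ℝ) ^ 4 ≤ Real.log T := (le_max_left _ _).trans hx
  have hx2 : Real.exp L0 ≤ Real.log T := (le_max_right _ _).trans hx
  have hxpos : 0 < Real.log T := lt_of_lt_of_le (by norm_num) hx1
  have hxone : 1 < Real.log T := lt_of_lt_of_le (by norm_num) hx1
  have hl0 : L0 ≤ Real.log (Real.log T) := (Real.le_log_iff_exp_le hxpos).2 hx2
  have hlx : Real.log (Real.log T) ≤ Real.log T :=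
    (Real.log_le_sub_one_of_pos hxpos).trans (by linarith)
  have hz := h T t (Real.log (Real.log T)) hT1 h1 h2 hl0 hlx
  rw [Real.exp_log hxpos] at hz
  refine hz.trans ?_
  rw [Real.exp_le_exp]
  have hdv := dcr_dv hxone t
  have hfin := dcr_big hx1
  linarith

end Pool.Agent.Lib.MP_54baa8_nt
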