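import Mathlib
import Pool.Agent.Lib.MP_54baa8_nt.DMp

/-!
# JOB DP: the parameters

`bb k g = e^{-8000(k+1)} / 20^g`, `VV = bb^{-3/4}`, `NN = ⌈10 (k+1) VV⌉`, `RR = ⌊1/(16 bb)⌋`, `k > 0`. Elementary estimates:
* `RR_ge`: `1/(16 bb) ≥ 2`, so `⌊x⌋ ≥ x/2`. `RR_le`: floor.
* `len_sum`: `2 bb g NN g ≤ 2 bb (10 (k+1) bb^{-3/4} + 1) ≤ 22 (k+1) bb^{1/4} = 22 (k+1) e^{-2000(k+1)} 20^{-g/4}` and
  `20^{-1/4} ≤ 1/2`, so the sum over `g` is at most `44 (k+1) e^{-2000(k+1)} ≤ 1/8` (`(k+1) ≤ e^{k+1}`).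
* `NN_sum`: `NN g ≥ 10 VV g ≥ 10 * 8^g` (`20^{3/4} ≥ 8`: `20^3 = 8000 ≥ 4096 = 8^4`), so `NN g ≥ g + 3` and
  `∑ (1/2)^{NN g} ≤ ∑ (1/2)^{g+3} ≤ 1/4`.
* `R_power`: `R^R * VV^{-2R} ≤ e^{-(R/2) log (1/bb)} = bb^{R/2}`: `R ≤ 1/(16 bb)`, `VV^{-2R} = bb^{3R/2}`.
* `decay`: `60 k / bb + 36 R + (R/2) log bb ≤ -R` since `1/bb ≤ 32 R`, `log bb ≤ -8000 (k+1)`.
* `exp_RR_sum`: `∑_{h < H} (h+1) e^{-RR h} ≤ 1`: `RR h ≥ 20^h ≥ ...`, `(h+1) e^{-RR h} ≤ (1/2)^{h+1}`.
* `exists_H`: `H` is the least natural number with `bb k H ≤ ℓ ^ 2 / (1024 (k+1) log T)`, `ℓ = log log T`; for `T ≥ T0(k)` the right-hand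
  side is less than `bb k 0`, so `H ≥ 1` and the inequality fails for `H - 1`.
-/

namespace Pool.Agent.Lib.MP_54baa8_nt

noncomputable def bb (k : ℝ) (g : ℕ) : ℝ := Real.exp (-(8000 * (k + 1))) / 20 ^ g

noncomputable def XX (k T : ℝ) (g : ℕ) : ℝ := Real.exp (bb k g * Real.log T)

noncomputable def VV (k : ℝ) (g : ℕ) : ℝ := (bb k g) ^ (-(3 / 4 : ℝ))

noncomputable def NN (k : ℝ) (g : ℕ) : ℕ := ⌈10 * (k + 1) * VV k g⌉₊

noncomputable def RR (k : ℝ) (g : ℕ) : ℕ := ⌊1 / (16 * bb k g)⌋₊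

/-- lower end of the block `g` (there are the blocks `0, …, H`) -/
noncomputable def PP (k T : ℝ) (H g : ℕ) : ℝ := if g < H then XX k T (g + 1) else 0

/-- block polynomial `g` at stage `h` -/
noncomputable def MM (k T : ℝ) (H h g : ℕ) : ArithmeticFunction ℝ :=
  Mp (bb k h * Real.log T) (PP k T H g) (XX k T g)

theorem bb_pos (k : ℝ) (g : ℕ) : 0 < bb k g := by unfold bb; positivity

theorem bb_succ (k : ℝ) (g : ℕ) : bb k g = 20 * bb k (g + 1) := by
  unfold bb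
  rw [pow_succ]
  field_simp

theorem bb_anti {k : ℝ} {g h : ℕ} (hgh : g ≤ h) : bb k h ≤ bb k g := by
  unfold bb
  apply div_le_div_of_nonneg_left (Real.exp_pos _).le (by positivity)
  exact pow_le_pow_right₀ (by norm_num) hgh

private theorem dp_bb_le (k : ℝ) (g : ℕ) : bb k g ≤ Real.exp (-(8000 * (k + 1))) := by
  unfold bb
  exact div_le_self (Real.exp_pos _).le (one_le_pow₀ (by norm_num))

private theorem dp_exp_le {k : ℝ} (hk : 0 < k) : Real.exp (-(8000 * (k + 1))) ≤ 1 / 8000 := by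
  rw [Real.exp_neg, ← one_div]
  apply one_div_le_one_div_of_le (by norm_num)
  have h := Real.add_one_le_exp (8000 * (k + 1))
  nlinarith

private theorem dp_bb_small {k : ℝ} (hk : 0 < k) (g : ℕ) : bb k g ≤ 1 / 8000 :=
  (dp_bb_le k g).trans (dp_exp_le hk)

theorem bb_le_one {k : ℝ} (hk : 0 < k) (g : ℕ) : bb k g ≤ 1 :=
  (dp_bb_small hk g).trans (by norm_num)

theorem XX_anti {k T : ℝ} (hT : 1 ≤ T) {g h : ℕ} (hgh : g ≤ h) : XX k T h ≤ XX k T g := by
  unfold XX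
  apply Real.exp_le_exp.mpr
  exact mul_le_mul_of_nonneg_right (bb_anti hgh) (Real.log_nonneg hT)

theorem one_le_XX {k T : ℝ} (hT : 1 ≤ T) (g : ℕ) : 1 ≤ XX k T g := by
  unfold XX
  exact Real.one_le_exp (mul_nonneg (bb_pos k g).le (Real.log_nonneg hT))

theorem RR_le {k : ℝ} (g : ℕ) : (RR k g : ℝ) ≤ 1 / (16 * bb k g) := by
  unfold RR
  have := bb_pos k g
  exact Nat.floor_le (by positivity)

theorem RR_ge {k : ℝ} (hk : 0 < k) (g : ℕ) : 1 / (32 * bb k g) ≤ (RR k g : ℝ) := by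
  have hb := bb_pos k g
  have hs := dp_bb_small hk g
  have h1 : 1 / (16 * bb k g) < (RR k g : ℝ) + 1 := by
    unfold RR
    exact Nat.lt_floor_add_one _
  have h2 : (2 : ℝ) ≤ 1 / (16 * bb k g) := by
    rw [le_div_iff₀ (by positivity)]
    nlinarith
  have h3 : 1 / (32 * bb k g) = (1 / (16 * bb k g)) / 2 := by
    field_simp
    norm_num
  rw [h3]
  linarith

theorem one_le_RR {k : ℝ} (hk : 0 < k) (g : ℕ) : 1 ≤ RR k g := by
  have h := RR_ge hk g
  have hb := bb_pos k g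
  have h1 : (0 : ℝ) < (RR k g : ℝ) := lt_of_lt_of_le (by positivity) h
  exact_mod_cast h1

theorem VV_pos (k : ℝ) (g : ℕ) : 0 < VV k g := Real.rpow_pos_of_pos (bb_pos k g) _

theorem one_le_NN {k : ℝ} (hk : 0 < k) (g : ℕ) : 1 ≤ NN k g := by
  unfold NN
  have := VV_pos k g
  exact Nat.one_le_ceil_iff.mpr (by positivity)

theorem VV_le_NN {k : ℝ} (hk : 0 < k) (g : ℕ) : k * VV k g ≤ (NN k g : ℝ) / 10 := by
  have hv := VV_pos k g
  have h : 10 * (k + 1) * VV k g ≤ (NN k g : ℝ) := by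
    unfold NN
    exact Nat.le_ceil _
  nlinarith

private theorem dp_geom (s : Finset ℕ) : ∑ g ∈ s, (1 / 2 : ℝ) ^ g ≤ 2 := by
  have h := Summable.sum_le_tsum s (fun i _ => by positivity) summable_geometric_two
  rw [tsum_geometric_two] at h
  exact h

private theorem dp_bb_quarter {k : ℝ} (g : ℕ) :
    (bb k g) ^ (1 / 4 : ℝ) ≤ Real.exp (-(2000 * (k + 1))) * (1 / 2 : ℝ) ^ g := by
  have hb := bb_pos k g
  have h1 : (Real.exp (-(2000 * (k + 1))) * (1 / 2 : ℝ) ^ g) =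
      ((Real.exp (-(2000 * (k + 1))) * (1 / 2 : ℝ) ^ g) ^ (4 : ℕ)) ^ (1 / 4 : ℝ) := by
    rw [← Real.rpow_natCast _ 4, ← Real.rpow_mul (by positivity)]
    norm_num
  rw [h1]
  apply Real.rpow_le_rpow hb.le _ (by norm_num)
  rw [mul_pow, ← Real.exp_nat_mul, ← pow_mul, mul_comm g 4, pow_mul]
  unfold bb
  rw [div_eq_mul_inv, ← inv_pow]
  have h2 : ((4 : ℕ) : ℝ) * (-(2000 * (k + 1))) = -(8000 * (k + 1)) := by
    push_cast
    ring
  rw [h2]
  apply mul_le_mul_of_nonneg_left _ (Real.exp_pos _).le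
  exact pow_le_pow_left₀ (by norm_num) (by norm_num) g

private theorem dp_bb_VV (k : ℝ) (g : ℕ) : bb k g * VV k g = (bb k g) ^ (1 / 4 : ℝ) := by
  have hb := bb_pos k g
  unfold VV
  nth_rewrite 1 [← Real.rpow_one (bb k g)]
  rw [← Real.rpow_add hb]
  norm_num

/-- total length of the products -/
theorem len_sum {k : ℝ} (hk : 0 < k) (s : Finset ℕ) : ∑ g ∈ s, 2 * bb k g * NN k g ≤ 1 / 8 := by
  have hterm : ∀ g ∈ s, 2 * bb k g * NN k g ≤
      22 * (k + 1) * Real.exp (-(2000 * (k + 1))) * (1 / 2 : ℝ) ^ g := by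
    intro g _
    have hb := bb_pos k g
    have hb1 := bb_le_one hk g
    have hv := VV_pos k g
    have hN : (NN k g : ℝ) ≤ 10 * (k + 1) * VV k g + 1 := by
      unfold NN
      exact (Nat.ceil_lt_add_one (by positivity)).le
    have hq : bb k g ≤ (bb k g) ^ (1 / 4 : ℝ) := by
      nth_rewrite 1 [← Real.rpow_one (bb k g)]
      exact Real.rpow_le_rpow_of_exponent_ge hb hb1 (by norm_num)
    have h1 : 2 * bb k g * NN k g ≤ 22 * (k + 1) * (bb k g) ^ (1 / 4 : ℝ) := by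
      have h2 : 2 * bb k g * (NN k g : ℝ) ≤ 2 * bb k g * (10 * (k + 1) * VV k g + 1) :=
        mul_le_mul_of_nonneg_left hN (by positivity)
      have h3 : 2 * bb k g * (10 * (k + 1) * VV k g + 1) =
          20 * (k + 1) * (bb k g * VV k g) + 2 * bb k g := by ring
      rw [h3, dp_bb_VV] at h2
      have h4 : 0 ≤ (bb k g) ^ (1 / 4 : ℝ) := by positivity
      nlinarith
    have h5 := dp_bb_quarter (k := k) g
    calc 2 * bb k g * (NN k g : ℝ) ≤ 22 * (k + 1) * (bb k g) ^ (1 / 4 : ℝ) := h1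
      _ ≤ 22 * (k + 1) * (Real.exp (-(2000 * (k + 1))) * (1 / 2 : ℝ) ^ g) :=
        mul_le_mul_of_nonneg_left h5 (by positivity)
      _ = _ := by ring
  calc ∑ g ∈ s, 2 * bb k g * NN k g
      ≤ ∑ g ∈ s, 22 * (k + 1) * Real.exp (-(2000 * (k + 1))) * (1 / 2 : ℝ) ^ g :=
        Finset.sum_le_sum hterm
    _ = 22 * (k + 1) * Real.exp (-(2000 * (k + 1))) * ∑ g ∈ s, (1 / 2 : ℝ) ^ g := by
        rw [Finset.mul_sum]
    _ ≤ 22 * (k + 1) * Real.exp (-(2000 * (k + 1))) * 2 :=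
        mul_le_mul_of_nonneg_left (dp_geom s) (by positivity)
    _ ≤ 1 / 8 := by
        have h6 : Real.exp (-(2000 * (k + 1))) * (2000 * (k + 1)) ≤ 1 := by
          rw [Real.exp_neg]
          have h7 := Real.add_one_le_exp (2000 * (k + 1))
          rw [inv_mul_le_iff₀ (Real.exp_pos _)]
          linarith
        nlinarith

private theorem dp_VV_ge {k : ℝ} (hk : 0 < k) (g : ℕ) : (8 : ℝ) ^ g ≤ VV k g := by
  have hb := bb_pos k g
  have h1 : bb k g ≤ ((8 : ℝ) ^ g) ^ (-(4 / 3) : ℝ) := by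
    have h2 : ((8 : ℝ) ^ g) ^ (-(4 / 3) : ℝ) = ((1 / 16 : ℝ)) ^ g := by
      rw [← Real.rpow_natCast, ← Real.rpow_mul (by norm_num), mul_comm, Real.rpow_mul (by norm_num),
        Real.rpow_natCast]
      congr 1
      have : (8 : ℝ) = 2 ^ (3 : ℝ) := by norm_num
      rw [this, ← Real.rpow_mul (by norm_num)]
      norm_num
    rw [h2]
    unfold bb
    rw [one_div, inv_pow, ← one_div]
    have h3 : Real.exp (-(8000 * (k + 1))) ≤ 1 := (dp_exp_le hk).trans (by norm_num)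
    calc Real.exp (-(8000 * (k + 1))) / 20 ^ g ≤ 1 / 20 ^ g := by gcongr
      _ ≤ 1 / 16 ^ g := by
        apply one_div_le_one_div_of_le (by positivity)
        exact pow_le_pow_left₀ (by norm_num) (by norm_num) g
  have h4 : (8 : ℝ) ^ g = (((8 : ℝ) ^ g) ^ (-(4 / 3) : ℝ)) ^ (-(3 / 4) : ℝ) := by
    rw [← Real.rpow_mul (by positivity)]
    norm_num
  rw [h4]
  unfold VV
  exact Real.rpow_le_rpow_of_nonpos hb h1 (by norm_num)

private theorem dp_NN_ge {k : ℝ} (hk : 0 < k) (g : ℕ) : g + 3 ≤ NN k g := by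
  have h1 := dp_VV_ge hk g
  have h2 : 10 * (k + 1) * VV k g ≤ (NN k g : ℝ) := by
    unfold NN
    exact Nat.le_ceil _
  have h3 : ((g : ℝ) + 1) ≤ (8 : ℝ) ^ g := by
    have : g + 1 ≤ 8 ^ g := Nat.lt_pow_self (by norm_num)
    exact_mod_cast this
  have h4 : (1 : ℝ) ≤ (8 : ℝ) ^ g := one_le_pow₀ (by norm_num)
  have hv := VV_pos k g
  have h5 : ((g + 3 : ℕ) : ℝ) ≤ (NN k g : ℝ) := by
    push_cast
    nlinarith
  exact_mod_cast h5

theorem NN_sum {k : ℝ} (hk : 0 < k) (s : Finset ℕ) : ∑ g ∈ s, (1 / 2 : ℝ) ^ NN k g ≤ 1 / 4 := by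
  calc ∑ g ∈ s, (1 / 2 : ℝ) ^ NN k g ≤ ∑ g ∈ s, (1 / 8 : ℝ) * (1 / 2 : ℝ) ^ g := by
        apply Finset.sum_le_sum
        intro g _
        calc (1 / 2 : ℝ) ^ NN k g ≤ (1 / 2 : ℝ) ^ (g + 3) :=
              pow_le_pow_of_le_one (by norm_num) (by norm_num) (dp_NN_ge hk g)
          _ = (1 / 8 : ℝ) * (1 / 2 : ℝ) ^ g := by
              rw [pow_add]
              ring
    _ = (1 / 8 : ℝ) * ∑ g ∈ s, (1 / 2 : ℝ) ^ g := by rw [Finset.mul_sum]
    _ ≤ (1 / 8 : ℝ) * 2 := mul_le_mul_of_nonneg_left (dp_geom s) (by norm_num)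
    _ = 1 / 4 := by norm_num

/-- `R^R V^(-2R) ≤ exp ((R/2) log b)` -/
theorem R_power {k : ℝ} (hk : 0 < k) (g : ℕ) :
    ((RR k g : ℝ)) ^ (RR k g) / (VV k g) ^ (2 * RR k g) ≤
      Real.exp ((RR k g : ℝ) / 2 * Real.log (bb k g)) := by
  have hb := bb_pos k g
  have hv := VV_pos k g
  have h1 : (RR k g : ℝ) ≤ (bb k g)⁻¹ := by
    refine (RR_le g).trans ?_
    rw [← one_div]
    apply one_div_le_one_div_of_le hb
    nlinarith
  have h2 : ((RR k g : ℝ)) ^ (RR k g) ≤ ((bb k g)⁻¹) ^ (RR k g) :=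
    pow_le_pow_left₀ (Nat.cast_nonneg _) h1 _
  have h3 : ((bb k g)⁻¹) ^ (RR k g) / (VV k g) ^ (2 * RR k g) =
      Real.exp ((RR k g : ℝ) / 2 * Real.log (bb k g)) := by
    unfold VV
    rw [← Real.rpow_natCast _ (RR k g), ← Real.rpow_natCast _ (2 * RR k g), ← Real.rpow_mul hb.le,
      Real.inv_rpow hb.le, ← Real.rpow_neg hb.le, ← Real.rpow_sub hb, Real.rpow_def_of_pos hb]
    congr 1
    push_cast
    ring
  rw [← h3]
  gcongr

theorem decay {k : ℝ} (hk : 0 < k) (g : ℕ) :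
    60 * k / bb k g + 36 * (RR k g : ℝ) + (RR k g : ℝ) / 2 * Real.log (bb k g) ≤ -(RR k g : ℝ) := by
  have hb := bb_pos k g
  have hR := RR_ge hk g
  have hR0 : (0 : ℝ) ≤ (RR k g : ℝ) := Nat.cast_nonneg _
  have h1 : 60 * k / bb k g ≤ 1920 * k * (RR k g : ℝ) := by
    have h2 : 60 * k / bb k g = 1920 * k * (1 / (32 * bb k g)) := by
      field_simp
      norm_num
    rw [h2]
    exact mul_le_mul_of_nonneg_left hR (by positivity)
  have h3 : Real.log (bb k g) ≤ -(8000 * (k + 1)) := by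
    have h4 := Real.log_le_log hb (dp_bb_le k g)
    rwa [Real.log_exp] at h4
  have h5 : (RR k g : ℝ) / 2 * Real.log (bb k g) ≤ (RR k g : ℝ) / 2 * (-(8000 * (k + 1))) :=
    mul_le_mul_of_nonneg_left h3 (by positivity)
  have h6 : 0 ≤ k * (RR k g : ℝ) := by positivity
  nlinarith

theorem exp_RR_sum {k : ℝ} (hk : 0 < k) (H : ℕ) :
    ∑ h ∈ Finset.range H, ((h : ℝ) + 1) * Real.exp (-(RR k h : ℝ)) ≤ 1 := by
  calc ∑ h ∈ Finset.range H, ((h : ℝ) + 1) * Real.exp (-(RR k h : ℝ))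
      ≤ ∑ h ∈ Finset.range H, (1 / 2 : ℝ) * (1 / 2 : ℝ) ^ h := by
        apply Finset.sum_le_sum
        intro h _
        have hb := bb_pos k h
        have hR := RR_ge hk h
        have h1 : (20 : ℝ) ^ h * 250 ≤ (RR k h : ℝ) := by
          refine le_trans ?_ hR
          rw [le_div_iff₀ (by positivity)]
          have h2 : bb k h * 20 ^ h ≤ 1 / 8000 := by
            unfold bb
            rw [div_mul_cancel₀ _ (by positivity)]
            exact dp_exp_le hk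
          nlinarith
        have h3 : ((h : ℝ) + 1) ≤ (2 : ℝ) ^ h := by
          have : h + 1 ≤ 2 ^ h := Nat.lt_pow_self (by norm_num)
          exact_mod_cast this
        have h4 : (4 : ℝ) ^ h ≤ (20 : ℝ) ^ h := pow_le_pow_left₀ (by norm_num) (by norm_num) h
        have h5 : Real.exp (-(RR k h : ℝ)) * (RR k h : ℝ) ≤ 1 := by
          rw [Real.exp_neg]
          have h7 := Real.add_one_le_exp (RR k h : ℝ)
          rw [inv_mul_le_iff₀ (Real.exp_pos _)]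
          linarith
        have h6 : Real.exp (-(RR k h : ℝ)) ≤ 1 / ((4 : ℝ) ^ h * 250) := by
          rw [le_div_iff₀ (by positivity)]
          have h8 : (4 : ℝ) ^ h * 250 ≤ (RR k h : ℝ) := by linarith
          exact (mul_le_mul_of_nonneg_left h8 (Real.exp_pos _).le).trans h5
        calc ((h : ℝ) + 1) * Real.exp (-(RR k h : ℝ)) ≤ (2 : ℝ) ^ h * (1 / ((4 : ℝ) ^ h * 250)) :=
              mul_le_mul h3 h6 (Real.exp_pos _).le (by positivity)
          _ = (1 / 250 : ℝ) * (1 / 2 : ℝ) ^ h := by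
              have : (4 : ℝ) ^ h = 2 ^ h * 2 ^ h := by
                rw [← mul_pow]
                norm_num
              rw [this, one_div_pow]
              field_simp
          _ ≤ (1 / 2 : ℝ) * (1 / 2 : ℝ) ^ h := by
              apply mul_le_mul_of_nonneg_right (by norm_num) (by positivity)
    _ = (1 / 2 : ℝ) * ∑ h ∈ Finset.range H, (1 / 2 : ℝ) ^ h := by rw [Finset.mul_sum]
    _ ≤ (1 / 2 : ℝ) * 2 := mul_le_mul_of_nonneg_left (dp_geom _) (by norm_num)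
    _ = 1 := by norm_num

theorem exists_H {k : ℝ} (hk : 0 < k) : ∃ T0 : ℝ, 3 ≤ T0 ∧ ∀ T : ℝ, T0 ≤ T → ∃ H : ℕ, 1 ≤ H ∧
    bb k H ≤ Real.log (Real.log T) ^ 2 / (1024 * (k + 1) * Real.log T) ∧
    Real.log (Real.log T) ^ 2 / (1024 * (k + 1) * Real.log T) < 20 * bb k H := by
  have hlim : ∀ᶠ u : ℝ in Filter.atTop, Real.log u ^ 2 / (1024 * (k + 1) * u) < bb k 0 := by
    have h2 := Real.isLittleO_pow_log_id_atTop (n := 2)
    have h3 := h2.bound (c := bb k 0) (bb_pos k 0)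
    filter_upwards [h3, Filter.eventually_gt_atTop 0] with u hu hu0
    simp only [id, Real.norm_eq_abs] at hu
    rw [div_lt_iff₀ (by positivity)]
    have h4 : Real.log u ^ 2 ≤ bb k 0 * u := by
      calc Real.log u ^ 2 ≤ |Real.log u ^ 2| := le_abs_self _
        _ ≤ bb k 0 * |u| := hu
        _ = bb k 0 * u := by rw [abs_of_pos hu0]
    have h5 : 0 < bb k 0 * u := mul_pos (bb_pos k 0) hu0
    have h6 : 0 < bb k 0 * u * k := mul_pos h5 hk
    nlinarith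
  have hlim2 := Real.tendsto_log_atTop.eventually hlim
  obtain ⟨T1, hT1⟩ := Filter.eventually_atTop.mp hlim2
  refine ⟨max T1 3, le_max_right _ _, fun T hT => ?_⟩
  have hT3 : 3 ≤ T := (le_max_right _ _).trans hT
  have hlt := hT1 T ((le_max_left _ _).trans hT)
  have hlog1 : 1 < Real.log T := by
    rw [Real.lt_log_iff_exp_lt (by linarith)]
    have := Real.exp_one_lt_d9
    linarith
  have hll : 0 < Real.log (Real.log T) := Real.log_pos hlog1
  set y : ℝ := Real.log (Real.log T) ^ 2 / (1024 * (k + 1) * Real.log T) with hy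
  have hy0 : 0 < y := by
    rw [hy]
    have : 0 < Real.log T := by linarith
    positivity
  have hex : ∃ n : ℕ, bb k n ≤ y := by
    obtain ⟨n, hn⟩ := exists_pow_lt_of_lt_one hy0 (show (1 / 20 : ℝ) < 1 by norm_num)
    refine ⟨n, ?_⟩
    have h3 : Real.exp (-(8000 * (k + 1))) ≤ 1 := (dp_exp_le hk).trans (by norm_num)
    unfold bb
    calc Real.exp (-(8000 * (k + 1))) / 20 ^ n ≤ 1 / 20 ^ n := by gcongr
      _ = (1 / 20 : ℝ) ^ n := by rw [one_div_pow]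
      _ ≤ y := hn.le
  classical
  have hfind := Nat.find_spec hex
  set H := Nat.find hex with hH
  have hHne : H ≠ 0 := by
    intro h0
    rw [h0] at hfind
    exact absurd hlt (not_lt.mpr hfind)
  refine ⟨H, Nat.one_le_iff_ne_zero.mpr hHne, hfind, ?_⟩
  have hmin : ¬ bb k (H - 1) ≤ y := Nat.find_min hex (by omega)
  have hs := bb_succ k (H - 1)
  have h7 : H - 1 + 1 = H := by omega
  rw [h7] at hs
  rw [← hs]
  exact not_le.mp hmin

end Pool.Agent.Lib.MP_54baa8_nt
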