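import Mathlib
import Pool.Agent.Lib.MP_54baa8_nt.DP

/-!
# JOB DEnd: the last block is negligible

Put `ℓ = log log T`, `u = log T`. From `bb ≤ ℓ^2/(1024(k+1)u)` and `RR_ge`: `R ≥ 1/(32 bb) ≥ 32 (k+1) u / ℓ^2`;
`log (bb u) ≤ log (ℓ^2/(1024 (k+1))) ≤ 2 log ℓ`, `log bb ≤ 2 log ℓ - ℓ`. So
`R (log (bb u) + 39) + (R/2) log bb ≤ R (2 log ℓ + 39 + log ℓ - ℓ/2) ≤ -R ℓ / 4` for `T` large, `≤ -8 (k+1) u / ℓ`, and
`4 k u/ℓ - 8 (k+1) u/ℓ ≤ -4 u/ℓ`. Also `20^H ≤ 1 / bb k H ≤ 20 * 1024 (k+1) u / ℓ^2 ≤ u^2` for `T` large so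
`H + 1 ≤ 20^H ≤ u^2 = exp (2 ℓ)`, and `3 exp 30 exp (2ℓ) exp (-4 u / ℓ) ≤ 1` for `T` large.
-/

namespace Pool.Agent.Lib.MP_54baa8_nt

private theorem dend_log (l : ℝ) (hl : 20480 ≤ l) : 3 * Real.log l + 39 ≤ l / 4 := by
  have h1 : Real.log (l / 100) ≤ l / 100 - 1 := Real.log_le_sub_one_of_pos (by positivity)
  have h2 : Real.log 100 ≤ 5 := by
    rw [Real.log_le_iff_le_exp (by norm_num)]
    have h3 : (2.7182818283 : ℝ) ≤ Real.exp 1 := Real.exp_one_gt_d9.le
    have h4 : Real.exp 5 = Real.exp 1 ^ 5 := by rw [← Real.exp_nat_mul]; norm_num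
    rw [h4]
    calc (100 : ℝ) ≤ 2.7182818283 ^ 5 := by norm_num
      _ ≤ _ := pow_le_pow_left₀ (by norm_num) h3 5
  rw [Real.log_div (by positivity) (by norm_num)] at h1
  linarith

private theorem dend_H (H : ℕ) : (H : ℝ) + 1 ≤ 20 ^ H := by
  induction H with
  | zero => norm_num
  | succ n ih =>
    rw [pow_succ]
    push_cast
    have : (0 : ℝ) ≤ n := Nat.cast_nonneg n
    linarith

theorem end_small {k : ℝ} (hk : 0 < k) : ∃ T0 : ℝ, 16 ≤ T0 ∧ ∀ T : ℝ, T0 ≤ T → ∀ H : ℕ,
    bb k H ≤ Real.log (Real.log T) ^ 2 / (1024 * (k + 1) * Real.log T) →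
    Real.log (Real.log T) ^ 2 / (1024 * (k + 1) * Real.log T) < 20 * bb k H →
    ((H : ℝ) + 1) * (Real.exp (4 * k * (Real.log T / Real.log (Real.log T))) * (3 *
      Real.exp (30 + (RR k H : ℝ) * (Real.log (bb k H * Real.log T) + 39) +
        (RR k H : ℝ) / 2 * Real.log (bb k H)))) ≤ 1 := by
  refine ⟨Real.exp (Real.exp (20480 * (k + 1))), ?_, ?_⟩
  · have h1 : 20480 * (k + 1) + 1 ≤ Real.exp (20480 * (k + 1)) := Real.add_one_le_exp _
    have h2 : Real.exp (20480 * (k + 1)) + 1 ≤ Real.exp (Real.exp (20480 * (k + 1))) := Real.add_one_le_exp _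
    nlinarith
  · intro T hT H h1 h2
    have hT0 : 0 < T := lt_of_lt_of_le (Real.exp_pos _) hT
    have hu1 : Real.exp (20480 * (k + 1)) ≤ Real.log T := by
      rw [Real.le_log_iff_exp_le hT0]
      exact hT
    have hu0 : 0 < Real.log T := lt_of_lt_of_le (Real.exp_pos _) hu1
    have hl1 : 20480 * (k + 1) ≤ Real.log (Real.log T) := by
      rw [Real.le_log_iff_exp_le hu0]
      exact hu1
    have hul : Real.log T = Real.exp (Real.log (Real.log T)) := (Real.exp_log hu0).symm
    set u := Real.log T with hu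
    set l := Real.log u with hl
    have hl2 : 20480 ≤ l := by nlinarith
    have hl0 : 0 < l := by linarith
    have hb := bb_pos k H
    set b := bb k H with hbdef
    have hR := RR_ge hk H
    rw [← hbdef] at hR
    set R : ℝ := (RR k H : ℝ) with hRdef
    have hk1 : 0 < k + 1 := by linarith
    -- lower bound for R
    have hR1 : 32 * (k + 1) * u / l ^ 2 ≤ R := by
      refine le_trans ?_ hR
      rw [div_le_div_iff₀ (by positivity) (by positivity)]
      rw [le_div_iff₀ (by positivity)] at h1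
      nlinarith
    have hR0 : 0 ≤ R := Nat.cast_nonneg _
    -- logarithms
    have hlog1 : Real.log (b * u) ≤ 2 * Real.log l := by
      have e : 2 * Real.log l = Real.log (l ^ 2) := by rw [Real.log_pow]; norm_num
      rw [e]
      refine Real.log_le_log (by positivity) ?_
      rw [le_div_iff₀ (by positivity)] at h1
      have : b * u * 1 ≤ b * u * (1024 * (k + 1)) :=
        mul_le_mul_of_nonneg_left (by linarith) (by positivity)
      nlinarith
    have hlog2 : Real.log b ≤ 2 * Real.log l - l := by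
      have e : Real.log (b * u) = Real.log b + l := by rw [Real.log_mul hb.ne' hu0.ne']
      linarith
    have hlog3 := dend_log l hl2
    -- exponent
    have hexp : R * (Real.log (b * u) + 39) + R / 2 * Real.log b ≤ -(8 * (k + 1) * u / l) := by
      have e1 : R * (Real.log (b * u) + 39) + R / 2 * Real.log b ≤
          R * (2 * Real.log l + 39) + R / 2 * (2 * Real.log l - l) := by
        have a1 := mul_le_mul_of_nonneg_left hlog1 hR0
        have a2 := mul_le_mul_of_nonneg_left hlog2 (by positivity : 0 ≤ R / 2)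
        linarith
      have e2 : R * (2 * Real.log l + 39) + R / 2 * (2 * Real.log l - l) =
          R * (3 * Real.log l + 39 - l / 2) := by ring
      have e3 : R * (3 * Real.log l + 39 - l / 2) ≤ R * (-(l / 4)) :=
        mul_le_mul_of_nonneg_left (by linarith) hR0
      have e4 : R * (-(l / 4)) ≤ -(8 * (k + 1) * u / l) := by
        have e5 : 8 * (k + 1) * u / l = 32 * (k + 1) * u / l ^ 2 * (l / 4) := by
          field_simp
          ring
        rw [e5]
        have := mul_le_mul_of_nonneg_right hR1 (by positivity : 0 ≤ l / 4)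
        linarith
      linarith
    -- the number of blocks
    have hH : (H : ℝ) + 1 ≤ u := by
      refine (dend_H H).trans ?_
      have hbe : b * 20 ^ H = Real.exp (-(8000 * (k + 1))) := by
        rw [hbdef, bb]
        field_simp
      have hbe1 : b * 20 ^ H ≤ 1 := by
        rw [hbe]
        exact Real.exp_le_one_iff.2 (by nlinarith)
      rw [div_lt_iff₀ (by positivity)] at h2
      -- l ^ 2 < 20 b 1024 (k+1) u
      have h3 : l ^ 2 * 20 ^ H ≤ 20480 * (k + 1) * u := by
        have h4 : l ^ 2 * 20 ^ H ≤ 20 * b * (1024 * (k + 1) * u) * 20 ^ H :=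
          mul_le_mul_of_nonneg_right h2.le (by positivity)
        have h5 : 20 * b * (1024 * (k + 1) * u) * 20 ^ H = 20480 * (k + 1) * u * (b * 20 ^ H) := by ring
        have h6 : 20480 * (k + 1) * u * (b * 20 ^ H) ≤ 20480 * (k + 1) * u * 1 :=
          mul_le_mul_of_nonneg_left hbe1 (by positivity)
        linarith
      have h7 : 20480 * (k + 1) ≤ l ^ 2 := by nlinarith
      have h8 : 20480 * (k + 1) * u ≤ l ^ 2 * u := mul_le_mul_of_nonneg_right h7 hu0.le
      exact le_of_mul_le_mul_left (h3.trans h8) (by positivity)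
    -- the final inequality
    have hfin : Real.log 3 + 30 + l - 4 * u / l ≤ 0 := by
      have h3 : Real.log 3 ≤ 2 := by
        have := Real.log_le_sub_one_of_pos (show (0 : ℝ) < 3 by norm_num)
        linarith
      have h4 : 1 + l + l ^ 2 / 2 ≤ Real.exp l := Real.quadratic_le_exp_of_nonneg hl0.le
      have h5 : 2 * l ≤ 4 * u / l := by
        rw [le_div_iff₀ hl0, hul]
        nlinarith
      linarith
    have hu' : u = Real.exp l := hul
    have h3e : (3 : ℝ) = Real.exp (Real.log 3) := (Real.exp_log (by norm_num)).symm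
    have hl' : 0 < l := hl0
    calc ((H : ℝ) + 1) * (Real.exp (4 * k * (u / l)) * (3 *
          Real.exp (30 + R * (Real.log (b * u) + 39) + R / 2 * Real.log b)))
        ≤ u * (Real.exp (4 * k * (u / l)) * (3 *
          Real.exp (30 + R * (Real.log (b * u) + 39) + R / 2 * Real.log b))) :=
          mul_le_mul_of_nonneg_right hH (by positivity)
      _ = Real.exp (l + (4 * k * (u / l) + (Real.log 3 +
          (30 + R * (Real.log (b * u) + 39) + R / 2 * Real.log b)))) := by
          generalize 30 + R * (Real.log (b * u) + 39) + R / 2 * Real.log b = E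
          rw [Real.exp_add, Real.exp_add, Real.exp_add, ← h3e, ← hu']
      _ ≤ 1 := by
          rw [Real.exp_le_one_iff]
          have e1 : 4 * k * (u / l) = 4 * k * u / l := by ring
          have e2 : 8 * (k + 1) * u / l = 4 * u / l + 4 * k * u / l + (4 * k + 4) * u / l := by ring
          have e3 : 0 ≤ (4 * k + 4) * u / l := by positivity
          linarith

end Pool.Agent.Lib.MP_54baa8_nt
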