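import Mathlib
import Pool.Agent.Lib.MP_54baa8_nt.AP3
import Pool.Agent.Lib.MP_54baa8_nt.DP
import Pool.Agent.Lib.MP_54baa8_nt.BTE

/-!
# JOB DSt: the bound for `|ζ|^(2k)` at stage `h`

`AA k T H h t` is the majorant of `‖ζ(1/2+it)‖^{2k}` at stage `h` (blocks `g = h, …, H` good).
* `blocks`: `Mp L 0 (XX h) = ∑_{g ∈ Icc h H} Mp L (PP g) (XX g)`, downward induction on `h ≤ H` with `Mp_add` (`PP g = XX (g+1)` for
  `g < H`, `PP H = 0`); take `dv` (`dv_sum`, common length `(XX h)^2`).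
* `stage`: `zeta_upper_Mp` with `L = bb k h * log T` (`exp L = XX k T h`, `log T / L = 1 / bb k h`), raised to the power `2k`:
  `‖ζ‖^{2k} ≤ exp (2k (∑ Re dv + (3/2)/bb + 5)) = exp (2k ((3/2)/bb + 5)) ∏_g ‖exp (k dv (MM h g) t)‖^2` and, as
  `‖k dv‖ ≤ k VV g ≤ NN g / 10`, `trunc_exp` and `∏ exp (2 (1/2)^{NN g}) ≤ exp 1` (`NN_sum`).
The hypothesis `h ≤ H`, `L0 ≤ bb k H * log T` guarantees `L0 ≤ L ≤ log T`.
-/

open Complex

namespace Pool.Agent.Lib.MP_54baa8_nt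

/-- the majorant at stage `h` -/
noncomputable def AA (k T : ℝ) (H h : ℕ) (t : ℝ) : ℝ :=
  Real.exp (2 * k * (3 / 2 / bb k h + 5) + 1) *
    ∏ g ∈ Finset.Icc h H, ‖eN (NN k g) (k * dv (MM k T H h g) t)‖ ^ 2

theorem AA_nonneg (k T : ℝ) (H h : ℕ) (t : ℝ) : 0 ≤ AA k T H h t := by
  unfold AA
  exact mul_nonneg (Real.exp_pos _).le (Finset.prod_nonneg fun g _ => by positivity)

theorem Mp_blocks {k T L : ℝ} (hT : 1 ≤ T) {H h : ℕ} (hh : h ≤ H) :
    Mp L 0 (XX k T h) = ∑ g ∈ Finset.Icc h H, Mp L (PP k T H g) (XX k T g) := by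
  refine Nat.decreasingInduction' (P := fun h => Mp L 0 (XX k T h) =
    ∑ g ∈ Finset.Icc h H, Mp L (PP k T H g) (XX k T g)) ?_ hh ?_
  · intro m hm _ ih
    have hins : Finset.Icc m H = insert m (Finset.Icc (m + 1) H) := by
      ext x
      simp only [Finset.mem_Icc, Finset.mem_insert]
      omega
    have hnot : m ∉ Finset.Icc (m + 1) H := by
      simp
    rw [hins, Finset.sum_insert hnot, ← ih]
    have hPP : PP k T H m = XX k T (m + 1) := by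
      unfold PP
      rw [if_pos hm]
    rw [hPP, add_comm]
    exact (Mp_add (le_trans zero_le_one (one_le_XX hT (m + 1))) (XX_anti hT (Nat.le_succ m))).symm
  · have hPP : PP k T H H = 0 := by
      unfold PP
      rw [if_neg (lt_irrefl H)]
    rw [Finset.Icc_self, Finset.sum_singleton, hPP]

private theorem dst_re {k T L : ℝ} (hT : 1 ≤ T) {H h : ℕ} (hh : h ≤ H) (t : ℝ) :
    dv (Mp L 0 (XX k T h)) t = ∑ g ∈ Finset.Icc h H, dv (Mp L (PP k T H g) (XX k T g)) t := by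
  rw [Mp_blocks hT hh]
  refine dv_sum (X := (XX k T h) ^ 2) _ ?_ t
  intro g hg n hn
  have hg1 : h ≤ g := (Finset.mem_Icc.mp hg).1
  refine Mp_len (one_le_XX hT g) n (lt_of_le_of_lt ?_ hn)
  exact pow_le_pow_left₀ (le_trans zero_le_one (one_le_XX hT g)) (XX_anti hT hg1) 2

private theorem dst_term {k : ℝ} (hk : 0 < k) {g : ℕ} {z : ℂ} (hz : ‖z‖ ≤ VV k g) :
    Real.exp (2 * k * z.re) ≤ Real.exp (2 * (1 / 2 : ℝ) ^ NN k g) * ‖eN (NN k g) (k * z)‖ ^ 2 := by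
  have h1 : ‖(k : ℂ) * z‖ ≤ (NN k g : ℝ) / 10 := by
    rw [norm_mul, Complex.norm_real, Real.norm_eq_abs, abs_of_pos hk]
    exact le_trans (mul_le_mul_of_nonneg_left hz hk.le) (VV_le_NN hk g)
  have h2 := trunc_exp (one_le_NN hk g) h1
  rw [Complex.norm_exp] at h2
  have h3 : ((k : ℂ) * z).re = k * z.re := by
    rw [Complex.re_ofReal_mul]
  rw [h3] at h2
  have h4 : Real.exp (2 * k * z.re) = (Real.exp (k * z.re)) ^ 2 := by
    rw [← Real.exp_nat_mul]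
    congr 1
    push_cast
    ring
  have h5 : Real.exp (2 * (1 / 2 : ℝ) ^ NN k g) = (Real.exp ((1 / 2 : ℝ) ^ NN k g)) ^ 2 := by
    rw [← Real.exp_nat_mul]
    congr 1
  rw [h4, h5, ← mul_pow]
  exact pow_le_pow_left₀ (Real.exp_pos _).le h2 2

theorem stage (hRH : RiemannHypothesis) {k : ℝ} (hk : 0 < k) : ∃ L0 T0 : ℝ, 1 ≤ L0 ∧ 3 ≤ T0 ∧
    ∀ T : ℝ, T0 ≤ T → ∀ H h : ℕ, h ≤ H → L0 ≤ bb k H * Real.log T → ∀ t : ℝ, T ≤ t → t ≤ 2 * T →
      (∀ g ∈ Finset.Icc h H, ‖dv (MM k T H h g) t‖ ≤ VV k g) →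
      ‖riemannZeta (1 / 2 + t * I)‖ ^ (2 * k) ≤ AA k T H h t := by
  obtain ⟨L0, T0, hL0, hT0, hz⟩ := zeta_upper_Mp hRH
  refine ⟨L0, max T0 3, hL0, le_max_right _ _, ?_⟩
  intro T hT H h hh hLH t h1 h2 hg
  have hT0' : T0 ≤ T := le_trans (le_max_left _ _) hT
  have hT3 : 3 ≤ T := le_trans (le_max_right _ _) hT
  have hT1 : 1 ≤ T := by linarith
  have hlog : 0 < Real.log T := Real.log_pos (by linarith)
  have hb := bb_pos k h
  have hL1 : L0 ≤ bb k h * Real.log T :=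
    le_trans hLH (mul_le_mul_of_nonneg_right (bb_anti hh) hlog.le)
  have hL2 : bb k h * Real.log T ≤ Real.log T := by
    have := mul_le_mul_of_nonneg_right (bb_le_one hk h) hlog.le
    linarith
  have h3 := hz T t (bb k h * Real.log T) hT0' h1 h2 hL1 hL2
  have hXX : Real.exp (bb k h * Real.log T) = XX k T h := rfl
  rw [hXX, dst_re hT1 hh t, Complex.re_sum] at h3
  have hdiv : Real.log T / (bb k h * Real.log T) = 1 / bb k h := by
    field_simp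
  rw [hdiv] at h3
  have h4 : ‖riemannZeta (1 / 2 + t * I)‖ ^ (2 * k) ≤
      (Real.exp (∑ g ∈ Finset.Icc h H, (dv (Mp (bb k h * Real.log T) (PP k T H g) (XX k T g)) t).re
        + 3 / 2 * (1 / bb k h) + 5)) ^ (2 * k) :=
    Real.rpow_le_rpow (norm_nonneg _) h3 (by positivity)
  refine le_trans h4 ?_
  rw [← Real.exp_mul]
  have h5 : (∑ g ∈ Finset.Icc h H, (dv (Mp (bb k h * Real.log T) (PP k T H g) (XX k T g)) t).re
        + 3 / 2 * (1 / bb k h) + 5) * (2 * k)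
      = 2 * k * (3 / 2 / bb k h + 5) +
        ∑ g ∈ Finset.Icc h H, 2 * k * (dv (MM k T H h g) t).re := by
    rw [← Finset.mul_sum]
    unfold MM
    ring
  rw [h5, Real.exp_add, Real.exp_sum]
  have h6 : ∏ g ∈ Finset.Icc h H, Real.exp (2 * k * (dv (MM k T H h g) t).re) ≤
      ∏ g ∈ Finset.Icc h H, (Real.exp (2 * (1 / 2 : ℝ) ^ NN k g) *
        ‖eN (NN k g) (k * dv (MM k T H h g) t)‖ ^ 2) :=
    Finset.prod_le_prod (fun g _ => (Real.exp_pos _).le) (fun g hgm => dst_term hk (hg g hgm))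
  have h7 : ∏ g ∈ Finset.Icc h H, Real.exp (2 * (1 / 2 : ℝ) ^ NN k g) ≤ Real.exp 1 := by
    rw [← Real.exp_sum, Real.exp_le_exp, ← Finset.mul_sum]
    have := NN_sum hk (Finset.Icc h H)
    linarith
  rw [Finset.prod_mul_distrib] at h6
  have hnn : 0 ≤ ∏ g ∈ Finset.Icc h H, ‖eN (NN k g) (k * dv (MM k T H h g) t)‖ ^ 2 :=
    Finset.prod_nonneg fun g _ => by positivity
  have h8 := le_trans h6 (mul_le_mul_of_nonneg_right h7 hnn)
  have h9 := mul_le_mul_of_nonneg_left h8 (Real.exp_pos (2 * k * (3 / 2 / bb k h + 5))).le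
  refine le_trans h9 (le_of_eq ?_)
  unfold AA
  rw [Real.exp_add (2 * k * (3 / 2 / bb k h + 5)) 1, mul_assoc (Real.exp (2 * k * (3 / 2 / bb k h + 5)))]

end Pool.Agent.Lib.MP_54baa8_nt
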