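import Mathlib
import Pool.Agent.Lib.MP_54baa8_nt.DSt
import Pool.Agent.Lib.MP_54baa8_nt.BMain
import Pool.Agent.Lib.MP_54baa8_nt.Cm

/-!
# JOB DI0: the mean of the majorant at stage `0`

Let `G = F = ∏_{g ∈ Icc 0 H} EN (NN g) k (MM 0 g)`. Then `∏ ‖eN (NN g) (k dv (MM 0 g) t)‖ ^ 2 = ‖dv F t‖ ^ 2` (`dv_prod`, `dv_EN`).
`Dom F Q` with `Q = ∑ g, k • lg (MM 0 g)` (`dom_prod`, `dom_EN`), `F 1 = 1` (`prod_apply_one`, `EN_apply_one`, `Mp_one`), and by
`Mp_blocks` `Q = k • lg (Mp L 0 (XX 0))`, so by `lg_Mp_le` the hypothesis `hQ` of `dom_mean_value` holds with `S1` = the primes `≤ XX 0`,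
`S2 = ∅`, `y = 0`, `c = 1`. Length: `∏ ((XX g)^2)^{NN g} = exp (log T * ∑ 2 bb g NN g) ≤ exp ((1/8) log T) =: X` (`len_sum`), `X^2 ≤ T`.
`dom_mean_value` gives `≤ 3 T exp (k^2 ∑_{p ≤ XX 0} 1/p + 30 (max 1 k)^2 + 30)` (the `30 (max 1 0)^2 = 30` from `S2 = ∅`), and
`prime_recip` (`XX 0 ≤ T`): `∑ ≤ log log T + 9`.
-/

open Complex

namespace Pool.Agent.Lib.MP_54baa8_nt

private theorem di0_sum_apply {ι : Type*} (s : Finset ι) (f : ι → ArithmeticFunction ℝ) (n : ℕ) :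
    (∑ i ∈ s, f i) n = ∑ i ∈ s, f i n := by
  classical
  induction s using Finset.induction_on with
  | empty => simp
  | insert a s ha ih => rw [Finset.sum_insert ha, Finset.sum_insert ha, ArithmeticFunction.add_apply, ih]

private theorem di0_smul (c : ℝ) (f : ArithmeticFunction ℝ) (n : ℕ) : (c • f) n = c * f n := rfl

private theorem di0_Q {k T L : ℝ} (hT : 1 ≤ T) (H : ℕ) (n : ℕ) :
    (∑ g ∈ Finset.Icc 0 H, k • lg (Mp L (PP k T H g) (XX k T g))) n = k * lg (Mp L 0 (XX k T 0)) n := by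
  rw [di0_sum_apply, lg_apply, Mp_blocks hT (Nat.zero_le H), di0_sum_apply, Finset.mul_sum, Finset.mul_sum]
  refine Finset.sum_congr rfl fun g _ => ?_
  rw [di0_smul, lg_apply]

private theorem di0_len {k T : ℝ} (hk : 0 < k) (hT : 1 ≤ T) (H : ℕ) :
    ∏ g ∈ Finset.Icc 0 H, ((XX k T g) ^ 2) ^ NN k g ≤ Real.exp (1 / 8 * Real.log T) := by
  have h1 : ∀ g ∈ Finset.Icc 0 H, ((XX k T g) ^ 2) ^ NN k g = Real.exp (Real.log T * (2 * bb k g * NN k g)) := by
    intro g _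
    unfold XX
    rw [← pow_mul, ← Real.exp_nat_mul]
    congr 1
    push_cast
    ring
  rw [Finset.prod_congr rfl h1, ← Real.exp_sum, ← Finset.mul_sum]
  refine Real.exp_le_exp.2 ?_
  have h2 := mul_le_mul_of_nonneg_left (len_sum hk (Finset.Icc 0 H)) (Real.log_nonneg hT)
  linarith

theorem integral_AA0 {k T : ℝ} (hk : 0 < k) (hT : 16 ≤ T) (H : ℕ) :
    ∫ t in T..(2 * T), AA k T H 0 t ≤ 3 * T *
      Real.exp (2 * k * (3 / 2 / bb k 0 + 5) + 1 + k ^ 2 * (Real.log (Real.log T) + 9) +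
        30 * (k + 1) ^ 2 + 30) := by
  have hT1 : 1 ≤ T := by linarith
  have hT0 : 0 < T := by linarith
  have hlog : 0 < Real.log T := Real.log_pos (by linarith)
  have hL : 0 < bb k 0 * Real.log T := mul_pos (bb_pos k 0) hlog
  obtain ⟨F, hFdef⟩ : ∃ F, F = ∏ g ∈ Finset.Icc 0 H, EN (NN k g) k (MM k T H 0 g) := ⟨_, rfl⟩
  have hlenM : ∀ g, Len (MM k T H 0 g) ((XX k T g) ^ 2) := fun g => Mp_len (one_le_XX hT1 g)
  have hX2 : ∀ g, 1 ≤ (XX k T g) ^ 2 := fun g => one_le_pow₀ (one_le_XX hT1 g)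
  have hlenE : ∀ g, Len (EN (NN k g) k (MM k T H 0 g)) (((XX k T g) ^ 2) ^ NN k g) :=
    fun g => (hlenM g).EN (hX2 g) _ _
  have hlenF : Len F (Real.exp (1 / 8 * Real.log T)) := by
    rw [hFdef]
    exact (Len.prod _ (fun g _ => hlenE g) (fun g _ => by have := hX2 g; positivity)).mono (di0_len hk hT1 H)
  have hdv : ∀ t : ℝ, ∏ g ∈ Finset.Icc 0 H, ‖eN (NN k g) (k * dv (MM k T H 0 g) t)‖ ^ 2 = ‖dv F t‖ ^ 2 := by
    intro t
    rw [hFdef, dv_prod _ (fun g _ => hlenE g) (fun g _ => by have := hX2 g; positivity), norm_prod,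
      ← Finset.prod_pow]
    refine Finset.prod_congr rfl fun g _ => ?_
    rw [dv_EN (hlenM g) (by linarith [hX2 g])]
  have hnn : ∀ g, Nn (MM k T H 0 g) := fun g => Mp_nn _ _ _
  obtain ⟨S1, hS1def⟩ : ∃ S1, S1 = (Finset.Icc 1 ⌊XX k T 0⌋₊).filter Nat.Prime := ⟨_, rfl⟩
  have hS1 : ∀ p ∈ S1, p.Prime := by
    intro p hp
    rw [hS1def] at hp
    exact (Finset.mem_filter.1 hp).2
  have hXT : XX k T 0 ≤ T := by
    unfold XX
    have h1 : bb k 0 * Real.log T ≤ 1 * Real.log T := mul_le_mul_of_nonneg_right (bb_le_one hk 0) hlog.le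
    calc Real.exp (bb k 0 * Real.log T) ≤ Real.exp (1 * Real.log T) := Real.exp_le_exp.2 h1
      _ = T := by rw [one_mul, Real.exp_log hT0]
  have hS1T : ∀ p ∈ S1, p.Prime ∧ (p : ℝ) ≤ T := by
    intro p hp
    refine ⟨hS1 p hp, ?_⟩
    rw [hS1def] at hp
    have h1 := (Finset.mem_Icc.1 (Finset.mem_filter.1 hp).1).2
    have h2 : (p : ℝ) ≤ XX k T 0 :=
      (Nat.cast_le.2 h1).trans (Nat.floor_le (by have := one_le_XX (k := k) hT1 0; linarith))
    exact h2.trans hXT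
  have hmain := dom_mean_value (F := F) (G := F)
    (Q := ∑ g ∈ Finset.Icc 0 H, k • lg (MM k T H 0 g)) (k := k) (y := 0) (c := 1)
    (X := Real.exp (1 / 8 * Real.log T)) (T := T) hk.le le_rfl zero_le_one (S1 := S1) (S2 := ∅) hS1
    (fun p hp => absurd hp (Finset.notMem_empty p)) (Finset.disjoint_empty_right _)
    (by
      rw [hFdef]
      exact dom_prod _ fun g _ => dom_EN (hnn g) hk.le _)
    (by
      rw [hFdef, prod_apply_one]
      refine le_of_eq (Finset.prod_eq_one fun g _ => ?_)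
      exact EN_apply_one (Mp_one _ _ _) _ _)
    (by
      intro n hn
      have h1 : (∑ g ∈ Finset.Icc 0 H, k • lg (MM k T H 0 g)) n =
          k * lg (Mp (bb k 0 * Real.log T) 0 (XX k T 0)) n := di0_Q hT1 H n
      rw [h1]
      have h2 := lg_Mp_le (P := 0) (Q := XX k T 0) hL hn
      have hv : 0 ≤ ArithmeticFunction.vonMangoldt n := ArithmeticFunction.vonMangoldt_nonneg
      have he : 0 < Real.exp (-(1 / 2) * Real.log n) := Real.exp_pos _
      by_cases hc : (0 : ℝ) < (n.minFac : ℝ) ∧ (n.minFac : ℝ) ≤ XX k T 0 ∧ n ≠ 1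
      · rw [if_pos hc, one_mul] at h2
        have h3 : n.minFac ∈ S1 := by
          rw [hS1def, Finset.mem_filter, Finset.mem_Icc]
          exact ⟨⟨Nat.minFac_pos n, Nat.le_floor hc.2.1⟩, Nat.minFac_prime hc.2.2⟩
        rw [if_pos h3, mul_assoc]
        exact mul_le_mul_of_nonneg_left h2 hk.le
      · rw [if_neg hc, zero_mul] at h2
        have h3 : k * lg (Mp (bb k 0 * Real.log T) 0 (XX k T 0)) n ≤ 0 :=
          mul_nonpos_of_nonneg_of_nonpos hk.le h2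
        refine h3.trans (mul_nonneg (mul_nonneg ?_ hv) he.le)
        split_ifs
        · exact hk.le
        · exact le_rfl
        · exact le_rfl)
    (by
      rw [hFdef]
      exact Nn.prod _ fun g _ => (hnn g).EN hk.le _)
    (fun n => by rw [one_mul]) hlenF
    (by
      rw [← Real.exp_zero]
      exact Real.exp_le_exp.2 (by positivity))
    (by
      rw [← Real.exp_nat_mul]
      calc Real.exp (((2 : ℕ) : ℝ) * (1 / 8 * Real.log T)) ≤ Real.exp (Real.log T) :=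
            Real.exp_le_exp.2 (by push_cast; linarith)
        _ = T := Real.exp_log hT0)
  have hrec := prime_recip (x := T) (by
    have h1 := Real.exp_one_lt_d9
    linarith) S1 hS1T
  have hI : ∫ t in T..(2 * T), AA k T H 0 t =
      Real.exp (2 * k * (3 / 2 / bb k 0 + 5) + 1) * ∫ t in T..(2 * T), ‖dv F t‖ ^ 2 := by
    rw [← intervalIntegral.integral_const_mul]
    refine intervalIntegral.integral_congr fun t _ => ?_
    show AA k T H 0 t = _
    unfold AA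
    rw [hdv t]
  rw [hI]
  have hexp : k ^ 2 * ∑ p ∈ S1, 1 / (p : ℝ) + 30 * (max 1 k) ^ 2 +
      (0 ^ 2 * ∑ p ∈ (∅ : Finset ℕ), 1 / (p : ℝ) + 30 * (max 1 (0 : ℝ)) ^ 2) ≤
      k ^ 2 * (Real.log (Real.log T) + 9) + 30 * (k + 1) ^ 2 + 30 := by
    have h1 : k ^ 2 * ∑ p ∈ S1, 1 / (p : ℝ) ≤ k ^ 2 * (Real.log (Real.log T) + 9) :=
      mul_le_mul_of_nonneg_left hrec (by positivity)
    have h2 : (max 1 k) ^ 2 ≤ (k + 1) ^ 2 :=
      pow_le_pow_left₀ (le_trans zero_le_one (le_max_left _ _)) (max_le (by linarith) (by linarith)) 2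
    have h3 : max 1 (0 : ℝ) = 1 := max_eq_left zero_le_one
    rw [h3, Finset.sum_empty]
    linarith
  have h1 : ∫ t in T..(2 * T), ‖dv F t‖ ^ 2 ≤ 3 * T *
      Real.exp (k ^ 2 * (Real.log (Real.log T) + 9) + 30 * (k + 1) ^ 2 + 30) := by
    refine hmain.trans ?_
    rw [one_pow, mul_one]
    exact mul_le_mul_of_nonneg_left (Real.exp_le_exp.2 hexp) (by positivity)
  have h2 := mul_le_mul_of_nonneg_left h1 (Real.exp_pos (2 * k * (3 / 2 / bb k 0 + 5) + 1)).le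
  refine h2.trans (le_of_eq ?_)
  have h3 : Real.exp (2 * k * (3 / 2 / bb k 0 + 5) + 1 + k ^ 2 * (Real.log (Real.log T) + 9) +
        30 * (k + 1) ^ 2 + 30) = Real.exp (2 * k * (3 / 2 / bb k 0 + 5) + 1) *
      Real.exp (k ^ 2 * (Real.log (Real.log T) + 9) + 30 * (k + 1) ^ 2 + 30) := by
    rw [← Real.exp_add]
    congr 1
    ring
  rw [h3]
  ring

end Pool.Agent.Lib.MP_54baa8_nt
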