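import Mathlib
import Pool.Agent.Lib.MP_54baa8_nt.DSt
import Pool.Agent.Lib.MP_54baa8_nt.DCr

/-!
# JOB DPt: the pointwise decomposition

Call block `h ≤ H` bad at `t` if `‖dv (MM k T H h' h) t‖ > VV k h` for some `h' ≤ h`. If no block is bad, `stage` with `h = 0`. Otherwise
let `h` be the largest bad block and `h' ≤ h` a stage where it is bad, so the factor `(‖dv (MM h' h) t‖ / VV h)^(2 RR h) ≥ 1`. If
`h < H`, all blocks `g ∈ Icc (h+1) H` are good at stage `h + 1` (`h + 1 ≤ g`), so `stage` with `h + 1` bounds `‖ζ‖^{2k}` by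
`AA (h+1)`. If `h = H` use `crude`: `‖ζ‖^{2k} ≤ exp (4 k log T / log log T)`. All terms of the right side are nonnegative.
-/

open Complex

namespace Pool.Agent.Lib.MP_54baa8_nt

/-- the penalty factor of block `h` at stage `h'` -/
noncomputable def BB (k T : ℝ) (H h' h : ℕ) (t : ℝ) : ℝ :=
  (‖dv (MM k T H h' h) t‖ / VV k h) ^ (2 * RR k h)

theorem BB_nonneg (k T : ℝ) (H h' h : ℕ) (t : ℝ) : 0 ≤ BB k T H h' h t := by
  unfold BB
  have := VV_pos k h
  positivity

private theorem DPt_one_le_BB {k T : ℝ} {H h' h : ℕ} {t : ℝ} (h1 : VV k h < ‖dv (MM k T H h' h) t‖) :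
    1 ≤ BB k T H h' h t := by
  unfold BB
  refine one_le_pow₀ ?_
  rw [one_le_div (VV_pos k h)]
  exact h1.le

theorem pointwise (hRH : RiemannHypothesis) {k : ℝ} (hk : 0 < k) : ∃ L0 T0 : ℝ, 1 ≤ L0 ∧ 16 ≤ T0 ∧
    ∀ T : ℝ, T0 ≤ T → ∀ H : ℕ, L0 ≤ bb k H * Real.log T → ∀ t : ℝ, T ≤ t → t ≤ 2 * T →
      ‖riemannZeta (1 / 2 + t * I)‖ ^ (2 * k) ≤ AA k T H 0 t +
        ∑ h ∈ Finset.range H, ∑ h' ∈ Finset.range (h + 1), AA k T H (h + 1) t * BB k T H h' h t +
        ∑ h' ∈ Finset.range (H + 1),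
          Real.exp (4 * k * (Real.log T / Real.log (Real.log T))) * BB k T H h' H t := by
  obtain ⟨L0, T1, hL0, hT1, hst⟩ := stage hRH hk
  obtain ⟨T2, hT2, hcr⟩ := crude hRH
  refine ⟨L0, max T1 T2, hL0, hT2.trans (le_max_right _ _), ?_⟩
  intro T hT H hH t ht1 ht2
  have hTT1 : T1 ≤ T := (le_max_left _ _).trans hT
  have hTT2 : T2 ≤ T := (le_max_right _ _).trans hT
  have n0 : 0 ≤ AA k T H 0 t := AA_nonneg k T H 0 t
  have n1 : 0 ≤ ∑ h ∈ Finset.range H, ∑ h' ∈ Finset.range (h + 1), AA k T H (h + 1) t * BB k T H h' h t :=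
    Finset.sum_nonneg fun h _ => Finset.sum_nonneg fun h' _ =>
      mul_nonneg (AA_nonneg k T H (h + 1) t) (BB_nonneg k T H h' h t)
  have n2 : 0 ≤ ∑ h' ∈ Finset.range (H + 1),
      Real.exp (4 * k * (Real.log T / Real.log (Real.log T))) * BB k T H h' H t :=
    Finset.sum_nonneg fun h' _ => mul_nonneg (Real.exp_nonneg _) (BB_nonneg k T H h' H t)
  classical
  set bad : ℕ → Prop := fun h => ∃ h' ≤ h, VV k h < ‖dv (MM k T H h' h) t‖ with hbad
  by_cases hS : ((Finset.range (H + 1)).filter bad).Nonempty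
  · set h := ((Finset.range (H + 1)).filter bad).max' hS with hh
    have hmem : h ∈ (Finset.range (H + 1)).filter bad := Finset.max'_mem _ hS
    have hmax : ∀ g ≤ H, bad g → g ≤ h := fun g hg hb =>
      Finset.le_max' _ _ (Finset.mem_filter.2 ⟨Finset.mem_range.2 (Nat.lt_succ_of_le hg), hb⟩)
    obtain ⟨hr, h', hh', hV⟩ := Finset.mem_filter.1 hmem
    have hhH : h ≤ H := Nat.lt_succ_iff.1 (Finset.mem_range.1 hr)
    have hB := DPt_one_le_BB hV
    rcases Nat.lt_or_ge h H with hlt | hge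
    · have h1 := hst T hTT1 H (h + 1) hlt hH t ht1 ht2 (by
        intro g hg
        have hg' := Finset.mem_Icc.1 hg
        by_contra hcon
        have hcon' : VV k g < ‖dv (MM k T H (h + 1) g) t‖ := not_le.1 hcon
        have := hmax g hg'.2 ⟨h + 1, hg'.1, hcon'⟩
        omega)
      have h2 : AA k T H (h + 1) t ≤ AA k T H (h + 1) t * BB k T H h' h t :=
        le_mul_of_one_le_right (AA_nonneg k T H (h + 1) t) hB
      have h3 : AA k T H (h + 1) t * BB k T H h' h t ≤
          ∑ h'' ∈ Finset.range (h + 1), AA k T H (h + 1) t * BB k T H h'' h t :=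
        Finset.single_le_sum (f := fun h'' => AA k T H (h + 1) t * BB k T H h'' h t)
          (fun h'' _ => mul_nonneg (AA_nonneg k T H (h + 1) t) (BB_nonneg k T H h'' h t))
          (Finset.mem_range.2 (Nat.lt_succ_of_le hh'))
      have h4 : ∑ h'' ∈ Finset.range (h + 1), AA k T H (h + 1) t * BB k T H h'' h t ≤
          ∑ g ∈ Finset.range H, ∑ h'' ∈ Finset.range (g + 1), AA k T H (g + 1) t * BB k T H h'' g t :=
        Finset.single_le_sum
          (f := fun g => ∑ h'' ∈ Finset.range (g + 1), AA k T H (g + 1) t * BB k T H h'' g t)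
          (fun g _ => Finset.sum_nonneg fun h'' _ =>
            mul_nonneg (AA_nonneg k T H (g + 1) t) (BB_nonneg k T H h'' g t))
          (Finset.mem_range.2 hlt)
      linarith
    · have hhe : h = H := le_antisymm hhH hge
      rw [hhe] at hB hh'
      have h1 := hcr T t hTT2 ht1 ht2
      have h2 : ‖riemannZeta (1 / 2 + t * I)‖ ^ (2 * k) ≤
          Real.exp (4 * k * (Real.log T / Real.log (Real.log T))) := by
        refine (Real.rpow_le_rpow (norm_nonneg _) h1 (by positivity)).trans (le_of_eq ?_)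
        rw [← Real.exp_mul]
        congr 1
        ring
      have h3 : Real.exp (4 * k * (Real.log T / Real.log (Real.log T))) ≤
          Real.exp (4 * k * (Real.log T / Real.log (Real.log T))) * BB k T H h' H t :=
        le_mul_of_one_le_right (Real.exp_nonneg _) hB
      have h4 : Real.exp (4 * k * (Real.log T / Real.log (Real.log T))) * BB k T H h' H t ≤
          ∑ h'' ∈ Finset.range (H + 1),
            Real.exp (4 * k * (Real.log T / Real.log (Real.log T))) * BB k T H h'' H t :=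
        Finset.single_le_sum
          (f := fun h'' => Real.exp (4 * k * (Real.log T / Real.log (Real.log T))) * BB k T H h'' H t)
          (fun h'' _ => mul_nonneg (Real.exp_nonneg _) (BB_nonneg k T H h'' H t))
          (Finset.mem_range.2 (Nat.lt_succ_of_le hh'))
      linarith
  · have hno : ∀ g ≤ H, ¬ bad g := fun g hg hb =>
      hS ⟨g, Finset.mem_filter.2 ⟨Finset.mem_range.2 (Nat.lt_succ_of_le hg), hb⟩⟩
    have h1 := hst T hTT1 H 0 (Nat.zero_le _) hH t ht1 ht2 (by
      intro g hg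
      have hg' := Finset.mem_Icc.1 hg
      by_contra hcon
      exact hno g hg'.2 ⟨0, Nat.zero_le _, not_le.1 hcon⟩)
    linarith

end Pool.Agent.Lib.MP_54baa8_nt
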