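import Mathlib
import Pool.Agent.Lib.MP_54baa8_nt.DPt
import Pool.Agent.Lib.MP_54baa8_nt.BMain
import Pool.Agent.Lib.MP_54baa8_nt.Cm

/-!
# JOB DI1: the mean of the majorant at stage `h + 1` times the penalty of block `h`

Let `R = RR k h`, `y = √R ≥ 1`, `L = bb (h+1) log T`, `L' = bb h' log T`,
`G = (∏_{g ∈ Icc (h+1) H} EN (NN g) k (MM (h+1) g)) * (MM h' h) ^ R`,
`F = (∏_{g ∈ Icc (h+1) H} EN (NN g) k (MM (h+1) g)) * EN R y (MM h' h)`, `c = R! / y^R`.
`‖dv G t‖^2 = ∏ ‖eN ..‖^2 * ‖dv (MM h' h) t‖^{2R}`; `Nn G`, `G ≤ c F` (`pow_le_EN`, `mul_le_mul_coeff`). `Dom F Q` with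
`Q = k • lg (Mp L 0 (XX (h+1))) + y • lg (Mp L' (XX (h+1)) (XX h))` (`Mp_blocks`; `PP h = XX (h+1)` as `h < H`), `F 1 = 1`, `hQ` with
`S1` = primes `≤ XX (h+1)`, `S2` = primes in `(XX (h+1), XX h]` (`lg_Mp_le`). Length of `G`:
`exp (log T (∑ 2 bb g NN g + 2 bb h R)) ≤ exp ((1/4) log T)` (`len_sum`, `RR_le`). `dom_mean_value`:
`∫ ‖dv G‖^2 ≤ 3 T c^2 exp (k^2 ∑_{S1} 1/p + 30 (max 1 k)^2 + R ∑_{S2} 1/p + 30 R)`, `c^2 ≤ R^{2R} / R^R = R^R`, `∑_{S1} 1/p ≤ log log T + 9`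
(`prime_recip`; `XX (h+1) ≤ T`), `∑_{S2} 1/p ≤ 6` (`prime_recip_block`: `log XX h = 20 log XX (h+1)`, `L0 ≤ bb (h+1) log T`).
Divide by `VV^{2R}` and use `R_power`; the constant factor of `AA (h+1)` is `exp (2k (30/bb h + 5) + 1)` as `bb h = 20 bb (h+1)`; then
`decay`: `60k/bb h + 36 R + (R/2) log bb h ≤ -R`.
-/

open Complex

namespace Pool.Agent.Lib.MP_54baa8_nt

/-- `(R! / √R ^ R) ^ 2 ≤ R ^ R` -/
private theorem di1_fact (R : ℕ) (hR : 1 ≤ R) :
    ((R.factorial : ℝ) / Real.sqrt R ^ R) ^ 2 ≤ (R : ℝ) ^ R := by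
  have hR0 : (0 : ℝ) < R := by exact_mod_cast hR
  have h1 : (Real.sqrt R ^ R) ^ 2 = (R : ℝ) ^ R := by
    rw [← pow_mul, mul_comm, pow_mul, Real.sq_sqrt hR0.le]
  rw [div_pow, h1, div_le_iff₀ (pow_pos hR0 R), ← sq]
  have h2 : (R.factorial : ℝ) ≤ (R : ℝ) ^ R := by
    exact_mod_cast Nat.factorial_le_pow R
  exact pow_le_pow_left₀ (by positivity) h2 2

private theorem di1_sum_apply {ι : Type*} (s : Finset ι) (f : ι → ArithmeticFunction ℝ) (n : ℕ) :
    (∑ i ∈ s, f i) n = ∑ i ∈ s, f i n := by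
  classical
  induction s using Finset.induction_on with
  | empty => simp
  | insert a s ha ih => rw [Finset.sum_insert ha, Finset.sum_insert ha, ArithmeticFunction.add_apply, ih]

private theorem di1_smul (c : ℝ) (f : ArithmeticFunction ℝ) (n : ℕ) : (c • f) n = c * f n := rfl

private theorem di1_Q {k T L : ℝ} (hT : 1 ≤ T) {H h : ℕ} (hh : h ≤ H) (n : ℕ) :
    (∑ g ∈ Finset.Icc h H, k • lg (Mp L (PP k T H g) (XX k T g))) n = k * lg (Mp L 0 (XX k T h)) n := by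
  rw [di1_sum_apply, lg_apply, Mp_blocks hT hh, di1_sum_apply, Finset.mul_sum, Finset.mul_sum]
  refine Finset.sum_congr rfl fun g _ => ?_
  rw [di1_smul, lg_apply]

private theorem di1_len {k T : ℝ} (hk : 0 < k) (hT : 1 ≤ T) (s : Finset ℕ) :
    ∏ g ∈ s, ((XX k T g) ^ 2) ^ NN k g ≤ Real.exp (1 / 8 * Real.log T) := by
  have h1 : ∀ g ∈ s, ((XX k T g) ^ 2) ^ NN k g = Real.exp (Real.log T * (2 * bb k g * NN k g)) := by
    intro g _
    unfold XX
    rw [← pow_mul, ← Real.exp_nat_mul]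
    congr 1
    push_cast
    ring
  rw [Finset.prod_congr rfl h1, ← Real.exp_sum, ← Finset.mul_sum]
  refine Real.exp_le_exp.2 ?_
  have h2 := mul_le_mul_of_nonneg_left (len_sum hk s) (Real.log_nonneg hT)
  linarith

private theorem di1_len2 {k T : ℝ} (hT : 16 ≤ T) (h : ℕ) :
    ((XX k T h) ^ 2) ^ RR k h ≤ Real.exp (1 / 8 * Real.log T) := by
  have hlog : 0 < Real.log T := Real.log_pos (by linarith)
  have hb := bb_pos k h
  have h1 : ((XX k T h) ^ 2) ^ RR k h =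
      Real.exp (2 * (RR k h : ℝ) * (bb k h * Real.log T)) := by
    unfold XX
    rw [← pow_mul, ← Real.exp_nat_mul]
    congr 1
    push_cast
    ring
  rw [h1]
  refine Real.exp_le_exp.2 ?_
  have h2 : (RR k h : ℝ) * bb k h ≤ 1 / 16 := by
    have h3 := RR_le (k := k) h
    rw [le_div_iff₀ (by positivity)] at h3
    linarith
  have h5 : (RR k h : ℝ) * bb k h * Real.log T ≤ 1 / 16 * Real.log T :=
    mul_le_mul_of_nonneg_right h2 hlog.le
  nlinarith

private theorem di1_hQ {k T y : ℝ} (hk : 0 < k) (hy : 0 ≤ y) (hT : 16 ≤ T) {H h h' : ℕ} (hh : h < H)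
    (S1 S2 : Finset ℕ) (hS1 : ∀ p, p ∈ S1 ↔ p.Prime ∧ (p : ℝ) ≤ XX k T (h + 1))
    (hS2 : ∀ p, p ∈ S2 ↔ p.Prime ∧ XX k T (h + 1) < (p : ℝ) ∧ (p : ℝ) ≤ XX k T h)
    {n : ℕ} (hn : n ≠ 0) :
    ((∑ g ∈ Finset.Icc (h + 1) H, k • lg (MM k T H (h + 1) g)) + y • lg (MM k T H h' h)) n ≤
      (if n.minFac ∈ S1 then k else if n.minFac ∈ S2 then y else 0) *
      ArithmeticFunction.vonMangoldt n * Real.exp (-(1 / 2) * Real.log n) := by
  have hlog : 0 < Real.log T := Real.log_pos (by linarith)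
  have hL : 0 < bb k (h + 1) * Real.log T := mul_pos (bb_pos k _) hlog
  have hL' : 0 < bb k h' * Real.log T := mul_pos (bb_pos k _) hlog
  have h1 : (∑ g ∈ Finset.Icc (h + 1) H, k • lg (MM k T H (h + 1) g)) n =
      k * lg (Mp (bb k (h + 1) * Real.log T) 0 (XX k T (h + 1))) n :=
    di1_Q (by linarith) (by omega) n
  have hPP : PP k T H h = XX k T (h + 1) := by
    unfold PP
    rw [if_pos hh]
  have hM : MM k T H h' h = Mp (bb k h' * Real.log T) (XX k T (h + 1)) (XX k T h) := by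
    unfold MM
    rw [hPP]
  rw [ArithmeticFunction.add_apply, h1, di1_smul, hM]
  have h2 := lg_Mp_le (P := 0) (Q := XX k T (h + 1)) hL hn
  have h3 := lg_Mp_le (P := XX k T (h + 1)) (Q := XX k T h) hL' hn
  have hv : 0 ≤ ArithmeticFunction.vonMangoldt n := ArithmeticFunction.vonMangoldt_nonneg
  have he : 0 < Real.exp (-(1 / 2) * Real.log n) := Real.exp_pos _
  by_cases hn1 : n = 1
  · rw [if_neg (fun hc => hc.2.2 hn1), zero_mul] at h2 h3
    have h4 : k * lg (Mp (bb k (h + 1) * Real.log T) 0 (XX k T (h + 1))) n ≤ 0 :=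
      mul_nonpos_of_nonneg_of_nonpos hk.le h2
    have h5 : y * lg (Mp (bb k h' * Real.log T) (XX k T (h + 1)) (XX k T h)) n ≤ 0 :=
      mul_nonpos_of_nonneg_of_nonpos hy h3
    refine (add_nonpos h4 h5).trans (mul_nonneg (mul_nonneg ?_ hv) he.le)
    split_ifs
    · exact hk.le
    · exact hy
    · exact le_rfl
  · have hp := Nat.minFac_prime hn1
    have hp0 : (0 : ℝ) < (n.minFac : ℝ) := by exact_mod_cast hp.pos
    by_cases hc1 : (n.minFac : ℝ) ≤ XX k T (h + 1)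
    · rw [if_pos ⟨hp0, hc1, hn1⟩, one_mul] at h2
      rw [if_neg (fun hc => absurd hc.1 (not_lt.2 hc1)), zero_mul] at h3
      rw [if_pos ((hS1 _).2 ⟨hp, hc1⟩), mul_assoc]
      have h4 := mul_le_mul_of_nonneg_left h2 hk.le
      have h5 : y * lg (Mp (bb k h' * Real.log T) (XX k T (h + 1)) (XX k T h)) n ≤ 0 :=
        mul_nonpos_of_nonneg_of_nonpos hy h3
      linarith
    · have hc1' : XX k T (h + 1) < (n.minFac : ℝ) := not_le.1 hc1
      rw [if_neg (fun hc => absurd hc.2.1 hc1), zero_mul] at h2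
      have h4 : k * lg (Mp (bb k (h + 1) * Real.log T) 0 (XX k T (h + 1))) n ≤ 0 :=
        mul_nonpos_of_nonneg_of_nonpos hk.le h2
      rw [if_neg (fun hc => absurd ((hS1 _).1 hc).2 hc1)]
      by_cases hc2 : (n.minFac : ℝ) ≤ XX k T h
      · rw [if_pos ⟨hc1', hc2, hn1⟩, one_mul] at h3
        rw [if_pos ((hS2 _).2 ⟨hp, hc1', hc2⟩), mul_assoc]
        have h5 := mul_le_mul_of_nonneg_left h3 hy
        linarith
      · rw [if_neg (fun hc => absurd hc.2.1 hc2), zero_mul] at h3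
        have h5 : y * lg (Mp (bb k h' * Real.log T) (XX k T (h + 1)) (XX k T h)) n ≤ 0 :=
          mul_nonpos_of_nonneg_of_nonpos hy h3
        refine (add_nonpos h4 h5).trans (mul_nonneg (mul_nonneg ?_ hv) he.le)
        split_ifs
        · exact hy
        · exact le_rfl

private theorem di1_mulsmul {P A B : ArithmeticFunction ℝ} (hP : Nn P) {c : ℝ}
    (hAB : ∀ n, A n ≤ c * B n) (n : ℕ) : (P * A) n ≤ c * (P * B) n := by
  rw [ArithmeticFunction.mul_apply, ArithmeticFunction.mul_apply, Finset.mul_sum]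
  refine Finset.sum_le_sum fun x _ => ?_
  calc P x.1 * A x.2 ≤ P x.1 * (c * B x.2) := mul_le_mul_of_nonneg_left (hAB _) (hP _)
    _ = c * (P x.1 * B x.2) := by ring

theorem integral_AAB {k : ℝ} (hk : 0 < k) : ∃ L0 : ℝ, 1 ≤ L0 ∧ ∀ T : ℝ, 16 ≤ T → ∀ H h h' : ℕ,
    h < H → h' ≤ h → L0 ≤ bb k H * Real.log T →
    ∫ t in T..(2 * T), AA k T H (h + 1) t * BB k T H h' h t ≤ 3 * T *
      Real.exp (10 * k + 1 + k ^ 2 * (Real.log (Real.log T) + 9) + 30 * (k + 1) ^ 2 -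
        (RR k h : ℝ)) := by
  classical
  obtain ⟨L1, hL1, hblock⟩ := prime_recip_block
  refine ⟨max 1 L1, le_max_left _ _, fun T hT H h h' hh hh' hLT => ?_⟩
  have hT1 : 1 ≤ T := by linarith
  have hT0 : 0 < T := by linarith
  have hlog : 0 < Real.log T := Real.log_pos (by linarith)
  have hbH : bb k H * Real.log T ≤ bb k (h + 1) * Real.log T :=
    mul_le_mul_of_nonneg_right (bb_anti (by omega)) hlog.le
  have hLh : L1 ≤ bb k (h + 1) * Real.log T := (le_max_right 1 L1).trans (hLT.trans hbH)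
  have hR1 : 1 ≤ RR k h := one_le_RR hk h
  have hRpow := R_power hk h
  have hdecay := decay hk h
  have hV := VV_pos k h
  have hX1 : 1 ≤ XX k T h := one_le_XX hT1 h
  have hlen2 := di1_len2 (k := k) hT h
  have hbs := bb_succ k h
  have hb1 := bb_pos k (h + 1)
  obtain ⟨P, hPdef⟩ : ∃ P, P = ∏ g ∈ Finset.Icc (h + 1) H, EN (NN k g) k (MM k T H (h + 1) g) := ⟨_, rfl⟩
  have hlenM : ∀ g, Len (MM k T H (h + 1) g) ((XX k T g) ^ 2) := fun g => Mp_len (one_le_XX hT1 g)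
  have hX2 : ∀ g, 1 ≤ (XX k T g) ^ 2 := fun g => one_le_pow₀ (one_le_XX hT1 g)
  have hlenE : ∀ g, Len (EN (NN k g) k (MM k T H (h + 1) g)) (((XX k T g) ^ 2) ^ NN k g) :=
    fun g => (hlenM g).EN (hX2 g) _ _
  have hlenP : Len P (Real.exp (1 / 8 * Real.log T)) := by
    rw [hPdef]
    exact (Len.prod _ (fun g _ => hlenE g) (fun g _ => by have := hX2 g; positivity)).mono
      (di1_len hk hT1 _)
  have hdvP : ∀ t : ℝ, ∏ g ∈ Finset.Icc (h + 1) H,
      ‖eN (NN k g) (k * dv (MM k T H (h + 1) g) t)‖ ^ 2 = ‖dv P t‖ ^ 2 := by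
    intro t
    rw [hPdef, dv_prod _ (fun g _ => hlenE g) (fun g _ => by have := hX2 g; positivity), norm_prod,
      ← Finset.prod_pow]
    refine Finset.prod_congr rfl fun g _ => ?_
    rw [dv_EN (hlenM g) (by linarith [hX2 g])]
  have hnnM : ∀ g, Nn (MM k T H (h + 1) g) := fun g => Mp_nn _ _ _
  have hnnP : Nn P := by
    rw [hPdef]
    exact Nn.prod _ fun g _ => (hnnM g).EN hk.le _
  obtain ⟨M, hMdef⟩ : ∃ M, M = MM k T H h' h := ⟨_, rfl⟩
  have hMlen : Len M ((XX k T h) ^ 2) := by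
    rw [hMdef]
    exact Mp_len hX1
  have hMnn : Nn M := by
    rw [hMdef]
    exact Mp_nn _ _ _
  have hM1 : M 1 = 0 := by
    rw [hMdef]
    exact Mp_one _ _ _
  have hlenMR : Len (M ^ RR k h) (((XX k T h) ^ 2) ^ RR k h) := Len.pow hMlen (by positivity) _
  have hAB : ∀ t : ℝ, AA k T H (h + 1) t * BB k T H h' h t =
      (Real.exp (2 * k * (3 / 2 / bb k (h + 1) + 5) + 1) * (1 / (VV k h) ^ (2 * RR k h))) *
        ‖dv (P * M ^ (RR k h)) t‖ ^ 2 := by
    intro t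
    have h1 : dv (M ^ (RR k h)) t = dv M t ^ (RR k h) := dv_pow hMlen (by positivity) _ _
    unfold AA BB
    rw [hdvP t, dv_mul hlenP hlenMR, h1, norm_mul, norm_pow, ← hMdef, mul_pow, ← pow_mul,
      mul_comm (RR k h) 2, div_pow]
    ring
  have hS1 : ∀ p : ℕ, p ∈ (Finset.range (⌊XX k T (h + 1)⌋₊ + 1)).filter Nat.Prime ↔
      p.Prime ∧ (p : ℝ) ≤ XX k T (h + 1) := by
    intro p
    rw [Finset.mem_filter, Finset.mem_range, Nat.lt_succ_iff,
      Nat.le_floor_iff (by have := one_le_XX (k := k) hT1 (h + 1); linarith)]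
    exact and_comm
  have hS2 : ∀ p : ℕ, p ∈ (Finset.range (⌊XX k T h⌋₊ + 1)).filter
        (fun p : ℕ => p.Prime ∧ XX k T (h + 1) < (p : ℝ)) ↔
      p.Prime ∧ XX k T (h + 1) < (p : ℝ) ∧ (p : ℝ) ≤ XX k T h := by
    intro p
    rw [Finset.mem_filter, Finset.mem_range, Nat.lt_succ_iff, Nat.le_floor_iff (by linarith)]
    tauto
  generalize (Finset.range (⌊XX k T (h + 1)⌋₊ + 1)).filter Nat.Prime = S1 at hS1
  generalize (Finset.range (⌊XX k T h⌋₊ + 1)).filter
        (fun p : ℕ => p.Prime ∧ XX k T (h + 1) < (p : ℝ)) = S2 at hS2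
  have hdisj : Disjoint S1 S2 := by
    rw [Finset.disjoint_left]
    intro p hp1 hp2
    exact absurd ((hS1 p).1 hp1).2 (not_le.2 ((hS2 p).1 hp2).2.1)
  have hXT : XX k T (h + 1) ≤ T := by
    unfold XX
    have h1 : bb k (h + 1) * Real.log T ≤ 1 * Real.log T :=
      mul_le_mul_of_nonneg_right (bb_le_one hk _) hlog.le
    calc Real.exp (bb k (h + 1) * Real.log T) ≤ Real.exp (1 * Real.log T) := Real.exp_le_exp.2 h1
      _ = T := by rw [one_mul, Real.exp_log hT0]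
  have hrec := prime_recip (x := T) (by
    have h1 := Real.exp_one_lt_d9
    linarith) S1 (fun p hp => ⟨((hS1 p).1 hp).1, ((hS1 p).1 hp).2.trans hXT⟩)
  have hrec2 := hblock (bb k (h + 1) * Real.log T) hLh S2 (by
    intro p hp
    obtain ⟨h1, h2, h3⟩ := (hS2 p).1 hp
    have hp0 : (0 : ℝ) < (p : ℝ) := by exact_mod_cast h1.pos
    refine ⟨h1, ?_, ?_⟩
    · rw [Real.lt_log_iff_exp_lt hp0]
      exact h2
    · rw [Real.log_le_iff_le_exp hp0]
      have h4 : 20 * (bb k (h + 1) * Real.log T) = bb k h * Real.log T := by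
        rw [hbs]
        ring
      rw [h4]
      exact h3)
  have hQ := fun (y : ℝ) (hy : 0 ≤ y) (n : ℕ) (hn : n ≠ 0) =>
    di1_hQ (y := y) hk hy hT (h' := h') hh S1 S2 hS1 hS2 hn
  rw [← hMdef] at hQ
  have hdomP : Dom P (∑ g ∈ Finset.Icc (h + 1) H, k • lg (MM k T H (h + 1) g)) := by
    rw [hPdef]
    exact dom_prod _ fun g _ => dom_EN (hnnM g) hk.le _
  have hP1 : P 1 = 1 := by
    rw [hPdef, prod_apply_one]
    exact Finset.prod_eq_one fun g _ => EN_apply_one (Mp_one _ _ _) _ _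
  generalize RR k h = R at *
  have hR1' : (1 : ℝ) ≤ R := by exact_mod_cast hR1
  have hR0 : (0 : ℝ) < R := by linarith
  have hy1 : 1 ≤ Real.sqrt R := Real.one_le_sqrt.mpr hR1'
  have hy0 : 0 < Real.sqrt R := by linarith
  have hmain := dom_mean_value (F := P * EN R (Real.sqrt R) M)
    (G := P * M ^ R)
    (Q := (∑ g ∈ Finset.Icc (h + 1) H, k • lg (MM k T H (h + 1) g)) + Real.sqrt R • lg M)
    (k := k) (y := Real.sqrt R) (c := (R.factorial : ℝ) / Real.sqrt R ^ R)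
    (X := Real.exp (1 / 8 * Real.log T) * Real.exp (1 / 8 * Real.log T)) (T := T)
    hk.le hy0.le (by positivity) (S1 := S1) (S2 := S2) (fun p hp => ((hS1 p).1 hp).1)
    (fun p hp => ((hS2 p).1 hp).1) hdisj
    (dom_mul hdomP (dom_EN hMnn hy0.le R))
    (by rw [mul_apply_one', hP1, EN_apply_one hM1, one_mul])
    (hQ _ hy0.le)
    (hnnP.mul (hMnn.pow R))
    (di1_mulsmul hnnP (fun n => pow_le_EN hMnn hy0 R n))
    ((hlenP.mul hlenMR (Real.exp_pos _).le (by positivity)).mono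
      (mul_le_mul_of_nonneg_left hlen2 (Real.exp_pos _).le))
    (by
      rw [← Real.exp_add, ← Real.exp_zero]
      exact Real.exp_le_exp.2 (by positivity))
    (by
      rw [← Real.exp_add, ← Real.exp_nat_mul]
      calc Real.exp (((2 : ℕ) : ℝ) * (1 / 8 * Real.log T + 1 / 8 * Real.log T))
          ≤ Real.exp (Real.log T) := Real.exp_le_exp.2 (by push_cast; linarith)
        _ = T := Real.exp_log hT0)
  have hmax : max 1 (Real.sqrt R) = Real.sqrt R := max_eq_right hy1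
  rw [hmax, Real.sq_sqrt hR0.le] at hmain
  have hfact := di1_fact R hR1
  have hVp : 0 < (VV k h) ^ (2 * R) := pow_pos hV _
  have hexp : k ^ 2 * ∑ p ∈ S1, 1 / (p : ℝ) + 30 * (max 1 k) ^ 2 +
      ((R : ℝ) * ∑ p ∈ S2, 1 / (p : ℝ) + 30 * (R : ℝ)) ≤
      k ^ 2 * (Real.log (Real.log T) + 9) + 30 * (k + 1) ^ 2 + 36 * (R : ℝ) := by
    have h1 : k ^ 2 * ∑ p ∈ S1, 1 / (p : ℝ) ≤ k ^ 2 * (Real.log (Real.log T) + 9) :=
      mul_le_mul_of_nonneg_left hrec (by positivity)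
    have h2 : (max 1 k) ^ 2 ≤ (k + 1) ^ 2 :=
      pow_le_pow_left₀ (le_trans zero_le_one (le_max_left _ _)) (max_le (by linarith) (by linarith)) 2
    have h3 : (R : ℝ) * ∑ p ∈ S2, 1 / (p : ℝ) ≤ (R : ℝ) * 6 :=
      mul_le_mul_of_nonneg_left hrec2 hR0.le
    linarith
  have h60 : 3 / 2 / bb k (h + 1) = 30 / bb k h := by
    rw [hbs]
    field_simp
    ring
  calc ∫ t in T..(2 * T), AA k T H (h + 1) t * BB k T H h' h t
      = (Real.exp (2 * k * (3 / 2 / bb k (h + 1) + 5) + 1) * (1 / (VV k h) ^ (2 * R))) *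
          ∫ t in T..(2 * T), ‖dv (P * M ^ R) t‖ ^ 2 := by
        rw [← intervalIntegral.integral_const_mul]
        exact intervalIntegral.integral_congr fun t _ => hAB t
    _ ≤ (Real.exp (2 * k * (3 / 2 / bb k (h + 1) + 5) + 1) * (1 / (VV k h) ^ (2 * R))) *
          (3 * T * (R : ℝ) ^ R *
          Real.exp (k ^ 2 * (Real.log (Real.log T) + 9) + 30 * (k + 1) ^ 2 + 36 * (R : ℝ))) := by
        refine mul_le_mul_of_nonneg_left (hmain.trans ?_)
          (mul_nonneg (Real.exp_pos _).le (by positivity))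
        refine mul_le_mul ?_ (Real.exp_le_exp.mpr hexp) (Real.exp_pos _).le (by positivity)
        exact mul_le_mul_of_nonneg_left hfact (by positivity)
    _ = 3 * T * (((R : ℝ) ^ R / (VV k h) ^ (2 * R)) *
          (Real.exp (2 * k * (3 / 2 / bb k (h + 1) + 5) + 1) *
          Real.exp (k ^ 2 * (Real.log (Real.log T) + 9) + 30 * (k + 1) ^ 2 + 36 * (R : ℝ)))) := by
        ring
    _ ≤ 3 * T * (Real.exp ((R : ℝ) / 2 * Real.log (bb k h)) *
          (Real.exp (2 * k * (3 / 2 / bb k (h + 1) + 5) + 1) *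
          Real.exp (k ^ 2 * (Real.log (Real.log T) + 9) + 30 * (k + 1) ^ 2 + 36 * (R : ℝ)))) := by
        refine mul_le_mul_of_nonneg_left ?_ (by positivity)
        exact mul_le_mul_of_nonneg_right hRpow
          (mul_nonneg (Real.exp_pos _).le (Real.exp_pos _).le)
    _ ≤ _ := by
        refine mul_le_mul_of_nonneg_left ?_ (by positivity)
        rw [← Real.exp_add, ← Real.exp_add]
        refine Real.exp_le_exp.2 ?_
        rw [h60]
        have h5 : 2 * k * (30 / bb k h + 5) = 60 * k / bb k h + 10 * k := by ring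
        rw [h5]
        linarith

end Pool.Agent.Lib.MP_54baa8_nt
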