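import Mathlib
import Pool.Agent.Lib.MP_54baa8_nt.DPt
import Pool.Agent.Lib.MP_54baa8_nt.BMain
import Pool.Agent.Lib.MP_54baa8_nt.Cm

/-!
# JOB DI2: the mean of the penalty of the last block

Let `R = RR k H`, `y = √R ≥ 1`, `G = (MM h' H)^R`, `F = EN R y (MM h' H)`, `c = R!/y^R`; `MM h' H = Mp L' 0 (XX H)`. `dom_mean_value` with
`S1 = ∅`, `k = 0`, `S2` = primes `≤ XX H`; length `exp (log T * 2 bb H R) ≤ exp ((1/8) log T)`:
`∫ ‖dv G‖^2 ≤ 3 T c^2 exp (30 + R (∑_{p ≤ XX H} 1/p) + 30 R)`, `c^2 ≤ R^R`, `prime_recip`: the sum is `≤ log (bb H log T) + 9`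
(`1 ≤ bb H log T`). Divide by `VV^{2R}`, `R_power`.
-/

open Complex

namespace Pool.Agent.Lib.MP_54baa8_nt

/-- `(R! / √R ^ R) ^ 2 ≤ R ^ R` -/
private theorem di2_fact (R : ℕ) (hR : 1 ≤ R) :
    ((R.factorial : ℝ) / Real.sqrt R ^ R) ^ 2 ≤ (R : ℝ) ^ R := by
  have hR0 : (0 : ℝ) < R := by exact_mod_cast hR
  have h1 : (Real.sqrt R ^ R) ^ 2 = (R : ℝ) ^ R := by
    rw [← pow_mul, mul_comm, pow_mul, Real.sq_sqrt hR0.le]
  rw [div_pow, h1, div_le_iff₀ (pow_pos hR0 R), ← sq]
  have h2 : (R.factorial : ℝ) ≤ (R : ℝ) ^ R := by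
    exact_mod_cast Nat.factorial_le_pow R
  exact pow_le_pow_left₀ (by positivity) h2 2

/-- the square of the length is at most `T` -/
private theorem di2_len {k T : ℝ} (hT : 16 ≤ T) (H : ℕ) :
    (((XX k T H) ^ 2) ^ RR k H) ^ 2 ≤ T := by
  have hT0 : 0 < T := by linarith
  have hlog : 0 < Real.log T := Real.log_pos (by linarith)
  have hb := bb_pos k H
  have h1 : (((XX k T H) ^ 2) ^ RR k H) ^ 2 =
      Real.exp (4 * (RR k H : ℝ) * (bb k H * Real.log T)) := by
    unfold XX
    rw [← pow_mul, ← pow_mul, ← Real.exp_nat_mul]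
    congr 1
    push_cast
    ring
  rw [h1]
  have h2 : (RR k H : ℝ) * bb k H ≤ 1 / 16 := by
    have h3 := RR_le (k := k) H
    rw [le_div_iff₀ (by positivity)] at h3
    linarith
  have h4 : 4 * (RR k H : ℝ) * (bb k H * Real.log T) ≤ Real.log T := by
    have h5 : (RR k H : ℝ) * bb k H * Real.log T ≤ 1 / 16 * Real.log T :=
      mul_le_mul_of_nonneg_right h2 hlog.le
    nlinarith
  calc Real.exp (4 * (RR k H : ℝ) * (bb k H * Real.log T)) ≤ Real.exp (Real.log T) :=
        Real.exp_le_exp.mpr h4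
    _ = T := Real.exp_log hT0

theorem integral_BBH {k T : ℝ} (hk : 0 < k) (hT : 16 ≤ T) {H h' : ℕ} (hh' : h' ≤ H)
    (hL : 1 ≤ bb k H * Real.log T) :
    ∫ t in T..(2 * T), BB k T H h' H t ≤ 3 * T *
      Real.exp (30 + (RR k H : ℝ) * (Real.log (bb k H * Real.log T) + 39) +
        (RR k H : ℝ) / 2 * Real.log (bb k H)) := by
  classical
  have hT0 : 0 < T := by linarith
  have hlog : 0 < Real.log T := Real.log_pos (by linarith)
  have hR1 : 1 ≤ RR k H := one_le_RR hk H
  have hRpow := R_power hk H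
  have hlen := di2_len (k := k) hT H
  have hV := VV_pos k H
  have hX1 : 1 ≤ XX k T H := one_le_XX (by linarith) H
  have hXe : Real.exp 1 ≤ XX k T H := by
    unfold XX
    exact Real.exp_le_exp.mpr hL
  have hlX : Real.log (XX k T H) = bb k H * Real.log T := by
    unfold XX
    exact Real.log_exp _
  have hMdef : MM k T H h' H = Mp (bb k h' * Real.log T) 0 (XX k T H) := by
    unfold MM PP
    rw [if_neg (lt_irrefl _)]
  have hL' : 0 < bb k h' * Real.log T := mul_pos (bb_pos _ _) hlog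
  have hBB : ∀ t : ℝ, BB k T H h' H t =
      (1 / (VV k H) ^ (2 * RR k H)) * ‖dv ((MM k T H h' H) ^ (RR k H)) t‖ ^ 2 := by
    intro t
    have h1 : dv ((MM k T H h' H) ^ (RR k H)) t = dv (MM k T H h' H) t ^ (RR k H) := by
      rw [hMdef]
      exact dv_pow (Mp_len hX1) (by positivity) _ _
    unfold BB
    rw [h1, norm_pow, ← pow_mul, mul_comm (RR k H) 2, div_pow]
    ring
  generalize RR k H = R at *
  have hR1' : (1 : ℝ) ≤ R := by exact_mod_cast hR1
  have hR0 : (0 : ℝ) < R := by linarith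
  have hy1 : 1 ≤ Real.sqrt R := Real.one_le_sqrt.mpr hR1'
  have hy0 : 0 < Real.sqrt R := by linarith
  have hMnn : Nn (MM k T H h' H) := by
    rw [hMdef]
    exact Mp_nn _ _ _
  have hMlen : Len (MM k T H h' H) ((XX k T H) ^ 2) := by
    rw [hMdef]
    exact Mp_len hX1
  have hM1 : (MM k T H h' H) 1 = 0 := by
    rw [hMdef]
    exact Mp_one _ _ _
  -- the set of primes
  have hmain := dom_mean_value (F := EN R (Real.sqrt R) (MM k T H h' H))
    (G := (MM k T H h' H) ^ R) (Q := Real.sqrt R • lg (MM k T H h' H)) (k := 0)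
    (y := Real.sqrt R) (c := (R.factorial : ℝ) / Real.sqrt R ^ R)
    (X := ((XX k T H) ^ 2) ^ R) (T := T) le_rfl hy0.le (by positivity)
    (S1 := ∅) (S2 := (Finset.range (⌊XX k T H⌋₊ + 1)).filter Nat.Prime)
    (by simp) (by
      intro p hp
      exact (Finset.mem_filter.mp hp).2) (Finset.disjoint_empty_left _)
    (dom_EN hMnn hy0.le R) (by rw [EN_apply_one hM1]) (by
      intro n hn
      have h1 := lg_Mp_le (P := 0) (Q := XX k T H) hL' hn
      rw [← hMdef] at h1
      have hlam : 0 ≤ ArithmeticFunction.vonMangoldt n := ArithmeticFunction.vonMangoldt_nonneg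
      have hex := Real.exp_pos (-(1 / 2) * Real.log n)
      have h2 : (Real.sqrt R • lg (MM k T H h' H)) n =
          Real.sqrt R * (lg (MM k T H h' H)) n := by
        simp [ArithmeticFunction.smul_map]
      rw [h2, if_neg (Finset.notMem_empty _)]
      by_cases hc : (0 : ℝ) < (n.minFac : ℝ) ∧ (n.minFac : ℝ) ≤ XX k T H ∧ n ≠ 1
      · rw [if_pos hc] at h1
        have h3 : n.minFac ∈ (Finset.range (⌊XX k T H⌋₊ + 1)).filter Nat.Prime := by
          rw [Finset.mem_filter, Finset.mem_range]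
          refine ⟨?_, Nat.minFac_prime hc.2.2⟩
          have := Nat.le_floor hc.2.1
          omega
        rw [if_pos h3]
        calc Real.sqrt R * (lg (MM k T H h' H)) n
            ≤ Real.sqrt R * (1 * (ArithmeticFunction.vonMangoldt n *
                Real.exp (-(1 / 2) * Real.log n))) :=
              mul_le_mul_of_nonneg_left h1 hy0.le
          _ = _ := by ring
      · rw [if_neg hc] at h1
        have h4 : Real.sqrt R * (lg (MM k T H h' H)) n ≤ 0 := by
          have h5 : (lg (MM k T H h' H)) n ≤ 0 := by linarith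
          nlinarith
        refine h4.trans ?_
        have h6 : (0 : ℝ) ≤ (if n.minFac ∈ (Finset.range (⌊XX k T H⌋₊ + 1)).filter Nat.Prime
            then Real.sqrt R else 0) := by
          split_ifs
          · exact hy0.le
          · exact le_rfl
        positivity)
    (Nn.pow hMnn R) (fun n => pow_le_EN hMnn hy0 R n)
    (Len.pow hMlen (by positivity) R) (one_le_pow₀ (one_le_pow₀ hX1)) hlen
  have hsum := prime_recip hXe ((Finset.range (⌊XX k T H⌋₊ + 1)).filter Nat.Prime) (by
    intro p hp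
    rw [Finset.mem_filter, Finset.mem_range] at hp
    refine ⟨hp.2, ?_⟩
    exact (Nat.le_floor_iff (by linarith)).mp (by omega))
  rw [hlX] at hsum
  have hmax : max 1 (Real.sqrt R) = Real.sqrt R := max_eq_right hy1
  have hmax0 : max (1 : ℝ) 0 = 1 := max_eq_left zero_le_one
  rw [hmax, hmax0, Real.sq_sqrt hR0.le] at hmain
  have hfact := di2_fact R hR1
  set Sg := ∑ p ∈ (Finset.range (⌊XX k T H⌋₊ + 1)).filter Nat.Prime, 1 / (p : ℝ) with hSg
  have hVp : 0 < (VV k H) ^ (2 * R) := pow_pos hV _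
  calc ∫ t in T..(2 * T), BB k T H h' H t
      = (1 / (VV k H) ^ (2 * R)) *
          ∫ t in T..(2 * T), ‖dv ((MM k T H h' H) ^ R) t‖ ^ 2 := by
        rw [← intervalIntegral.integral_const_mul]
        exact intervalIntegral.integral_congr fun t _ => hBB t
    _ ≤ (1 / (VV k H) ^ (2 * R)) * (3 * T * (R : ℝ) ^ R *
          Real.exp (30 + (R : ℝ) * (Real.log (bb k H * Real.log T) + 39))) := by
        refine mul_le_mul_of_nonneg_left (hmain.trans ?_) (by positivity)
        refine mul_le_mul ?_ ?_ (Real.exp_pos _).le (by positivity)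
        · exact mul_le_mul_of_nonneg_left hfact (by positivity)
        · refine Real.exp_le_exp.mpr ?_
          have h7 : (R : ℝ) * Sg ≤ (R : ℝ) * (Real.log (bb k H * Real.log T) + 9) :=
            mul_le_mul_of_nonneg_left hsum hR0.le
          have h8 : (0 : ℝ) ^ 2 * ∑ p ∈ (∅ : Finset ℕ), 1 / (p : ℝ) = 0 := by simp
          rw [h8]
          nlinarith
    _ = 3 * T * (((R : ℝ) ^ R / (VV k H) ^ (2 * R)) *
          Real.exp (30 + (R : ℝ) * (Real.log (bb k H * Real.log T) + 39))) := by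
        field_simp
    _ ≤ 3 * T * (Real.exp ((R : ℝ) / 2 * Real.log (bb k H)) *
          Real.exp (30 + (R : ℝ) * (Real.log (bb k H * Real.log T) + 39))) := by
        refine mul_le_mul_of_nonneg_left ?_ (by positivity)
        exact mul_le_mul_of_nonneg_right hRpow (Real.exp_pos _).le
    _ = _ := by
        rw [← Real.exp_add]
        congr 2
        ring

end Pool.Agent.Lib.MP_54baa8_nt
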