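import Mathlib
import Pool.Agent.Lib.MP_54baa8_nt.DI0
import Pool.Agent.Lib.MP_54baa8_nt.DI1
import Pool.Agent.Lib.MP_54baa8_nt.DI2
import Pool.Agent.Lib.MP_54baa8_nt.DEnd

/-!
# JOB DMain: the dyadic bound

Integrate `pointwise` over `[T, 2T]` (all functions are continuous in `t`: `dv_continuous`, polynomials; `ζ` is continuous off `1`;
`intervalIntegral.integral_mono_on`), with `H` from `exists_H` (`bb k H log T ≥ ℓ^2 / (20480 (k+1)) ≥ L0` for `T` large):
`integral_AA0`, `integral_AAB`, `integral_BBH`. The sum over `h < H`, `h' ≤ h` is at most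
`3 T exp (10k+1+k^2(ℓ+9)+30(k+1)^2) ∑ (h+1) e^{-RR h} ≤ 3 T exp (10k+1+k^2(ℓ+9)+30(k+1)^2)` (`exp_RR_sum`), the last sum is `≤ T` (`end_small`).
With `exp (k^2 ℓ) = (log T)^(k^2)` and `3/2/bb k 0 = (3/2) e^{8000(k+1)}` the total is at most
`T (log T)^{k^2} (6 exp (3 k e^{8000(k+1)} + 10 k + 31 + 9 k^2 + 30 (k+1)^2) + 1) ≤ exp (exp (9000 (k+1))) T (log T)^{k^2}`.
-/

open Complex

namespace Pool.Agent.Lib.MP_54baa8_nt

private theorem dmain_MM_cont {k T : ℝ} (hT : 1 ≤ T) (H h g : ℕ) :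
    Continuous (dv (MM k T H h g)) := by
  unfold MM
  exact dv_continuous (Mp_len (one_le_XX hT g))

private theorem dmain_eN_cont (N : ℕ) : Continuous (eN N) := by
  unfold eN
  fun_prop

private theorem dmain_AA_cont {k T : ℝ} (hT : 1 ≤ T) (H h : ℕ) : Continuous (AA k T H h) := by
  unfold AA
  refine continuous_const.mul (continuous_finsetProd _ fun g _ => ?_)
  have h1 : Continuous fun t : ℝ => eN (NN k g) (k * dv (MM k T H h g) t) :=
    (dmain_eN_cont _).comp (continuous_const.mul (dmain_MM_cont hT H h g))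
  exact h1.norm.pow 2

private theorem dmain_BB_cont {k T : ℝ} (hT : 1 ≤ T) (H h' h : ℕ) : Continuous (BB k T H h' h) := by
  unfold BB
  exact ((dmain_MM_cont hT H h' h).norm.div_const _).pow _

private theorem dmain_zeta_cont {k : ℝ} (hk : 0 < k) :
    Continuous fun t : ℝ => ‖riemannZeta (1 / 2 + t * I)‖ ^ (2 * k) := by
  have h1 : Continuous fun t : ℝ => riemannZeta (1 / 2 + t * I) := by
    rw [continuous_iff_continuousAt]
    intro t
    have h2 : (1 / 2 + (t : ℂ) * I) ≠ 1 := by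
      intro h
      have h3 := congrArg Complex.re h
      simp at h3
    have h4 : ContinuousAt (fun s : ℝ => (1 / 2 + (s : ℂ) * I)) t := by fun_prop
    exact ContinuousAt.comp (f := fun s : ℝ => (1 / 2 + (s : ℂ) * I)) (g := riemannZeta)
      (differentiableAt_riemannZeta h2).continuousAt h4
  exact h1.norm.rpow_const fun t => Or.inr (by positivity)

private theorem dmain_num {k : ℝ} (hk : 0 < k) :
    3 * Real.exp (2 * k * (3 / 2 / bb k 0 + 5) + 1 + 9 * k ^ 2 + 30 * (k + 1) ^ 2 + 30) +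
      3 * Real.exp (10 * k + 1 + 9 * k ^ 2 + 30 * (k + 1) ^ 2) + 1 ≤
      Real.exp (Real.exp (9000 * (k + 1))) := by
  have hb : 3 / 2 / bb k 0 = 3 / 2 * Real.exp (8000 * (k + 1)) := by
    unfold bb
    rw [pow_zero, div_one, Real.exp_neg]
    field_simp
  have hb0 : 0 ≤ 3 / 2 / bb k 0 := by
    have := bb_pos k 0
    positivity
  set E : ℝ := 2 * k * (3 / 2 / bb k 0 + 5) + 1 + 9 * k ^ 2 + 30 * (k + 1) ^ 2 + 30 with hE
  have hE0 : 0 ≤ E := by positivity
  have h1 : Real.exp (10 * k + 1 + 9 * k ^ 2 + 30 * (k + 1) ^ 2) ≤ Real.exp E := by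
    rw [Real.exp_le_exp, hE]
    nlinarith [mul_nonneg hk.le hb0]
  have h2 : 1 ≤ Real.exp E := Real.one_le_exp hE0
  have h3 : (7 : ℝ) ≤ Real.exp 2 := by
    have h4 := Real.exp_one_gt_d9
    have h5 : Real.exp 2 = Real.exp 1 * Real.exp 1 := by rw [← Real.exp_add]; norm_num
    rw [h5]
    nlinarith
  have h6 : 3 * Real.exp E + 3 * Real.exp (10 * k + 1 + 9 * k ^ 2 + 30 * (k + 1) ^ 2) + 1 ≤
      Real.exp (2 + E) := by
    rw [Real.exp_add 2 E]
    nlinarith [Real.exp_pos E]
  refine h6.trans ?_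
  rw [Real.exp_le_exp]
  have h7 : Real.exp (9000 * (k + 1)) = Real.exp (8000 * (k + 1)) * Real.exp (1000 * (k + 1)) := by
    rw [← Real.exp_add]
    ring_nf
  rw [h7, hE, hb]
  set m : ℝ := k + 1 with hm
  have hm1 : 1 ≤ m := by rw [hm]; linarith
  have hkm : k = m - 1 := by rw [hm]; ring
  set Y : ℝ := Real.exp (8000 * m) with hY
  have hY1 : 8000 * m + 1 ≤ Y := Real.add_one_le_exp _
  have hZ1 : 1000 * m + 1 ≤ Real.exp (1000 * m) := Real.add_one_le_exp _
  have hY0 : 0 < Y := Real.exp_pos _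
  have h8 : Y * (1000 * m + 1) ≤ Y * Real.exp (1000 * m) := by gcongr
  refine le_trans ?_ h8
  rw [hkm]
  nlinarith [mul_nonneg (sub_nonneg.2 hm1) hY0.le, mul_nonneg (sub_nonneg.2 hm1) (sub_nonneg.2 hY1),
    mul_nonneg (by linarith : (0 : ℝ) ≤ m) (sub_nonneg.2 hY1), mul_nonneg (sub_nonneg.2 hm1) (sub_nonneg.2 hm1)]

theorem dyadic (hRH : RiemannHypothesis) {k : ℝ} (hk : 0 < k) : ∃ T0 : ℝ, 16 ≤ T0 ∧ ∀ T : ℝ, T0 ≤ T →
    ∫ t in T..(2 * T), ‖riemannZeta (1 / 2 + t * I)‖ ^ (2 * k) ≤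
      Real.exp (Real.exp (9000 * (k + 1))) * T * (Real.log T) ^ (k ^ 2) := by
  obtain ⟨L0, Tp, hL0, hTp, hpt⟩ := pointwise hRH hk
  obtain ⟨L1, hL1, hAAB⟩ := integral_AAB hk
  obtain ⟨Te, hTe, hend⟩ := end_small hk
  obtain ⟨TH, hTH, hex⟩ := exists_H hk
  set M : ℝ := max L0 L1 with hM
  have hM1 : 1 ≤ M := hL0.trans (le_max_left _ _)
  refine ⟨max (max Tp Te) (max TH (Real.exp (Real.exp (20480 * (k + 1) * M)))),
    hTp.trans ((le_max_left _ _).trans (le_max_left _ _)), fun T hT => ?_⟩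
  have hT1 : Tp ≤ T := ((le_max_left _ _).trans (le_max_left _ _)).trans hT
  have hT2 : Te ≤ T := ((le_max_right _ _).trans (le_max_left _ _)).trans hT
  have hT3 : TH ≤ T := ((le_max_left _ _).trans (le_max_right _ _)).trans hT
  have hT4 : Real.exp (Real.exp (20480 * (k + 1) * M)) ≤ T :=
    ((le_max_right _ _).trans (le_max_right _ _)).trans hT
  have hT16 : 16 ≤ T := hTp.trans hT1
  have hTone : 1 ≤ T := by linarith
  have hTpos : 0 < T := by linarith
  have hlog : Real.exp (20480 * (k + 1) * M) ≤ Real.log T := by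
    rw [Real.le_log_iff_exp_le hTpos]; exact hT4
  have hlogpos : 0 < Real.log T := (Real.exp_pos _).trans_le hlog
  have hll : 20480 * (k + 1) * M ≤ Real.log (Real.log T) := by
    rw [Real.le_log_iff_exp_le hlogpos]; exact hlog
  obtain ⟨H, hH1, hH2, hH3⟩ := hex T hT3
  have hkM : 1 ≤ 20480 * (k + 1) * M := by nlinarith
  have hbig : M ≤ bb k H * Real.log T := by
    have h1 : Real.log (Real.log T) ^ 2 / (1024 * (k + 1) * Real.log T) < 20 * bb k H := hH3
    rw [div_lt_iff₀ (by positivity)] at h1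
    have h2 : 20480 * (k + 1) * M ≤ Real.log (Real.log T) ^ 2 := by
      calc 20480 * (k + 1) * M ≤ (20480 * (k + 1) * M) * (20480 * (k + 1) * M) := by
            nlinarith
        _ = (20480 * (k + 1) * M) ^ 2 := by ring
        _ ≤ Real.log (Real.log T) ^ 2 := by gcongr
    have h3 : 20480 * (k + 1) * M < 20480 * (k + 1) * (bb k H * Real.log T) := by
      calc 20480 * (k + 1) * M ≤ Real.log (Real.log T) ^ 2 := h2
        _ < 20 * bb k H * (1024 * (k + 1) * Real.log T) := h1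
        _ = 20480 * (k + 1) * (bb k H * Real.log T) := by ring
    exact (lt_of_mul_lt_mul_left h3 (by positivity)).le
  have hb0 : L0 ≤ bb k H * Real.log T := (le_max_left _ _).trans hbig
  have hb1 : L1 ≤ bb k H * Real.log T := (le_max_right _ _).trans hbig
  have hb2 : 1 ≤ bb k H * Real.log T := hM1.trans hbig
  set ℓ : ℝ := Real.log (Real.log T) with hℓ
  -- the integral of the majorant
  have hle : T ≤ 2 * T := by linarith
  have hA0 : IntervalIntegrable (AA k T H 0) MeasureTheory.volume T (2 * T) :=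
    (dmain_AA_cont hTone H 0).intervalIntegrable _ _
  have hAB : ∀ h h' : ℕ, IntervalIntegrable (fun t => AA k T H (h + 1) t * BB k T H h' h t)
      MeasureTheory.volume T (2 * T) := fun h h' =>
    ((dmain_AA_cont hTone H (h + 1)).mul (dmain_BB_cont hTone H h' h)).intervalIntegrable _ _
  have hBH : ∀ h' : ℕ, IntervalIntegrable
      (fun t => Real.exp (4 * k * (Real.log T / ℓ)) * BB k T H h' H t)
      MeasureTheory.volume T (2 * T) := fun h' =>
    (continuous_const.mul (dmain_BB_cont hTone H h' H)).intervalIntegrable _ _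
  have hS1 : IntervalIntegrable (fun t => ∑ h ∈ Finset.range H, ∑ h' ∈ Finset.range (h + 1),
      AA k T H (h + 1) t * BB k T H h' h t) MeasureTheory.volume T (2 * T) := by
    refine Continuous.intervalIntegrable ?_ _ _
    exact continuous_finsetSum _ fun h _ => continuous_finsetSum _ fun h' _ =>
      (dmain_AA_cont hTone H (h + 1)).mul (dmain_BB_cont hTone H h' h)
  have hS2 : IntervalIntegrable (fun t => ∑ h' ∈ Finset.range (H + 1),
      Real.exp (4 * k * (Real.log T / ℓ)) * BB k T H h' H t) MeasureTheory.volume T (2 * T) := by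
    refine Continuous.intervalIntegrable ?_ _ _
    exact continuous_finsetSum _ fun h' _ => continuous_const.mul (dmain_BB_cont hTone H h' H)
  have hI : ∫ t in T..(2 * T), ‖riemannZeta (1 / 2 + t * I)‖ ^ (2 * k) ≤
      (∫ t in T..(2 * T), AA k T H 0 t) +
      (∑ h ∈ Finset.range H, ∑ h' ∈ Finset.range (h + 1),
        ∫ t in T..(2 * T), AA k T H (h + 1) t * BB k T H h' h t) +
      ∑ h' ∈ Finset.range (H + 1),
        Real.exp (4 * k * (Real.log T / ℓ)) * ∫ t in T..(2 * T), BB k T H h' H t := by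
    have h1 : ∫ t in T..(2 * T), ‖riemannZeta (1 / 2 + t * I)‖ ^ (2 * k) ≤
        ∫ t in T..(2 * T), (AA k T H 0 t +
        ∑ h ∈ Finset.range H, ∑ h' ∈ Finset.range (h + 1), AA k T H (h + 1) t * BB k T H h' h t +
        ∑ h' ∈ Finset.range (H + 1),
          Real.exp (4 * k * (Real.log T / ℓ)) * BB k T H h' H t) := by
      refine intervalIntegral.integral_mono_on hle
        ((dmain_zeta_cont hk).intervalIntegrable _ _) ((hA0.add hS1).add hS2) fun t ht => ?_
      exact hpt T hT1 H hb0 t ht.1 ht.2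
    refine h1.trans (le_of_eq ?_)
    rw [intervalIntegral.integral_add (hA0.add hS1) hS2, intervalIntegral.integral_add hA0 hS1,
      intervalIntegral.integral_finsetSum fun h' _ => hBH h',
      intervalIntegral.integral_finsetSum fun h _ => ?_]
    · congr 1
      · congr 1
        refine Finset.sum_congr rfl fun h _ => ?_
        rw [intervalIntegral.integral_finsetSum fun h' _ => hAB h h']
      · refine Finset.sum_congr rfl fun h' _ => ?_
        rw [intervalIntegral.integral_const_mul]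
    · refine Continuous.intervalIntegrable ?_ _ _
      exact continuous_finsetSum _ fun h' _ =>
        (dmain_AA_cont hTone H (h + 1)).mul (dmain_BB_cont hTone H h' h)
  have hP : Real.exp (k ^ 2 * ℓ) = Real.log T ^ (k ^ 2) := by
    rw [Real.rpow_def_of_pos hlogpos, hℓ, mul_comm]
  have hℓ1 : 1 ≤ ℓ := hkM.trans hll
  have hP1 : 1 ≤ Real.log T ^ (k ^ 2) := by
    rw [← hP]
    exact Real.one_le_exp (by positivity)
  set P : ℝ := Real.log T ^ (k ^ 2) with hPdef
  have hJ0 : ∫ t in T..(2 * T), AA k T H 0 t ≤ T * P *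
      (3 * Real.exp (2 * k * (3 / 2 / bb k 0 + 5) + 1 + 9 * k ^ 2 + 30 * (k + 1) ^ 2 + 30)) := by
    refine (integral_AA0 hk hT16 H).trans (le_of_eq ?_)
    have h1 : 2 * k * (3 / 2 / bb k 0 + 5) + 1 + k ^ 2 * (Real.log (Real.log T) + 9) +
        30 * (k + 1) ^ 2 + 30 = k ^ 2 * ℓ +
        (2 * k * (3 / 2 / bb k 0 + 5) + 1 + 9 * k ^ 2 + 30 * (k + 1) ^ 2 + 30) := by
      rw [← hℓ]; ring
    rw [h1, Real.exp_add, hP]
    ring
  have hJ1 : ∑ h ∈ Finset.range H, ∑ h' ∈ Finset.range (h + 1),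
        ∫ t in T..(2 * T), AA k T H (h + 1) t * BB k T H h' h t ≤ T * P *
      (3 * Real.exp (10 * k + 1 + 9 * k ^ 2 + 30 * (k + 1) ^ 2)) := by
    have h1 : ∀ h ∈ Finset.range H, ∑ h' ∈ Finset.range (h + 1),
        ∫ t in T..(2 * T), AA k T H (h + 1) t * BB k T H h' h t ≤
        (T * P * (3 * Real.exp (10 * k + 1 + 9 * k ^ 2 + 30 * (k + 1) ^ 2))) *
          (((h : ℝ) + 1) * Real.exp (-(RR k h : ℝ))) := by
      intro h hh
      rw [Finset.mem_range] at hh
      have h2 : ∀ h' ∈ Finset.range (h + 1),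
          ∫ t in T..(2 * T), AA k T H (h + 1) t * BB k T H h' h t ≤
          (T * P * (3 * Real.exp (10 * k + 1 + 9 * k ^ 2 + 30 * (k + 1) ^ 2))) *
            Real.exp (-(RR k h : ℝ)) := by
        intro h' hh'
        rw [Finset.mem_range] at hh'
        refine (hAAB T hT16 H h h' hh (by omega) hb1).trans (le_of_eq ?_)
        have h3 : 10 * k + 1 + k ^ 2 * (Real.log (Real.log T) + 9) + 30 * (k + 1) ^ 2 -
            (RR k h : ℝ) = k ^ 2 * ℓ + (10 * k + 1 + 9 * k ^ 2 + 30 * (k + 1) ^ 2) +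
            (-(RR k h : ℝ)) := by
          rw [← hℓ]; ring
        rw [h3, Real.exp_add, Real.exp_add, hP]
        ring
      refine (Finset.sum_le_sum h2).trans (le_of_eq ?_)
      rw [Finset.sum_const, Finset.card_range, nsmul_eq_mul]
      push_cast
      ring
    refine (Finset.sum_le_sum h1).trans ?_
    rw [← Finset.mul_sum]
    have h4 := exp_RR_sum hk H
    have h5 : 0 ≤ T * P * (3 * Real.exp (10 * k + 1 + 9 * k ^ 2 + 30 * (k + 1) ^ 2)) := by
      have := Real.exp_pos (10 * k + 1 + 9 * k ^ 2 + 30 * (k + 1) ^ 2)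
      positivity
    calc _ ≤ T * P * (3 * Real.exp (10 * k + 1 + 9 * k ^ 2 + 30 * (k + 1) ^ 2)) * 1 := by gcongr
      _ = _ := mul_one _
  have hJ2 : ∑ h' ∈ Finset.range (H + 1),
        Real.exp (4 * k * (Real.log T / ℓ)) * ∫ t in T..(2 * T), BB k T H h' H t ≤ T := by
    have h1 : ∀ h' ∈ Finset.range (H + 1),
        Real.exp (4 * k * (Real.log T / ℓ)) * ∫ t in T..(2 * T), BB k T H h' H t ≤
        T * (Real.exp (4 * k * (Real.log T / ℓ)) * (3 *
          Real.exp (30 + (RR k H : ℝ) * (Real.log (bb k H * Real.log T) + 39) +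
          (RR k H : ℝ) / 2 * Real.log (bb k H)))) := by
      intro h' hh'
      rw [Finset.mem_range] at hh'
      have h2 := integral_BBH hk hT16 (show h' ≤ H by omega) hb2
      calc Real.exp (4 * k * (Real.log T / ℓ)) * ∫ t in T..(2 * T), BB k T H h' H t ≤
          Real.exp (4 * k * (Real.log T / ℓ)) * (3 * T *
            Real.exp (30 + (RR k H : ℝ) * (Real.log (bb k H * Real.log T) + 39) +
            (RR k H : ℝ) / 2 * Real.log (bb k H))) := by gcongr
        _ = _ := by ring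
    refine (Finset.sum_le_sum h1).trans ?_
    rw [Finset.sum_const, Finset.card_range, nsmul_eq_mul]
    have h3 := hend T hT2 H hH2 hH3
    push_cast
    calc ((H : ℝ) + 1) * (T * (Real.exp (4 * k * (Real.log T / ℓ)) * (3 *
          Real.exp (30 + (RR k H : ℝ) * (Real.log (bb k H * Real.log T) + 39) +
          (RR k H : ℝ) / 2 * Real.log (bb k H))))) =
        T * (((H : ℝ) + 1) * (Real.exp (4 * k * (Real.log T / Real.log (Real.log T))) * (3 *
          Real.exp (30 + (RR k H : ℝ) * (Real.log (bb k H * Real.log T) + 39) +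
          (RR k H : ℝ) / 2 * Real.log (bb k H))))) := by rw [← hℓ]; ring
      _ ≤ T * 1 := by gcongr
      _ = T := mul_one _
  have hN := dmain_num hk
  calc ∫ t in T..(2 * T), ‖riemannZeta (1 / 2 + t * I)‖ ^ (2 * k) ≤ _ := hI
    _ ≤ T * P * (3 * Real.exp (2 * k * (3 / 2 / bb k 0 + 5) + 1 + 9 * k ^ 2 + 30 * (k + 1) ^ 2 + 30)) +
        T * P * (3 * Real.exp (10 * k + 1 + 9 * k ^ 2 + 30 * (k + 1) ^ 2)) + T * P * 1 := by
        have h9 : T ≤ T * P * 1 := by nlinarith
        linarith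
    _ = T * P * (3 * Real.exp (2 * k * (3 / 2 / bb k 0 + 5) + 1 + 9 * k ^ 2 + 30 * (k + 1) ^ 2 + 30) +
        3 * Real.exp (10 * k + 1 + 9 * k ^ 2 + 30 * (k + 1) ^ 2) + 1) := by ring
    _ ≤ T * P * Real.exp (Real.exp (9000 * (k + 1))) := by gcongr
    _ = Real.exp (Real.exp (9000 * (k + 1))) * T * P := by ring

end Pool.Agent.Lib.MP_54baa8_nt
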