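import Mathlib
import Pool.Agent.Lib.MP_54baa8_nt.DMain

/-!
# JOB DFin: from dyadic intervals to `[0, T]`

Let `f t = ‖ζ(1/2+it)‖^{2k}`, continuous and nonnegative, `C = exp (exp (9000(k+1)))`, `g T = ∫_0^T f`, `T0` from `dyadic`. For
`T ≥ 2 T0`: `g T = g (T/2) + ∫_{T/2}^{T} f ≤ g (T/2) + C (T/2) (log T)^{k^2}`. By strong induction (on `n` with `T ≤ 2^n T0`):
`g T ≤ g (2 T0) + C T (log T)^{k^2}` for all `T ≥ T0`. For `T` large `g (2 T0) ≤ C T (log T)^{k^2}`, and
`2 C ≤ exp (exp (10000 (k+1)))`.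
-/

open Complex

namespace Pool.Agent.Lib.MP_54baa8_nt

private theorem dfin_cont {k : ℝ} (hk : 0 < k) :
    Continuous fun t : ℝ => ‖riemannZeta (1 / 2 + t * I)‖ ^ (2 * k) := by
  have h1 : Continuous fun t : ℝ => riemannZeta (1 / 2 + t * I) := by
    rw [continuous_iff_continuousAt]
    intro t
    have h2 : (1 / 2 + t * I : ℂ) ≠ 1 := by
      intro h
      have := congrArg Complex.re h
      simp at this
    have h3 : ContinuousAt riemannZeta (1 / 2 + t * I) := (differentiableAt_riemannZeta h2).continuousAt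
    have h4 : ContinuousAt (fun t : ℝ => (1 / 2 + t * I : ℂ)) t := by fun_prop
    exact ContinuousAt.comp (f := fun t : ℝ => (1 / 2 + t * I : ℂ)) h3 h4
  exact h1.norm.rpow_const fun t => Or.inr (by positivity)

private theorem dfin_two {k : ℝ} (hk : 0 < k) :
    2 * Real.exp (Real.exp (9000 * (k + 1))) ≤ Real.exp (Real.exp (10000 * (k + 1))) := by
  have h1 : (2 : ℝ) ≤ Real.exp 1 := by
    have := Real.add_one_le_exp (1 : ℝ)
    linarith
  have h2 : Real.exp (9000 * (k + 1)) + 1 ≤ Real.exp (10000 * (k + 1)) := by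
    have h3 : Real.exp (10000 * (k + 1)) = Real.exp (9000 * (k + 1)) * Real.exp (1000 * (k + 1)) := by
      rw [← Real.exp_add]
      congr 1
      ring
    have h4 : 2 ≤ Real.exp (1000 * (k + 1)) := by
      have := Real.add_one_le_exp (1000 * (k + 1))
      linarith
    have h5 : 1 ≤ Real.exp (9000 * (k + 1)) := Real.one_le_exp (by linarith)
    rw [h3]
    nlinarith
  calc 2 * Real.exp (Real.exp (9000 * (k + 1))) ≤ Real.exp 1 * Real.exp (Real.exp (9000 * (k + 1))) :=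
        mul_le_mul_of_nonneg_right h1 (Real.exp_pos _).le
    _ = Real.exp (Real.exp (9000 * (k + 1)) + 1) := by rw [← Real.exp_add, add_comm]
    _ ≤ Real.exp (Real.exp (10000 * (k + 1))) := Real.exp_le_exp.2 h2

private theorem dfin_ind {f : ℝ → ℝ} (hf : Continuous f) (hf0 : ∀ t, 0 ≤ f t) {C e T0 : ℝ} (hC : 0 ≤ C)
    (he : 0 ≤ e) (hT0 : 16 ≤ T0)
    (h : ∀ T : ℝ, T0 ≤ T → ∫ t in T..(2 * T), f t ≤ C * T * (Real.log T) ^ e) (n : ℕ) :
    ∀ T : ℝ, T0 ≤ T → T ≤ 2 ^ n * T0 →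
      ∫ t in (0 : ℝ)..T, f t ≤ (∫ t in (0 : ℝ)..(2 * T0), f t) + C * T * (Real.log T) ^ e := by
  have hint : ∀ a b : ℝ, IntervalIntegrable f MeasureTheory.volume a b := fun a b =>
    hf.intervalIntegrable a b
  have hsmall : ∀ T : ℝ, T0 ≤ T → T ≤ 2 * T0 →
      ∫ t in (0 : ℝ)..T, f t ≤ (∫ t in (0 : ℝ)..(2 * T0), f t) + C * T * (Real.log T) ^ e := by
    intro T h1 h2
    have h3 : (∫ t in (0 : ℝ)..T, f t) + ∫ t in T..(2 * T0), f t = ∫ t in (0 : ℝ)..(2 * T0), f t :=
      intervalIntegral.integral_add_adjacent_intervals (hint _ _) (hint _ _)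
    have h4 : 0 ≤ ∫ t in T..(2 * T0), f t := intervalIntegral.integral_nonneg h2 fun t _ => hf0 t
    have h5 : 0 ≤ Real.log T := Real.log_nonneg (by linarith)
    have h6 : 0 ≤ C * T * (Real.log T) ^ e :=
      mul_nonneg (mul_nonneg hC (by linarith)) (Real.rpow_nonneg h5 _)
    linarith
  induction n with
  | zero =>
    intro T h1 h2
    rw [pow_zero, one_mul] at h2
    exact hsmall T h1 (by linarith)
  | succ n ih =>
    intro T h1 h2
    rcases le_total T (2 * T0) with h3 | h3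
    · exact hsmall T h1 h3
    · have h4 : T0 ≤ T / 2 := by linarith
      have h5 : T / 2 ≤ 2 ^ n * T0 := by
        rw [pow_succ] at h2
        linarith
      have h6 := ih (T / 2) h4 h5
      have h7 := h (T / 2) h4
      have h8 : 2 * (T / 2) = T := by ring
      rw [h8] at h7
      have h9 : (∫ t in (0 : ℝ)..(T / 2), f t) + ∫ t in (T / 2)..T, f t = ∫ t in (0 : ℝ)..T, f t :=
        intervalIntegral.integral_add_adjacent_intervals (hint _ _) (hint _ _)
      have h10 : 0 ≤ Real.log (T / 2) := Real.log_nonneg (by linarith)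
      have h11 : Real.log (T / 2) ≤ Real.log T := Real.log_le_log (by linarith) (by linarith)
      have h12 : (Real.log (T / 2)) ^ e ≤ (Real.log T) ^ e := Real.rpow_le_rpow h10 h11 he
      have h13 : C * (T / 2) * (Real.log (T / 2)) ^ e ≤ C * (T / 2) * (Real.log T) ^ e :=
        mul_le_mul_of_nonneg_left h12 (mul_nonneg hC (by linarith))
      have h14 : C * T * (Real.log T) ^ e =
          C * (T / 2) * (Real.log T) ^ e + C * (T / 2) * (Real.log T) ^ e := by ring
      linarith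

theorem final (hRH : RiemannHypothesis) {k : ℝ} (hk : 0 < k) : ∃ T0 : ℝ, ∀ T : ℝ, T0 ≤ T →
    ∫ t in (0 : ℝ)..T, ‖riemannZeta (1 / 2 + t * I)‖ ^ (2 * k) ≤
      Real.exp (Real.exp (10000 * (k + 1))) * T * (Real.log T) ^ (k ^ 2) := by
  obtain ⟨T0, hT0, h⟩ := dyadic hRH hk
  set C := Real.exp (Real.exp (9000 * (k + 1))) with hC
  have hC1 : 1 ≤ C := Real.one_le_exp (Real.exp_pos _).le
  have hf := dfin_cont hk
  have hf0 : ∀ t : ℝ, 0 ≤ ‖riemannZeta (1 / 2 + t * I)‖ ^ (2 * k) := fun t =>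
    Real.rpow_nonneg (norm_nonneg _) _
  set A := ∫ t in (0 : ℝ)..(2 * T0), ‖riemannZeta (1 / 2 + t * I)‖ ^ (2 * k) with hA
  refine ⟨max T0 A, fun T hT => ?_⟩
  have h1 : T0 ≤ T := (le_max_left _ _).trans hT
  have h2 : A ≤ T := (le_max_right _ _).trans hT
  obtain ⟨n, hn⟩ := pow_unbounded_of_one_lt (T / T0) (one_lt_two : (1 : ℝ) < 2)
  have hn' : T ≤ 2 ^ n * T0 := ((div_lt_iff₀ (by linarith)).1 hn).le
  have h3 := dfin_ind hf hf0 (zero_le_one.trans hC1) (sq_nonneg k) hT0 h n T h1 hn'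
  rw [← hA] at h3
  have hlog : 1 ≤ Real.log T := by
    rw [Real.le_log_iff_exp_le (by linarith)]
    have := Real.exp_one_lt_d9
    linarith
  have hpow : 1 ≤ (Real.log T) ^ (k ^ 2) := Real.one_le_rpow hlog (sq_nonneg k)
  have hTpos : 0 < T := by linarith
  have h4 : T ≤ C * T * (Real.log T) ^ (k ^ 2) := by
    have h5 : T ≤ C * T := le_mul_of_one_le_left hTpos.le hC1
    have h6 : C * T ≤ C * T * (Real.log T) ^ (k ^ 2) :=
      le_mul_of_one_le_right (mul_nonneg (zero_le_one.trans hC1) hTpos.le) hpow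
    exact h5.trans h6
  have h5 : 2 * C * T * (Real.log T) ^ (k ^ 2) ≤
      Real.exp (Real.exp (10000 * (k + 1))) * T * (Real.log T) ^ (k ^ 2) :=
    mul_le_mul_of_nonneg_right (mul_le_mul_of_nonneg_right (dfin_two hk) hTpos.le)
      (zero_le_one.trans hpow)
  have h6 : 2 * C * T * (Real.log T) ^ (k ^ 2) =
      C * T * (Real.log T) ^ (k ^ 2) + C * T * (Real.log T) ^ (k ^ 2) := by ring
  linarith

end Pool.Agent.Lib.MP_54baa8_nt
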